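import Pool.Agent.LibOH30.Defs

set_option autoImplicit false

namespace Pool.Agent.LibOH30

open MeasureTheory Set Filter Topology Complex ProbabilityTheory
open scoped NNReal ENNReal ComplexConjugate
open Pool.Agent.LibZM Pool.Agent.LibM3 Pool.Agent.LibLaw15

/-! ROW A0 (SHORT). Basics on the arrays. Each entry `(m, n)` of an array in `arr q N` is a pair of positive integers
coprime to `q` with `m n ≤ N i`; products. -/

private theorem a0_entry {q M : ℕ} {y : ℕ × ℕ} (hy : y ∈ prs q M) :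
    1 ≤ y.1 ∧ 1 ≤ y.2 ∧ Nat.Coprime y.1 q ∧ Nat.Coprime y.2 q ∧ y.1 * y.2 ≤ M := by
  unfold prs at hy
  rw [Finset.mem_filter, Finset.mem_product, Finset.mem_Icc, Finset.mem_Icc] at hy
  exact ⟨hy.1.1.1, hy.1.2.1, hy.2.2.1, hy.2.2.2, hy.2.1⟩

theorem arr_props {ι : Type*} [Fintype ι] [DecidableEq ι] {q : ℕ} {N : ι → ℕ} {x : ι → ℕ × ℕ} (hx : x ∈ arr q N) :
    1 ≤ An x ∧ 1 ≤ Bn x ∧ Nat.Coprime (An x) q ∧ Nat.Coprime (Bn x) q ∧ An x * Bn x ≤ ∏ i, N i := by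
  have h : ∀ i, x i ∈ prs q (N i) := fun i => Fintype.mem_piFinset.1 hx i
  refine ⟨?_, ?_, ?_, ?_, ?_⟩
  · exact Nat.one_le_iff_ne_zero.2 (Finset.prod_ne_zero_iff.2 fun i _ => Nat.one_le_iff_ne_zero.1 (a0_entry (h i)).1)
  · exact Nat.one_le_iff_ne_zero.2 (Finset.prod_ne_zero_iff.2 fun i _ => Nat.one_le_iff_ne_zero.1 (a0_entry (h i)).2.1)
  · exact Nat.Coprime.prod_left fun i _ => (a0_entry (h i)).2.2.1
  · exact Nat.Coprime.prod_left fun i _ => (a0_entry (h i)).2.2.2.1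
  · unfold An Bn
    rw [← Finset.prod_mul_distrib]
    exact Finset.prod_le_prod' fun i _ => (a0_entry (h i)).2.2.2.2

theorem co_nonneg {ι : Type*} [Fintype ι] {α : ι → ℝ} (hα : ∀ i, 0 ≤ α i) (x : ι → ℕ × ℕ) : 0 ≤ co α x := by
  exact Finset.prod_nonneg fun i _ => mul_nonneg (tau_nonneg (hα i) _) (tau_nonneg (hα i) _)

theorem DS_nonneg {ι : Type*} [Fintype ι] [DecidableEq ι] {α : ι → ℝ} (hα : ∀ i, 0 ≤ α i) (q : ℕ) (N : ι → ℕ) :
    0 ≤ DS α q N := by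
  refine Finset.sum_nonneg fun x _ => ?_
  split_ifs
  · exact div_nonneg (co_nonneg hα x) (Nat.cast_nonneg _)
  · exact le_rfl

theorem TS_nonneg {ι : Type*} [Fintype ι] [DecidableEq ι] {α : ι → ℝ} (hα : ∀ i, 0 ≤ α i) (q : ℕ) (N : ι → ℕ) (T : ℝ) :
    0 ≤ TS α q N T := by
  refine Finset.sum_nonneg fun x _ => ?_
  refine mul_nonneg (mul_nonneg (co_nonneg hα x) (by positivity)) (le_max_left _ _)

end Pool.Agent.LibOH30
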