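import Pool.Agent.LibOH30.Defs

set_option autoImplicit false

namespace Pool.Agent.LibOH30

open MeasureTheory Set Filter Topology Complex ProbabilityTheory
open scoped NNReal ENNReal ComplexConjugate
open Pool.Agent.LibZM Pool.Agent.LibM3 Pool.Agent.LibLaw15

/-! ROW A1 (SHORT). The two sided polynomial is real: `conj (m^{-crit t} n^{-(1-crit t)}) = n^{-crit t} m^{-(1-crit t)}`
(`conj (crit t) = 1 - crit t`, lemma `LibLaw15.q3_conj_crit`) and the set `prs q N` is symmetric. Continuity: for `n ≥ 1`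
`LibM3.q4_continuous_cpow`, `q4_continuous_cpow'`. -/

private theorem a1_conj_cpow (n : ℕ) (s : ℂ) :
    conj ((n:ℂ) ^ s) = (n:ℂ) ^ (conj s) := by
  rw [Complex.cpow_conj _ _ (by rw [Complex.natCast_arg]; exact Real.pi_pos.ne), Complex.conj_natCast]

private theorem a1_mem {q M : ℕ} {y : ℕ × ℕ} (hy : y ∈ prs q M) : 1 ≤ y.1 ∧ 1 ≤ y.2 := by
  unfold prs at hy
  rw [Finset.mem_filter, Finset.mem_product, Finset.mem_Icc, Finset.mem_Icc] at hy
  exact ⟨hy.1.1.1, hy.1.2.1⟩

private theorem a1_swap {q M : ℕ} {y : ℕ × ℕ} (hy : y ∈ prs q M) : y.swap ∈ prs q M := by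
  unfold prs at hy ⊢
  rw [Finset.mem_filter, Finset.mem_product, Finset.mem_Icc, Finset.mem_Icc] at hy ⊢
  refine ⟨⟨hy.1.2, hy.1.1⟩, ?_, hy.2.2.2, hy.2.2.1⟩
  rw [Prod.fst_swap, Prod.snd_swap, mul_comm]
  exact hy.2.1

private theorem a1_conj (a : ℝ) (q N : ℕ) (t : ℝ) : conj (TP a q N t) = TP a q N t := by
  have h1 : conj (TP a q N t) = ∑ x ∈ prs q N, ((tau a x.swap.1 * tau a x.swap.2 : ℝ) : ℂ) *
      ((x.swap.1:ℂ) ^ (-crit t) * (x.swap.2:ℂ) ^ (-(1 - crit t))) := by
    unfold TP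
    rw [map_sum]
    refine Finset.sum_congr rfl fun x _ => ?_
    rw [map_mul, map_mul, conj_ofReal, a1_conj_cpow, a1_conj_cpow, map_neg, map_neg, map_sub, map_one,
      q3_conj_crit, Prod.fst_swap, Prod.snd_swap, mul_comm (tau a x.2)]
    rw [show (1:ℂ) - (1 - crit t) = crit t by ring]
    rw [mul_comm ((x.2:ℂ) ^ (-crit t))]
  rw [h1]
  unfold TP
  exact Finset.sum_nbij' Prod.swap Prod.swap (fun x hx => a1_swap hx) (fun x hx => a1_swap hx)
    (fun x _ => Prod.swap_swap x) (fun x _ => Prod.swap_swap x) (fun x _ => rfl)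

private theorem a1_TP_cont (a : ℝ) (q N : ℕ) : Continuous (TP a q N) := by
  unfold TP
  refine continuous_finsetSum _ fun x hx => ?_
  have hm := a1_mem hx
  exact continuous_const.mul ((q4_continuous_cpow hm.1).mul (q4_continuous_cpow' hm.2))

theorem TP_real (a : ℝ) (q N : ℕ) (t : ℝ) : TP a q N t = ((TR a q N t : ℝ) : ℂ) := by
  exact (Complex.conj_eq_iff_re.1 (a1_conj a q N t)).symm

theorem TR_cont (a : ℝ) (q N : ℕ) : Continuous (TR a q N) := by
  exact Complex.continuous_re.comp (a1_TP_cont a q N)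

theorem XR_cont {ι : Type*} [Fintype ι] (α : ι → ℝ) (q : ℕ) (N : ι → ℕ) : Continuous (XR α q N) := by
  unfold XR
  exact continuous_finsetProd _ fun i _ => TR_cont (α i) q (N i)

end Pool.Agent.LibOH30
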