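import Pool.Agent.LibOH30.A1

set_option autoImplicit false

namespace Pool.Agent.LibOH30

open MeasureTheory Set Filter Topology Complex ProbabilityTheory
open scoped NNReal ENNReal ComplexConjugate
open Pool.Agent.LibZM Pool.Agent.LibM3 Pool.Agent.LibLaw15

/-! ROW A2 (SHORT/MEDIUM). Expansion of the product (`Finset.prod_univ_sum`, `TP_real`, and
`(∏ m_i : ℂ)^s = ∏ m_i^s` for positive integers). -/

private theorem a2_prod_cpow {ι : Type*} (S : Finset ι) (f : ι → ℕ) (s : ℂ) :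
    (((∏ i ∈ S, f i : ℕ) : ℂ)) ^ s = ∏ i ∈ S, (f i : ℂ) ^ s := by
  classical
  induction S using Finset.induction_on with
  | empty => simp
  | insert i S hi ih =>
    rw [Finset.prod_insert hi, Finset.prod_insert hi, Nat.cast_mul, Complex.natCast_mul_natCast_cpow, ih]

theorem XR_expand {ι : Type*} [Fintype ι] [DecidableEq ι] (α : ι → ℝ) (q : ℕ) (N : ι → ℕ) (t : ℝ) :
    ((XR α q N t : ℝ) : ℂ) = ∑ x ∈ arr q N, ((co α x : ℝ) : ℂ) *
      ((An x : ℂ) ^ (-crit t) * (Bn x : ℂ) ^ (-(1 - crit t))) := by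
  unfold XR
  rw [Complex.ofReal_prod]
  simp_rw [← TP_real]
  unfold TP arr
  rw [Finset.prod_univ_sum]
  refine Finset.sum_congr rfl fun x _ => ?_
  rw [Finset.prod_mul_distrib, Finset.prod_mul_distrib]
  unfold co An Bn
  rw [a2_prod_cpow, a2_prod_cpow, Complex.ofReal_prod]

end Pool.Agent.LibOH30
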