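import Mathlib

set_option autoImplicit false

namespace Pool.Agent.LibOH30

open MeasureTheory Set Filter Topology Complex ProbabilityTheory
open scoped NNReal ENNReal ComplexConjugate

/-! ROW A3 (MEDIUM, ONLY MATHLIB). Product of arithmetic functions as a sum over factorisations. -/

private theorem af_prod_aux {ι : Type*} [Fintype ι] [DecidableEq ι] (f : ι → ArithmeticFunction ℝ)
    (s : Finset ι) : ∀ {n : ℕ}, n ≠ 0 →
    (∏ i ∈ s, f i) n = ∑ m ∈ (Fintype.piFinset fun i : ι => if i ∈ s then n.divisors else {1}).filter
      (fun m => ∏ i ∈ s, m i = n), ∏ i ∈ s, f i (m i) := by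
  induction s using Finset.induction_on with
  | empty =>
    intro n hn
    simp only [Finset.prod_empty, Finset.notMem_empty, if_false]
    rw [ArithmeticFunction.one_apply]
    split_ifs with h
    · subst h
      have : (Finset.filter (fun m : ι → ℕ => (1 : ℕ) = 1)
          (Fintype.piFinset fun _ : ι => ({1} : Finset ℕ))) = {fun _ => 1} := by
        ext m
        simp only [Finset.mem_filter, Fintype.mem_piFinset, Finset.mem_singleton, and_true]
        constructor
        · intro h; funext i; exact h i
        · intro h; subst h; intro i; rfl
      rw [this, Finset.sum_singleton]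
    · have : (Finset.filter (fun m : ι → ℕ => (1 : ℕ) = n)
          (Fintype.piFinset fun _ : ι => ({1} : Finset ℕ))) = ∅ := by
        apply Finset.filter_false_of_mem
        intro m _ h'
        exact h h'.symm
      rw [this, Finset.sum_empty]
  | insert a s ha ih =>
    intro n hn
    rw [Finset.prod_insert ha, ArithmeticFunction.mul_apply]
    have h1 : ∀ x ∈ n.divisorsAntidiagonal, f a x.1 * (∏ i ∈ s, f i) x.2 =
        ∑ m ∈ (Fintype.piFinset fun i : ι => if i ∈ s then x.2.divisors else {1}).filter
          (fun m => ∏ i ∈ s, m i = x.2), f a x.1 * ∏ i ∈ s, f i (m i) := by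
      intro x hx
      have hx2 : x.2 ≠ 0 := by
        have := Nat.mem_divisorsAntidiagonal.1 hx
        intro h0
        rw [h0, mul_zero] at this
        exact this.2 this.1.symm
      rw [ih hx2, Finset.mul_sum]
    rw [Finset.sum_congr rfl h1, Finset.sum_sigma']
    refine Finset.sum_bij' (fun x _ => Function.update x.2 a x.1.1)
      (fun m _ => ⟨(m a, ∏ i ∈ s, m i), Function.update m a 1⟩) ?_ ?_ ?_ ?_ ?_
    · rintro ⟨⟨d, e⟩, m⟩ hx
      simp only [Finset.mem_sigma, Nat.mem_divisorsAntidiagonal, Finset.mem_filter,
        Fintype.mem_piFinset] at hx
      obtain ⟨⟨hde, hn0⟩, hm, hp⟩ := hx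
      simp only [Finset.mem_filter, Fintype.mem_piFinset]
      refine ⟨fun i => ?_, ?_⟩
      · by_cases hia : i = a
        · subst hia
          rw [Function.update_self, if_pos (Finset.mem_insert_self _ _), Nat.mem_divisors]
          exact ⟨⟨e, hde.symm⟩, hn⟩
        · rw [Function.update_of_ne hia]
          have := hm i
          by_cases his : i ∈ s
          · rw [if_pos his] at this
            rw [if_pos (Finset.mem_insert_of_mem his), Nat.mem_divisors]
            refine ⟨(Nat.mem_divisors.1 this).1.trans ⟨d, ?_⟩, hn⟩
            rw [mul_comm]; exact hde.symm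
          · rw [if_neg his] at this
            rw [if_neg (by
              rw [Finset.mem_insert]
              rintro (h | h)
              · exact hia h
              · exact his h)]
            exact this
      · rw [Finset.prod_insert ha, Function.update_self]
        have : ∏ i ∈ s, Function.update m a d i = ∏ i ∈ s, m i := by
          refine Finset.prod_congr rfl fun i hi => ?_
          rw [Function.update_of_ne]
          rintro rfl
          exact ha hi
        rw [this, hp, hde]
    · intro m hm
      simp only [Finset.mem_filter, Fintype.mem_piFinset] at hm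
      obtain ⟨hm, hp⟩ := hm
      rw [Finset.prod_insert ha] at hp
      simp only [Finset.mem_sigma, Nat.mem_divisorsAntidiagonal, Finset.mem_filter,
        Fintype.mem_piFinset]
      have hpe : ∏ i ∈ s, m i ≠ 0 := by
        intro h0
        rw [h0, mul_zero] at hp
        exact hn hp.symm
      have hpr : ∏ i ∈ s, Function.update m a 1 i = ∏ i ∈ s, m i := by
        refine Finset.prod_congr rfl fun i hi => ?_
        rw [Function.update_of_ne]
        rintro rfl
        exact ha hi
      refine ⟨⟨hp, hn⟩, fun i => ?_, hpr⟩
      by_cases hia : i = a
      · subst hia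
        rw [Function.update_self, if_neg ha, Finset.mem_singleton]
      · rw [Function.update_of_ne hia]
        have := hm i
        by_cases his : i ∈ s
        · rw [if_pos his, Nat.mem_divisors]
          exact ⟨Finset.dvd_prod_of_mem _ his, hpe⟩
        · rw [if_neg his]
          rw [if_neg (by
              rw [Finset.mem_insert]
              rintro (h | h)
              · exact hia h
              · exact his h)] at this
          exact this
    · rintro ⟨⟨d, e⟩, m⟩ hx
      simp only [Finset.mem_sigma, Nat.mem_divisorsAntidiagonal, Finset.mem_filter,
        Fintype.mem_piFinset] at hx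
      obtain ⟨⟨hde, hn0⟩, hm, hp⟩ := hx
      have hpr : ∏ i ∈ s, Function.update m a d i = ∏ i ∈ s, m i := by
        refine Finset.prod_congr rfl fun i hi => ?_
        rw [Function.update_of_ne]
        rintro rfl
        exact ha hi
      have hma : m a = 1 := by
        have := hm a
        rw [if_neg ha, Finset.mem_singleton] at this
        exact this
      simp only [Function.update_self, Function.update_idem]
      have e1 : ∏ i ∈ s, Function.update m a d i = e := hpr.trans hp
      have e2 : Function.update m a 1 = m := by
        rw [← hma, Function.update_eq_self]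
      rw [e1, e2]
    · intro m hm
      simp only [Function.update_idem, Function.update_eq_self]
    · rintro ⟨⟨d, e⟩, m⟩ hx
      simp only
      rw [Finset.prod_insert ha, Function.update_self]
      congr 1
      refine Finset.prod_congr rfl fun i hi => ?_
      rw [Function.update_of_ne]
      rintro rfl
      exact ha hi

theorem af_prod {ι : Type*} [Fintype ι] [DecidableEq ι] (f : ι → ArithmeticFunction ℝ) {n : ℕ} (hn : n ≠ 0) :
    (∏ i, f i) n = ∑ m ∈ (Fintype.piFinset fun _ : ι => n.divisors).filter (fun m => ∏ i, m i = n), ∏ i, f i (m i) := by
  have h := af_prod_aux f Finset.univ hn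
  simpa only [Finset.mem_univ, if_true] using h

end Pool.Agent.LibOH30
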