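import Pool.Agent.LibOH30.A0
import Pool.Agent.LibOH30.A3

set_option autoImplicit false

namespace Pool.Agent.LibOH30

open MeasureTheory Set Filter Topology Complex ProbabilityTheory
open scoped NNReal ENNReal ComplexConjugate
open Pool.Agent.LibZM Pool.Agent.LibM3 Pool.Agent.LibLaw15

/-! ROW A4 (MEDIUM). The number of arrays with given products: the sum over the pairs of tuples `(m, n)` with
`∏ m = h`, `∏ n = k` factorises; `af_prod` and `LibZM.prod_tau` (`∏ tau (α i) = tau (∑ α i)`). -/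

theorem group_le {ι : Type*} [Fintype ι] [DecidableEq ι] {α : ι → ℝ} (hα : ∀ i, 0 ≤ α i) (q : ℕ) (N : ι → ℕ) {h k : ℕ}
    (hh : 1 ≤ h) (hk : 1 ≤ k) :
    ∑ x ∈ (arr q N).filter (fun x => An x = h ∧ Bn x = k), co α x ≤ tau (∑ i, α i) h * tau (∑ i, α i) k := by
  classical
  have e1 : tau (∑ i, α i) h = ∑ m ∈ (Fintype.piFinset fun _ : ι => h.divisors).filter (fun m => ∏ i, m i = h),
      ∏ i, tau (α i) (m i) := by
    rw [← prod_tau, af_prod _ (by omega)]
  have e2 : tau (∑ i, α i) k = ∑ m ∈ (Fintype.piFinset fun _ : ι => k.divisors).filter (fun m => ∏ i, m i = k),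
      ∏ i, tau (α i) (m i) := by
    rw [← prod_tau, af_prod _ (by omega)]
  rw [e1, e2, Finset.sum_mul_sum, ← Finset.sum_product']
  have inj : Set.InjOn (fun x : ι → ℕ × ℕ => ((fun i => (x i).1, fun i => (x i).2) : (ι → ℕ) × (ι → ℕ)))
      ((arr q N).filter (fun x => An x = h ∧ Bn x = k) : Set (ι → ℕ × ℕ)) := by
    intro x _ y _ hxy
    have h1 := congrArg Prod.fst hxy
    have h2 := congrArg Prod.snd hxy
    funext i
    exact Prod.ext (congrFun h1 i) (congrFun h2 i)
  have e3 : ∑ x ∈ (arr q N).filter (fun x => An x = h ∧ Bn x = k), co α x =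
      ∑ y ∈ ((arr q N).filter (fun x => An x = h ∧ Bn x = k)).image
        (fun x : ι → ℕ × ℕ => ((fun i => (x i).1, fun i => (x i).2) : (ι → ℕ) × (ι → ℕ))),
        (∏ i, tau (α i) (y.1 i)) * ∏ i, tau (α i) (y.2 i) := by
    rw [Finset.sum_image inj]
    refine Finset.sum_congr rfl fun x _ => ?_
    unfold co
    rw [Finset.prod_mul_distrib]
  rw [e3]
  refine Finset.sum_le_sum_of_subset_of_nonneg ?_ ?_
  · intro y hy
    rw [Finset.mem_image] at hy
    obtain ⟨x, hx, rfl⟩ := hy
    rw [Finset.mem_filter] at hx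
    obtain ⟨-, hA, hB⟩ := hx
    rw [Finset.mem_product, Finset.mem_filter, Finset.mem_filter, Fintype.mem_piFinset, Fintype.mem_piFinset]
    refine ⟨⟨fun i => ?_, hA⟩, ⟨fun i => ?_, hB⟩⟩
    · rw [Nat.mem_divisors]
      refine ⟨?_, by omega⟩
      rw [← hA]
      exact Finset.dvd_prod_of_mem (fun i => (x i).1) (Finset.mem_univ i)
    · rw [Nat.mem_divisors]
      refine ⟨?_, by omega⟩
      rw [← hB]
      exact Finset.dvd_prod_of_mem (fun i => (x i).2) (Finset.mem_univ i)
  · intro y _ _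
    exact mul_nonneg (Finset.prod_nonneg fun i _ => tau_nonneg (hα i) _)
      (Finset.prod_nonneg fun i _ => tau_nonneg (hα i) _)

end Pool.Agent.LibOH30
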