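import Pool.Agent.LibOH30.Defs

set_option autoImplicit false

namespace Pool.Agent.LibOH30

open MeasureTheory Set Filter Topology Complex ProbabilityTheory
open scoped NNReal ENNReal ComplexConjugate
open Pool.Agent.LibZM Pool.Agent.LibM3 Pool.Agent.LibLaw15

/-! ROW B1 (MEDIUM, copy of `LibM3.Q4.qform_mean` / `LibLaw15.QM.qform_mean'`). The twisted second moment for a form supported on
`h k ≤ T^(1-ε)`, `N = ⌊T⌋`. Changes: (i) `‖QForm N K t‖ ≤ K0 Σ_{hk ≤ T^{1-ε}} (hk)^{-1/2} ≤ K0 · 2 T^{(1-ε)/2} (1 + log T)` (from the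
support condition; `tau (1/2) ≤ 1`), so the error of the approximate functional equation (`q4_err`, `T^{-1/2} (log T)^2`) is
`≤ K0`; (ii) off the diagonal: `q4_off_le` and the reindexing `m = a h`, `n = b k` as in `LibM3.q2_reindex`, now with
`T h k ≤ Y^2`, `Y = T^{1-ε/2}` on the support of `K`, then `lattice_off` with `H = Hw T`:
`Y/H (1+log Y)^{5/4} + Y (1+log Y)^2/H^2 → 0`; (iii) the diagonal: `diag_sum` and `sum_gk_le` (`(log T)^{5/4}`), as there. -/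


/-- `∑_{hk ≤ Z} (hk)^{-1/2} ≤ 2 √Z (1 + log N)`. -/
private theorem b1_half {Z : ℝ} (hZ : 0 ≤ Z) (N : ℕ) :
    ∑ h ∈ Finset.Icc 1 N, ∑ k ∈ Finset.Icc 1 N,
      (if (h:ℝ) * k ≤ Z then (h:ℝ) ^ (-(1/2) : ℝ) * (k:ℝ) ^ (-(1/2) : ℝ) else 0) ≤
      2 * √Z * (1 + Real.log N) := by
  have h1 : ∀ h ∈ Finset.Icc 1 N, ∑ k ∈ Finset.Icc 1 N,
      (if (h:ℝ) * k ≤ Z then (h:ℝ) ^ (-(1/2) : ℝ) * (k:ℝ) ^ (-(1/2) : ℝ) else 0) ≤
      2 * √Z * (h:ℝ)⁻¹ := by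
    intro h hh
    have hh1 := (Finset.mem_Icc.1 hh).1
    have hh0 : (0:ℝ) < h := by exact_mod_cast hh1
    rw [← Finset.sum_filter, ← Finset.mul_sum]
    have e1 : ∑ k ∈ (Finset.Icc 1 N).filter (fun k : ℕ => (h:ℝ) * k ≤ Z), (k:ℝ) ^ (-(1/2) : ℝ) ≤
        ∑ k ∈ Finset.Icc 1 ⌊Z / h⌋₊, (k:ℝ) ^ (-(1/2) : ℝ) := by
      refine Finset.sum_le_sum_of_subset_of_nonneg ?_ fun i _ _ => by positivity
      intro k hk
      rw [Finset.mem_filter, Finset.mem_Icc] at hk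
      rw [Finset.mem_Icc]
      refine ⟨hk.1.1, Nat.le_floor ?_⟩
      rw [le_div_iff₀ hh0]
      linarith [hk.2]
    have e2 := q4_sum_half ⌊Z / h⌋₊
    have e3 : √((⌊Z / h⌋₊ : ℕ) : ℝ) ≤ √Z / √h := by
      rw [← Real.sqrt_div hZ]
      exact Real.sqrt_le_sqrt (Nat.floor_le (by positivity))
    have e4 : (h:ℝ) ^ (-(1/2) : ℝ) = 1 / √h := by
      rw [Real.rpow_neg hh0.le, ← Real.sqrt_eq_rpow, one_div]
    have e5 : 0 < √(h:ℝ) := Real.sqrt_pos.2 hh0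
    rw [e4]
    calc 1 / √(h:ℝ) * ∑ k ∈ (Finset.Icc 1 N).filter (fun k : ℕ => (h:ℝ) * k ≤ Z), (k:ℝ) ^ (-(1/2) : ℝ)
        ≤ 1 / √(h:ℝ) * (2 * (√Z / √h)) := by
          refine mul_le_mul_of_nonneg_left ?_ (by positivity)
          linarith
      _ = 2 * √Z * (√(h:ℝ) ^ 2)⁻¹ := by field_simp
      _ = 2 * √Z * (h:ℝ)⁻¹ := by rw [Real.sq_sqrt hh0.le]
  refine (Finset.sum_le_sum h1).trans ?_
  rw [← Finset.mul_sum]
  refine mul_le_mul_of_nonneg_left ?_ (by positivity)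
  have h2 := harmonic_le_one_add_log N
  rw [harmonic_eq_sum_Icc] at h2
  push_cast at h2
  exact h2

private theorem b1_norm_QForm_le {N : ℕ} {K : ℕ → ℕ → ℂ} {K0 Z : ℝ} (hK : ∀ h k, ‖K h k‖ ≤ K0)
    (hs : ∀ h k : ℕ, Z < (h:ℝ) * k → K h k = 0) (hZ : 0 ≤ Z) (t : ℝ) :
    ‖QForm N K t‖ ≤ K0 * (2 * √Z * (1 + Real.log N)) := by
  have hK0 : 0 ≤ K0 := (norm_nonneg _).trans (hK 0 0)
  have h1 : ‖QForm N K t‖ ≤ ∑ h ∈ Finset.Icc 1 N, ∑ k ∈ Finset.Icc 1 N,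
      K0 * (if (h:ℝ) * k ≤ Z then (h:ℝ) ^ (-(1/2) : ℝ) * (k:ℝ) ^ (-(1/2) : ℝ) else 0) := by
    unfold QForm
    refine (norm_sum_le _ _).trans (Finset.sum_le_sum fun h hh => ?_)
    refine (norm_sum_le _ _).trans (Finset.sum_le_sum fun k hk => ?_)
    have hh1 := (Finset.mem_Icc.1 hh).1
    have hk1 := (Finset.mem_Icc.1 hk).1
    split_ifs with hc
    · rw [norm_mul, norm_mul, norm_mul, norm_natCast_cpow_crit hh1, q4_norm_cpow' hk1,
        Complex.norm_real, Real.norm_eq_abs,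
        abs_of_nonneg (mul_nonneg (q4_tau_nonneg h) (q4_tau_nonneg k))]
      have h2 : tau (1/2) h * tau (1/2) k ≤ 1 := by
        have := mul_le_mul (q4_tau_le_one h) (q4_tau_le_one k) (q4_tau_nonneg k) zero_le_one
        simpa using this
      have h3 : 0 ≤ (h:ℝ) ^ (-(1/2) : ℝ) * (k:ℝ) ^ (-(1/2) : ℝ) := by positivity
      refine mul_le_mul_of_nonneg_right ?_ h3
      calc ‖K h k‖ * (tau (1/2) h * tau (1/2) k) ≤ K0 * 1 :=
            mul_le_mul (hK h k) h2 (mul_nonneg (q4_tau_nonneg h) (q4_tau_nonneg k)) hK0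
        _ = K0 := mul_one _
    · rw [hs h k (lt_of_not_ge hc)]
      simp
  refine h1.trans ?_
  simp_rw [← Finset.mul_sum]
  exact mul_le_mul_of_nonneg_left (b1_half hZ N) hK0

/-- Truncated weights. -/
private noncomputable def b1_off (T Z : ℝ) (a b h k : ℕ) : ℝ := if (h:ℝ) * k ≤ Z then offw T a b h k else 0

private theorem b1_off_nonneg (T Z : ℝ) (a b h k : ℕ) : 0 ≤ b1_off T Z a b h k := by
  unfold b1_off
  split_ifs
  · exact q4_offw_nonneg _ _ _ _ _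
  · exact le_rfl

private theorem b1_reindex (T Y H Z : ℝ) (N : ℕ) (hT : 0 < T) (hY : T * Z ≤ Y ^ 2) (hH : Hw T = H)
    (hs : Summable (fun q : ℕ × ℕ => if q.1 = 0 ∨ q.2 = 0 ∨ q.1 = q.2 then 0 else
      tau (3/2) q.1 * tau (3/2) q.2 * ((q.1:ℝ) * q.2) ^ (-(1/2) : ℝ) * min 1 ((Y ^ 2 / ((q.1:ℝ) * q.2)) ^ 4) *
        min 1 (H⁻¹ ^ 2 * (1 + ((Real.log ((q.1:ℝ) / q.2)) ^ 2)⁻¹)))) :
    Summable (fun q : ℕ × ℕ => ∑ h ∈ Finset.Icc 1 N, ∑ k ∈ Finset.Icc 1 N, b1_off T Z q.1 q.2 h k) ∧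
    ∑' q : ℕ × ℕ, ∑ h ∈ Finset.Icc 1 N, ∑ k ∈ Finset.Icc 1 N, b1_off T Z q.1 q.2 h k ≤
    ∑' q : ℕ × ℕ, (if q.1 = 0 ∨ q.2 = 0 ∨ q.1 = q.2 then 0 else
      tau (3/2) q.1 * tau (3/2) q.2 * ((q.1:ℝ) * q.2) ^ (-(1/2) : ℝ) * min 1 ((Y ^ 2 / ((q.1:ℝ) * q.2)) ^ 4) *
        min 1 (H⁻¹ ^ 2 * (1 + ((Real.log ((q.1:ℝ) / q.2)) ^ 2)⁻¹))) := by
  subst hH
  set G : ℕ × ℕ → ℝ := fun q => if q.1 = 0 ∨ q.2 = 0 ∨ q.1 = q.2 then 0 else
      tau (3/2) q.1 * tau (3/2) q.2 * ((q.1:ℝ) * q.2) ^ (-(1/2) : ℝ) * min 1 ((Y ^ 2 / ((q.1:ℝ) * q.2)) ^ 4) *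
        min 1 ((Hw T)⁻¹ ^ 2 * (1 + ((Real.log ((q.1:ℝ) / q.2)) ^ 2)⁻¹)) with hG
  set F : ℕ → ℕ → ℕ × ℕ → ℝ := fun h k q =>
    (if h ∣ q.1 then tau (1/2) h else 0) * (if k ∣ q.2 then tau (1/2) k else 0) * q2_g Y (Hw T) q with hF
  have t12 : ∀ n, 0 ≤ tau (1/2) n := tau_nonneg (by norm_num)
  have hFnn : ∀ h k q, 0 ≤ F h k q := by
    intro h k q
    have h1 : (0:ℝ) ≤ (if h ∣ q.1 then tau (1/2) h else 0) := by split_ifs; exacts [t12 _, le_rfl]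
    have h2 : (0:ℝ) ≤ (if k ∣ q.2 then tau (1/2) k else 0) := by split_ifs; exacts [t12 _, le_rfl]
    exact mul_nonneg (mul_nonneg h1 h2) (q2_g_nonneg _ _ _)
  have hsumF : ∀ q, ∑ h ∈ Finset.Icc 1 N, ∑ k ∈ Finset.Icc 1 N, F h k q ≤ G q := by
    intro q
    have e1 : ∑ h ∈ Finset.Icc 1 N, ∑ k ∈ Finset.Icc 1 N, F h k q =
        (∑ h ∈ Finset.Icc 1 N, (if h ∣ q.1 then tau (1/2) h else 0)) *
        (∑ k ∈ Finset.Icc 1 N, (if k ∣ q.2 then tau (1/2) k else 0)) * q2_g Y (Hw T) q := by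
      rw [Finset.sum_mul_sum, Finset.sum_mul]
      refine Finset.sum_congr rfl fun h _ => ?_
      rw [Finset.sum_mul]
    rw [e1, hG]
    simp only [q2_g]
    split_ifs with hc
    · simp
    · push Not at hc
      have h1 := q2_tau_div (N := N) hc.1
      have h2 := q2_tau_div (N := N) hc.2.1
      have h0 : 0 ≤ ∑ k ∈ Finset.Icc 1 N, (if k ∣ q.2 then tau (1/2) k else 0) :=
        Finset.sum_nonneg fun k _ => by split_ifs; exacts [t12 _, le_rfl]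
      have h3 := mul_le_mul h1 h2 h0 (tau_nonneg (by norm_num) _)
      have h4 := q2_g_nonneg Y (Hw T) q
      rw [q2_g, if_neg (by push Not; exact hc)] at h4
      calc _ ≤ (tau (3/2) q.1 * tau (3/2) q.2) * _ := mul_le_mul_of_nonneg_right h3 h4
        _ = _ := by ring
  have hFsum : ∀ h ∈ Finset.Icc 1 N, ∀ k ∈ Finset.Icc 1 N, Summable (F h k) := by
    intro h hh k hk
    refine Summable.of_nonneg_of_le (hFnn h k) (fun q => ?_) hs
    refine le_trans ?_ (hsumF q)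
    refine le_trans ?_ (Finset.single_le_sum (f := fun h => ∑ k ∈ Finset.Icc 1 N, F h k q) (fun i _ => Finset.sum_nonneg fun j _ => hFnn i j q) hh)
    exact Finset.single_le_sum (f := fun k => F h k q) (fun i _ => hFnn h i q) hk
  have hoff_nn : ∀ a b h k, 0 ≤ b1_off T Z a b h k := b1_off_nonneg T Z
  have hle : ∀ h ∈ Finset.Icc 1 N, ∀ k ∈ Finset.Icc 1 N, ∀ q : ℕ × ℕ,
      b1_off T Z q.1 q.2 h k ≤ F h k (q.1 * h, q.2 * k) := by
    intro h hh k hk q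
    rw [Finset.mem_Icc] at hh hk
    by_cases hZ : ¬ ((h:ℝ) * k ≤ Z)
    · unfold b1_off
      rw [if_neg hZ]
      exact hFnn _ _ _
    rw [not_not] at hZ
    unfold b1_off
    rw [if_pos hZ]
    simp only [hF, dvd_mul_left, if_true, q2_g, offw]
    have hh0 : h ≠ 0 := by omega
    have hk0 : k ≠ 0 := by omega
    by_cases hc : q.1 = 0 ∨ q.2 = 0 ∨ q.1 * h = q.2 * k
    · rw [if_pos hc]
      have hc' : q.1 * h = 0 ∨ q.2 * k = 0 ∨ q.1 * h = q.2 * k := by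
        rcases hc with h1 | h1 | h1
        · left; simp [h1]
        · right; left; simp [h1]
        · right; right; exact h1
      rw [if_pos hc']; simp
    · have hc' : ¬ (q.1 * h = 0 ∨ q.2 * k = 0 ∨ q.1 * h = q.2 * k) := by
        push Not at hc ⊢
        exact ⟨Nat.mul_ne_zero hc.1 hh0, Nat.mul_ne_zero hc.2.1 hk0, hc.2.2⟩
      rw [if_neg hc, if_neg hc']
      push Not at hc
      push_cast
      have e1 : ((q.1:ℝ) * h * ((q.2:ℝ) * k)) = ((q.1:ℝ) * q.2 * h * k) := by ring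
      rw [e1]
      have hq1 : (0:ℝ) < q.1 := by exact_mod_cast Nat.pos_of_ne_zero hc.1
      have hq2 : (0:ℝ) < q.2 := by exact_mod_cast Nat.pos_of_ne_zero hc.2.1
      have hhp : (0:ℝ) < h := by exact_mod_cast Nat.pos_of_ne_zero hh0
      have hkp : (0:ℝ) < k := by exact_mod_cast Nat.pos_of_ne_zero hk0
      have hmin : min 1 ((T / ((q.1:ℝ) * q.2)) ^ 4) ≤ min 1 ((Y ^ 2 / ((q.1:ℝ) * q.2 * h * k)) ^ 4) := by
        refine min_le_min le_rfl ?_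
        refine pow_le_pow_left₀ (by positivity) ?_ 4
        rw [div_le_div_iff₀ (by positivity) (by positivity)]
        have h5 : T * (h * k) ≤ Y ^ 2 := le_trans (mul_le_mul_of_nonneg_left hZ hT.le) hY
        calc T * ((q.1:ℝ) * q.2 * h * k) = (T * (h * k)) * ((q.1:ℝ) * q.2) := by ring
          _ ≤ Y ^ 2 * ((q.1:ℝ) * q.2) := mul_le_mul_of_nonneg_right h5 (by positivity)
      have h1 : (0:ℝ) ≤ ((q.1:ℝ) * q.2 * h * k) ^ (-(1/2) : ℝ) := Real.rpow_nonneg (by positivity) _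
      have h3 : (0:ℝ) ≤ min 1 ((Hw T)⁻¹ ^ 2 * (1 + ((Real.log (((q.1:ℝ) * h) / ((q.2:ℝ) * k))) ^ 2)⁻¹)) :=
        le_min zero_le_one (by positivity)
      have h4 := t12 h
      have h5 := t12 k
      calc tau (1/2) h * tau (1/2) k * ((q.1:ℝ) * q.2 * h * k) ^ (-(1/2) : ℝ) * min 1 ((T / ((q.1:ℝ) * q.2)) ^ 4) *
          min 1 ((Hw T)⁻¹ ^ 2 * (1 + ((Real.log (((q.1:ℝ) * h) / ((q.2:ℝ) * k))) ^ 2)⁻¹)) 
          ≤ tau (1/2) h * tau (1/2) k * ((q.1:ℝ) * q.2 * h * k) ^ (-(1/2) : ℝ) * min 1 ((Y ^ 2 / ((q.1:ℝ) * q.2 * h * k)) ^ 4) *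
          min 1 ((Hw T)⁻¹ ^ 2 * (1 + ((Real.log (((q.1:ℝ) * h) / ((q.2:ℝ) * k))) ^ 2)⁻¹)) := by
            refine mul_le_mul_of_nonneg_right (mul_le_mul_of_nonneg_left hmin ?_) h3
            positivity
        _ = _ := by ring
  have hinj : ∀ h ∈ Finset.Icc 1 N, ∀ k ∈ Finset.Icc 1 N, Function.Injective (fun q : ℕ × ℕ => (q.1 * h, q.2 * k)) := by
    intro h hh k hk q r hqr
    rw [Finset.mem_Icc] at hh hk
    simp only [Prod.mk.injEq] at hqr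
    exact Prod.ext (Nat.eq_of_mul_eq_mul_right (by omega) hqr.1) (Nat.eq_of_mul_eq_mul_right (by omega) hqr.2)
  have hcomp : ∀ h ∈ Finset.Icc 1 N, ∀ k ∈ Finset.Icc 1 N, Summable (fun q : ℕ × ℕ => F h k (q.1 * h, q.2 * k)) :=
    fun h hh k hk => (hFsum h hh k hk).comp_injective (hinj h hh k hk)
  have hoffs : ∀ h ∈ Finset.Icc 1 N, ∀ k ∈ Finset.Icc 1 N, Summable (fun q : ℕ × ℕ => b1_off T Z q.1 q.2 h k) :=
    fun h hh k hk => Summable.of_nonneg_of_le (fun q => hoff_nn _ _ _ _) (hle h hh k hk) (hcomp h hh k hk)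
  refine ⟨summable_sum fun h hh => summable_sum fun k hk => hoffs h hh k hk, ?_⟩
  have e1 : ∑' q : ℕ × ℕ, ∑ h ∈ Finset.Icc 1 N, ∑ k ∈ Finset.Icc 1 N, b1_off T Z q.1 q.2 h k =
      ∑ h ∈ Finset.Icc 1 N, ∑ k ∈ Finset.Icc 1 N, ∑' q : ℕ × ℕ, b1_off T Z q.1 q.2 h k := by
    rw [Summable.tsum_finsetSum fun h hh => summable_sum fun k hk => hoffs h hh k hk]
    refine Finset.sum_congr rfl fun h hh => ?_
    rw [Summable.tsum_finsetSum fun k hk => hoffs h hh k hk]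
  have e2 : ∑' q : ℕ × ℕ, ∑ h ∈ Finset.Icc 1 N, ∑ k ∈ Finset.Icc 1 N, F h k q =
      ∑ h ∈ Finset.Icc 1 N, ∑ k ∈ Finset.Icc 1 N, ∑' q : ℕ × ℕ, F h k q := by
    rw [Summable.tsum_finsetSum fun h hh => summable_sum fun k hk => hFsum h hh k hk]
    refine Finset.sum_congr rfl fun h hh => ?_
    rw [Summable.tsum_finsetSum fun k hk => hFsum h hh k hk]
  rw [e1]
  calc ∑ h ∈ Finset.Icc 1 N, ∑ k ∈ Finset.Icc 1 N, ∑' q : ℕ × ℕ, b1_off T Z q.1 q.2 h k 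
      ≤ ∑ h ∈ Finset.Icc 1 N, ∑ k ∈ Finset.Icc 1 N, ∑' q : ℕ × ℕ, F h k q := by
        refine Finset.sum_le_sum fun h hh => Finset.sum_le_sum fun k hk => ?_
        refine le_trans ((hoffs h hh k hk).tsum_le_tsum (hle h hh k hk) (hcomp h hh k hk)) ?_
        exact tsum_comp_le_tsum_of_inj (hFsum h hh k hk) (hFnn h k) (hinj h hh k hk)
    _ = ∑' q : ℕ × ℕ, ∑ h ∈ Finset.Icc 1 N, ∑ k ∈ Finset.Icc 1 N, F h k q := e2.symm
    _ ≤ ∑' q, G q := (summable_sum fun h hh => summable_sum fun k hk => hFsum h hh k hk).tsum_le_tsum hsumF hs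


private theorem b1_offdiag {ε : ℝ} (hε0 : 0 < ε) (hε1 : ε < 1) : ∃ C : ℝ, 0 < C ∧ ∀ᶠ T : ℝ in atTop,
    Summable (fun q : ℕ × ℕ => ∑ h ∈ Finset.Icc 1 ⌊T⌋₊, ∑ k ∈ Finset.Icc 1 ⌊T⌋₊, b1_off T (T ^ (1 - ε)) q.1 q.2 h k) ∧
    ∑' q : ℕ × ℕ, ∑ h ∈ Finset.Icc 1 ⌊T⌋₊, ∑ k ∈ Finset.Icc 1 ⌊T⌋₊, b1_off T (T ^ (1 - ε)) q.1 q.2 h k ≤ C := by
  obtain ⟨C, hC, hlat⟩ := lattice_off
  refine ⟨C * (2 ^ (5/4 : ℝ) + 4), by positivity, ?_⟩
  have hlog : Tendsto Real.log atTop atTop := Real.tendsto_log_atTop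
  have h1 : ∀ᶠ T : ℝ in atTop, (Real.log T) ^ (11/4 : ℝ) ≤ T := by
    have := (isLittleO_log_rpow_rpow_atTop (11/4 : ℝ) (s := 1) one_pos).bound one_pos
    filter_upwards [this, eventually_ge_atTop 1] with T hT hT1
    rw [one_mul, Real.rpow_one, Real.norm_of_nonneg (by linarith : (0:ℝ) ≤ T)] at hT
    exact le_trans (le_abs_self _) hT
  have h2 : ∀ᶠ T : ℝ in atTop, (Real.log T) ^ (2 : ℝ) ≤ T ^ (ε/2) := by
    have := (isLittleO_log_rpow_rpow_atTop (2 : ℝ) (s := ε/2) (by positivity)).bound one_pos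
    filter_upwards [this, eventually_ge_atTop 1] with T hT hT1
    rw [one_mul, Real.norm_of_nonneg (by positivity : (0:ℝ) ≤ T ^ (ε/2))] at hT
    exact le_trans (le_abs_self _) hT
  filter_upwards [h1, h2, eventually_ge_atTop 4, hlog.eventually_ge_atTop 1] with T hT1 hT2 hT4 hL
  set L := Real.log T with hLdef
  have hT0 : 0 < T := by linarith
  have hL0 : 0 < L := by linarith
  have hHdef : Hw T = T / L ^ (3/4 : ℝ) := rfl
  have hH0 : 0 < Hw T := by rw [hHdef]; positivity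
  have hHL : L ^ 2 ≤ Hw T := by
    rw [hHdef, le_div_iff₀ (by positivity)]
    calc L ^ 2 * L ^ (3/4:ℝ) = L ^ (11/4 : ℝ) := by
          rw [← Real.rpow_natCast, ← Real.rpow_add hL0]; norm_num
      _ ≤ T := hT1
  have hH1 : 1 ≤ Hw T := le_trans (one_le_pow₀ hL) hHL
  set Y := T ^ (1 - ε/2) with hYdef
  have hY0 : 0 < Y := by positivity
  have hY2 : T * T ^ (1 - ε) ≤ Y ^ 2 := by
    rw [hYdef, ← Real.rpow_natCast, ← Real.rpow_mul hT0.le]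
    nth_rewrite 1 [← Real.rpow_one T]
    rw [← Real.rpow_add hT0]
    refine le_of_eq ?_
    congr 1
    push_cast
    ring
  have hY2' : 2 ≤ Y := by
    have h3 : (4:ℝ) ^ (1/2:ℝ) = 2 := by
      rw [show (4:ℝ) = 2 ^ (2:ℝ) by norm_num, ← Real.rpow_mul (by norm_num)]; norm_num
    have h4 : (4:ℝ) ^ (1/2:ℝ) ≤ T ^ (1/2:ℝ) := Real.rpow_le_rpow (by norm_num) hT4 (by norm_num)
    have h5 : T ^ (1/2:ℝ) ≤ Y := Real.rpow_le_rpow_of_exponent_le (by linarith) (by linarith)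
    linarith
  have hYT : Y * T ^ (ε/2) = T := by
    rw [hYdef, ← Real.rpow_add hT0]
    rw [show 1 - ε/2 + ε/2 = 1 by ring, Real.rpow_one]
  have hlogY : 1 + Real.log Y ≤ 2 * L := by
    have h3 : Y ≤ T := by
      calc Y ≤ T ^ (1:ℝ) := Real.rpow_le_rpow_of_exponent_le (by linarith) (by linarith)
        _ = T := Real.rpow_one T
    have h4 := Real.log_le_log hY0 h3
    linarith
  have hlogY0 : 0 ≤ 1 + Real.log Y := by
    have := Real.log_nonneg (by linarith : (1:ℝ) ≤ Y)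
    linarith
  have hYH : Y / Hw T * L ^ (5/4 : ℝ) ≤ 1 := by
    rw [hHdef, div_div_eq_mul_div, div_mul_eq_mul_div, div_le_one hT0]
    calc Y * L ^ (3/4:ℝ) * L ^ (5/4:ℝ) = Y * L ^ (2:ℝ) := by
          rw [mul_assoc, ← Real.rpow_add hL0]; norm_num
      _ ≤ Y * T ^ (ε/2) := mul_le_mul_of_nonneg_left hT2 hY0.le
      _ = T := hYT
  have hYH1 : Y / Hw T ≤ 1 := by
    have h3 : 1 ≤ L ^ (5/4:ℝ) := Real.one_le_rpow hL (by norm_num)
    have h4 : 0 ≤ Y / Hw T := by positivity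
    nlinarith
  obtain ⟨hs, hle⟩ := hlat Y (Hw T) hH1 hY2'
  obtain ⟨hs', hle'⟩ := b1_reindex T Y (Hw T) (T ^ (1 - ε)) ⌊T⌋₊ hT0 hY2 rfl hs
  refine ⟨hs', hle'.trans (hle.trans ?_)⟩
  have k1 : Y / Hw T * (1 + Real.log Y) ^ (5/4 : ℝ) ≤ 2 ^ (5/4:ℝ) := by
    calc Y / Hw T * (1 + Real.log Y) ^ (5/4 : ℝ) ≤ Y / Hw T * (2 * L) ^ (5/4:ℝ) :=
          mul_le_mul_of_nonneg_left (Real.rpow_le_rpow hlogY0 hlogY (by norm_num)) (by positivity)
      _ = 2 ^ (5/4:ℝ) * (Y / Hw T * L ^ (5/4:ℝ)) := by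
          rw [Real.mul_rpow (by norm_num) hL0.le]; ring
      _ ≤ 2 ^ (5/4:ℝ) * 1 := mul_le_mul_of_nonneg_left hYH (by positivity)
      _ = _ := mul_one _
  have k2 : Y * (1 + Real.log Y) ^ 2 / Hw T ^ 2 ≤ 4 := by
    calc Y * (1 + Real.log Y) ^ 2 / Hw T ^ 2 = (Y / Hw T) * ((1 + Real.log Y) ^ 2 / Hw T) := by
          field_simp
      _ ≤ 1 * 4 := by
          refine mul_le_mul hYH1 ?_ (by positivity) (by positivity)
          rw [div_le_iff₀ hH0]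
          calc (1 + Real.log Y) ^ 2 ≤ (2 * L) ^ 2 := pow_le_pow_left₀ hlogY0 hlogY 2
            _ = 4 * L ^ 2 := by ring
            _ ≤ 4 * Hw T := by linarith
      _ = 4 := by ring
  exact mul_le_mul_of_nonneg_left (add_le_add k1 k2) hC.le

theorem qform2 {η : ℝ} (hη : 0 < η) {ε : ℝ} (hε0 : 0 < ε) (hε1 : ε < 1) : ∃ C : ℝ, 0 < C ∧ ∀ᶠ p : ℝ × ℝ in Fl η,
    ∀ K : ℕ → ℕ → ℂ, ∀ K0 : ℝ, (∀ h k, ‖K h k‖ ≤ K0) → (∀ h k : ℕ, p.1 ^ (1 - ε) < (h:ℝ) * k → K h k = 0) →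
    ‖(∫ t in win p.2, ((‖riemannZeta (crit t)‖ ^ 2 : ℝ) : ℂ) * QForm ⌊p.1⌋₊ K t ∂(gaussianReal p.2 (vw p.1))) -
      ∑ h ∈ Finset.Icc 1 ⌊p.1⌋₊, ∑ k ∈ Finset.Icc 1 ⌊p.1⌋₊, K h k * ((gk h k * ell p.1 h k : ℝ) : ℂ)‖ ≤
      C * K0 * (Real.log p.1) ^ 2 := by
  obtain ⟨C1, t0, hC1, -, hzeta⟩ := zeta_sq_approx
  obtain ⟨C2, hC2, hosc⟩ := osc hη
  obtain ⟨C3, hC3, hoff⟩ := b1_offdiag hε0 hε1
  obtain ⟨C4, hC4, hdiag⟩ := diag_sum hη
  obtain ⟨C5, hC5, hgk⟩ := sum_gk_le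
  set B1 : ℝ := C1 * (Real.exp 1 * (η / 2) ^ (-(1/2) : ℝ)) with hB1
  have hB10 : 0 < B1 := by positivity
  refine ⟨2 * B1 + 2 * (C2 * C3) + C4 * C5 * (2:ℝ) ^ (5/4 : ℝ), by positivity, ?_⟩
  have hT1 : ∀ᶠ p : ℝ × ℝ in Fl η, Real.exp 2 ≤ p.1 :=
    (Fl_fst η).eventually (eventually_ge_atTop _)
  have hT2 : ∀ᶠ p : ℝ × ℝ in Fl η, 2 * t0 / η ≤ p.1 :=
    (Fl_fst η).eventually (eventually_ge_atTop _)
  have hT3 : ∀ᶠ p : ℝ × ℝ in Fl η, 1 + Real.log p.1 ≤ p.1 ^ (ε/2) := by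
    have h0 : ∀ᶠ T : ℝ in atTop, 1 + Real.log T ≤ T ^ (ε/2) := by
      have := (isLittleO_log_rpow_rpow_atTop (1 : ℝ) (s := ε/2) (by positivity)).bound (show (0:ℝ) < 1/2 by norm_num)
      filter_upwards [this, eventually_ge_atTop (Real.exp 1)] with T hT hT1
      have hT0 : 0 < T := (Real.exp_pos 1).trans_le hT1
      have hL : 1 ≤ Real.log T := by
        rw [Real.le_log_iff_exp_le hT0]
        exact hT1
      rw [Real.rpow_one, Real.norm_of_nonneg (by positivity : (0:ℝ) ≤ T ^ (ε/2))] at hT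
      have := le_trans (le_abs_self _) hT
      linarith
    exact (Fl_fst η).eventually h0
  filter_upwards [hT1, hT2, hT3, Fl_range η, hosc, (Fl_fst η).eventually hoff, hdiag] with p hT ht0 hTe hr
    hosc hoff hdiag K K0 hK hKs
  obtain ⟨T, u⟩ := p
  simp only at hT ht0 hTe hr hosc hoff hdiag hKs ⊢
  obtain ⟨hr1, hr2⟩ := hr
  have hK0 : 0 ≤ K0 := (norm_nonneg _).trans (hK 0 0)
  have hT0 : 0 < T := (Real.exp_pos 2).trans_le hT
  have hu : 0 < u := (mul_pos hη hT0).trans_le hr1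
  have hL : 2 ≤ Real.log T := by
    rw [Real.le_log_iff_exp_le hT0]
    exact hT
  have hL0 : 0 < Real.log T := by linarith
  have ht0' : t0 ≤ η * T / 2 := by
    rw [div_le_iff₀ hη] at ht0
    linarith
  have hT1' : 1 ≤ T := (Real.one_le_exp (by norm_num)).trans hT
  set N : ℕ := ⌊T⌋₊ with hN
  have hN1 : 1 ≤ N := Nat.le_floor (by exact_mod_cast hT1')
  have hN3 : Real.log (N:ℝ) ≤ Real.log T :=
    Real.log_le_log (by exact_mod_cast hN1) (Nat.floor_le hT0.le)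
  set Z : ℝ := T ^ (1 - ε) with hZ
  have hZ0 : 0 < Z := by positivity
  set μ := gaussianReal u (vw T) with hμ
  -- the approximate functional equation
  have hi1 : IntegrableOn (fun t => ((‖riemannZeta (crit t)‖ ^ 2 : ℝ) : ℂ) * QForm N K t)
      (win u) μ := by
    refine q4_intOn (Continuous.continuousOn ?_)
    exact (Complex.continuous_ofReal.comp (continuous_zeta_crit.norm.pow 2)).mul
      (q4_continuous_QForm N K)
  have hi2 : IntegrableOn (fun t => (∑' p : ℕ × ℕ, W2 t p) * QForm N K t) (win u) μ :=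
    q4_intOn ((q4_contOn_tsum hu hr2).mul (q4_continuous_QForm N K).continuousOn)
  have hE : ‖(∫ t in win u, ((‖riemannZeta (crit t)‖ ^ 2 : ℝ) : ℂ) * QForm N K t ∂μ) -
      2 * ∫ t in win u, (∑' p : ℕ × ℕ, W2 t p) * QForm N K t ∂μ‖ ≤
      2 * B1 * K0 * (Real.log T) ^ 2 := by
    rw [← integral_const_mul, ← integral_sub hi1 (hi2.const_mul 2)]
    have hlN : 0 ≤ Real.log (N:ℝ) := Real.log_natCast_nonneg N
    have hB : 0 ≤ (B1 * (T ^ (-(1/2) : ℝ) * (Real.log T) ^ 2)) * (K0 * (2 * √Z * (1 + Real.log N))) := by positivity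
    have h3 := q4_norm_int_le (T := T) (u := u)
      (f := fun t => ((‖riemannZeta (crit t)‖ ^ 2 : ℝ) : ℂ) * QForm N K t -
        2 * ((∑' p : ℕ × ℕ, W2 t p) * QForm N K t)) hB (fun t ht => by
        have e : ((‖riemannZeta (crit t)‖ ^ 2 : ℝ) : ℂ) * QForm N K t -
            2 * ((∑' p : ℕ × ℕ, W2 t p) * QForm N K t) =
            (((‖riemannZeta (crit t)‖ ^ 2 : ℝ) : ℂ) - 2 * ∑' p : ℕ × ℕ, W2 t p) *
              QForm N K t := by ring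
        rw [e, norm_mul]
        exact mul_le_mul (q4_err hη hC1 hzeta hT ht0' hr1 hr2 ht) (b1_norm_QForm_le hK hKs hZ0.le t)
          (norm_nonneg _) (by positivity))
    refine h3.trans ?_
    have h4 : T ^ (-(1/2) : ℝ) * (√Z * (1 + Real.log N)) ≤ 1 := by
      have h5 : √Z = T ^ ((1 - ε) * (1/2)) := by
        rw [Real.sqrt_eq_rpow, hZ, ← Real.rpow_mul hT0.le]
      have h6 : 1 + Real.log (N:ℝ) ≤ T ^ (ε/2) := by linarith
      calc T ^ (-(1/2) : ℝ) * (√Z * (1 + Real.log N)) ≤ T ^ (-(1/2) : ℝ) * (√Z * T ^ (ε/2)) := by gcongr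
        _ = 1 := by
          rw [h5, ← Real.rpow_add hT0, ← Real.rpow_add hT0,
            show -(1/2) + ((1 - ε) * (1/2) + ε/2) = 0 by ring, Real.rpow_zero]
    calc (B1 * (T ^ (-(1/2) : ℝ) * (Real.log T) ^ 2)) * (K0 * (2 * √Z * (1 + Real.log N)))
        = 2 * B1 * K0 * (Real.log T) ^ 2 * (T ^ (-(1/2) : ℝ) * (√Z * (1 + Real.log N))) := by ring
      _ ≤ 2 * B1 * K0 * (Real.log T) ^ 2 * 1 :=
          mul_le_mul_of_nonneg_left h4 (by positivity)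
      _ = 2 * B1 * K0 * (Real.log T) ^ 2 := mul_one _
  -- the sum
  have hsum := q4_hasSum hu hr2 N hK
  have hosc' : ∀ x : ℝ, 1 ≤ x → ∀ l : ℝ, l ≠ 0 → ‖q4_J T u x l‖ ≤
      C2 * min 1 ((T / x) ^ 4) * min 1 ((Hw T)⁻¹ ^ 2 * (1 + (l ^ 2)⁻¹)) := hosc
  set fd : ℕ × ℕ → ℂ := fun p => ∑ h ∈ Finset.Icc 1 N, ∑ k ∈ Finset.Icc 1 N,
    if p.1 * h = p.2 * k then q4_co K p.1 p.2 h k *
      q4_J T u ((p.1:ℝ) * p.2) (Real.log (((p.1:ℝ) * h) / ((p.2:ℝ) * k))) else 0 with hfd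
  set fo : ℕ × ℕ → ℂ := fun p => ∑ h ∈ Finset.Icc 1 N, ∑ k ∈ Finset.Icc 1 N,
    if p.1 * h = p.2 * k then 0 else q4_co K p.1 p.2 h k *
      q4_J T u ((p.1:ℝ) * p.2) (Real.log (((p.1:ℝ) * h) / ((p.2:ℝ) * k))) with hfo
  have hsplit : ∀ p : ℕ × ℕ, ∫ t in win u, W2 t p * QForm N K t ∂μ = fd p + fo p := by
    rintro ⟨a, b⟩
    rw [hμ, q4_term hu N K a b, hfd, hfo]
    simp only
    rw [← Finset.sum_add_distrib]
    refine Finset.sum_congr rfl fun h _ => ?_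
    rw [← Finset.sum_add_distrib]
    refine Finset.sum_congr rfl fun k _ => ?_
    split_ifs
    · rw [add_zero]
    · rw [zero_add]
  -- the diagonal
  set S : ℕ → ℕ → ℝ := fun h k => ∑' j : ℕ, (j:ℝ)⁻¹ *
    q4_Jr T u ((j:ℝ) ^ 2 * (((h:ℝ) * k) / (Nat.gcd h k : ℝ) ^ 2)) with hS
  have hx : ∀ h k : ℕ, 1 ≤ h → 1 ≤ k → (1:ℝ) ≤ ((h:ℝ) * k) / (Nat.gcd h k : ℝ) ^ 2 := by
    intro h k hh hk
    have hg0 : 0 < Nat.gcd h k := Nat.gcd_pos_of_pos_left k hh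
    have hgr : (0:ℝ) < (Nat.gcd h k : ℝ) := by exact_mod_cast hg0
    rw [le_div_iff₀ (by positivity), one_mul, sq]
    have e1 : (Nat.gcd h k : ℝ) ≤ h := by exact_mod_cast Nat.gcd_le_left k hh
    have e2 : (Nat.gcd h k : ℝ) ≤ k := by exact_mod_cast Nat.gcd_le_right h hk
    exact mul_le_mul e1 e2 hgr.le (by positivity)
  have hDsum : HasSum fd (∑ h ∈ Finset.Icc 1 N, ∑ k ∈ Finset.Icc 1 N,
      K h k * ((gk h k * S h k : ℝ) : ℂ)) := by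
    refine hasSum_sum fun h hh => hasSum_sum fun k hk => ?_
    have hh1 := (Finset.mem_Icc.1 hh).1
    have hk1 := (Finset.mem_Icc.1 hk).1
    exact q4_diag hh1 hk1 K (hdiag _ (hx h k hh1 hk1)).1.hasSum
  -- the off-diagonal
  have hfo_le : ∀ p : ℕ × ℕ, ‖fo p‖ ≤ K0 * C2 * ∑ h ∈ Finset.Icc 1 N, ∑ k ∈ Finset.Icc 1 N,
      b1_off T Z p.1 p.2 h k := by
    intro p
    rw [Finset.mul_sum]
    refine (norm_sum_le _ _).trans (Finset.sum_le_sum fun h hh => ?_)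
    rw [Finset.mul_sum]
    refine (norm_sum_le _ _).trans (Finset.sum_le_sum fun k hk => ?_)
    by_cases hc : (h:ℝ) * k ≤ Z
    · unfold b1_off
      rw [if_pos hc]
      exact q4_off_le hC2 hosc' hK p.1 p.2 (Finset.mem_Icc.1 hh).1 (Finset.mem_Icc.1 hk).1
    · have hz : K h k = 0 := hKs h k (lt_of_not_ge hc)
      have hz2 : q4_co K p.1 p.2 h k = 0 := by
        unfold q4_co
        rw [hz, zero_mul, zero_mul]
      rw [hz2, zero_mul, ite_self, norm_zero]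
      exact mul_nonneg (mul_nonneg hK0 hC2.le) (b1_off_nonneg _ _ _ _ _ _)
  have hoffs := hoff.1.hasSum.mul_left (K0 * C2)
  have hfos : Summable fo := Summable.of_norm_bounded hoffs.summable hfo_le
  have hfo_norm : ‖∑' p, fo p‖ ≤ K0 * C2 * (C3 * (Real.log T) ^ 2) := by
    refine (tsum_of_norm_bounded hoffs hfo_le).trans
      (mul_le_mul_of_nonneg_left (hoff.2.trans ?_) (by positivity))
    exact le_mul_of_one_le_right hC3.le (one_le_pow₀ (by linarith))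
  have htot : (∫ t in win u, (∑' p : ℕ × ℕ, W2 t p) * QForm N K t ∂μ) =
      (∑ h ∈ Finset.Icc 1 N, ∑ k ∈ Finset.Icc 1 N, K h k * ((gk h k * S h k : ℝ) : ℂ)) +
        ∑' p, fo p := by
    have h1 := hDsum.add hfos.hasSum
    have h2 : (fun p : ℕ × ℕ => ∫ t in win u, W2 t p * QForm N K t ∂μ) =
        fun p => fd p + fo p := funext hsplit
    rw [h2] at hsum
    exact hsum.unique h1
  -- the comparison with `ell`
  have hgk0 : ∀ h k : ℕ, 0 ≤ gk h k := fun h k => by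
    have h1 := q4_tau_nonneg h
    have h2 := q4_tau_nonneg k
    unfold gk
    positivity
  have hD : ‖2 * (∑ h ∈ Finset.Icc 1 N, ∑ k ∈ Finset.Icc 1 N,
      K h k * ((gk h k * S h k : ℝ) : ℂ)) -
      ∑ h ∈ Finset.Icc 1 N, ∑ k ∈ Finset.Icc 1 N, K h k * ((gk h k * ell T h k : ℝ) : ℂ)‖ ≤
      C4 * C5 * (2:ℝ) ^ (5/4 : ℝ) * K0 * (Real.log T) ^ 2 := by
    have e1 : 2 * (∑ h ∈ Finset.Icc 1 N, ∑ k ∈ Finset.Icc 1 N,
        K h k * ((gk h k * S h k : ℝ) : ℂ)) -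
        ∑ h ∈ Finset.Icc 1 N, ∑ k ∈ Finset.Icc 1 N, K h k * ((gk h k * ell T h k : ℝ) : ℂ) =
        ∑ h ∈ Finset.Icc 1 N, ∑ k ∈ Finset.Icc 1 N,
          K h k * ((gk h k * (2 * S h k - ell T h k) : ℝ) : ℂ) := by
      rw [Finset.mul_sum, ← Finset.sum_sub_distrib]
      refine Finset.sum_congr rfl fun h _ => ?_
      rw [Finset.mul_sum, ← Finset.sum_sub_distrib]
      refine Finset.sum_congr rfl fun k _ => ?_
      push_cast
      ring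
    rw [e1]
    have e2 : ∀ h ∈ Finset.Icc 1 N, ∀ k ∈ Finset.Icc 1 N,
        ‖K h k * ((gk h k * (2 * S h k - ell T h k) : ℝ) : ℂ)‖ ≤ K0 * C4 * gk h k := by
      intro h hh k hk
      have hh1 := (Finset.mem_Icc.1 hh).1
      have hk1 := (Finset.mem_Icc.1 hk).1
      have h1 := (hdiag _ (hx h k hh1 hk1)).2
      have h2 : T / (((h:ℝ) * k) / (Nat.gcd h k : ℝ) ^ 2) =
          T * (Nat.gcd h k : ℝ) ^ 2 / ((h:ℝ) * k) := by
        rw [div_div_eq_mul_div]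
      rw [h2] at h1
      have h3 : |2 * S h k - ell T h k| ≤ C4 := h1
      rw [norm_mul, Complex.norm_real, Real.norm_eq_abs, abs_mul, abs_of_nonneg (hgk0 h k)]
      calc ‖K h k‖ * (gk h k * |2 * S h k - ell T h k|) ≤ K0 * (gk h k * C4) :=
            mul_le_mul (hK h k) (mul_le_mul_of_nonneg_left h3 (hgk0 h k))
              (mul_nonneg (hgk0 h k) (abs_nonneg _)) hK0
        _ = K0 * C4 * gk h k := by ring
    have e3 : ‖∑ h ∈ Finset.Icc 1 N, ∑ k ∈ Finset.Icc 1 N,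
        K h k * ((gk h k * (2 * S h k - ell T h k) : ℝ) : ℂ)‖ ≤
        K0 * C4 * ∑ h ∈ Finset.Icc 1 N, ∑ k ∈ Finset.Icc 1 N, gk h k := by
      rw [Finset.mul_sum]
      refine (norm_sum_le _ _).trans (Finset.sum_le_sum fun h hh => ?_)
      rw [Finset.mul_sum]
      exact (norm_sum_le _ _).trans (Finset.sum_le_sum fun k hk => e2 h hh k hk)
    refine e3.trans ?_
    have e4 : (1 + Real.log (N:ℝ)) ^ (5/4 : ℝ) ≤
        (2:ℝ) ^ (5/4 : ℝ) * (Real.log T) ^ 2 := by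
      have h0 : 0 ≤ Real.log (N:ℝ) := Real.log_natCast_nonneg N
      calc (1 + Real.log (N:ℝ)) ^ (5/4 : ℝ) ≤ (2 * Real.log T) ^ (5/4 : ℝ) :=
            Real.rpow_le_rpow (by linarith) (by linarith) (by norm_num)
        _ = (2:ℝ) ^ (5/4 : ℝ) * (Real.log T) ^ (5/4 : ℝ) :=
            Real.mul_rpow (by norm_num) hL0.le
        _ ≤ (2:ℝ) ^ (5/4 : ℝ) * (Real.log T) ^ 2 := by
            refine mul_le_mul_of_nonneg_left ?_ (by positivity)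
            rw [← Real.rpow_natCast]
            exact Real.rpow_le_rpow_of_exponent_le (by linarith) (by norm_num)
    calc K0 * C4 * ∑ h ∈ Finset.Icc 1 N, ∑ k ∈ Finset.Icc 1 N, gk h k
        ≤ K0 * C4 * (C5 * ((2:ℝ) ^ (5/4 : ℝ) * (Real.log T) ^ 2)) := by
          refine mul_le_mul_of_nonneg_left ?_ (by positivity)
          exact (hgk N hN1).trans (mul_le_mul_of_nonneg_left e4 hC5.le)
      _ = _ := by ring
  -- conclusion
  rw [htot] at hE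
  set E := (∫ t in win u, ((‖riemannZeta (crit t)‖ ^ 2 : ℝ) : ℂ) * QForm N K t ∂μ)
  set D := ∑ h ∈ Finset.Icc 1 N, ∑ k ∈ Finset.Icc 1 N, K h k * ((gk h k * S h k : ℝ) : ℂ)
  set F := ∑ h ∈ Finset.Icc 1 N, ∑ k ∈ Finset.Icc 1 N, K h k * ((gk h k * ell T h k : ℝ) : ℂ)
  have e5 : E - F = (E - 2 * (D + ∑' p, fo p)) + 2 * (∑' p, fo p) + (2 * D - F) := by ring
  rw [e5]
  refine (norm_add_le _ _).trans ?_
  have e6 := norm_add_le (E - 2 * (D + ∑' p, fo p)) (2 * (∑' p, fo p))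
  have e7 : ‖2 * (∑' p, fo p)‖ = 2 * ‖∑' p, fo p‖ := by
    rw [norm_mul]
    norm_num
  rw [e7] at e6
  have e8 : (2 * B1 + 2 * (C2 * C3) + C4 * C5 * (2:ℝ) ^ (5/4 : ℝ)) * K0 *
      (Real.log T) ^ 2 = 2 * B1 * K0 * (Real.log T) ^ 2 +
      2 * (K0 * C2 * (C3 * (Real.log T) ^ 2)) +
      C4 * C5 * (2:ℝ) ^ (5/4 : ℝ) * K0 * (Real.log T) ^ 2 := by ring
  rw [e8]
  linarith

end Pool.Agent.LibOH30
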