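import Pool.Agent.LibOH30.A2
import Pool.Agent.LibOH30.A4

set_option autoImplicit false

namespace Pool.Agent.LibOH30

open MeasureTheory Set Filter Topology Complex ProbabilityTheory
open scoped NNReal ENNReal ComplexConjugate
open Pool.Agent.LibZM Pool.Agent.LibM3 Pool.Agent.LibLaw15

/-! ROW B2a (MEDIUM). `XR · (m/n)^{it}` is the `QForm` with the coefficients `KX` (`H = n A(x)`, `K = m B(x)`); bound and support of
`KX`. Use `XR_expand`, `LibLaw15.q3_chr` (`chr m n t = √(mn) n^{-crit t} m^{-(1-crit t)}`), `group_le` with `∑ α = 1/2`,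
`LibLaw15.tau_super`, `LibLaw15.q4_tau_pos`. -/

theorem tw_form {ι : Type*} [Fintype ι] [DecidableEq ι] {α : ι → ℝ} {q m n M : ℕ} {N : ι → ℕ} (hm : 1 ≤ m) (hn : 1 ≤ n)
    (hnM : n * ∏ i, N i ≤ M) (hmM : m * ∏ i, N i ≤ M) (t : ℝ) :
    ((XR α q N t : ℝ) : ℂ) * chr m n t = QForm M (KX α q N m n) t := by
  have hterm : ∀ x ∈ arr q N, ((co α x : ℝ) : ℂ) * ((An x : ℂ) ^ (-crit t) * (Bn x : ℂ) ^ (-(1 - crit t))) *
      chr m n t = (((√((m:ℝ) * n) * co α x : ℝ)) : ℂ) *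
        (((n * An x : ℕ) : ℂ) ^ (-crit t) * ((m * Bn x : ℕ) : ℂ) ^ (-(1 - crit t))) := by
    intro x hx
    rw [q3_chr hm hn t]
    push_cast
    rw [Complex.natCast_mul_natCast_cpow, Complex.natCast_mul_natCast_cpow]
    ring
  rw [XR_expand, Finset.sum_mul, Finset.sum_congr rfl hterm]
  have hR : ∀ H ∈ Finset.Icc 1 M, ∀ K ∈ Finset.Icc 1 M,
      KX α q N m n H K * ((tau (1/2) H * tau (1/2) K : ℝ) : ℂ) * ((H:ℂ) ^ (-crit t) * (K:ℂ) ^ (-(1 - crit t))) =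
      ∑ x ∈ arr q N, if n * An x = H ∧ m * Bn x = K then (((√((m:ℝ) * n) * co α x : ℝ)) : ℂ) *
        (((n * An x : ℕ) : ℂ) ^ (-crit t) * ((m * Bn x : ℕ) : ℂ) ^ (-(1 - crit t))) else 0 := by
    intro H hH K hK
    have p1 := q4_tau_pos (Finset.mem_Icc.1 hH).1
    have p2 := q4_tau_pos (Finset.mem_Icc.1 hK).1
    rw [← Finset.sum_filter]
    have e1 : KX α q N m n H K * ((tau (1/2) H * tau (1/2) K : ℝ) : ℂ) =
        ((∑ x ∈ (arr q N).filter (fun x => n * An x = H ∧ m * Bn x = K), √((m:ℝ) * n) * co α x : ℝ) : ℂ) := by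
      unfold KX
      rw [← Complex.ofReal_mul, div_mul_cancel₀ _ (mul_pos p1 p2).ne']
    rw [e1, Complex.ofReal_sum, Finset.sum_mul]
    refine Finset.sum_congr rfl fun x hx => ?_
    rw [Finset.mem_filter] at hx
    rw [hx.2.1, hx.2.2]
  unfold QForm
  rw [Finset.sum_congr rfl fun H hH => Finset.sum_congr rfl fun K hK => hR H hH K hK]
  rw [Finset.sum_congr rfl fun H _ => Finset.sum_comm, Finset.sum_comm]
  refine Finset.sum_congr rfl fun x hx => ?_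
  obtain ⟨a1, a2, -, -, a3⟩ := arr_props hx
  have b1 : An x ≤ ∏ i, N i := (Nat.le_mul_of_pos_right _ a2).trans a3
  have b2 : Bn x ≤ ∏ i, N i := (Nat.le_mul_of_pos_left _ a1).trans a3
  have c1 : n * An x ∈ Finset.Icc 1 M :=
    Finset.mem_Icc.2 ⟨Nat.mul_pos hn a1, (Nat.mul_le_mul_left n b1).trans hnM⟩
  have c2 : m * Bn x ∈ Finset.Icc 1 M :=
    Finset.mem_Icc.2 ⟨Nat.mul_pos hm a2, (Nat.mul_le_mul_left m b2).trans hmM⟩
  rw [Finset.sum_eq_single_of_mem _ c1 fun H _ hH => ?_, Finset.sum_eq_single_of_mem _ c2 fun K _ hK => ?_,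
    if_pos ⟨rfl, rfl⟩]
  · rw [if_neg]
    rintro ⟨-, h2⟩
    exact hK h2.symm
  · refine Finset.sum_eq_zero fun K _ => ?_
    rw [if_neg]
    rintro ⟨h1, -⟩
    exact hH h1.symm

theorem tw_norm {ι : Type*} [Fintype ι] [DecidableEq ι] {α : ι → ℝ} (hα : ∀ i, 0 ≤ α i) (hs : ∑ i, α i = 1/2) {q m n : ℕ}
    {N : ι → ℕ} (hm : 1 ≤ m) (hn : 1 ≤ n) (H K : ℕ) :
    ‖KX α q N m n H K‖ ≤ √((m:ℝ) * n) / (tau (1/2) n * tau (1/2) m) := by
  have hn0 := q4_tau_pos hn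
  have hm0 := q4_tau_pos hm
  have hR : 0 ≤ √((m:ℝ) * n) / (tau (1/2) n * tau (1/2) m) := by positivity
  by_cases hne : ((arr q N).filter (fun x => n * An x = H ∧ m * Bn x = K)).Nonempty
  swap
  · rw [Finset.not_nonempty_iff_eq_empty] at hne
    unfold KX
    rw [hne, Finset.sum_empty, zero_div, Complex.ofReal_zero, norm_zero]
    exact hR
  obtain ⟨x, hx⟩ := hne
  rw [Finset.mem_filter] at hx
  obtain ⟨hx1, hx2, hx3⟩ := hx
  obtain ⟨a1, a2, -, -, a3⟩ := arr_props hx1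
  obtain ⟨h, hh⟩ : ∃ h, h = An x := ⟨_, rfl⟩
  obtain ⟨k, hk⟩ : ∃ k, k = Bn x := ⟨_, rfl⟩
  rw [← hh] at hx2 a1
  rw [← hk] at hx3 a2
  have hfil : (arr q N).filter (fun x => n * An x = H ∧ m * Bn x = K) =
      (arr q N).filter (fun x => An x = h ∧ Bn x = k) := by
    refine Finset.filter_congr fun y _ => ?_
    rw [← hx2, ← hx3, Nat.mul_right_inj (by omega), Nat.mul_right_inj (by omega)]
  have hG := group_le hα q N a1 a2
  rw [hs] at hG
  have hsum0 : 0 ≤ ∑ x ∈ (arr q N).filter (fun x => An x = h ∧ Bn x = k), co α x :=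
    Finset.sum_nonneg fun y _ => co_nonneg hα y
  have t1 := q4_tau_pos a1
  have t2 := q4_tau_pos a2
  have s1 : tau (1/2) n * tau (1/2) h ≤ tau (1/2) H := hx2 ▸ tau_super n h
  have s2 : tau (1/2) m * tau (1/2) k ≤ tau (1/2) K := hx3 ▸ tau_super m k
  have p3 : 0 < tau (1/2) H := lt_of_lt_of_le (mul_pos hn0 t1) s1
  have p4 : 0 < tau (1/2) K := lt_of_lt_of_le (mul_pos hm0 t2) s2
  unfold KX
  rw [hfil, Complex.norm_real, Real.norm_eq_abs, ← Finset.mul_sum, abs_of_nonneg (by positivity),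
    div_le_div_iff₀ (by positivity) (by positivity), mul_assoc]
  refine mul_le_mul_of_nonneg_left ?_ (Real.sqrt_nonneg _)
  calc (∑ x ∈ (arr q N).filter (fun x => An x = h ∧ Bn x = k), co α x) * (tau (1/2) n * tau (1/2) m)
      ≤ (tau (1/2) h * tau (1/2) k) * (tau (1/2) n * tau (1/2) m) :=
        mul_le_mul_of_nonneg_right hG (by positivity)
    _ = (tau (1/2) n * tau (1/2) h) * (tau (1/2) m * tau (1/2) k) := by ring
    _ ≤ tau (1/2) H * tau (1/2) K := mul_le_mul s1 s2 (by positivity) p3.le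

theorem tw_supp {ι : Type*} [Fintype ι] [DecidableEq ι] {α : ι → ℝ} {q m n : ℕ} {N : ι → ℕ} {H K : ℕ}
    (h : KX α q N m n H K ≠ 0) : H * K ≤ m * n * ∏ i, N i := by
  have hne : ((arr q N).filter (fun x => n * An x = H ∧ m * Bn x = K)).Nonempty := by
    by_contra hne
    rw [Finset.not_nonempty_iff_eq_empty] at hne
    apply h
    unfold KX
    rw [hne, Finset.sum_empty, zero_div, Complex.ofReal_zero]
  obtain ⟨x, hx⟩ := hne
  rw [Finset.mem_filter] at hx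
  obtain ⟨hx1, hx2, hx3⟩ := hx
  obtain ⟨-, -, -, -, a3⟩ := arr_props hx1
  rw [← hx2, ← hx3]
  calc n * An x * (m * Bn x) = m * n * (An x * Bn x) := by ring
    _ ≤ m * n * ∏ i, N i := Nat.mul_le_mul_left _ a3

end Pool.Agent.LibOH30
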