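import Pool.Agent.LibOH30.A4

set_option autoImplicit false

namespace Pool.Agent.LibOH30

open MeasureTheory Set Filter Topology Complex ProbabilityTheory
open scoped NNReal ENNReal ComplexConjugate
open Pool.Agent.LibZM Pool.Agent.LibM3 Pool.Agent.LibLaw15

/-! ROW B2b (MEDIUM). The main term. (1) reindex `H = n A(x)`, `K = m B(x)`; `gk H K = tau tau gcd/(HK)`. (2) for `A, B` coprime to `q`,
`m, n` composed of the primes of `q` and coprime: `gcd (nA) (mB) = gcd A B`, and `max 0 log` is 1-Lipschitz. (3) group by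
`(A, B)`: `group_le` and `gk h k = tau(1/2) h tau(1/2) k gcd/(hk)`. -/

private theorem b2b_range {ι : Type*} [Fintype ι] [DecidableEq ι] {q m n M : ℕ} {N : ι → ℕ}
    (hm : 1 ≤ m) (hn : 1 ≤ n) (hnM : n * ∏ i, N i ≤ M) (hmM : m * ∏ i, N i ≤ M)
    {x : ι → ℕ × ℕ} (hx : x ∈ arr q N) :
    (n * An x, m * Bn x) ∈ Finset.Icc 1 M ×ˢ Finset.Icc 1 M := by
  obtain ⟨hA, hB, -, -, hAB⟩ := arr_props hx
  have h1 : An x ≤ ∏ i, N i := (Nat.le_mul_of_pos_right _ hB).trans hAB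
  have h2 : Bn x ≤ ∏ i, N i := (Nat.le_mul_of_pos_left _ hA).trans hAB
  rw [Finset.mem_product, Finset.mem_Icc, Finset.mem_Icc]
  exact ⟨⟨Nat.mul_pos hn hA, (Nat.mul_le_mul_left n h1).trans hnM⟩,
    ⟨Nat.mul_pos hm hB, (Nat.mul_le_mul_left m h2).trans hmM⟩⟩

private theorem b2b_fiber {ι : Type*} [Fintype ι] [DecidableEq ι] {q m n M : ℕ} {N : ι → ℕ}
    (hm : 1 ≤ m) (hn : 1 ≤ n) (hnM : n * ∏ i, N i ≤ M) (hmM : m * ∏ i, N i ≤ M)
    (F : (ι → ℕ × ℕ) → ℝ) :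
    ∑ H ∈ Finset.Icc 1 M, ∑ K ∈ Finset.Icc 1 M,
      ∑ x ∈ (arr q N).filter (fun x => n * An x = H ∧ m * Bn x = K), F x = ∑ x ∈ arr q N, F x := by
  rw [← Finset.sum_fiberwise_of_maps_to (s := arr q N) (t := Finset.Icc 1 M ×ˢ Finset.Icc 1 M)
    (g := fun x => (n * An x, m * Bn x)) (fun x hx => b2b_range hm hn hnM hmM hx) F,
    Finset.sum_product]
  refine Finset.sum_congr rfl fun H _ => Finset.sum_congr rfl fun K _ => ?_
  refine Finset.sum_congr (Finset.filter_congr fun x _ => ?_) fun _ _ => rfl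
  exact (Prod.mk.injEq ..).to_iff.symm

theorem tw_main_sum {ι : Type*} [Fintype ι] [DecidableEq ι] {α : ι → ℝ} {q m n M : ℕ} {N : ι → ℕ} (hm : 1 ≤ m) (hn : 1 ≤ n)
    (hnM : n * ∏ i, N i ≤ M) (hmM : m * ∏ i, N i ≤ M) (T : ℝ) :
    ∑ H ∈ Finset.Icc 1 M, ∑ K ∈ Finset.Icc 1 M, KX α q N m n H K * ((gk H K * ell T H K : ℝ) : ℂ) =
      ((∑ x ∈ arr q N, √((m:ℝ) * n) * co α x * ((Nat.gcd (n * An x) (m * Bn x) : ℝ) / (((n * An x : ℕ) : ℝ) * ((m * Bn x : ℕ) : ℝ))) *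
        ell T (n * An x) (m * Bn x) : ℝ) : ℂ) := by
  have key : ∑ H ∈ Finset.Icc 1 M, ∑ K ∈ Finset.Icc 1 M,
      ((∑ x ∈ (arr q N).filter (fun x => n * An x = H ∧ m * Bn x = K), √((m:ℝ) * n) * co α x) /
        (tau (1/2) H * tau (1/2) K)) * (gk H K * ell T H K) =
      ∑ x ∈ arr q N, √((m:ℝ) * n) * co α x * ((Nat.gcd (n * An x) (m * Bn x) : ℝ) / (((n * An x : ℕ) : ℝ) * ((m * Bn x : ℕ) : ℝ))) *
        ell T (n * An x) (m * Bn x) := by
    rw [← b2b_fiber hm hn hnM hmM (q := q) (N := N)]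
    refine Finset.sum_congr rfl fun H hH => Finset.sum_congr rfl fun K hK => ?_
    have h1 := q4_tau_pos (Finset.mem_Icc.1 hH).1
    have h2 := q4_tau_pos (Finset.mem_Icc.1 hK).1
    have h3 : ∀ x ∈ (arr q N).filter (fun x => n * An x = H ∧ m * Bn x = K),
        √((m:ℝ) * n) * co α x * ((Nat.gcd (n * An x) (m * Bn x) : ℝ) / (((n * An x : ℕ) : ℝ) * ((m * Bn x : ℕ) : ℝ))) *
          ell T (n * An x) (m * Bn x) =
        √((m:ℝ) * n) * co α x * (((Nat.gcd H K : ℕ) : ℝ) / ((H : ℝ) * K) * ell T H K) := by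
      intro x hx
      obtain ⟨e1, e2⟩ := (Finset.mem_filter.1 hx).2
      rw [e1, e2, mul_assoc]
    rw [Finset.sum_congr rfl h3, ← Finset.sum_mul]
    unfold gk
    field_simp
  rw [← key]
  push_cast
  refine Finset.sum_congr rfl fun H _ => Finset.sum_congr rfl fun K _ => ?_
  unfold KX
  push_cast
  ring

theorem tw_main_diff {ι : Type*} [Fintype ι] [DecidableEq ι] {α : ι → ℝ} (hα : ∀ i, 0 ≤ α i) {q m n : ℕ} {N : ι → ℕ} (hm : 1 ≤ m)
    (hn : 1 ≤ n) (hmn : Nat.Coprime m n) (hq : ∀ h : ℕ, Nat.Coprime h q → Nat.Coprime h m ∧ Nat.Coprime h n) {T : ℝ} (hT : 0 < T) :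
    |(∑ x ∈ arr q N, √((m:ℝ) * n) * co α x * ((Nat.gcd (n * An x) (m * Bn x) : ℝ) / (((n * An x : ℕ) : ℝ) * ((m * Bn x : ℕ) : ℝ))) *
        ell T (n * An x) (m * Bn x)) - (√((m:ℝ) * n))⁻¹ * TS α q N T| ≤
      (√((m:ℝ) * n))⁻¹ * Real.log ((m:ℝ) * n) *
        ∑ x ∈ arr q N, co α x * ((Nat.gcd (An x) (Bn x) : ℝ) / ((An x : ℝ) * Bn x)) := by
  have hmn1 : (1 : ℝ) ≤ (m : ℝ) * n := by exact_mod_cast Nat.mul_pos hm hn
  have hmn0 : (0 : ℝ) < (m : ℝ) * n := by linarith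
  have hs0 : 0 < √((m:ℝ) * n) := Real.sqrt_pos.2 hmn0
  have hL : 0 ≤ Real.log ((m:ℝ) * n) := Real.log_nonneg hmn1
  have hterm : ∀ x ∈ arr q N, √((m:ℝ) * n) * co α x * ((Nat.gcd (n * An x) (m * Bn x) : ℝ) / (((n * An x : ℕ) : ℝ) * ((m * Bn x : ℕ) : ℝ))) *
        ell T (n * An x) (m * Bn x) =
      (√((m:ℝ) * n))⁻¹ * (co α x * ((Nat.gcd (An x) (Bn x) : ℝ) / ((An x : ℝ) * Bn x)) *
        max 0 (Real.log (T * (Nat.gcd (An x) (Bn x) : ℝ) ^ 2 / ((An x : ℝ) * Bn x)) -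
          Real.log ((m:ℝ) * n))) := by
    intro x hx
    obtain ⟨hA, hB, hAq, hBq, -⟩ := arr_props hx
    have hA0 : (0 : ℝ) < An x := by exact_mod_cast hA
    have hB0 : (0 : ℝ) < Bn x := by exact_mod_cast hB
    have hg : Nat.gcd (n * An x) (m * Bn x) = Nat.gcd (An x) (Bn x) := by
      rw [Nat.Coprime.gcd_mul_left_cancel _ (Nat.Coprime.mul_right hmn.symm (hq _ hBq).2.symm),
        Nat.Coprime.gcd_mul_left_cancel_right _ (hq _ hAq).1.symm]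
    have hg0 : (0 : ℝ) < (Nat.gcd (An x) (Bn x) : ℝ) := by
      exact_mod_cast Nat.gcd_pos_of_pos_left _ hA
    unfold ell
    rw [hg]
    push_cast
    have hlog : Real.log (T * (Nat.gcd (An x) (Bn x) : ℝ) ^ 2 / ((n : ℝ) * An x * (m * Bn x))) =
        Real.log (T * (Nat.gcd (An x) (Bn x) : ℝ) ^ 2 / ((An x : ℝ) * Bn x)) -
          Real.log ((m:ℝ) * n) := by
      rw [← Real.log_div (by positivity) hmn0.ne']
      congr 1
      have hm0 : (m : ℝ) ≠ 0 := by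
        have : 0 < m := hm
        positivity
      have hn0 : (n : ℝ) ≠ 0 := by
        have : 0 < n := hn
        positivity
      field_simp
    rw [hlog]
    have hsq : √((m:ℝ) * n) * √((m:ℝ) * n) = (m:ℝ) * n := Real.mul_self_sqrt hmn0.le
    have e1 : √((m:ℝ) * n) * (1 / ((n : ℝ) * m)) = (√((m:ℝ) * n))⁻¹ := by
      rw [mul_one_div, div_eq_iff (by rw [mul_comm]; exact hmn0.ne'), inv_mul_eq_div,
        eq_div_iff hs0.ne', hsq, mul_comm]
    rw [← e1]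
    have hm0 : (m : ℝ) ≠ 0 := by
      have : 0 < m := hm
      positivity
    have hn0 : (n : ℝ) ≠ 0 := by
      have : 0 < n := hn
      positivity
    field_simp
  rw [Finset.sum_congr rfl hterm, ← Finset.mul_sum]
  unfold TS
  rw [← mul_sub, ← Finset.sum_sub_distrib, abs_mul, abs_of_pos (inv_pos.2 hs0), mul_assoc]
  refine mul_le_mul_of_nonneg_left ?_ (inv_pos.2 hs0).le
  refine (Finset.abs_sum_le_sum_abs _ _).trans ?_
  rw [Finset.mul_sum]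
  refine Finset.sum_le_sum fun x _ => ?_
  have hc : 0 ≤ co α x * ((Nat.gcd (An x) (Bn x) : ℝ) / ((An x : ℝ) * Bn x)) :=
    mul_nonneg (co_nonneg hα x) (by positivity)
  rw [← mul_sub, abs_mul, abs_of_nonneg hc, mul_comm (Real.log ((m:ℝ) * n))]
  refine mul_le_mul_of_nonneg_left ?_ hc
  unfold ell
  refine (abs_max_sub_max_le_max _ _ _ _).trans ?_
  rw [sub_self, abs_zero]
  refine max_le hL ?_
  rw [sub_sub_cancel_left, abs_neg, abs_of_nonneg hL]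

theorem sum_g_le {ι : Type*} [Fintype ι] [DecidableEq ι] {α : ι → ℝ} (hα : ∀ i, 0 ≤ α i) (hs : ∑ i, α i = 1/2) {q M : ℕ}
    {N : ι → ℕ} (hM : ∏ i, N i ≤ M) :
    ∑ x ∈ arr q N, co α x * ((Nat.gcd (An x) (Bn x) : ℝ) / ((An x : ℝ) * Bn x)) ≤
      ∑ h ∈ Finset.Icc 1 M, ∑ k ∈ Finset.Icc 1 M, gk h k := by
  have h0 := b2b_fiber (q := q) (m := 1) (n := 1) (M := M) (N := N) le_rfl le_rfl
    (by rwa [one_mul]) (by rwa [one_mul])
    (fun x => co α x * ((Nat.gcd (An x) (Bn x) : ℝ) / ((An x : ℝ) * Bn x)))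
  rw [← h0]
  refine Finset.sum_le_sum fun h hh => Finset.sum_le_sum fun k hk => ?_
  simp only [one_mul]
  have h3 : ∀ x ∈ (arr q N).filter (fun x => An x = h ∧ Bn x = k),
      co α x * ((Nat.gcd (An x) (Bn x) : ℝ) / ((An x : ℝ) * Bn x)) =
        co α x * (((Nat.gcd h k : ℕ) : ℝ) / ((h : ℝ) * k)) := by
    intro x hx
    obtain ⟨e1, e2⟩ := (Finset.mem_filter.1 hx).2
    rw [e1, e2]
  rw [Finset.sum_congr rfl h3, ← Finset.sum_mul]
  have h4 := group_le hα q N (Finset.mem_Icc.1 hh).1 (Finset.mem_Icc.1 hk).1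
  rw [hs] at h4
  unfold gk
  rw [mul_div_assoc]
  exact mul_le_mul_of_nonneg_right h4 (by positivity)

end Pool.Agent.LibOH30
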