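import Pool.Agent.LibOH30.B1
import Pool.Agent.LibOH30.B2a
import Pool.Agent.LibOH30.B2b

set_option autoImplicit false

namespace Pool.Agent.LibOH30

open MeasureTheory Set Filter Topology Complex ProbabilityTheory
open scoped NNReal ENNReal ComplexConjugate
open Pool.Agent.LibZM Pool.Agent.LibM3 Pool.Agent.LibLaw15

/-! ROW B2c (MEDIUM). The twisted second moment of `XR · (m/n)^{it}`: `qform2` with `ε/2` (for `T` large `m n T^{1-ε} ≤ T^{1-ε/2}` and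
`max m n * ∏ N ≤ ⌊T⌋`), `tw_form`, `tw_norm`, `tw_supp`, `tw_main_sum`, `tw_main_diff`, `sum_g_le` with `M = ⌊T⌋` and `sum_gk_le`
(`C (1 + log N)^{5/4}`). -/

private lemma b2c_fl {η : ℝ} {P : ℝ → Prop} (h : ∀ᶠ T : ℝ in atTop, P T) : ∀ᶠ p : ℝ × ℝ in Fl η, P p.1 := by
  have h1 : Tendsto (Prod.fst : ℝ × ℝ → ℝ) (Fl η) atTop := tendsto_comap.mono_left inf_le_left
  exact h1.eventually h

theorem tw_mean {η : ℝ} (hη : 0 < η) {ι : Type*} [Fintype ι] [DecidableEq ι] {α : ι → ℝ} (hα : ∀ i, 0 ≤ α i)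
    (hs : ∑ i, α i = 1/2) (q : ℕ) {m n : ℕ} (hm : 1 ≤ m) (hn : 1 ≤ n) (hmn : Nat.Coprime m n)
    (hq : ∀ h : ℕ, Nat.Coprime h q → Nat.Coprime h m ∧ Nat.Coprime h n) {ε : ℝ} (hε0 : 0 < ε) (hε1 : ε < 1) :
    ∃ C : ℝ, 0 < C ∧ ∀ᶠ p : ℝ × ℝ in Fl η, ∀ N : ι → ℕ, ((∏ i, N i : ℕ) : ℝ) ≤ p.1 ^ (1 - ε) →
      ‖(∫ t in win p.2, ((‖riemannZeta (crit t)‖ ^ 2 : ℝ) : ℂ) * (((XR α q N t : ℝ) : ℂ) * chr m n t) ∂(gaussianReal p.2 (vw p.1))) -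
        (((√((m:ℝ) * n))⁻¹ * TS α q N p.1 : ℝ) : ℂ)‖ ≤ C * (Real.log p.1) ^ 2 := by
  obtain ⟨C1, hC1, h1⟩ := qform2 hη (ε := ε / 2) (by linarith) (by linarith)
  obtain ⟨C2, hC2, h2⟩ := sum_gk_le
  set K0 : ℝ := √((m:ℝ) * n) / (tau (1/2) n * tau (1/2) m) with hK0
  have hK0n : 0 ≤ K0 := by
    have := tw_norm (α := α) hα hs (q := q) (N := fun _ => 1) hm hn 1 1
    exact (norm_nonneg _).trans this
  have hm' : (1:ℝ) ≤ m := by exact_mod_cast hm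
  have hn' : (1:ℝ) ≤ n := by exact_mod_cast hn
  have hmn1 : (1:ℝ) ≤ (m:ℝ) * n := by nlinarith
  set c3 : ℝ := (√((m:ℝ) * n))⁻¹ * Real.log ((m:ℝ) * n) with hc3
  have hc3n : 0 ≤ c3 := by
    have : 0 ≤ Real.log ((m:ℝ) * n) := Real.log_nonneg hmn1
    positivity
  refine ⟨C1 * K0 + c3 * (C2 * 4) + 1, by positivity, ?_⟩
  have e1 : ∀ᶠ T : ℝ in atTop, 1 ≤ T := eventually_ge_atTop 1
  have e2 : ∀ᶠ T : ℝ in atTop, 1 ≤ Real.log T := Real.tendsto_log_atTop.eventually (eventually_ge_atTop 1)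
  have e3 : ∀ᶠ T : ℝ in atTop, (m:ℝ) * n ≤ T ^ (ε / 2) :=
    (tendsto_rpow_atTop (by linarith : 0 < ε / 2)).eventually (eventually_ge_atTop _)
  filter_upwards [h1, b2c_fl e1, b2c_fl e2, b2c_fl e3] with p h1 hT1 hlT hmnT N hN
  set T : ℝ := p.1 with hTdef
  have hT0 : 0 < T := by linarith
  have hP0 : (0:ℝ) ≤ ((∏ i, N i : ℕ) : ℝ) := Nat.cast_nonneg _
  -- m n prod ≤ T^(1-ε/2)
  have hmnP : (m:ℝ) * n * ((∏ i, N i : ℕ) : ℝ) ≤ T ^ (1 - ε / 2) := by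
    calc (m:ℝ) * n * ((∏ i, N i : ℕ) : ℝ) ≤ T ^ (ε / 2) * T ^ (1 - ε) :=
          mul_le_mul hmnT hN hP0 (by positivity)
      _ = T ^ (1 - ε / 2) := by
          rw [← Real.rpow_add hT0]; congr 1; ring
  have hTle : T ^ (1 - ε / 2) ≤ T := by
    calc T ^ (1 - ε / 2) ≤ T ^ (1:ℝ) := Real.rpow_le_rpow_of_exponent_le hT1 (by linarith)
      _ = T := Real.rpow_one T
  have hnM : n * ∏ i, N i ≤ ⌊T⌋₊ := by
    apply Nat.le_floor
    push_cast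
    have hle : (n:ℝ) * ((∏ i, N i : ℕ) : ℝ) ≤ (m:ℝ) * n * ((∏ i, N i : ℕ) : ℝ) := by
      have : 0 ≤ (n:ℝ) * ((∏ i, N i : ℕ) : ℝ) := by positivity
      nlinarith
    have := (hle.trans hmnP).trans hTle
    push_cast at this
    exact this
  have hmM : m * ∏ i, N i ≤ ⌊T⌋₊ := by
    apply Nat.le_floor
    push_cast
    have hle : (m:ℝ) * ((∏ i, N i : ℕ) : ℝ) ≤ (m:ℝ) * n * ((∏ i, N i : ℕ) : ℝ) := by
      have : 0 ≤ (m:ℝ) * ((∏ i, N i : ℕ) : ℝ) := by positivity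
      nlinarith
    have := (hle.trans hmnP).trans hTle
    push_cast at this
    exact this
  have hPM : ∏ i, N i ≤ ⌊T⌋₊ := by
    refine le_trans ?_ hnM
    exact Nat.le_mul_of_pos_left _ (by omega)
  have h3 := h1 (KX α q N m n) K0 (fun h k => tw_norm hα hs hm hn h k) (by
    intro H K hHK
    by_contra hne
    have hs1 := tw_supp hne
    have hs2 : (H:ℝ) * K ≤ (m:ℝ) * n * ((∏ i, N i : ℕ) : ℝ) := by
      have : ((H * K : ℕ) : ℝ) ≤ ((m * n * ∏ i, N i : ℕ) : ℝ) := by exact_mod_cast hs1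
      push_cast at this ⊢
      exact this
    linarith)
  have hint : (∫ t in win p.2, ((‖riemannZeta (crit t)‖ ^ 2 : ℝ) : ℂ) * (((XR α q N t : ℝ) : ℂ) * chr m n t) ∂(gaussianReal p.2 (vw T)))
      = ∫ t in win p.2, ((‖riemannZeta (crit t)‖ ^ 2 : ℝ) : ℂ) * QForm ⌊T⌋₊ (KX α q N m n) t ∂(gaussianReal p.2 (vw T)) := by
    congr 1
    funext t
    rw [tw_form hm hn hnM hmM t]
  have hmain := tw_main_sum (α := α) (q := q) hm hn hnM hmM T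
  have hdiff := tw_main_diff (N := N) hα hm hn hmn hq hT0
  have hg := sum_g_le (q := q) hα hs hPM
  have hfl1 : 1 ≤ ⌊T⌋₊ := Nat.le_floor (by simpa using hT1)
  have hgk := h2 ⌊T⌋₊ hfl1
  have hlog : Real.log (⌊T⌋₊ : ℝ) ≤ Real.log T :=
    Real.log_le_log (by exact_mod_cast hfl1) (Nat.floor_le hT0.le)
  have hlog0 : 0 ≤ Real.log (⌊T⌋₊ : ℝ) := Real.log_nonneg (by exact_mod_cast hfl1)
  have hpow : (1 + Real.log (⌊T⌋₊ : ℝ)) ^ (5/4 : ℝ) ≤ 4 * (Real.log T) ^ 2 := by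
    calc (1 + Real.log (⌊T⌋₊ : ℝ)) ^ (5/4 : ℝ) ≤ (2 * Real.log T) ^ (5/4 : ℝ) :=
          Real.rpow_le_rpow (by linarith) (by linarith) (by norm_num)
      _ ≤ (2 * Real.log T) ^ (2 : ℝ) := Real.rpow_le_rpow_of_exponent_le (by linarith) (by norm_num)
      _ = 4 * (Real.log T) ^ 2 := by
          rw [Real.rpow_two]; ring
  have hd2 : |(∑ x ∈ arr q N, √((m:ℝ) * n) * co α x * ((Nat.gcd (n * An x) (m * Bn x) : ℝ) / (((n * An x : ℕ) : ℝ) * ((m * Bn x : ℕ) : ℝ))) *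
        ell T (n * An x) (m * Bn x)) - (√((m:ℝ) * n))⁻¹ * TS α q N T| ≤ c3 * (C2 * 4) * (Real.log T) ^ 2 := by
    refine hdiff.trans ?_
    have hstep : c3 * ∑ x ∈ arr q N, co α x * ((Nat.gcd (An x) (Bn x) : ℝ) / ((An x : ℝ) * Bn x)) ≤
        c3 * (C2 * (4 * (Real.log T) ^ 2)) := by
      apply mul_le_mul_of_nonneg_left _ hc3n
      refine hg.trans (hgk.trans ?_)
      exact mul_le_mul_of_nonneg_left hpow hC2.le
    refine hstep.trans (le_of_eq ?_)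
    ring
  rw [hint]
  rw [hmain] at h3
  have htri : ‖(∫ t in win p.2, ((‖riemannZeta (crit t)‖ ^ 2 : ℝ) : ℂ) * QForm ⌊T⌋₊ (KX α q N m n) t ∂(gaussianReal p.2 (vw T))) -
      (((√((m:ℝ) * n))⁻¹ * TS α q N T : ℝ) : ℂ)‖ ≤
      C1 * K0 * (Real.log T) ^ 2 + c3 * (C2 * 4) * (Real.log T) ^ 2 := by
    refine (norm_sub_le_norm_sub_add_norm_sub _ _ _).trans (add_le_add h3 ?_)
    rw [← Complex.ofReal_sub, Complex.norm_real, Real.norm_eq_abs]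
    exact hd2
  refine htri.trans ?_
  have : 0 ≤ (Real.log T) ^ 2 := by positivity
  nlinarith

end Pool.Agent.LibOH30
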