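import Pool.Agent.LibOH30.B2c
import Pool.Agent.LibOH30.A1
import Pool.Agent.LibLaw15.E1b
import Pool.Agent.LibLaw15.T8
import Pool.Agent.LibLaw15.T9

set_option autoImplicit false

namespace Pool.Agent.LibOH30

open MeasureTheory Set Filter Topology Complex ProbabilityTheory
open scoped NNReal ENNReal ComplexConjugate
open Pool.Agent.LibZM Pool.Agent.LibM3 Pool.Agent.LibLaw15

/-! ROW B3 (MEDIUM/STRONG). Equidistribution under `|ζ|² XR` (SIGNED). Template: `LibLaw15.E2` (`law_two'`) and `LibLaw15.E1b`; because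
`XR` may change sign use `LibLaw15.equi` directly with the functional `Λ_P w = (∫_win |ζ|² XR w(xt) - cS TS ∫ w ET²) / (log)^(9/4)`,
bounded by `(hB)` and by `TS ≤ ∫ |ζ|² XR + C (log)^2` (`tw_mean` with `m = n = 1`). For the characters: `mF_xt`
(`mFourier a (xt p t) = chr (mP p a) (nP p a) t`), `mnP`, `tw_mean`, `prod_rp` (`∏ rp^{|a|} = cS ∫ mFourier a ET²`) and
`(√(mP nP))⁻¹ = ∏ rp (p i)^{|a i|}`. `∏ ⌊T^{θ i}⌋ ≤ T^{∑ θ i}`, `∑ θ < 1`. -/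

private theorem b3_eps {ι : Type*} [Fintype ι] {θ : ι → ℝ} (hθ : ∀ i, 0 ≤ θ i) (hθ1 : ∑ i, θ i < 1) :
    ∃ ε : ℝ, 0 < ε ∧ ε < 1 ∧ ∀ T : ℝ, 1 ≤ T → ((∏ i, ⌊T ^ θ i⌋₊ : ℕ) : ℝ) ≤ T ^ (1 - ε) := by
  have h0 : 0 ≤ ∑ i, θ i := Finset.sum_nonneg fun i _ => hθ i
  refine ⟨(1 - ∑ i, θ i) / 2, by linarith, by linarith, fun T hT => ?_⟩
  have hT0 : 0 < T := by linarith
  calc ((∏ i, ⌊T ^ θ i⌋₊ : ℕ) : ℝ) = ∏ i, ((⌊T ^ θ i⌋₊ : ℕ) : ℝ) := by push_cast; rfl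
    _ ≤ ∏ i, T ^ θ i := Finset.prod_le_prod (fun i _ => Nat.cast_nonneg _)
        fun i _ => Nat.floor_le (Real.rpow_nonneg hT0.le _)
    _ = T ^ (∑ i, θ i) := (Real.rpow_sum_of_pos hT0 _ _).symm
    _ ≤ T ^ (1 - (1 - ∑ i, θ i) / 2) := Real.rpow_le_rpow_of_exponent_le hT (by linarith)

private theorem b3_small {η C : ℝ} {f : ℝ × ℝ → ℂ} (h : ∀ᶠ P : ℝ × ℝ in Fl η, ‖f P‖ ≤ C * (Real.log P.1) ^ 2) :
    Tendsto (fun P : ℝ × ℝ => f P / (((Real.log P.1) ^ (9/4 : ℝ) : ℝ) : ℂ)) (Fl η) (𝓝 0) := by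
  have hlog : Tendsto (fun P : ℝ × ℝ => Real.log P.1) (Fl η) atTop := Real.tendsto_log_atTop.comp (Fl_fst η)
  have hlim : Tendsto (fun P : ℝ × ℝ => C * (Real.log P.1) ^ (-(1/4) : ℝ)) (Fl η) (𝓝 (C * 0)) :=
    ((tendsto_rpow_neg_atTop (by norm_num : (0:ℝ) < 1/4)).comp hlog).const_mul _
  rw [mul_zero] at hlim
  refine squeeze_zero_norm' ?_ hlim
  filter_upwards [h, hlog.eventually_ge_atTop 1] with P h1 h2
  have hLp : 0 < Real.log P.1 := by linarith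
  rw [norm_div, Complex.norm_real, Real.norm_eq_abs, abs_of_pos (Real.rpow_pos_of_pos hLp _),
    div_le_iff₀ (Real.rpow_pos_of_pos hLp _), mul_assoc, ← Real.rpow_add hLp]
  have e : (-(1/4) : ℝ) + 9/4 = ((2 : ℕ) : ℝ) := by norm_num
  rw [e, Real.rpow_natCast]
  exact h1

private theorem b3_chr_one (t : ℝ) : chr 1 1 t = 1 := by
  unfold chr
  simp

private theorem b3_mean {η : ℝ} (hη : 0 < η) {ι : Type*} [Fintype ι] [DecidableEq ι] {α : ι → ℝ} (hα : ∀ i, 0 ≤ α i)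
    (hs : ∑ i, α i = 1/2) (q : ℕ) {m n : ℕ} (hm : 1 ≤ m) (hn : 1 ≤ n) (hmn : Nat.Coprime m n)
    (hq : ∀ h : ℕ, Nat.Coprime h q → Nat.Coprime h m ∧ Nat.Coprime h n)
    {θ : ι → ℝ} (hθ : ∀ i, 0 ≤ θ i) (hθ1 : ∑ i, θ i < 1) :
    ∃ C : ℝ, 0 < C ∧ ∀ᶠ P : ℝ × ℝ in Fl η,
    ‖(∫ t, ((‖riemannZeta (crit t)‖ ^ 2 * XR α q (fun i => ⌊P.1 ^ θ i⌋₊) t : ℝ) : ℂ) * chr m n t
        ∂((gaussianReal P.2 (vw P.1)).restrict (win P.2))) -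
        (((√((m:ℝ) * n))⁻¹ * TS α q (fun i => ⌊P.1 ^ θ i⌋₊) P.1 : ℝ) : ℂ)‖ ≤ C * (Real.log P.1) ^ 2 := by
  obtain ⟨ε, hε0, hε1, hε⟩ := b3_eps hθ hθ1
  obtain ⟨C, hC, h⟩ := tw_mean hη hα hs q hm hn hmn hq hε0 hε1
  refine ⟨C, hC, ?_⟩
  filter_upwards [h, (Fl_fst η).eventually (eventually_ge_atTop 1)] with P h1 h2
  have h3 := h1 (fun i => ⌊P.1 ^ θ i⌋₊) (hε P.1 h2)
  have e1 : (∫ t, ((‖riemannZeta (crit t)‖ ^ 2 * XR α q (fun i => ⌊P.1 ^ θ i⌋₊) t : ℝ) : ℂ) * chr m n t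
        ∂((gaussianReal P.2 (vw P.1)).restrict (win P.2))) =
      ∫ t in win P.2, ((‖riemannZeta (crit t)‖ ^ 2 : ℝ) : ℂ) *
        (((XR α q (fun i => ⌊P.1 ^ θ i⌋₊) t : ℝ) : ℂ) * chr m n t) ∂(gaussianReal P.2 (vw P.1)) := by
    congr 1
    funext t
    push_cast
    ring
  rw [e1]
  exact h3

private theorem b3_cont {ι : Type*} [Fintype ι] (α : ι → ℝ) (q : ℕ) (N : ι → ℕ) :
    Continuous fun t : ℝ => ‖riemannZeta (crit t)‖ ^ 2 * XR α q N t :=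
  (continuous_zeta_crit.norm.pow 2).mul (XR_cont α q N)

/-- `(√(mP nP))⁻¹ = ∏ rp (p i)^{|a i|}`. -/
private theorem b3_sqrt {r : ℕ} (p : Fin r → ℕ) (a : Fin r → ℤ) :
    (√((mP p a : ℝ) * (nP p a : ℝ)))⁻¹ = ∏ i, rp (p i) ^ (a i).natAbs := by
  have h1 : (mP p a : ℝ) * (nP p a : ℝ) = (∏ i, (√(p i : ℝ)) ^ (a i).natAbs) ^ 2 := by
    unfold mP nP
    push_cast
    rw [← Finset.prod_mul_distrib, ← Finset.prod_pow]
    refine Finset.prod_congr rfl fun i _ => ?_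
    rw [← pow_add, ← pow_mul, mul_comm (a i).natAbs 2, pow_mul, Real.sq_sqrt (Nat.cast_nonneg _)]
    congr 1
    omega
  rw [h1, Real.sqrt_sq (Finset.prod_nonneg fun i _ => pow_nonneg (Real.sqrt_nonneg _) _)]
  unfold rp
  rw [← Finset.prod_inv_distrib]
  refine Finset.prod_congr rfl fun i _ => ?_
  rw [inv_pow]

/-- the functional is bounded (signed weights) -/
private theorem b3_norm {r : ℕ} {ξ : ℝ → Tor r} (hξ : Continuous ξ) {μ : Measure ℝ} {g : ℝ → ℝ}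
    (hgi : Integrable g μ)
    {V : Tor r → ℝ} (hV : Continuous V) {κ : ℂ} {Nm B : ℝ} (hNm : 0 < Nm)
    (hB1 : ∫ t, |g t| ∂μ ≤ B * Nm) (hB2 : ‖κ‖ ≤ B * Nm) (w : C(Tor r, ℂ)) :
    ‖e1bL hξ μ g hV κ Nm w‖ ≤ (B + B * ∫ x, |V x| ∂(muT r)) * ‖w‖ := by
  rw [e1bL_apply hξ hV κ Nm hgi w, norm_div, Complex.norm_real, Real.norm_of_nonneg hNm.le,
    div_le_iff₀ hNm]
  have h1 : ‖∫ t, ((g t : ℝ) : ℂ) * w (ξ t) ∂μ‖ ≤ ‖w‖ * (B * Nm) := by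
    calc ‖∫ t, ((g t : ℝ) : ℂ) * w (ξ t) ∂μ‖ ≤ ∫ t, ‖w‖ * |g t| ∂μ := by
          apply norm_integral_le_of_norm_le (hgi.abs.const_mul _)
          filter_upwards with t
          rw [norm_mul, Complex.norm_real, Real.norm_eq_abs, mul_comm]
          exact mul_le_mul_of_nonneg_right (w.norm_coe_le_norm _) (abs_nonneg _)
      _ = ‖w‖ * ∫ t, |g t| ∂μ := integral_const_mul _ _
      _ ≤ ‖w‖ * (B * Nm) := mul_le_mul_of_nonneg_left hB1 (norm_nonneg _)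
  have hVi : Integrable (fun x => |V x|) (muT r) :=
    hV.abs.integrable_of_hasCompactSupport (HasCompactSupport.of_compactSpace _)
  have hV0 : 0 ≤ ∫ x, |V x| ∂(muT r) := integral_nonneg fun _ => abs_nonneg _
  have h2 : ‖∫ x, w x * ((V x : ℝ) : ℂ) ∂(muT r)‖ ≤ ‖w‖ * ∫ x, |V x| ∂(muT r) := by
    calc ‖∫ x, w x * ((V x : ℝ) : ℂ) ∂(muT r)‖ ≤ ∫ x, ‖w‖ * |V x| ∂(muT r) := by
          apply norm_integral_le_of_norm_le (hVi.const_mul _)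
          filter_upwards with x
          rw [norm_mul, Complex.norm_real, Real.norm_eq_abs]
          exact mul_le_mul_of_nonneg_right (w.norm_coe_le_norm _) (abs_nonneg _)
      _ = ‖w‖ * ∫ x, |V x| ∂(muT r) := integral_const_mul _ _
  calc ‖(∫ t, ((g t : ℝ) : ℂ) * w (ξ t) ∂μ) - κ * ∫ x, w x * ((V x : ℝ) : ℂ) ∂(muT r)‖
      ≤ ‖∫ t, ((g t : ℝ) : ℂ) * w (ξ t) ∂μ‖ + ‖κ * ∫ x, w x * ((V x : ℝ) : ℂ) ∂(muT r)‖ :=
        norm_sub_le _ _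
    _ ≤ ‖w‖ * (B * Nm) + (B * Nm) * (‖w‖ * ∫ x, |V x| ∂(muT r)) := by
        apply add_le_add h1
        rw [norm_mul]
        exact mul_le_mul hB2 h2 (norm_nonneg _) ((norm_nonneg _).trans hB2)
    _ = (B + B * ∫ x, |V x| ∂(muT r)) * ‖w‖ * Nm := by ring

/-- `TS` is at most `C (log T)^(9/4)` if the mean of `|ζ|² XR` is. (`tw_mean` with `m = n = 1`.) -/
private theorem b3_TS_mean {η : ℝ} (hη : 0 < η) {q : ℕ}
    {ι : Type*} [Fintype ι] [DecidableEq ι] {α : ι → ℝ} (hα : ∀ i, 0 ≤ α i) (hs : ∑ i, α i = 1/2)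
    {θ : ι → ℝ} (hθ : ∀ i, 0 ≤ θ i) (hθ1 : ∑ i, θ i < 1) :
    Tendsto (fun P : ℝ × ℝ => ((∫ t in win P.2, ‖riemannZeta (crit t)‖ ^ 2 * XR α q (fun i => ⌊P.1 ^ θ i⌋₊) t
        ∂(gaussianReal P.2 (vw P.1))) - TS α q (fun i => ⌊P.1 ^ θ i⌋₊) P.1) / (Real.log P.1) ^ (9/4 : ℝ)) (Fl η) (𝓝 0) := by
  obtain ⟨C, hC, h⟩ := b3_mean hη hα hs q (m := 1) (n := 1) le_rfl le_rfl (Nat.coprime_one_right 1)
    (fun h _ => ⟨Nat.coprime_one_right h, Nat.coprime_one_right h⟩) hθ hθ1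
  have h2 := b3_small h
  have h3 := (Complex.continuous_re.tendsto 0).comp h2
  rw [Complex.zero_re] at h3
  refine h3.congr fun P => ?_
  have e1 : (∫ t, ((‖riemannZeta (crit t)‖ ^ 2 * XR α q (fun i => ⌊P.1 ^ θ i⌋₊) t : ℝ) : ℂ) * chr 1 1 t
        ∂((gaussianReal P.2 (vw P.1)).restrict (win P.2))) =
      ((∫ t in win P.2, ‖riemannZeta (crit t)‖ ^ 2 * XR α q (fun i => ⌊P.1 ^ θ i⌋₊) t
        ∂(gaussianReal P.2 (vw P.1)) : ℝ) : ℂ) := by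
    rw [← integral_complex_ofReal]
    congr 1
    funext t
    rw [b3_chr_one, mul_one]
  have e2 : ((√(((1:ℕ):ℝ) * ((1:ℕ):ℝ)))⁻¹ * TS α q (fun i => ⌊P.1 ^ θ i⌋₊) P.1 : ℝ) =
      TS α q (fun i => ⌊P.1 ^ θ i⌋₊) P.1 := by simp
  show ((_ - _) / _ : ℂ).re = _
  rw [e1, e2, ← Complex.ofReal_sub, ← Complex.ofReal_div, Complex.ofReal_re]

theorem law_z {η : ℝ} (hη : 0 < η) {r : ℕ} {p : Fin r → ℕ} (hp : ∀ i, (p i).Prime) (hinj : Function.Injective p)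
    {ι : Type*} [Fintype ι] [DecidableEq ι] {α : ι → ℝ} (hα : ∀ i, 0 ≤ α i) (hs : ∑ i, α i = 1/2)
    {θ : ι → ℝ} (hθ : ∀ i, 0 ≤ θ i) (hθ1 : ∑ i, θ i < 1) {w : Tor r → ℝ} (hw : Continuous w) {B : ℝ}
    (hB : ∀ᶠ P : ℝ × ℝ in Fl η, ∫ t in win P.2, ‖riemannZeta (crit t)‖ ^ 2 * |XR α (qP p) (fun i => ⌊P.1 ^ θ i⌋₊) t|
      ∂(gaussianReal P.2 (vw P.1)) ≤ B * (Real.log P.1) ^ (9/4 : ℝ)) :
    Tendsto (fun P : ℝ × ℝ => ((∫ t in win P.2, (‖riemannZeta (crit t)‖ ^ 2 * XR α (qP p) (fun i => ⌊P.1 ^ θ i⌋₊) t) * w (xt p t)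
        ∂(gaussianReal P.2 (vw P.1))) - cS p * TS α (qP p) (fun i => ⌊P.1 ^ θ i⌋₊) P.1 * ∫ x, w x * ET p x ^ 2 ∂(muT r)) /
      (Real.log P.1) ^ (9/4 : ℝ)) (Fl η) (𝓝 0) := by
  have hlog : Tendsto (fun P : ℝ × ℝ => Real.log P.1) (Fl η) atTop := Real.tendsto_log_atTop.comp (Fl_fst η)
  have hξ := xt_continuous p
  have hV : Continuous fun x : Tor r => ET p x ^ 2 := (ET_props hp).1.pow 2
  have hgi : ∀ P : ℝ × ℝ, Integrable (fun t : ℝ => ‖riemannZeta (crit t)‖ ^ 2 * XR α (qP p) (fun i => ⌊P.1 ^ θ i⌋₊) t)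
      ((gaussianReal P.2 (vw P.1)).restrict (win P.2)) := fun P => (b3_cont _ _ _).integrableOn_Icc
  have hTSm := b3_TS_mean (q := qP p) hη hα hs hθ hθ1
  have hTS1 : ∀ᶠ P : ℝ × ℝ in Fl η, |((∫ t in win P.2, ‖riemannZeta (crit t)‖ ^ 2 * XR α (qP p) (fun i => ⌊P.1 ^ θ i⌋₊) t
        ∂(gaussianReal P.2 (vw P.1))) - TS α (qP p) (fun i => ⌊P.1 ^ θ i⌋₊) P.1) / (Real.log P.1) ^ (9/4 : ℝ)| ≤ 1 := by
    have := (Metric.tendsto_nhds.1 hTSm) 1 one_pos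
    filter_upwards [this] with P hP
    rw [dist_zero_right, Real.norm_eq_abs] at hP
    exact hP.le
  have habs : ∀ P : ℝ × ℝ, (∫ t in win P.2, |‖riemannZeta (crit t)‖ ^ 2 * XR α (qP p) (fun i => ⌊P.1 ^ θ i⌋₊) t|
      ∂(gaussianReal P.2 (vw P.1))) = ∫ t in win P.2, ‖riemannZeta (crit t)‖ ^ 2 *
        |XR α (qP p) (fun i => ⌊P.1 ^ θ i⌋₊) t| ∂(gaussianReal P.2 (vw P.1)) := by
    intro P
    congr 1
    funext t
    rw [abs_mul, abs_of_nonneg (show (0:ℝ) ≤ ‖riemannZeta (crit t)‖ ^ 2 by positivity)]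
  have hkap : ∀ᶠ P : ℝ × ℝ in Fl η, ‖((cS p * TS α (qP p) (fun i => ⌊P.1 ^ θ i⌋₊) P.1 : ℝ) : ℂ)‖ ≤
      (|B| + |cS p| * (|B| + 1)) * (Real.log P.1) ^ (9/4 : ℝ) := by
    filter_upwards [hTS1, hB, hlog.eventually_ge_atTop 1] with P h1 h2 h3
    have hLp : 0 < Real.log P.1 := by linarith
    have hNp : 0 < (Real.log P.1) ^ (9/4 : ℝ) := Real.rpow_pos_of_pos hLp _
    rw [abs_div, abs_of_pos hNp, div_le_one hNp] at h1
    have h4 : |∫ t in win P.2, ‖riemannZeta (crit t)‖ ^ 2 * XR α (qP p) (fun i => ⌊P.1 ^ θ i⌋₊) t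
        ∂(gaussianReal P.2 (vw P.1))| ≤ |B| * (Real.log P.1) ^ (9/4 : ℝ) := by
      refine (abs_integral_le_integral_abs).trans ?_
      rw [habs P]
      exact h2.trans (mul_le_mul_of_nonneg_right (le_abs_self B) hNp.le)
    have h5 : |TS α (qP p) (fun i => ⌊P.1 ^ θ i⌋₊) P.1| ≤ (|B| + 1) * (Real.log P.1) ^ (9/4 : ℝ) := by
      have h6 := abs_sub_abs_le_abs_sub (TS α (qP p) (fun i => ⌊P.1 ^ θ i⌋₊) P.1)
        (∫ t in win P.2, ‖riemannZeta (crit t)‖ ^ 2 * XR α (qP p) (fun i => ⌊P.1 ^ θ i⌋₊) t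
        ∂(gaussianReal P.2 (vw P.1)))
      rw [abs_sub_comm] at h6
      linarith
    rw [Complex.norm_real, Real.norm_eq_abs, abs_mul]
    have h7 := mul_le_mul_of_nonneg_left h5 (abs_nonneg (cS p))
    have h8 : 0 ≤ |B| * (Real.log P.1) ^ (9/4 : ℝ) := by positivity
    calc |cS p| * |TS α (qP p) (fun i => ⌊P.1 ^ θ i⌋₊) P.1| ≤ |cS p| * ((|B| + 1) * (Real.log P.1) ^ (9/4 : ℝ)) := h7
      _ ≤ (|B| + |cS p| * (|B| + 1)) * (Real.log P.1) ^ (9/4 : ℝ) := by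
          rw [add_mul]
          linarith
  have key := equi (l := Fl η)
    (fun P : ℝ × ℝ => e1bL hξ ((gaussianReal P.2 (vw P.1)).restrict (win P.2))
      (fun t : ℝ => ‖riemannZeta (crit t)‖ ^ 2 * XR α (qP p) (fun i => ⌊P.1 ^ θ i⌋₊) t) hV
      ((cS p * TS α (qP p) (fun i => ⌊P.1 ^ θ i⌋₊) P.1 : ℝ) : ℂ) ((Real.log P.1) ^ (9/4 : ℝ)))
    ((|B| + |cS p| * (|B| + 1)) + (|B| + |cS p| * (|B| + 1)) * ∫ x, |ET p x ^ 2| ∂(muT r))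
    (by
      filter_upwards [hB, hkap, hlog.eventually_ge_atTop 1] with P h2 h3 h4 w
      have hLp : 0 < Real.log P.1 := by linarith
      have hNp : 0 < (Real.log P.1) ^ (9/4 : ℝ) := Real.rpow_pos_of_pos hLp _
      refine b3_norm hξ (hgi P) hV hNp ?_ h3 w
      rw [habs P]
      refine h2.trans (mul_le_mul_of_nonneg_right ?_ hNp.le)
      have h5 : 0 ≤ |cS p| * (|B| + 1) := by positivity
      linarith [le_abs_self B])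
    (by
      intro a
      obtain ⟨hm1, hn1, hmn, -, hco⟩ := mnP hp hinj a
      obtain ⟨Ca, hCa, hta⟩ := b3_mean hη hα hs (qP p) hm1 hn1 hmn hco hθ hθ1
      refine (b3_small hta).congr fun P => ?_
      rw [e1bL_apply hξ hV _ _ (hgi P) _]
      congr 1
      congr 1
      · congr 1
        funext t
        rw [mF_xt hp a t]
      · rw [b3_sqrt, Complex.ofReal_mul, prod_rp hp a, Complex.ofReal_mul]
        ring)
    ⟨fun x => ((w x : ℝ) : ℂ), Complex.continuous_ofReal.comp hw⟩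
  have key2 := (Complex.continuous_re.tendsto 0).comp key
  rw [Complex.zero_re] at key2
  refine key2.congr fun P => ?_
  show (e1bL hξ ((gaussianReal P.2 (vw P.1)).restrict (win P.2))
      (fun t : ℝ => ‖riemannZeta (crit t)‖ ^ 2 * XR α (qP p) (fun i => ⌊P.1 ^ θ i⌋₊) t) hV
      ((cS p * TS α (qP p) (fun i => ⌊P.1 ^ θ i⌋₊) P.1 : ℝ) : ℂ) ((Real.log P.1) ^ (9/4 : ℝ))
      ⟨fun x => ((w x : ℝ) : ℂ), Complex.continuous_ofReal.comp hw⟩).re = _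
  rw [e1bL_apply hξ hV _ _ (hgi P) _]
  simp only [ContinuousMap.coe_mk]
  have h1 : (∫ t, ((‖riemannZeta (crit t)‖ ^ 2 * XR α (qP p) (fun i => ⌊P.1 ^ θ i⌋₊) t : ℝ) : ℂ) * ((w (xt p t) : ℝ) : ℂ)
      ∂((gaussianReal P.2 (vw P.1)).restrict (win P.2))) =
      ((∫ t in win P.2, (‖riemannZeta (crit t)‖ ^ 2 * XR α (qP p) (fun i => ⌊P.1 ^ θ i⌋₊) t) * w (xt p t)
        ∂(gaussianReal P.2 (vw P.1)) : ℝ) : ℂ) := by
    rw [← integral_complex_ofReal]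
    congr 1
    funext t
    push_cast
    rfl
  have h2 : (∫ x, ((w x : ℝ) : ℂ) * ((ET p x ^ 2 : ℝ) : ℂ) ∂(muT r)) =
      ((∫ x, w x * ET p x ^ 2 ∂(muT r) : ℝ) : ℂ) := by
    rw [← integral_complex_ofReal]
    congr 1
    funext t
    push_cast
    rfl
  rw [h1, h2, ← Complex.ofReal_mul, ← Complex.ofReal_sub, ← Complex.ofReal_div, Complex.ofReal_re]

/-- `TS` is at most `C (log T)^(9/4)` if the mean of `|ζ|² XR` is. (`tw_mean` with `m = n = 1`.) -/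
theorem TS_mean {η : ℝ} (hη : 0 < η) {q : ℕ}
    {ι : Type*} [Fintype ι] [DecidableEq ι] {α : ι → ℝ} (hα : ∀ i, 0 ≤ α i) (hs : ∑ i, α i = 1/2)
    {θ : ι → ℝ} (hθ : ∀ i, 0 ≤ θ i) (hθ1 : ∑ i, θ i < 1) :
    Tendsto (fun P : ℝ × ℝ => ((∫ t in win P.2, ‖riemannZeta (crit t)‖ ^ 2 * XR α q (fun i => ⌊P.1 ^ θ i⌋₊) t
        ∂(gaussianReal P.2 (vw P.1))) - TS α q (fun i => ⌊P.1 ^ θ i⌋₊) P.1) / (Real.log P.1) ^ (9/4 : ℝ)) (Fl η) (𝓝 0) :=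
  b3_TS_mean hη hα hs hθ hθ1

end Pool.Agent.LibOH30
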