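import Pool.Agent.LibOH30.Defs

set_option autoImplicit false

namespace Pool.Agent.LibOH30

open MeasureTheory Set Filter Topology Complex ProbabilityTheory
open scoped NNReal ENNReal ComplexConjugate
open Pool.Agent.LibZM Pool.Agent.LibM3 Pool.Agent.LibLaw15

/-! ROW C1a (MEDIUM). Harmonic sums over the integers coprime to `q = ∏ p i`. `cS p = ∏ (1 - 1/p_i)`. By induction on `r` (remove one
prime: `Σ_{j ≤ y, p ∤ j} = Σ_{j ≤ y} - (1/p) Σ_{j ≤ y/p}`), or by Möbius. -/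

/-- the sum -/
private noncomputable def C1aF (q : ℕ) (y : ℝ) : ℝ :=
  ∑ j ∈ (Finset.Icc 1 ⌊y⌋₊).filter (fun j => Nat.Coprime j q), (j:ℝ)⁻¹

private theorem C1a_one : ∀ y : ℝ, 1 ≤ y → |C1aF 1 y - Real.log y| ≤ 1 := by
  intro y hy
  have h1 : C1aF 1 y = ((harmonic ⌊y⌋₊ : ℚ) : ℝ) := by
    unfold C1aF
    rw [harmonic_eq_sum_Icc]
    push_cast
    rw [Finset.filter_true_of_mem fun j _ => Nat.coprime_one_right j]
  rw [h1]
  have h2 := harmonic_floor_le_one_add_log y hy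
  have h3 := log_le_harmonic_floor y (by linarith)
  rw [abs_le]
  constructor <;> linarith

private theorem C1a_step {q l : ℕ} (hl : l.Prime) (hlq : Nat.Coprime l q) (y : ℝ) :
    C1aF (l * q) y = C1aF q y - (l:ℝ)⁻¹ * C1aF q (y / l) := by
  have hl0 : 0 < l := hl.pos
  have hlR : (0:ℝ) < l := by exact_mod_cast hl0
  have h1 : C1aF q y = C1aF (l * q) y +
      ∑ j ∈ (Finset.Icc 1 ⌊y⌋₊).filter (fun j => Nat.Coprime j q ∧ l ∣ j), (j:ℝ)⁻¹ := by
    unfold C1aF
    rw [← Finset.sum_union]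
    · refine Finset.sum_congr ?_ fun _ _ => rfl
      ext j
      simp only [Finset.mem_union, Finset.mem_filter]
      constructor
      · rintro ⟨h, hq⟩
        by_cases hd : l ∣ j
        · exact Or.inr ⟨h, hq, hd⟩
        · exact Or.inl ⟨h, Nat.Coprime.mul_right ((hl.coprime_iff_not_dvd.2 hd).symm) hq⟩
      · rintro (⟨h, hq⟩ | ⟨h, hq, _⟩)
        · exact ⟨h, Nat.Coprime.coprime_mul_left_right hq⟩
        · exact ⟨h, hq⟩
    · rw [Finset.disjoint_left]
      intro j hj hj'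
      rw [Finset.mem_filter] at hj hj'
      have h2 : Nat.Coprime j l := Nat.Coprime.coprime_mul_right_right hj.2
      exact hl.one_lt.ne' ((Nat.Coprime.eq_one_of_dvd h2.symm hj'.2.2))
  have h2 : ∑ j ∈ (Finset.Icc 1 ⌊y⌋₊).filter (fun j => Nat.Coprime j q ∧ l ∣ j), (j:ℝ)⁻¹ =
      (l:ℝ)⁻¹ * C1aF q (y / l) := by
    unfold C1aF
    rw [Finset.mul_sum]
    symm
    refine Finset.sum_bij' (fun j _ => l * j) (fun j _ => j / l) ?_ ?_ ?_ ?_ ?_
    · intro j hj
      rw [Finset.mem_filter, Finset.mem_Icc] at hj ⊢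
      obtain ⟨⟨h3, h4⟩, h5⟩ := hj
      rw [Nat.floor_div_natCast] at h4
      refine ⟨⟨Nat.mul_pos hl0 h3, ?_⟩, Nat.Coprime.mul_left hlq h5, dvd_mul_right _ _⟩
      calc l * j ≤ l * (⌊y⌋₊ / l) := Nat.mul_le_mul_left _ h4
        _ ≤ ⌊y⌋₊ := Nat.mul_div_le _ _
    · intro j hj
      rw [Finset.mem_filter, Finset.mem_Icc] at hj ⊢
      obtain ⟨⟨h3, h4⟩, h5, h6⟩ := hj
      obtain ⟨k, rfl⟩ := h6
      rw [Nat.mul_div_cancel_left _ hl0, Nat.floor_div_natCast]
      have hk : 1 ≤ k := by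
        rcases Nat.eq_zero_or_pos k with h | h
        · subst h
          simp at h3
        · exact h
      refine ⟨⟨hk, ?_⟩, Nat.Coprime.coprime_mul_left h5⟩
      rw [Nat.le_div_iff_mul_le hl0, mul_comm]
      exact h4
    · intro j _
      exact Nat.mul_div_cancel_left _ hl0
    · intro j hj
      rw [Finset.mem_filter] at hj
      exact Nat.mul_div_cancel' hj.2.2
    · intro j _
      push_cast
      rw [mul_inv]
  rw [h1, h2]
  ring

private theorem C1a_ind {r : ℕ} {p : Fin r → ℕ} (hp : ∀ i, (p i).Prime)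
    (hinj : Function.Injective p) (s : Finset (Fin r)) :
    ∃ C : ℝ, 0 < C ∧ ∀ y : ℝ, 1 ≤ y →
      |C1aF (∏ i ∈ s, p i) y - (∏ i ∈ s, (1 - (p i : ℝ)⁻¹)) * Real.log y| ≤ C := by
  classical
  induction s using Finset.induction_on with
  | empty =>
    refine ⟨1, one_pos, fun y hy => ?_⟩
    simpa using C1a_one y hy
  | insert i s hi ih =>
    obtain ⟨C, hC, h⟩ := ih
    set c : ℝ := ∏ i ∈ s, (1 - (p i : ℝ)⁻¹) with hc
    have hfac : ∀ i, 0 ≤ 1 - (p i : ℝ)⁻¹ ∧ 1 - (p i : ℝ)⁻¹ ≤ 1 := by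
      intro i
      have h1 : (1:ℝ) ≤ p i := by exact_mod_cast (hp i).one_lt.le
      have h2 : (p i : ℝ)⁻¹ ≤ 1 := inv_le_one_of_one_le₀ h1
      have h3 : 0 ≤ (p i : ℝ)⁻¹ := by positivity
      constructor <;> linarith
    have hc0 : 0 ≤ c := Finset.prod_nonneg fun i _ => (hfac i).1
    have hc1 : c ≤ 1 := Finset.prod_le_one (fun i _ => (hfac i).1) fun i _ => (hfac i).2
    have hpi : (1:ℝ) < p i := by exact_mod_cast (hp i).one_lt
    have hlog : 0 < Real.log (p i) := Real.log_pos hpi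
    have hcop : Nat.Coprime (p i) (∏ i ∈ s, p i) := by
      refine Nat.Coprime.prod_right fun j hj => ?_
      rw [Nat.coprime_primes (hp i) (hp j)]
      intro h1
      exact hi (hinj h1 ▸ hj)
    refine ⟨2 * C + 2 * Real.log (p i), by positivity, fun y hy => ?_⟩
    rw [Finset.prod_insert hi, Finset.prod_insert hi, C1a_step (hp i) hcop]
    have h1 := h y hy
    have h2 : |C1aF (∏ i ∈ s, p i) (y / p i) - c * Real.log (y / p i)| ≤ C + Real.log (p i) := by
      by_cases hy2 : 1 ≤ y / p i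
      · exact (h _ hy2).trans (by linarith)
      · push Not at hy2
        have h3 : C1aF (∏ i ∈ s, p i) (y / p i) = 0 := by
          unfold C1aF
          rw [Nat.floor_eq_zero.2 hy2]
          simp
        rw [h3, zero_sub, abs_neg, Real.log_div (by linarith) (by linarith), abs_mul,
          abs_of_nonneg hc0]
        have h4 : |Real.log y - Real.log (p i)| ≤ Real.log (p i) := by
          have h5 : 0 ≤ Real.log y := Real.log_nonneg hy
          have h6 : Real.log y ≤ Real.log (p i) := by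
            apply Real.log_le_log (by linarith)
            rw [div_lt_one (by linarith)] at hy2
            exact hy2.le
          rw [abs_le]
          constructor <;> linarith
        have h7 : c * |Real.log y - Real.log (p i)| ≤ 1 * Real.log (p i) :=
          mul_le_mul hc1 h4 (abs_nonneg _) zero_le_one
        linarith
    have hi0 : 0 ≤ (p i : ℝ)⁻¹ := by positivity
    have hi1 : (p i : ℝ)⁻¹ ≤ 1 := inv_le_one_of_one_le₀ hpi.le
    have h3 : C1aF (∏ i ∈ s, p i) y - (p i : ℝ)⁻¹ * C1aF (∏ i ∈ s, p i) (y / p i) -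
        (1 - (p i : ℝ)⁻¹) * c * Real.log y =
        (C1aF (∏ i ∈ s, p i) y - c * Real.log y) -
        (p i : ℝ)⁻¹ * (C1aF (∏ i ∈ s, p i) (y / p i) - c * Real.log (y / p i)) +
        (p i : ℝ)⁻¹ * c * Real.log (p i) := by
      rw [Real.log_div (by linarith) (by linarith)]
      ring
    rw [h3]
    have h4 : |(p i : ℝ)⁻¹ * (C1aF (∏ i ∈ s, p i) (y / p i) - c * Real.log (y / p i))| ≤
        C + Real.log (p i) := by
      rw [abs_mul, abs_of_nonneg hi0]
      calc (p i : ℝ)⁻¹ * |C1aF (∏ i ∈ s, p i) (y / p i) - c * Real.log (y / p i)|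
          ≤ 1 * (C + Real.log (p i)) := mul_le_mul hi1 h2 (abs_nonneg _) zero_le_one
        _ = C + Real.log (p i) := one_mul _
    have h5 : |(p i : ℝ)⁻¹ * c * Real.log (p i)| ≤ Real.log (p i) := by
      rw [abs_mul, abs_mul, abs_of_nonneg hi0, abs_of_nonneg hc0, abs_of_pos hlog]
      have : (p i : ℝ)⁻¹ * c ≤ 1 := mul_le_one₀ hi1 hc0 hc1
      nlinarith
    calc |(C1aF (∏ i ∈ s, p i) y - c * Real.log y) -
        (p i : ℝ)⁻¹ * (C1aF (∏ i ∈ s, p i) (y / p i) - c * Real.log (y / p i)) +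
        (p i : ℝ)⁻¹ * c * Real.log (p i)| ≤ |(C1aF (∏ i ∈ s, p i) y - c * Real.log y)| +
        |(p i : ℝ)⁻¹ * (C1aF (∏ i ∈ s, p i) (y / p i) - c * Real.log (y / p i))| +
        |(p i : ℝ)⁻¹ * c * Real.log (p i)| :=
          (abs_add_le _ _).trans (add_le_add (abs_sub _ _) le_rfl)
      _ ≤ 2 * C + 2 * Real.log (p i) := by linarith

theorem cop_harm {r : ℕ} {p : Fin r → ℕ} (hp : ∀ i, (p i).Prime) (hinj : Function.Injective p) :
    ∃ C : ℝ, 0 < C ∧ ∀ y : ℝ, 1 ≤ y →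
      |∑ j ∈ (Finset.Icc 1 ⌊y⌋₊).filter (fun j => Nat.Coprime j (qP p)), (j:ℝ)⁻¹ - cS p * Real.log y| ≤ C := by
  obtain ⟨C, hC, h⟩ := C1a_ind hp hinj Finset.univ
  refine ⟨C, hC, fun y hy => ?_⟩
  have h1 : cS p = ∏ i, (1 - (p i : ℝ)⁻¹) := by
    unfold cS
    refine Finset.prod_congr rfl fun i _ => ?_
    congr 1
    have h0 : (0:ℝ) ≤ p i := Nat.cast_nonneg _
    unfold rp
    rw [inv_pow, Real.sq_sqrt h0]
  rw [h1]
  exact h y hy

end Pool.Agent.LibOH30
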