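import Pool.Agent.LibOH30.A0

set_option autoImplicit false

namespace Pool.Agent.LibOH30

open MeasureTheory Set Filter Topology Complex ProbabilityTheory
open scoped NNReal ENNReal ComplexConjugate
open Pool.Agent.LibZM Pool.Agent.LibM3 Pool.Agent.LibLaw15

/-! ROW C1b (MEDIUM/STRONG). The zeta vertex. In an array for `Fin.cons 1 α` the entry `0` is `(a, b)` with `a b ≤ N0`, coprime to `q`,
`tau 1 = 1`; `a A = b B` forces `a = j B/g`, `b = j A/g`, `g = gcd A B`, `j ≥ 1` (coprime to `q` as `A, B` are), `1/(aA) = g/(j A B)`,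
`a b = j² (A/g)(B/g)`. -/

private theorem c1b_mem {q N : ℕ} {p : ℕ × ℕ} :
    p ∈ prs q N ↔ (1 ≤ p.1 ∧ 1 ≤ p.2) ∧ p.1 * p.2 ≤ N ∧ Nat.Coprime p.1 q ∧ Nat.Coprime p.2 q := by
  unfold prs
  rw [Finset.mem_filter, Finset.mem_product, Finset.mem_Icc, Finset.mem_Icc]
  constructor
  · rintro ⟨⟨h1, h2⟩, h3⟩
    exact ⟨⟨h1.1, h2.1⟩, h3⟩
  · rintro ⟨⟨h1, h2⟩, h3⟩
    refine ⟨⟨⟨h1, ?_⟩, ⟨h2, ?_⟩⟩, h3⟩
    · exact (Nat.le_mul_of_pos_right _ h2).trans h3.1
    · exact (Nat.le_mul_of_pos_left _ h1).trans h3.1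

private theorem c1b_inner {q N0 A B : ℕ} (hA : 1 ≤ A) (hB : 1 ≤ B) (hAq : Nat.Coprime A q) (hBq : Nat.Coprime B q) :
    (∑ p ∈ prs q N0, if p.1 * A = p.2 * B then ((p.1 : ℝ) * A)⁻¹ else 0) =
      ((Nat.gcd A B : ℝ) / ((A : ℝ) * B)) * ∑ j ∈ (Finset.Icc 1 N0).filter (fun j => Nat.Coprime j q ∧
          j ^ 2 * ((A / Nat.gcd A B) * (B / Nat.gcd A B)) ≤ N0), (j:ℝ)⁻¹ := by
  obtain ⟨g, hg⟩ : ∃ g, g = Nat.gcd A B := ⟨_, rfl⟩
  have hg0 : 0 < g := by rw [hg]; exact Nat.gcd_pos_of_pos_left _ hA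
  obtain ⟨A', hA'⟩ : g ∣ A := by rw [hg]; exact Nat.gcd_dvd_left A B
  obtain ⟨B', hB'⟩ : g ∣ B := by rw [hg]; exact Nat.gcd_dvd_right A B
  rw [← hg]
  have e1 : A / g = A' := by rw [hA']; exact Nat.mul_div_cancel_left _ hg0
  have e2 : B / g = B' := by rw [hB']; exact Nat.mul_div_cancel_left _ hg0
  have hcop : Nat.Coprime A' B' := by
    have := Nat.coprime_div_gcd_div_gcd (m := A) (n := B) (by rw [← hg]; exact hg0)
    rw [← hg, e1, e2] at this
    exact this
  have hA'0 : 0 < A' := by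
    rcases Nat.eq_zero_or_pos A' with h | h
    · rw [h, mul_zero] at hA'
      omega
    · exact h
  have hB'0 : 0 < B' := by
    rcases Nat.eq_zero_or_pos B' with h | h
    · rw [h, mul_zero] at hB'
      omega
    · exact h
  have hA'q : Nat.Coprime A' q := Nat.Coprime.coprime_dvd_left ⟨g, by rw [hA']; ring⟩ hAq
  have hB'q : Nat.Coprime B' q := Nat.Coprime.coprime_dvd_left ⟨g, by rw [hB']; ring⟩ hBq
  rw [e1, e2, ← Finset.sum_filter, Finset.mul_sum]
  symm
  refine Finset.sum_bij (fun (j : ℕ) _ => (j * B', j * A')) ?_ ?_ ?_ ?_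
  · intro j hj
    rw [Finset.mem_filter, Finset.mem_Icc] at hj
    obtain ⟨⟨hj1, hj2⟩, hjq, hjN⟩ := hj
    rw [Finset.mem_filter, c1b_mem]
    refine ⟨⟨⟨?_, ?_⟩, ?_, ?_, ?_⟩, ?_⟩
    · exact Nat.mul_pos hj1 hB'0
    · exact Nat.mul_pos hj1 hA'0
    · show j * B' * (j * A') ≤ N0
      calc j * B' * (j * A') = j ^ 2 * (A' * B') := by ring
        _ ≤ N0 := hjN
    · exact Nat.Coprime.mul_left hjq hB'q
    · exact Nat.Coprime.mul_left hjq hA'q
    · show j * B' * A = j * A' * B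
      rw [hA', hB']
      ring
  · intro j1 _ j2 _ h
    have h1 : j1 * B' = j2 * B' := congrArg Prod.fst h
    exact Nat.eq_of_mul_eq_mul_right hB'0 h1
  · rintro ⟨m, n⟩ hp
    rw [Finset.mem_filter, c1b_mem] at hp
    obtain ⟨⟨⟨hm, hn⟩, hmn, hmq, hnq⟩, he⟩ := hp
    simp only at hm hn hmn hmq hnq he
    have he' : m * A' = n * B' := by
      rw [hA', hB'] at he
      have : g * (m * A') = g * (n * B') := by
        calc g * (m * A') = m * (g * A') := by ring
          _ = n * (g * B') := he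
          _ = g * (n * B') := by ring
      exact Nat.eq_of_mul_eq_mul_left hg0 this
    obtain ⟨j, hj⟩ : B' ∣ m := by
      have : B' ∣ m * A' := ⟨n, by rw [he']; ring⟩
      exact hcop.symm.dvd_of_dvd_mul_right this
    have hn' : n = j * A' := by
      have : B' * n = B' * (j * A') := by
        calc B' * n = n * B' := by ring
          _ = m * A' := he'.symm
          _ = B' * (j * A') := by rw [hj]; ring
      exact Nat.eq_of_mul_eq_mul_left hB'0 this
    have hj0 : 0 < j := by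
      rcases Nat.eq_zero_or_pos j with h | h
      · rw [h, mul_zero] at hj
        omega
      · exact h
    have hjN : j ^ 2 * (A' * B') ≤ N0 := by
      calc j ^ 2 * (A' * B') = m * n := by rw [hj, hn']; ring
        _ ≤ N0 := hmn
    refine ⟨j, ?_, ?_⟩
    · rw [Finset.mem_filter, Finset.mem_Icc]
      refine ⟨⟨hj0, ?_⟩, ?_, hjN⟩
      · refine le_trans ?_ hjN
        calc j = j * 1 := by ring
          _ ≤ j * (j * (A' * B')) := Nat.mul_le_mul_left _ (Nat.mul_pos hj0 (Nat.mul_pos hA'0 hB'0))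
          _ = j ^ 2 * (A' * B') := by ring
      · exact Nat.Coprime.coprime_dvd_left ⟨B', by rw [hj]; ring⟩ hmq
    · rw [hn', hj]
      congr 1
      ring
  · intro j hj
    rw [Finset.mem_filter, Finset.mem_Icc] at hj
    obtain ⟨⟨hj1, hj2⟩, hjq, hjN⟩ := hj
    have hjr : (j : ℝ) ≠ 0 := by exact_mod_cast (show j ≠ 0 by omega)
    have hgr : (g : ℝ) ≠ 0 := by exact_mod_cast hg0.ne'
    have hAr : (A' : ℝ) ≠ 0 := by exact_mod_cast hA'0.ne'
    have hBr : (B' : ℝ) ≠ 0 := by exact_mod_cast hB'0.ne'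
    show (g : ℝ) / ((A : ℝ) * B) * (j : ℝ)⁻¹ = (((j * B' : ℕ) : ℝ) * A)⁻¹
    rw [hA', hB']
    push_cast
    field_simp

theorem ds_cons {k : ℕ} (α : Fin k → ℝ) (q N0 : ℕ) (N : Fin k → ℕ) :
    DS (Fin.cons 1 α : Fin (k + 1) → ℝ) q (Fin.cons N0 N : Fin (k + 1) → ℕ) =
      ∑ x ∈ arr q N, co α x * ((Nat.gcd (An x) (Bn x) : ℝ) / ((An x : ℝ) * Bn x)) *
        ∑ j ∈ (Finset.Icc 1 N0).filter (fun j => Nat.Coprime j q ∧
          j ^ 2 * ((An x / Nat.gcd (An x) (Bn x)) * (Bn x / Nat.gcd (An x) (Bn x))) ≤ N0), (j:ℝ)⁻¹ := by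
  have h1 : DS (Fin.cons 1 α : Fin (k + 1) → ℝ) q (Fin.cons N0 N : Fin (k + 1) → ℕ) =
      ∑ z ∈ arr q N ×ˢ prs q N0, co α z.1 * (if z.2.1 * An z.1 = z.2.2 * Bn z.1 then ((z.2.1 : ℝ) * An z.1)⁻¹ else 0) := by
    unfold DS
    refine Finset.sum_bij' (fun (y : Fin (k + 1) → ℕ × ℕ) _ => ((Fin.tail y : Fin k → ℕ × ℕ), y 0))
      (fun (z : (Fin k → ℕ × ℕ) × (ℕ × ℕ)) _ => (Fin.cons z.2 z.1 : Fin (k + 1) → ℕ × ℕ)) ?_ ?_ ?_ ?_ ?_
    · intro y hy
      unfold arr at hy
      rw [Fintype.mem_piFinset] at hy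
      rw [Finset.mem_product]
      refine ⟨?_, ?_⟩
      · unfold arr
        rw [Fintype.mem_piFinset]
        intro i
        have := hy i.succ
        rw [Fin.cons_succ] at this
        exact this
      · have := hy 0
        rw [Fin.cons_zero] at this
        exact this
    · intro z hz
      rw [Finset.mem_product] at hz
      obtain ⟨hz1, hz2⟩ := hz
      unfold arr at hz1 ⊢
      rw [Fintype.mem_piFinset] at hz1 ⊢
      intro i
      refine Fin.cases ?_ ?_ i
      · rw [Fin.cons_zero, Fin.cons_zero]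
        exact hz2
      · intro i
        rw [Fin.cons_succ, Fin.cons_succ]
        exact hz1 i
    · intro y _
      exact Fin.cons_self_tail y
    · intro z _
      rfl
    · intro y hy
      unfold arr at hy
      rw [Fintype.mem_piFinset] at hy
      have hy0 := hy 0
      rw [Fin.cons_zero, c1b_mem] at hy0
      have hco : co (Fin.cons 1 α : Fin (k + 1) → ℝ) y = co α (Fin.tail y) := by
        unfold co
        rw [Fin.prod_univ_succ]
        rw [Fin.cons_zero, tau_one_apply (show (y 0).1 ≠ 0 by omega), tau_one_apply (show (y 0).2 ≠ 0 by omega), one_mul,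
          one_mul]
        refine Finset.prod_congr rfl fun i _ => ?_
        rw [Fin.cons_succ]
        rfl
      have hAn : An y = (y 0).1 * An (Fin.tail y) := by
        unfold An
        rw [Fin.prod_univ_succ]
        rfl
      have hBn : Bn y = (y 0).2 * Bn (Fin.tail y) := by
        unfold Bn
        rw [Fin.prod_univ_succ]
        rfl
      rw [hco, hAn, hBn]
      show _ = co α (Fin.tail y) * (if (y 0).1 * An (Fin.tail y) = (y 0).2 * Bn (Fin.tail y) then
        (((y 0).1 : ℝ) * An (Fin.tail y))⁻¹ else 0)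
      split_ifs with h
      · push_cast
        rw [div_eq_mul_inv]
      · rw [mul_zero]
  rw [h1, Finset.sum_product]
  refine Finset.sum_congr rfl fun x hx => ?_
  obtain ⟨hA, hB, hAq, hBq, -⟩ := arr_props hx
  dsimp only
  rw [← Finset.mul_sum, c1b_inner hA hB hAq hBq, mul_assoc]

end Pool.Agent.LibOH30
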