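import Pool.Agent.LibOH30.C1a
import Pool.Agent.LibOH30.C1b
import Pool.Agent.LibOH30.B2b

set_option autoImplicit false

namespace Pool.Agent.LibOH30

open MeasureTheory Set Filter Topology Complex ProbabilityTheory
open scoped NNReal ENNReal ComplexConjugate
open Pool.Agent.LibZM Pool.Agent.LibM3 Pool.Agent.LibLaw15

/-! ROW C1c (MEDIUM). `cS · TS = 2 DS(with the zeta vertex) + O((log T)^{5/4})`: for each array the inner sum of `ds_cons` is over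
`j ≤ √(⌊T⌋ g²/(AB))`; with `y = √(T g²/(AB))` (the condition `j² (A/g)(B/g) ≤ ⌊T⌋` is `j ≤ y`), `2 Σ_j = 2 cS log y + O(1) = cS ell + O(1)`
by `cop_harm` if `y ≥ 1`, and both sides vanish if `y < 1`. Then `sum_g_le` with `M = ⌊T⌋` and `sum_gk_le`. -/

/-- The inner sum as a sum over `j ≤ y`. -/
private lemma c1c_set {T : ℝ} (hT : 0 ≤ T) {W q : ℕ} (hW : 1 ≤ W) :
    ((Finset.Icc 1 ⌊T⌋₊).filter fun j => Nat.Coprime j q ∧ j ^ 2 * W ≤ ⌊T⌋₊) =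
      (Finset.Icc 1 ⌊√(T / W)⌋₊).filter fun j => Nat.Coprime j q := by
  have hW0 : (0:ℝ) < W := by exact_mod_cast hW
  ext j
  simp only [Finset.mem_filter, Finset.mem_Icc]
  have key (hj : 0 < j) : j ≤ ⌊√(T / W)⌋₊ ↔ j ^ 2 * W ≤ ⌊T⌋₊ := by
    have h0 : (0:ℝ) ≤ T / W := div_nonneg hT hW0.le
    rw [Nat.le_floor_iff (Real.sqrt_nonneg _), Nat.le_floor_iff hT, Real.le_sqrt' (by exact_mod_cast hj),
      le_div_iff₀ hW0]
    push_cast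
    exact Iff.rfl
  constructor
  · rintro ⟨⟨h1, _⟩, h3, h4⟩
    exact ⟨⟨h1, (key h1).2 h4⟩, h3⟩
  · rintro ⟨⟨h1, h2⟩, h3⟩
    have h4 := (key h1).1 h2
    refine ⟨⟨h1, ?_⟩, h3, h4⟩
    calc j ≤ j ^ 2 * W := by nlinarith [Nat.mul_le_mul h1 hW, Nat.mul_le_mul_left j h1]
      _ ≤ _ := h4

/-- One array. -/
private lemma c1c_one {c C : ℝ} {q : ℕ} (hC : 0 < C)
    (h : ∀ y : ℝ, 1 ≤ y → |∑ j ∈ (Finset.Icc 1 ⌊y⌋₊).filter (fun j => Nat.Coprime j q), (j:ℝ)⁻¹ - c * Real.log y| ≤ C)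
    {T : ℝ} (hT : 0 < T) {A B : ℕ} (hA : 1 ≤ A) (hB : 1 ≤ B) :
    |c * ell T A B - 2 * ∑ j ∈ (Finset.Icc 1 ⌊T⌋₊).filter (fun j => Nat.Coprime j q ∧
          j ^ 2 * ((A / Nat.gcd A B) * (B / Nat.gcd A B)) ≤ ⌊T⌋₊), (j:ℝ)⁻¹| ≤ 2 * C := by
  have hg : 0 < Nat.gcd A B := Nat.gcd_pos_of_pos_left B hA
  have hgA := Nat.gcd_dvd_left A B
  have hgB := Nat.gcd_dvd_right A B
  have hA' : 0 < A / Nat.gcd A B := Nat.div_pos (Nat.le_of_dvd hA hgA) hg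
  have hB' : 0 < B / Nat.gcd A B := Nat.div_pos (Nat.le_of_dvd hB hgB) hg
  set W : ℕ := (A / Nat.gcd A B) * (B / Nat.gcd A B) with hWdef
  have hW : 1 ≤ W := Nat.mul_pos hA' hB'
  have hW0 : (0:ℝ) < W := by exact_mod_cast hW
  have hA0 : (0:ℝ) < A := by exact_mod_cast hA
  have hB0 : (0:ℝ) < B := by exact_mod_cast hB
  have hg0 : (0:ℝ) < Nat.gcd A B := by exact_mod_cast hg
  have hWr : (W:ℝ) = (A / (Nat.gcd A B : ℝ)) * (B / (Nat.gcd A B : ℝ)) := by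
    rw [hWdef]
    push_cast [Nat.cast_div hgA hg0.ne', Nat.cast_div hgB hg0.ne']
    rfl
  have harg : T * (Nat.gcd A B : ℝ) ^ 2 / ((A:ℝ) * B) = T / W := by
    rw [hWr]
    field_simp
  rw [c1c_set hT.le hW]
  unfold ell
  rw [harg]
  rcases le_or_gt 1 √(T / W) with hy | hy
  · have h1 := h _ hy
    have h2 : Real.log (T / W) = 2 * Real.log √(T / W) := by
      rw [Real.log_sqrt (by positivity)]
      ring
    have h3 : 0 ≤ Real.log √(T / W) := Real.log_nonneg hy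
    rw [max_eq_right (by rw [h2]; linarith), h2]
    rw [abs_le] at h1 ⊢
    constructor <;> linarith [h1.1, h1.2]
  · have h0 : T / W < 1 := by
      by_contra h5
      rw [not_lt] at h5
      exact absurd (Real.one_le_sqrt.2 h5) (not_le.2 hy)
    have h2 : Real.log (T / W) ≤ 0 := Real.log_nonpos (by positivity) h0.le
    have h3 : ⌊√(T / W)⌋₊ = 0 := Nat.floor_eq_zero.2 hy
    rw [max_eq_left h2, h3]
    simp
    exact hC.le

theorem ds_ts {r : ℕ} {p : Fin r → ℕ} (hp : ∀ i, (p i).Prime) (hinj : Function.Injective p) {k : ℕ} {α : Fin k → ℝ}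
    (hα : ∀ i, 0 ≤ α i) (hs : ∑ i, α i = 1/2) : ∃ C : ℝ, 0 < C ∧ ∀ᶠ T : ℝ in atTop, ∀ N : Fin k → ℕ, ((∏ i, N i : ℕ) : ℝ) ≤ T →
      |cS p * TS α (qP p) N T - 2 * DS (Fin.cons 1 α : Fin (k + 1) → ℝ) (qP p) (Fin.cons ⌊T⌋₊ N : Fin (k + 1) → ℕ)| ≤
        C * (Real.log T) ^ (5/4 : ℝ) := by
  obtain ⟨C1, hC1, h1⟩ := cop_harm hp hinj
  obtain ⟨C2, hC2, h2⟩ := sum_gk_le
  refine ⟨2 * C1 * (C2 * 2 ^ (5/4 : ℝ)), by positivity, ?_⟩
  filter_upwards [eventually_ge_atTop (Real.exp 1)] with T hT N hN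
  have hT1 : 1 ≤ T := by
    have := Real.add_one_le_exp 1
    linarith
  have hT0 : 0 < T := by linarith
  have hlog : 1 ≤ Real.log T := by
    rw [Real.le_log_iff_exp_le hT0]
    exact hT
  have hM1 : 1 ≤ ⌊T⌋₊ := by
    rw [Nat.le_floor_iff hT0.le]
    exact_mod_cast hT1
  have hM : ∏ i, N i ≤ ⌊T⌋₊ := Nat.le_floor hN
  rw [ds_cons]
  unfold TS
  rw [Finset.mul_sum, Finset.mul_sum, ← Finset.sum_sub_distrib]
  refine (Finset.abs_sum_le_sum_abs _ _).trans ?_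
  have hterm : ∀ x ∈ arr (qP p) N,
      |cS p * (co α x * ((Nat.gcd (An x) (Bn x) : ℝ) / ((An x : ℝ) * Bn x)) * ell T (An x) (Bn x)) -
        2 * (co α x * ((Nat.gcd (An x) (Bn x) : ℝ) / ((An x : ℝ) * Bn x)) *
          ∑ j ∈ (Finset.Icc 1 ⌊T⌋₊).filter (fun j => Nat.Coprime j (qP p) ∧
            j ^ 2 * ((An x / Nat.gcd (An x) (Bn x)) * (Bn x / Nat.gcd (An x) (Bn x))) ≤ ⌊T⌋₊), (j:ℝ)⁻¹)| ≤
        2 * C1 * (co α x * ((Nat.gcd (An x) (Bn x) : ℝ) / ((An x : ℝ) * Bn x))) := by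
    intro x hx
    obtain ⟨hA, hB, -⟩ := arr_props hx
    have h5 := c1c_one hC1 h1 hT0 hA hB
    have h6 : 0 ≤ co α x * ((Nat.gcd (An x) (Bn x) : ℝ) / ((An x : ℝ) * Bn x)) :=
      mul_nonneg (co_nonneg hα x) (by positivity)
    set w := co α x * ((Nat.gcd (An x) (Bn x) : ℝ) / ((An x : ℝ) * Bn x))
    set S := ∑ j ∈ (Finset.Icc 1 ⌊T⌋₊).filter (fun j => Nat.Coprime j (qP p) ∧
            j ^ 2 * ((An x / Nat.gcd (An x) (Bn x)) * (Bn x / Nat.gcd (An x) (Bn x))) ≤ ⌊T⌋₊), (j:ℝ)⁻¹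
    have e : cS p * (w * ell T (An x) (Bn x)) - 2 * (w * S) = w * (cS p * ell T (An x) (Bn x) - 2 * S) := by ring
    rw [e, abs_mul, abs_of_nonneg h6]
    have h7 := mul_le_mul_of_nonneg_left h5 h6
    linarith
  refine (Finset.sum_le_sum hterm).trans ?_
  rw [← Finset.mul_sum]
  have h8 := sum_g_le (q := qP p) hα hs hM
  have h9 := h2 ⌊T⌋₊ hM1
  have h10 : (C2 * (1 + Real.log (⌊T⌋₊ : ℕ)) ^ (5/4 : ℝ)) ≤ C2 * 2 ^ (5/4 : ℝ) * (Real.log T) ^ (5/4 : ℝ) := by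
    rw [mul_assoc, ← Real.mul_rpow (by norm_num) (by linarith)]
    apply mul_le_mul_of_nonneg_left _ hC2.le
    have h11 : Real.log (⌊T⌋₊ : ℕ) ≤ Real.log T := by
      apply Real.log_le_log
      · exact_mod_cast hM1
      · exact Nat.floor_le hT0.le
    have h12 : 0 ≤ Real.log (⌊T⌋₊ : ℕ) := Real.log_natCast_nonneg _
    apply Real.rpow_le_rpow (by linarith) (by linarith) (by norm_num)
  calc 2 * C1 * ∑ x ∈ arr (qP p) N, co α x * ((Nat.gcd (An x) (Bn x) : ℝ) / ((An x : ℝ) * Bn x))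
      ≤ 2 * C1 * (C2 * 2 ^ (5/4 : ℝ) * (Real.log T) ^ (5/4 : ℝ)) := by
        apply mul_le_mul_of_nonneg_left _ (by positivity)
        exact h8.trans (h9.trans h10)
    _ = _ := by ring

end Pool.Agent.LibOH30
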