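import Mathlib

set_option autoImplicit false

namespace Pool.Agent.LibOH30

open MeasureTheory Set Filter Topology Complex ProbabilityTheory
open scoped NNReal ENNReal ComplexConjugate

/-! ROW D1 (STRONG, ONLY MATHLIB). From Laplace transforms to boxes, in any dimension. Put `y_i = exp(-z_i)`; the measures
`exp(-∑ z_i) dμ_δ` are finite (for small `δ`), their moments `∫ ∏ y_i^{v_i}` converge (`s_i = v_i + 1`), so by Stone-Weierstrass on the
cube `[0,1]^ι` (template for five variables: `weier5` in LibSM56/F_13, `g5_approx`, `SL5_limit`; take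
`exists_mem_subalgebra_near_continuous_of_separatesPoints`) `∫ F dμ_δ → ∫ F dν` for every continuous `F` with compact support.
Upper bound: continuous `F ≥ 1` on `{z ≤ θ} ∩ [0,∞)^ι`, decreasing to the indicator (`∏ max 0 (1 - n (z_i - θ_i)⁺)`). Lower bound: increasing
to the indicator of the open box (`∏ min 1 (n (θ_i - z_i)⁺)`). -/

private noncomputable def D1E {ι : Type*} (z : ι → ℝ) : ι → unitInterval :=
  fun i => Set.projIcc (0:ℝ) 1 zero_le_one (Real.exp (-(z i)))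

private theorem D1E_cont {ι : Type*} : Continuous (D1E : (ι → ℝ) → ι → unitInterval) := by
  unfold D1E
  exact continuous_pi fun i => continuous_projIcc.comp (by fun_prop)

private theorem D1E_val {ι : Type*} (z : ι → ℝ) (i : ι) (hz : 0 ≤ z i) :
    ((D1E z i : unitInterval) : ℝ) = Real.exp (-(z i)) := by
  unfold D1E
  rw [Set.projIcc_of_mem zero_le_one ⟨(Real.exp_pos _).le, Real.exp_le_one_iff.mpr (by linarith)⟩]

private noncomputable def D1W {ι : Type*} [Fintype ι] (z : ι → ℝ) : ℝ≥0∞ :=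
  ENNReal.ofReal (Real.exp (-∑ i, z i))

private theorem D1W_meas {ι : Type*} [Fintype ι] : Measurable (D1W : (ι → ℝ) → ℝ≥0∞) := by
  unfold D1W
  fun_prop

private noncomputable def D1P {ι : Type*} [Fintype ι] (μ : Measure (ι → ℝ)) :
    Measure (ι → unitInterval) :=
  (μ.withDensity D1W).map D1E

private theorem D1_lint {ι : Type*} [Fintype ι] (μ : Measure (ι → ℝ))
    (g : (ι → unitInterval) → ℝ≥0∞) (hg : Measurable g) :
    ∫⁻ y, g y ∂(D1P μ) = ∫⁻ z, g (D1E z) * D1W z ∂μ := by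
  unfold D1P
  rw [lintegral_map hg D1E_cont.measurable,
    lintegral_withDensity_eq_lintegral_mul μ D1W_meas
      (show Measurable fun z => g (D1E z) from hg.comp D1E_cont.measurable)]
  refine lintegral_congr fun z => ?_
  rw [Pi.mul_apply, mul_comm]

private theorem D1_mono {ι : Type*} [Fintype ι] (μ : Measure (ι → ℝ))
    (hμ : ∀ᵐ z ∂μ, ∀ i, 0 ≤ z i) (v : ι → ℕ) :
    ∫⁻ y, ENNReal.ofReal (∏ i, ((y i : unitInterval) : ℝ) ^ (v i)) ∂(D1P μ) =
      ∫⁻ z, ENNReal.ofReal (Real.exp (-∑ i, ((v i : ℝ) + 1) * z i)) ∂μ := by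
  rw [D1_lint _ _ (by fun_prop)]
  refine lintegral_congr_ae ?_
  filter_upwards [hμ] with z hz
  unfold D1W
  rw [← ENNReal.ofReal_mul (Finset.prod_nonneg fun i _ => pow_nonneg (D1E z i).2.1 _)]
  congr 1
  rw [Finset.prod_congr rfl (fun i _ => by rw [D1E_val z i (hz i), ← Real.exp_nat_mul])]
  rw [← Real.exp_sum, ← Real.exp_add]
  congr 1
  rw [← Finset.sum_neg_distrib, ← Finset.sum_neg_distrib, ← Finset.sum_add_distrib]
  refine Finset.sum_congr rfl fun i _ => ?_
  ring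

private theorem D1_fin {ι : Type*} [Fintype ι] {l : Filter ℝ}
    (P : ℝ → Measure (ι → unitInterval)) (Q : Measure (ι → unitInterval)) [IsFiniteMeasure Q]
    (h : ∀ v : ι → ℕ, Tendsto (fun δ => ∫⁻ y, ENNReal.ofReal (∏ i, ((y i : unitInterval) : ℝ) ^ (v i)) ∂(P δ)) l
      (𝓝 (∫⁻ y, ENNReal.ofReal (∏ i, ((y i : unitInterval) : ℝ) ^ (v i)) ∂Q))) :
    ∀ᶠ δ in l, P δ univ ≤ Q univ + 1 := by
  have h0 := h 0
  simp only [Pi.zero_apply, pow_zero, Finset.prod_const_one, ENNReal.ofReal_one, lintegral_one] at h0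
  have h1 : Q univ < Q univ + 1 := ENNReal.lt_add_right (measure_ne_top Q univ) one_ne_zero
  filter_upwards [h0.eventually (gt_mem_nhds h1)] with δ hδ
  exact hδ.le

private theorem D1_int {ι : Type*} [Fintype ι] (P : Measure (ι → unitInterval)) [IsFiniteMeasure P]
    (f : C(ι → unitInterval, ℝ)) : Integrable (fun y => f y) P :=
  f.continuous.integrable_of_hasCompactSupport (HasCompactSupport.of_compactSpace _)

private noncomputable def D1c {ι : Type*} (i : ι) : C(ι → unitInterval, ℝ) :=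
  ⟨fun y => ((y i : unitInterval) : ℝ), by fun_prop⟩

private theorem D1_poly {ι : Type*} [Fintype ι] {l : Filter ℝ}
    (P : ℝ → Measure (ι → unitInterval)) (Q : Measure (ι → unitInterval)) [IsFiniteMeasure Q]
    (h : ∀ v : ι → ℕ, Tendsto (fun δ => ∫⁻ y, ENNReal.ofReal (∏ i, ((y i : unitInterval) : ℝ) ^ (v i)) ∂(P δ)) l
      (𝓝 (∫⁻ y, ENNReal.ofReal (∏ i, ((y i : unitInterval) : ℝ) ^ (v i)) ∂Q)))
    (p : MvPolynomial ι ℝ) :
    Tendsto (fun δ => ∫ y, (MvPolynomial.aeval D1c p : C(ι → unitInterval, ℝ)) y ∂(P δ)) l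
      (𝓝 (∫ y, (MvPolynomial.aeval D1c p : C(ι → unitInterval, ℝ)) y ∂Q)) := by
  have hfin := D1_fin P Q h
  induction p using MvPolynomial.induction_on' with
  | monomial s a =>
    have hval : ∀ y : ι → unitInterval,
        (MvPolynomial.aeval D1c (MvPolynomial.monomial s a) : C(ι → unitInterval, ℝ)) y =
          a * ∏ i, ((y i : unitInterval) : ℝ) ^ (s i) := by
      intro y
      rw [MvPolynomial.aeval_monomial, Finsupp.prod_fintype _ _ (fun i => pow_zero _)]
      simp [D1c]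
    have hI : ∀ m : Measure (ι → unitInterval),
        ∫ y, (MvPolynomial.aeval D1c (MvPolynomial.monomial s a) : C(ι → unitInterval, ℝ)) y ∂m =
          a * (∫⁻ y, ENNReal.ofReal (∏ i, ((y i : unitInterval) : ℝ) ^ (s i)) ∂m).toReal := by
      intro m
      simp only [hval]
      rw [integral_const_mul, integral_eq_lintegral_of_nonneg_ae]
      · exact Filter.Eventually.of_forall fun y => Finset.prod_nonneg fun i _ => pow_nonneg (y i).2.1 _
      · exact (Continuous.aestronglyMeasurable (by fun_prop))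
    simp only [hI]
    refine Tendsto.const_mul a ((ENNReal.tendsto_toReal ?_).comp (h s))
    have h2 : ∫⁻ y, ENNReal.ofReal (∏ i, ((y i : unitInterval) : ℝ) ^ (s i)) ∂Q ≤ ∫⁻ y, 1 ∂Q := by
      refine lintegral_mono fun y => ?_
      rw [← ENNReal.ofReal_one]
      exact ENNReal.ofReal_le_ofReal (Finset.prod_le_one (fun i _ => pow_nonneg (y i).2.1 _)
        (fun i _ => pow_le_one₀ (y i).2.1 (y i).2.2))
    rw [lintegral_one] at h2
    exact ne_top_of_le_ne_top (measure_ne_top Q univ) h2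
  | add p q hp hq =>
    have hQ : ∫ y, (MvPolynomial.aeval D1c (p + q) : C(ι → unitInterval, ℝ)) y ∂Q =
        ∫ y, (MvPolynomial.aeval D1c p : C(ι → unitInterval, ℝ)) y ∂Q +
        ∫ y, (MvPolynomial.aeval D1c q : C(ι → unitInterval, ℝ)) y ∂Q := by
      rw [← integral_add (D1_int Q _) (D1_int Q _)]
      simp [map_add]
    rw [hQ]
    refine (hp.add hq).congr' ?_
    filter_upwards [hfin] with δ hδ
    have : IsFiniteMeasure (P δ) := ⟨lt_of_le_of_lt hδ (ENNReal.add_lt_top.mpr ⟨measure_lt_top Q univ, ENNReal.one_lt_top⟩)⟩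
    rw [← integral_add (D1_int (P δ) _) (D1_int (P δ) _)]
    simp [map_add]

private theorem D1_sw {ι : Type*} [Fintype ι] (f : C(ι → unitInterval, ℝ)) (ε : ℝ) (hε : 0 < ε) :
    ∃ p : MvPolynomial ι ℝ, ∀ y, |(MvPolynomial.aeval D1c p : C(ι → unitInterval, ℝ)) y - f y| ≤ ε := by
  have hsep : (Algebra.adjoin ℝ (Set.range (D1c : ι → C(ι → unitInterval, ℝ)))).SeparatesPoints := by
    intro x y hxy
    obtain ⟨i, hi⟩ := Function.ne_iff.mp hxy
    exact ⟨_, ⟨D1c i, Algebra.subset_adjoin ⟨i, rfl⟩, rfl⟩, fun h => hi (Subtype.ext h)⟩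
  obtain ⟨g, hg⟩ := ContinuousMap.exists_mem_subalgebra_near_continuous_of_separatesPoints
    (Algebra.adjoin ℝ (Set.range (D1c : ι → C(ι → unitInterval, ℝ)))) hsep
    (fun y => f y) f.continuous ε hε
  have hmem : (g : C(ι → unitInterval, ℝ)) ∈
      (MvPolynomial.aeval D1c : MvPolynomial ι ℝ →ₐ[ℝ] _).range := by
    rw [← Algebra.adjoin_range_eq_range_aeval]
    exact g.2
  obtain ⟨p, hp⟩ := hmem
  refine ⟨p, fun y => ?_⟩
  have h1 := hg y
  rw [← Real.norm_eq_abs]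
  have h2 : (MvPolynomial.aeval D1c p : C(ι → unitInterval, ℝ)) y = (g : C(ι → unitInterval, ℝ)) y := by
    rw [← hp]
    rfl
  rw [h2]
  exact h1.le

private theorem D1_real {ι : Type*} [Fintype ι] {l : Filter ℝ}
    (P : ℝ → Measure (ι → unitInterval)) (Q : Measure (ι → unitInterval)) [IsFiniteMeasure Q]
    (h : ∀ v : ι → ℕ, Tendsto (fun δ => ∫⁻ y, ENNReal.ofReal (∏ i, ((y i : unitInterval) : ℝ) ^ (v i)) ∂(P δ)) l
      (𝓝 (∫⁻ y, ENNReal.ofReal (∏ i, ((y i : unitInterval) : ℝ) ^ (v i)) ∂Q)))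
    (f : C(ι → unitInterval, ℝ)) :
    Tendsto (fun δ => ∫ y, f y ∂(P δ)) l (𝓝 (∫ y, f y ∂Q)) := by
  have hfin := D1_fin P Q h
  set M : ℝ := (Q univ + 1).toReal with hM
  have hMtop : Q univ + 1 ≠ ∞ := (ENNReal.add_lt_top.mpr ⟨measure_lt_top Q univ, ENNReal.one_lt_top⟩).ne
  have hM0 : 0 ≤ M := ENNReal.toReal_nonneg
  rw [Metric.tendsto_nhds]
  intro ε hε
  set η : ℝ := ε / (3 * (M + 1)) with hη
  have hη0 : 0 < η := by positivity
  obtain ⟨p, hp⟩ := D1_sw f η hη0
  set g : C(ι → unitInterval, ℝ) := MvPolynomial.aeval D1c p with hg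
  have hdiff : ∀ m : Measure (ι → unitInterval), m univ ≤ Q univ + 1 →
      |(∫ y, f y ∂m) - ∫ y, g y ∂m| ≤ η * M := by
    intro m hR
    have : IsFiniteMeasure m := ⟨lt_of_le_of_lt hR (lt_top_iff_ne_top.mpr hMtop)⟩
    rw [← integral_sub (D1_int m f) (D1_int m g), ← Real.norm_eq_abs]
    refine (norm_integral_le_of_norm_le_const (C := η)
      (Filter.Eventually.of_forall fun y => ?_)).trans ?_
    · rw [Real.norm_eq_abs, abs_sub_comm]
      exact hp y
    · refine mul_le_mul_of_nonneg_left ?_ hη0.le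
      exact ENNReal.toReal_mono hMtop hR
  have hpoly := D1_poly P Q h p
  rw [Metric.tendsto_nhds] at hpoly
  have hsmall : η * M ≤ ε / 3 := by
    have h1 : η * M ≤ η * (M + 1) := mul_le_mul_of_nonneg_left (by linarith) hη0.le
    have h2 : η * (M + 1) = ε / 3 := by
      rw [hη]
      field_simp
    linarith
  filter_upwards [hfin, hpoly (ε / 3) (by positivity)] with δ hδ hδ2
  have h1 := hdiff (P δ) hδ
  have h2 := hdiff Q le_self_add
  rw [Real.dist_eq] at hδ2 ⊢
  have h3 : (∫ y, f y ∂(P δ)) - ∫ y, f y ∂Q =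
      ((∫ y, f y ∂(P δ)) - ∫ y, g y ∂(P δ)) + ((∫ y, g y ∂(P δ)) - ∫ y, g y ∂Q) -
        ((∫ y, f y ∂Q) - ∫ y, g y ∂Q) := by ring
  rw [h3]
  rw [abs_le] at h1 h2
  rw [abs_lt] at hδ2 ⊢
  constructor <;> linarith [h1.1, h1.2, h2.1, h2.2, hδ2.1, hδ2.2]

private theorem D1_weak {ι : Type*} [Fintype ι] {l : Filter ℝ}
    (P : ℝ → Measure (ι → unitInterval)) (Q : Measure (ι → unitInterval)) [IsFiniteMeasure Q]
    (h : ∀ v : ι → ℕ, Tendsto (fun δ => ∫⁻ y, ENNReal.ofReal (∏ i, ((y i : unitInterval) : ℝ) ^ (v i)) ∂(P δ)) l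
      (𝓝 (∫⁻ y, ENNReal.ofReal (∏ i, ((y i : unitInterval) : ℝ) ^ (v i)) ∂Q)))
    (f : C(ι → unitInterval, ℝ)) (hf : ∀ y, 0 ≤ f y) :
    Tendsto (fun δ => ∫⁻ y, ENNReal.ofReal (f y) ∂(P δ)) l
      (𝓝 (∫⁻ y, ENNReal.ofReal (f y) ∂Q)) := by
  have hfin := D1_fin P Q h
  have h1 := D1_real P Q h f
  have hMtop : Q univ + 1 ≠ ∞ := (ENNReal.add_lt_top.mpr ⟨measure_lt_top Q univ, ENNReal.one_lt_top⟩).ne
  rw [← ofReal_integral_eq_lintegral_ofReal (D1_int Q f) (Filter.Eventually.of_forall hf)]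
  refine (ENNReal.tendsto_ofReal h1).congr' ?_
  filter_upwards [hfin] with δ hδ
  have : IsFiniteMeasure (P δ) := ⟨lt_of_le_of_lt hδ (lt_top_iff_ne_top.mpr hMtop)⟩
  exact ofReal_integral_eq_lintegral_ofReal (D1_int (P δ) f) (Filter.Eventually.of_forall hf)

/-- the function `∏ 1 / max(y_i, a_i)`, `a_i = exp(-θ_i)` -/
private noncomputable def D1G {ι : Type*} [Fintype ι] (θ : ι → ℝ) (y : ι → unitInterval) : ℝ :=
  ∏ i, (max ((y i : unitInterval) : ℝ) (Real.exp (-(θ i))))⁻¹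

private theorem D1G_cont {ι : Type*} [Fintype ι] (θ : ι → ℝ) : Continuous (D1G θ) := by
  unfold D1G
  refine continuous_finsetProd _ fun i _ => ?_
  refine Continuous.inv₀ (by fun_prop) fun y => ?_
  exact ne_of_gt (lt_of_lt_of_le (Real.exp_pos _) (le_max_right _ _))

private theorem D1G_nonneg {ι : Type*} [Fintype ι] (θ : ι → ℝ) (y : ι → unitInterval) : 0 ≤ D1G θ y := by
  unfold D1G
  exact Finset.prod_nonneg fun i _ => inv_nonneg.mpr (le_trans (Real.exp_pos _).le (le_max_right _ _))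

private theorem D1G_le {ι : Type*} [Fintype ι] (θ : ι → ℝ) (y : ι → unitInterval) :
    D1G θ y ≤ ∏ i, (Real.exp (-(θ i)))⁻¹ := by
  unfold D1G
  refine Finset.prod_le_prod (fun i _ => inv_nonneg.mpr (le_trans (Real.exp_pos _).le (le_max_right _ _))) ?_
  intro i _
  exact inv_anti₀ (Real.exp_pos _) (le_max_right _ _)

private theorem D1G_W {ι : Type*} [Fintype ι] (θ z : ι → ℝ) (hz : ∀ i, 0 ≤ z i) (hθ : ∀ i, z i ≤ θ i) :
    ENNReal.ofReal (D1G θ (D1E z)) * D1W z = 1 := by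
  unfold D1W
  rw [← ENNReal.ofReal_mul (D1G_nonneg θ _), ← ENNReal.ofReal_one]
  congr 1
  unfold D1G
  rw [Finset.prod_congr rfl (fun i _ => by
    rw [D1E_val z i (hz i), max_eq_left (Real.exp_le_exp.mpr (neg_le_neg (hθ i))), ← Real.exp_neg, neg_neg])]
  rw [← Real.exp_sum, ← Real.exp_add]
  simp

/-- the limit of the test integrals -/
private theorem D1_lim {ι : Type*} [Fintype ι] (ν : Measure (ι → ℝ)) (hν : ∀ᵐ z ∂ν, ∀ i, 0 ≤ z i)
    (hfin : ∫⁻ z, D1W z ∂ν ≠ ∞) (θ : ι → ℝ) (S : Set (ι → ℝ)) (hS : MeasurableSet S)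
    (hSθ : ∀ z ∈ S, ∀ i, z i ≤ θ i) (H : ℕ → C(ι → unitInterval, ℝ))
    (hH1 : ∀ n y, H n y ≤ 1)
    (hlim : ∀ z : ι → ℝ, (∀ i, 0 ≤ z i) → Tendsto (fun n => H n (D1E z)) atTop (𝓝 (S.indicator 1 z))) :
    Tendsto (fun n => ∫⁻ y, ENNReal.ofReal (D1G θ y * H n y) ∂(D1P ν)) atTop (𝓝 (ν S)) := by
  have h1 : ∀ n, ∫⁻ y, ENNReal.ofReal (D1G θ y * H n y) ∂(D1P ν) =
      ∫⁻ z, ENNReal.ofReal (D1G θ (D1E z) * H n (D1E z)) * D1W z ∂ν := by
    intro n
    refine D1_lint ν _ ?_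
    exact (((D1G_cont θ).mul (H n).continuous).measurable).ennreal_ofReal
  simp only [h1]
  rw [← lintegral_indicator_one hS]
  refine tendsto_lintegral_of_dominated_convergence
    (fun z => ENNReal.ofReal (∏ i, (Real.exp (-(θ i)))⁻¹) * D1W z) ?_ ?_ ?_ ?_
  · intro n
    exact ((((D1G_cont θ).mul (H n).continuous).comp D1E_cont).measurable.ennreal_ofReal).mul D1W_meas
  · intro n
    refine Filter.Eventually.of_forall fun z => ?_
    refine mul_le_mul_left ?_ _
    refine ENNReal.ofReal_le_ofReal ?_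
    calc D1G θ (D1E z) * H n (D1E z) ≤ D1G θ (D1E z) * 1 :=
          mul_le_mul_of_nonneg_left (hH1 n _) (D1G_nonneg θ _)
      _ ≤ _ := by rw [mul_one]; exact D1G_le θ _
  · rw [lintegral_const_mul _ D1W_meas]
    exact ENNReal.mul_ne_top ENNReal.ofReal_ne_top hfin
  · filter_upwards [hν] with z hz
    have h2 := hlim z hz
    have h3 : ∀ n, ENNReal.ofReal (D1G θ (D1E z) * H n (D1E z)) * D1W z =
        (ENNReal.ofReal (D1G θ (D1E z)) * D1W z) * ENNReal.ofReal (H n (D1E z)) := by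
      intro n
      rw [ENNReal.ofReal_mul (D1G_nonneg θ _)]
      ring
    simp only [h3]
    by_cases hzS : z ∈ S
    · rw [D1G_W θ z hz (hSθ z hzS)]
      rw [Set.indicator_of_mem hzS, Pi.one_apply] at h2
      rw [Set.indicator_of_mem hzS, Pi.one_apply]
      have h4 := ENNReal.tendsto_ofReal h2
      rw [ENNReal.ofReal_one] at h4
      simpa using h4
    · rw [Set.indicator_of_notMem hzS] at h2
      rw [Set.indicator_of_notMem hzS]
      have h4 := ENNReal.tendsto_ofReal h2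
      rw [ENNReal.ofReal_zero] at h4
      have h5 : ENNReal.ofReal (D1G θ (D1E z)) * D1W z ≠ ∞ :=
        ENNReal.mul_ne_top ENNReal.ofReal_ne_top ENNReal.ofReal_ne_top
      have h6 := ENNReal.Tendsto.const_mul (a := ENNReal.ofReal (D1G θ (D1E z)) * D1W z) h4 (Or.inr h5)
      simpa using h6

theorem lap_box {ι : Type*} [Fintype ι] (μ : ℝ → Measure (ι → ℝ)) (ν : Measure (ι → ℝ))
    (hμ : ∀ᶠ δ in 𝓝[>] (0:ℝ), ∀ᵐ z ∂(μ δ), ∀ i, 0 ≤ z i) (hν : ∀ᵐ z ∂ν, ∀ i, 0 ≤ z i)
    (hfin : ∀ s : ι → ℝ, (∀ i, 0 < s i) → ∫⁻ z, ENNReal.ofReal (Real.exp (-∑ i, s i * z i)) ∂ν ≠ ∞)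
    (hlim : ∀ s : ι → ℝ, (∀ i, 0 < s i) →
      Tendsto (fun δ => ∫⁻ z, ENNReal.ofReal (Real.exp (-∑ i, s i * z i)) ∂(μ δ)) (𝓝[>] (0:ℝ))
        (𝓝 (∫⁻ z, ENNReal.ofReal (Real.exp (-∑ i, s i * z i)) ∂ν))) (θ : ι → ℝ) (c : ℝ≥0∞) :
    (ν {z | ∀ i, z i ≤ θ i} < c → ∀ᶠ δ in 𝓝[>] (0:ℝ), μ δ {z | ∀ i, z i ≤ θ i} ≤ c) ∧
      (c < ν {z | ∀ i, z i < θ i} → ∀ᶠ δ in 𝓝[>] (0:ℝ), c ≤ μ δ {z | ∀ i, z i ≤ θ i}) := by
  have hfin1 : ∫⁻ z, D1W z ∂ν ≠ ∞ := by
    have h1 := hfin (fun _ => 1) (fun _ => one_pos)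
    simpa [D1W] using h1
  have hPfin : IsFiniteMeasure (D1P ν) := by
    refine ⟨?_⟩
    have h1 := D1_lint ν (fun _ => 1) measurable_const
    rw [lintegral_one] at h1
    rw [h1]
    simpa using lt_top_iff_ne_top.mpr hfin1
  have hmom : ∀ v : ι → ℕ, Tendsto (fun δ => ∫⁻ y, ENNReal.ofReal (∏ i, ((y i : unitInterval) : ℝ) ^ (v i)) ∂(D1P (μ δ)))
      (𝓝[>] (0:ℝ)) (𝓝 (∫⁻ y, ENNReal.ofReal (∏ i, ((y i : unitInterval) : ℝ) ^ (v i)) ∂(D1P ν))) := by
    intro v
    rw [D1_mono ν hν v]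
    refine (hlim (fun i => (v i : ℝ) + 1) (fun i => by positivity)).congr' ?_
    filter_upwards [hμ] with δ hδ
    exact (D1_mono (μ δ) hδ v).symm
  have hclosed : MeasurableSet {z : ι → ℝ | ∀ i, z i ≤ θ i} := by
    rw [Set.ofPred_forall]
    exact MeasurableSet.iInter fun i => measurableSet_le (measurable_pi_apply i) measurable_const
  have hopen : MeasurableSet {z : ι → ℝ | ∀ i, z i < θ i} := by
    rw [Set.ofPred_forall]
    exact MeasurableSet.iInter fun i => measurableSet_lt (measurable_pi_apply i) measurable_const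
  constructor
  · intro hc
    -- the decreasing test functions
    let H : ℕ → C(ι → unitInterval, ℝ) := fun n =>
      ⟨fun y => max 0 (1 - (n:ℝ) * ∑ i, max 0 (Real.exp (-(θ i)) - ((y i : unitInterval) : ℝ))), by fun_prop⟩
    have hHval : ∀ n y, H n y = max 0 (1 - (n:ℝ) * ∑ i, max 0 (Real.exp (-(θ i)) - ((y i : unitInterval) : ℝ))) :=
      fun n y => rfl
    have hD0 : ∀ y : ι → unitInterval, 0 ≤ ∑ i, max 0 (Real.exp (-(θ i)) - ((y i : unitInterval) : ℝ)) :=
      fun y => Finset.sum_nonneg fun i _ => le_max_left _ _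
    have hH0 : ∀ n y, 0 ≤ H n y := fun n y => le_max_left _ _
    have hH1 : ∀ n y, H n y ≤ 1 := by
      intro n y
      rw [hHval]
      refine max_le zero_le_one ?_
      have := mul_nonneg (Nat.cast_nonneg (α := ℝ) n) (hD0 y)
      linarith
    have hHin : ∀ z : ι → ℝ, (∀ i, 0 ≤ z i) → (∀ i, z i ≤ θ i) → ∀ n, H n (D1E z) = 1 := by
      intro z hz hzθ n
      rw [hHval]
      have h1 : ∑ i, max 0 (Real.exp (-(θ i)) - ((D1E z i : unitInterval) : ℝ)) = 0 := by
        refine Finset.sum_eq_zero fun i _ => ?_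
        rw [D1E_val z i (hz i)]
        refine max_eq_left ?_
        have := Real.exp_le_exp.mpr (neg_le_neg (hzθ i))
        linarith
      rw [h1]
      simp
    have hHlim : ∀ z : ι → ℝ, (∀ i, 0 ≤ z i) → Tendsto (fun n => H n (D1E z)) atTop
        (𝓝 ({z : ι → ℝ | ∀ i, z i ≤ θ i}.indicator 1 z)) := by
      intro z hz
      by_cases hzθ : ∀ i, z i ≤ θ i
      · rw [Set.indicator_of_mem (by exact hzθ), Pi.one_apply]
        refine tendsto_const_nhds.congr fun n => ?_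
        exact (hHin z hz hzθ n).symm
      · rw [Set.indicator_of_notMem (by exact hzθ)]
        push Not at hzθ
        obtain ⟨j, hj⟩ := hzθ
        have hDpos : 0 < ∑ i, max 0 (Real.exp (-(θ i)) - ((D1E z i : unitInterval) : ℝ)) := by
          refine Finset.sum_pos' (fun i _ => le_max_left _ _) ⟨j, Finset.mem_univ j, ?_⟩
          rw [D1E_val z j (hz j)]
          refine lt_max_of_lt_right ?_
          have := Real.exp_lt_exp.mpr (neg_lt_neg hj)
          linarith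
        obtain ⟨N, hN⟩ := exists_nat_gt (∑ i, max 0 (Real.exp (-(θ i)) - ((D1E z i : unitInterval) : ℝ)))⁻¹
        refine tendsto_const_nhds.congr' ?_
        filter_upwards [eventually_ge_atTop N] with n hn
        rw [hHval]
        symm
        refine max_eq_left ?_
        have h2 : (∑ i, max 0 (Real.exp (-(θ i)) - ((D1E z i : unitInterval) : ℝ)))⁻¹ < (n:ℝ) :=
          lt_of_lt_of_le hN (by exact_mod_cast hn)
        have h3 := mul_lt_mul_of_pos_right h2 hDpos
        rw [inv_mul_cancel₀ hDpos.ne'] at h3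
        linarith
    have h1 := D1_lim ν hν hfin1 θ _ hclosed (fun z hz => hz) H hH1 hHlim
    obtain ⟨n, hn⟩ := (h1.eventually (gt_mem_nhds hc)).exists
    let f : C(ι → unitInterval, ℝ) := ⟨fun y => D1G θ y * H n y, (D1G_cont θ).mul (H n).continuous⟩
    have hf0 : ∀ y, 0 ≤ f y := fun y => mul_nonneg (D1G_nonneg θ y) (hH0 n y)
    have h2 := D1_weak (fun δ => D1P (μ δ)) (D1P ν) hmom f hf0
    filter_upwards [h2.eventually (gt_mem_nhds hn), hμ] with δ hδ hδμ
    refine le_trans ?_ hδ.le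
    rw [D1_lint _ _ (f.continuous.measurable.ennreal_ofReal), ← lintegral_indicator_one hclosed]
    refine lintegral_mono_ae ?_
    filter_upwards [hδμ] with z hz
    by_cases hzθ : ∀ i, z i ≤ θ i
    · rw [Set.indicator_of_mem (by exact hzθ), Pi.one_apply]
      change 1 ≤ ENNReal.ofReal (D1G θ (D1E z) * H n (D1E z)) * D1W z
      rw [hHin z hz hzθ n, mul_one, D1G_W θ z hz hzθ]
    · rw [Set.indicator_of_notMem (by exact hzθ)]
      exact bot_le
  · intro hc
    let H : ℕ → C(ι → unitInterval, ℝ) := fun n =>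
      ⟨fun y => min 1 ((n:ℝ) * ∏ i, max 0 (((y i : unitInterval) : ℝ) - Real.exp (-(θ i)))), by fun_prop⟩
    have hHval : ∀ n y, H n y = min 1 ((n:ℝ) * ∏ i, max 0 (((y i : unitInterval) : ℝ) - Real.exp (-(θ i)))) :=
      fun n y => rfl
    have hD0 : ∀ y : ι → unitInterval, 0 ≤ ∏ i, max 0 (((y i : unitInterval) : ℝ) - Real.exp (-(θ i))) :=
      fun y => Finset.prod_nonneg fun i _ => le_max_left _ _
    have hH0 : ∀ n y, 0 ≤ H n y := fun n y =>
      le_min zero_le_one (mul_nonneg (Nat.cast_nonneg _) (hD0 y))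
    have hH1 : ∀ n y, H n y ≤ 1 := fun n y => min_le_left _ _
    have hHout : ∀ z : ι → ℝ, (∀ i, 0 ≤ z i) → (¬ ∀ i, z i < θ i) → ∀ n, H n (D1E z) = 0 := by
      intro z hz hzθ n
      rw [hHval]
      push Not at hzθ
      obtain ⟨j, hj⟩ := hzθ
      have h1 : ∏ i, max 0 (((D1E z i : unitInterval) : ℝ) - Real.exp (-(θ i))) = 0 := by
        refine Finset.prod_eq_zero (Finset.mem_univ j) ?_
        rw [D1E_val z j (hz j)]
        refine max_eq_left ?_
        have := Real.exp_le_exp.mpr (neg_le_neg hj)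
        linarith
      rw [h1]
      simp
    have hHlim : ∀ z : ι → ℝ, (∀ i, 0 ≤ z i) → Tendsto (fun n => H n (D1E z)) atTop
        (𝓝 ({z : ι → ℝ | ∀ i, z i < θ i}.indicator 1 z)) := by
      intro z hz
      by_cases hzθ : ∀ i, z i < θ i
      · rw [Set.indicator_of_mem (by exact hzθ), Pi.one_apply]
        have hDpos : 0 < ∏ i, max 0 (((D1E z i : unitInterval) : ℝ) - Real.exp (-(θ i))) := by
          refine Finset.prod_pos fun i _ => ?_
          rw [D1E_val z i (hz i)]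
          refine lt_max_of_lt_right ?_
          have := Real.exp_lt_exp.mpr (neg_lt_neg (hzθ i))
          linarith
        obtain ⟨N, hN⟩ := exists_nat_gt (∏ i, max 0 (((D1E z i : unitInterval) : ℝ) - Real.exp (-(θ i))))⁻¹
        refine tendsto_const_nhds.congr' ?_
        filter_upwards [eventually_ge_atTop N] with n hn
        rw [hHval]
        symm
        refine min_eq_left ?_
        have h2 : (∏ i, max 0 (((D1E z i : unitInterval) : ℝ) - Real.exp (-(θ i))))⁻¹ < (n:ℝ) :=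
          lt_of_lt_of_le hN (by exact_mod_cast hn)
        have h3 := mul_lt_mul_of_pos_right h2 hDpos
        rw [inv_mul_cancel₀ hDpos.ne'] at h3
        linarith
      · rw [Set.indicator_of_notMem (by exact hzθ)]
        refine tendsto_const_nhds.congr fun n => ?_
        exact (hHout z hz hzθ n).symm
    have h1 := D1_lim ν hν hfin1 θ _ hopen (fun z hz i => (hz i).le) H hH1 hHlim
    obtain ⟨n, hn⟩ := (h1.eventually (lt_mem_nhds hc)).exists
    let f : C(ι → unitInterval, ℝ) := ⟨fun y => D1G θ y * H n y, (D1G_cont θ).mul (H n).continuous⟩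
    have hf0 : ∀ y, 0 ≤ f y := fun y => mul_nonneg (D1G_nonneg θ y) (hH0 n y)
    have h2 := D1_weak (fun δ => D1P (μ δ)) (D1P ν) hmom f hf0
    filter_upwards [h2.eventually (lt_mem_nhds hn), hμ] with δ hδ hδμ
    refine le_trans hδ.le ?_
    rw [D1_lint _ _ (f.continuous.measurable.ennreal_ofReal), ← lintegral_indicator_one hclosed]
    refine lintegral_mono_ae ?_
    filter_upwards [hδμ] with z hz
    change ENNReal.ofReal (D1G θ (D1E z) * H n (D1E z)) * D1W z ≤ _
    by_cases hzθ : ∀ i, z i < θ i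
    · rw [Set.indicator_of_mem (show z ∈ {z : ι → ℝ | ∀ i, z i ≤ θ i} from fun i => (hzθ i).le), Pi.one_apply]
      rw [← D1G_W θ z hz (fun i => (hzθ i).le)]
      refine mul_le_mul_left ?_ _
      refine ENNReal.ofReal_le_ofReal ?_
      calc D1G θ (D1E z) * H n (D1E z) ≤ D1G θ (D1E z) * 1 :=
            mul_le_mul_of_nonneg_left (hH1 n _) (D1G_nonneg θ _)
        _ = _ := mul_one _
    · rw [hHout z hz hzθ n]
      simp

end Pool.Agent.LibOH30
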