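import Pool.Agent.LibOH30.A3
import Pool.Agent.LibOH30.A0

set_option autoImplicit false

namespace Pool.Agent.LibOH30

open MeasureTheory Set Filter Topology Complex ProbabilityTheory
open scoped NNReal ENNReal ComplexConjugate
open Pool.Agent.LibZM Pool.Agent.LibM3 Pool.Agent.LibLaw15

/-! ROW D2a (MEDIUM/STRONG). The Laplace transform of the arrays as a Dirichlet series: group the arrays by `n = ∏ m_i = ∏ n_i`
(nonnegative terms: work with `ENNReal` or `HasSum` on sigma types); `exp(-δ c ∑ (log m_i + log n_i)) = n^{-2cδ}`, and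
`cfe α (s - c) δ n = Σ_{∏ m = n} ∏ tau (α i) (m i) m_i^{-(s i - c) δ}` by `af_prod`. Summability from `LibZM.summable_Lser`. -/

private lemma prod_tw_eq {ι : Type*} [Fintype ι] (α : ι → ℝ) (s : ι → ℝ) (c δ : ℝ) (m : ι → ℕ) (hm : ∀ i, m i ≠ 0) :
    ∏ i, tw (α i) (fun n => (n:ℝ) ^ (-((s i - c) * δ))) (m i) =
      (∏ i, tau (α i) (m i)) * Real.exp (∑ i, Real.log (m i) * (-((s i - c) * δ))) := by
  rw [Real.exp_sum, ← Finset.prod_mul_distrib]
  refine Finset.prod_congr rfl fun i _ => ?_
  rw [tw_apply, Real.rpow_def_of_pos (by exact_mod_cast Nat.pos_of_ne_zero (hm i))]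

private lemma term_eq {ι : Type*} [Fintype ι] (α : ι → ℝ) (q : ℕ) (s : ι → ℝ) (c δ : ℝ) {n : ℕ} (hn : n ≠ 0)
    (m k : ι → ℕ) (hm : ∏ i, m i = n) (hk : ∏ i, k i = n) :
    wA α q (fun i => (m i, k i)) * Real.exp (-(δ * ∑ i, s i * zA (fun i => (m i, k i)) i)) =
      if Nat.Coprime n q then (∏ i, tw (α i) (fun n => (n:ℝ) ^ (-((s i - c) * δ))) (m i)) *
        (∏ i, tw (α i) (fun n => (n:ℝ) ^ (-((s i - c) * δ))) (k i)) * (n:ℝ) ^ (-(1 + 2 * c * δ)) else 0 := by
  have hm0 : ∀ i, m i ≠ 0 := fun i h => hn (by rw [← hm]; exact Finset.prod_eq_zero (Finset.mem_univ i) h)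
  have hk0 : ∀ i, k i ≠ 0 := fun i h => hn (by rw [← hk]; exact Finset.prod_eq_zero (Finset.mem_univ i) h)
  have hn0 : (0:ℝ) < n := by exact_mod_cast Nat.pos_of_ne_zero hn
  have hLm : ∑ i, Real.log (m i) = Real.log n := by
    rw [← hm]; push_cast
    rw [Real.log_prod]
    intro i _; exact_mod_cast hm0 i
  have hLk : ∑ i, Real.log (k i) = Real.log n := by
    rw [← hk]; push_cast
    rw [Real.log_prod]
    intro i _; exact_mod_cast hk0 i
  have hok : okA q (fun i => (m i, k i)) ↔ Nat.Coprime n q := by
    unfold okA An Bn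
    simp only
    rw [hm, hk]
    constructor
    · rintro ⟨h, -⟩
      rw [← hm]
      exact Nat.Coprime.prod_left fun i _ => (h i).2.2.1
    · intro h
      refine ⟨fun i => ⟨Nat.pos_of_ne_zero (hm0 i), Nat.pos_of_ne_zero (hk0 i), ?_, ?_⟩, rfl⟩
      · exact Nat.Coprime.coprime_dvd_left (by rw [← hm]; exact Finset.dvd_prod_of_mem m (Finset.mem_univ i)) h
      · exact Nat.Coprime.coprime_dvd_left (by rw [← hk]; exact Finset.dvd_prod_of_mem k (Finset.mem_univ i)) h
  unfold wA
  by_cases hc : Nat.Coprime n q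
  · rw [if_pos hc, if_pos (hok.mpr hc), prod_tw_eq α s c δ m hm0, prod_tw_eq α s c δ k hk0]
    have e1 : co α (fun i => (m i, k i)) = (∏ i, tau (α i) (m i)) * ∏ i, tau (α i) (k i) := by
      unfold co; simp only; rw [Finset.prod_mul_distrib]
    have e2 : (An (fun i => (m i, k i)) : ℝ) = n := by unfold An; simp only; rw [hm]
    rw [e1, e2, Real.rpow_def_of_pos hn0]
    have e3 : ((∏ i, tau (α i) (m i)) * ∏ i, tau (α i) (k i)) / (n:ℝ) =
        ((∏ i, tau (α i) (m i)) * ∏ i, tau (α i) (k i)) * Real.exp (-Real.log n) := by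
      rw [Real.exp_neg, Real.exp_log hn0]; rfl
    rw [e3]
    have e4 : Real.exp (-Real.log n) * Real.exp (-(δ * ∑ i, s i * zA (fun i => (m i, k i)) i)) =
        Real.exp (∑ i, Real.log (m i) * (-((s i - c) * δ))) * Real.exp (∑ i, Real.log (k i) * (-((s i - c) * δ))) *
          Real.exp (Real.log n * (-(1 + 2 * c * δ))) := by
      rw [← Real.exp_add, ← Real.exp_add, ← Real.exp_add]
      congr 1
      have f1 : ∑ i, Real.log (m i) * (-((s i - c) * δ)) = -(δ * ∑ i, s i * Real.log (m i)) + c * δ * Real.log n := by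
        rw [← hLm, Finset.mul_sum, Finset.mul_sum, ← Finset.sum_neg_distrib, ← Finset.sum_add_distrib]
        refine Finset.sum_congr rfl fun i _ => ?_
        ring
      have f2 : ∑ i, Real.log (k i) * (-((s i - c) * δ)) = -(δ * ∑ i, s i * Real.log (k i)) + c * δ * Real.log n := by
        rw [← hLk, Finset.mul_sum, Finset.mul_sum, ← Finset.sum_neg_distrib, ← Finset.sum_add_distrib]
        refine Finset.sum_congr rfl fun i _ => ?_
        ring
      have f3 : ∑ i, s i * zA (fun i => (m i, k i)) i = ∑ i, s i * Real.log (m i) + ∑ i, s i * Real.log (k i) := by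
        rw [← Finset.sum_add_distrib]
        refine Finset.sum_congr rfl fun i _ => ?_
        unfold zA; ring
      rw [f1, f2, f3]; ring
    calc _ = ((∏ i, tau (α i) (m i)) * ∏ i, tau (α i) (k i)) *
          (Real.exp (-Real.log n) * Real.exp (-(δ * ∑ i, s i * zA (fun i => (m i, k i)) i))) := by ring
      _ = _ := by rw [e4]; ring
  · rw [if_neg hc, if_neg (fun h => hc (hok.mp h)), zero_mul]

theorem lapA_eq {ι : Type*} [Fintype ι] {α : ι → ℝ} (hα : ∀ i, 0 ≤ α i) (q : ℕ) {s : ι → ℝ} {c : ℝ} (hc : 0 < c)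
    (hs : ∀ i, c ≤ s i) {δ : ℝ} (hδ : 0 < δ) :
    (Summable fun x : ι → ℕ × ℕ => wA α q x * Real.exp (-(δ * ∑ i, s i * zA x i))) ∧
      LapA α q s δ = ∑' n : ℕ, if Nat.Coprime n q then
        cfe α (fun i => s i - c) δ n * cfe α (fun i => s i - c) δ n * (n:ℝ) ^ (-(1 + 2 * c * δ)) else 0 := by
  classical
  set F : (ι → ℕ × ℕ) → ℝ := fun x => wA α q x * Real.exp (-(δ * ∑ i, s i * zA x i)) with hF
  set r : ℕ → ℝ := fun n => if Nat.Coprime n q then
        cfe α (fun i => s i - c) δ n * cfe α (fun i => s i - c) δ n * (n:ℝ) ^ (-(1 + 2 * c * δ)) else 0 with hr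
  have hF0 : ∀ x, 0 ≤ F x := by
    intro x
    refine mul_nonneg ?_ (Real.exp_pos _).le
    unfold wA
    split_ifs
    · exact div_nonneg (co_nonneg hα x) (Nat.cast_nonneg _)
    · exact le_rfl
  -- summability of `r`
  have hrs : Summable r := by
    have hσ : 1 < 1 + 2 * c * δ := by have := mul_pos hc hδ; linarith
    have h := summable_Lser (s := fun i => s i - c) (s' := fun i => s i - c) hα (fun i => sub_nonneg.mpr (hs i))
      (fun i => sub_nonneg.mpr (hs i)) hδ.le hσ
    refine Summable.of_nonneg_of_le (fun n => ?_) (fun n => ?_) h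
    · rw [hr]; dsimp only
      split_ifs
      · exact mul_nonneg (mul_nonneg (cfe_nonneg hα _ _ _) (cfe_nonneg hα _ _ _)) (by positivity)
      · exact le_rfl
    · rw [hr]; dsimp only
      split_ifs
      · exact le_rfl
      · exact mul_nonneg (mul_nonneg (cfe_nonneg hα _ _ _) (cfe_nonneg hα _ _ _)) (by positivity)
  -- the fibres
  have hfib : ∀ n : ℕ, HasSum (fun x : {x : ι → ℕ × ℕ // An x = n} => F x) (r n) := by
    intro n
    have h0 : HasSum (({x : ι → ℕ × ℕ | An x = n} : Set _).indicator F) (r n) := by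
      rcases eq_or_ne n 0 with rfl | hn
      · have e : ({x : ι → ℕ × ℕ | An x = 0} : Set _).indicator F = fun _ => 0 := by
          funext x
          by_cases hx : An x = 0
          · rw [Set.indicator_of_mem (by exact hx)]
            have : wA α q x = 0 := by
              unfold wA
              rw [hx]; simp
            rw [hF]; dsimp only; rw [this, zero_mul]
          · rw [Set.indicator_of_notMem (by exact hx)]
        have e2 : r 0 = 0 := by rw [hr]; simp
        rw [e, e2]
        exact hasSum_zero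
      · set P : Finset (ι → ℕ) := (Fintype.piFinset fun _ : ι => n.divisors).filter (fun m => ∏ i, m i = n) with hP
        have hmemP : ∀ m : ι → ℕ, m ∈ P ↔ ∏ i, m i = n := by
          intro m
          rw [hP, Finset.mem_filter, Fintype.mem_piFinset]
          constructor
          · exact fun h => h.2
          · intro h
            exact ⟨fun i => Nat.mem_divisors.mpr ⟨by rw [← h]; exact Finset.dvd_prod_of_mem m (Finset.mem_univ i), hn⟩, h⟩
        set em : (ι → ℕ) × (ι → ℕ) ↪ (ι → ℕ × ℕ) :=
          ⟨fun y i => (y.1 i, y.2 i), by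
            intro y z h
            refine Prod.ext (funext fun i => ?_) (funext fun i => ?_)
            · exact congrArg Prod.fst (congrFun h i)
            · exact congrArg Prod.snd (congrFun h i)⟩ with hem
        have h1 : HasSum (({x : ι → ℕ × ℕ | An x = n} : Set _).indicator F)
            (∑ x ∈ (P ×ˢ P).map em, ({x : ι → ℕ × ℕ | An x = n} : Set _).indicator F x) :=
          hasSum_sum_of_ne_finset_zero (by
            intro x hx
            by_cases hA : An x = n
            · rw [Set.indicator_of_mem (by exact hA)]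
              have : wA α q x = 0 := by
                unfold wA
                rw [if_neg]
                rintro ⟨-, hAB⟩
                apply hx
                rw [Finset.mem_map]
                refine ⟨(fun i => (x i).1, fun i => (x i).2), ?_, ?_⟩
                · rw [Finset.mem_product, hmemP, hmemP]
                  exact ⟨hA, by rw [← hA]; exact hAB.symm⟩
                · rfl
              rw [hF]; dsimp only; rw [this, zero_mul]
            · rw [Set.indicator_of_notMem (by exact hA)])
        have h2 : ∑ x ∈ (P ×ˢ P).map em, ({x : ι → ℕ × ℕ | An x = n} : Set _).indicator F x = r n := by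
          rw [Finset.sum_map, Finset.sum_product]
          have h3 : ∀ m ∈ P, ∀ k ∈ P, ({x : ι → ℕ × ℕ | An x = n} : Set _).indicator F (em (m, k)) =
              if Nat.Coprime n q then (∏ i, tw (α i) (fun n => (n:ℝ) ^ (-((s i - c) * δ))) (m i)) *
                (∏ i, tw (α i) (fun n => (n:ℝ) ^ (-((s i - c) * δ))) (k i)) * (n:ℝ) ^ (-(1 + 2 * c * δ)) else 0 := by
            intro m hm k hk
            have hm' := (hmemP m).mp hm
            have hk' := (hmemP k).mp hk
            rw [Set.indicator_of_mem (by exact hm')]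
            exact term_eq α q s c δ hn m k hm' hk'
          rw [Finset.sum_congr rfl fun m hm => Finset.sum_congr rfl fun k hk => h3 m hm k hk]
          rw [hr]; dsimp only
          split_ifs
          · have h4 : cfe α (fun i => s i - c) δ n =
                ∑ m ∈ P, ∏ i, tw (α i) (fun n => (n:ℝ) ^ (-((s i - c) * δ))) (m i) := by
              unfold cfe
              exact af_prod _ hn
            rw [h4, Finset.sum_mul_sum, Finset.sum_mul]
            refine Finset.sum_congr rfl fun m _ => ?_
            rw [Finset.sum_mul]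
          · simp
        rw [h2] at h1
        exact h1
    exact (hasSum_subtype_iff_indicator (f := F) (s := {x : ι → ℕ × ℕ | An x = n})).mpr h0
  -- summability over the sigma type
  have hsig : Summable fun y : (Σ n : ℕ, {x : ι → ℕ × ℕ // An x = n}) => F y.2 := by
    rw [summable_sigma_of_nonneg (fun y => hF0 _)]
    refine ⟨fun n => (hfib n).summable, ?_⟩
    refine hrs.congr fun n => ?_
    exact (hfib n).tsum_eq.symm
  have hsum : Summable F := by
    have := (Equiv.sigmaFiberEquiv (An : (ι → ℕ × ℕ) → ℕ)).summable_iff (f := F)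
    exact this.mp hsig
  refine ⟨hsum, ?_⟩
  have h5 : HasSum (fun y : (Σ n : ℕ, {x : ι → ℕ × ℕ // An x = n}) => F y.2) (∑' n, r n) :=
    HasSum.sigma_of_hasSum hrs.hasSum hfib hsig
  have h6 : HasSum F (∑' n, r n) := by
    have := (Equiv.sigmaFiberEquiv (An : (ι → ℕ × ℕ) → ℕ)).hasSum_iff (f := F) (a := ∑' n, r n)
    exact this.mp h5
  exact h6.tsum_eq

end Pool.Agent.LibOH30
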