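import Pool.Agent.LibOH30.Defs

set_option autoImplicit false

namespace Pool.Agent.LibOH30

open MeasureTheory Set Filter Topology Complex ProbabilityTheory
open scoped NNReal ENNReal ComplexConjugate
open Pool.Agent.LibZM Pool.Agent.LibM3 Pool.Agent.LibLaw15

/-! ROW D2b (MEDIUM). The coprime part of a Dirichlet series with multiplicative coefficients: `Lser = ∏_i Lp(p_i) · Σ_{(n,q)=1}` (induction on
`r`; `cfe_isMultiplicative`; every `n ≥ 1` is `p^a n'` uniquely), `Lp ≥ 1 > 0`; and the limit of `Lp` (dominated by `Lterm_le`,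
`tendsto_cfe`, `tau_prime_pow`). -/

private lemma d2b_mult {ι : Type*} [Fintype ι] {α : ι → ℝ} {s : ι → ℝ} {δ c : ℝ} {m n : ℕ} (hmn : Nat.Coprime m n) :
    cfe α s δ (m * n) * cfe α s δ (m * n) * ((m * n : ℕ) : ℝ) ^ c =
      (cfe α s δ m * cfe α s δ m * (m:ℝ) ^ c) * (cfe α s δ n * cfe α s δ n * (n:ℝ) ^ c) := by
  rw [(cfe_isMultiplicative s δ).map_mul_of_coprime hmn]
  push_cast
  rw [Real.mul_rpow (Nat.cast_nonneg _) (Nat.cast_nonneg _)]
  ring

private lemma d2b_Lp {ι : Type*} [Fintype ι] {α : ι → ℝ} {s : ι → ℝ} {s0 δ : ℝ} (p : ℕ) :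
    Lp α s s s0 p δ = ∑' e : ℕ, cfe α s δ (p ^ e) * cfe α s δ (p ^ e) * ((p ^ e : ℕ) : ℝ) ^ (-(1 + s0 * δ)) := by
  unfold LibZM.Lp
  congr 1; funext a
  congr 1
  push_cast
  rw [← Real.rpow_natCast, ← Real.rpow_mul (Nat.cast_nonneg _), ← Real.rpow_natCast,
    ← Real.rpow_mul (Nat.cast_nonneg _)]
  congr 1; ring

private lemma d2b_cop {r : ℕ} {p : Fin r → ℕ} (hp : ∀ i, (p i).Prime) {P : ℕ} (hP : P.Prime) :
    Nat.Coprime P (qP p) ↔ ∀ i, p i ≠ P := by
  unfold qP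
  rw [Nat.coprime_prod_right_iff]
  constructor
  · intro h i hi
    have h1 := h i (Finset.mem_univ i)
    rw [hi, Nat.coprime_self] at h1
    exact hP.ne_one h1
  · intro h i _
    exact (Nat.coprime_primes hP (hp i)).mpr (fun e => h i e.symm)

private lemma d2b_prod {r : ℕ} {p : Fin r → ℕ} (hp : ∀ i, (p i).Prime) {ι : Type*} [Fintype ι]
    {α : ι → ℝ} (hα : ∀ i, 0 ≤ α i) {s : ι → ℝ} (hs : ∀ i, 0 ≤ s i) {s0 : ℝ} (hs0 : 0 < s0) {δ : ℝ} (hδ : 0 < δ) :
    HasProd (fun P : Nat.Primes => if Nat.Coprime (P:ℕ) (qP p) then Lp α s s s0 P δ else 1)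
      (∑' n : ℕ, if Nat.Coprime n (qP p) then
      cfe α s δ n * cfe α s δ n * (n:ℝ) ^ (-(1 + s0 * δ)) else 0) := by
  have hσ : 1 < 1 + s0 * δ := by have := mul_pos hs0 hδ; linarith
  have hsum : Summable fun n : ℕ => if Nat.Coprime n (qP p) then
      cfe α s δ n * cfe α s δ n * (n:ℝ) ^ (-(1 + s0 * δ)) else 0 := by
    refine Summable.of_nonneg_of_le (fun n => ?_) (fun n => ?_) (summable_Lser hα hs hs hδ.le hσ)
    · split_ifs
      · exact mul_nonneg (Lterm_nonneg hα hs hs n) (by positivity)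
      · exact le_rfl
    · split_ifs
      · exact le_rfl
      · exact mul_nonneg (Lterm_nonneg hα hs hs n) (by positivity)
  have h := EulerProduct.eulerProduct_hasProd (R := ℝ) (f := fun n : ℕ => if Nat.Coprime n (qP p) then
      cfe α s δ n * cfe α s δ n * (n:ℝ) ^ (-(1 + s0 * δ)) else 0)
    (by simp [(cfe_isMultiplicative s δ).map_one])
    (by
      intro m n hmn
      rw [d2b_mult hmn]
      by_cases h1 : Nat.Coprime m (qP p)
      · by_cases h2 : Nat.Coprime n (qP p)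
        · rw [if_pos h1, if_pos h2, if_pos (Nat.coprime_mul_iff_left.mpr ⟨h1, h2⟩)]
        · rw [if_neg h2, if_neg (fun h => h2 (Nat.coprime_mul_iff_left.mp h).2), mul_zero]
      · rw [if_neg h1, if_neg (fun h => h1 (Nat.coprime_mul_iff_left.mp h).1), zero_mul])
    hsum.norm
    (by simp)
  have e : (fun P : Nat.Primes => if Nat.Coprime (P:ℕ) (qP p) then Lp α s s s0 P δ else 1) =
      fun P : Nat.Primes => ∑' e : ℕ, if Nat.Coprime ((P:ℕ) ^ e) (qP p) then
        cfe α s δ ((P:ℕ) ^ e) * cfe α s δ ((P:ℕ) ^ e) * (((P:ℕ) ^ e : ℕ) : ℝ) ^ (-(1 + s0 * δ)) else 0 := by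
    funext P
    split_ifs with hc
    · rw [d2b_Lp]
      refine tsum_congr fun a => ?_
      rw [if_pos (Nat.Coprime.pow_left a hc)]
    · rw [tsum_eq_single 0]
      · simp [(cfe_isMultiplicative s δ).map_one]
      · intro a ha
        rw [if_neg]
        intro hca
        exact hc ((Nat.coprime_pow_left_iff (Nat.pos_of_ne_zero ha) _ _).mp hca)
  rw [e]
  exact h

theorem cop_Lser {r : ℕ} {p : Fin r → ℕ} (hp : ∀ i, (p i).Prime) (hinj : Function.Injective p) {ι : Type*} [Fintype ι]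
    {α : ι → ℝ} (hα : ∀ i, 0 ≤ α i) {s : ι → ℝ} (hs : ∀ i, 0 ≤ s i) {s0 : ℝ} (hs0 : 0 < s0) {δ : ℝ} (hδ : 0 < δ) :
    (∏ i, Lp α s s s0 (p i) δ) * (∑' n : ℕ, if Nat.Coprime n (qP p) then
      cfe α s δ n * cfe α s δ n * (n:ℝ) ^ (-(1 + s0 * δ)) else 0) = Lser α s s s0 δ := by
  classical
  have h1 := d2b_prod hp hα hs hs0 hδ
  have h0 := hasProd_Lp hα hs hs hs0 hδ
  obtain ⟨g, hg⟩ : ∃ g : Fin r → Nat.Primes, ∀ i, (g i : ℕ) = p i := ⟨fun i => ⟨p i, hp i⟩, fun i => rfl⟩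
  set S : Finset Nat.Primes := Finset.univ.image g with hS
  have hmem : ∀ P : Nat.Primes, P ∈ S ↔ ¬ Nat.Coprime (P:ℕ) (qP p) := by
    intro P
    rw [d2b_cop hp P.prop, hS, Finset.mem_image]
    constructor
    · rintro ⟨i, _, hi⟩ h
      exact h i (by rw [← hg i, hi])
    · intro h
      push Not at h
      obtain ⟨i, hi⟩ := h
      exact ⟨i, Finset.mem_univ i, Nat.Primes.coe_nat_injective (by rw [hg i, hi])⟩
  have h2 : HasProd (fun P : Nat.Primes => if Nat.Coprime (P:ℕ) (qP p) then 1 else Lp α s s s0 P δ)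
      (∏ i, Lp α s s s0 (p i) δ) := by
    have h3 := hasProd_prod_of_ne_finset_one (L := SummationFilter.unconditional Nat.Primes)
      (f := fun P : Nat.Primes => if Nat.Coprime (P:ℕ) (qP p) then (1:ℝ) else Lp α s s s0 P δ) (s := S)
      (fun P hP => by
        rw [hmem, not_not] at hP
        simp only [if_pos hP])
    have h4 : ∏ P ∈ S, (if Nat.Coprime (P:ℕ) (qP p) then (1:ℝ) else Lp α s s s0 P δ) =
        ∏ i, Lp α s s s0 (p i) δ := by
      rw [hS, Finset.prod_image]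
      · refine Finset.prod_congr rfl fun i _ => ?_
        rw [if_neg ((hmem (g i)).mp (Finset.mem_image_of_mem _ (Finset.mem_univ i))), hg i]
      · intro i _ j _ hij
        exact hinj (by rw [← hg i, hij, hg j])
    rw [h4] at h3
    exact h3
  have h5 := h2.mul h1
  have h6 : (fun P : Nat.Primes => (if Nat.Coprime (P:ℕ) (qP p) then (1:ℝ) else Lp α s s s0 P δ) *
      (if Nat.Coprime (P:ℕ) (qP p) then Lp α s s s0 P δ else 1)) = fun P : Nat.Primes => Lp α s s s0 P δ := by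
    funext P
    split_ifs <;> simp
  rw [h6] at h5
  exact h5.unique h0

theorem tendsto_Lp {ι : Type*} [Fintype ι] {α : ι → ℝ} (hα : ∀ i, 0 ≤ α i) {s : ι → ℝ} (hs : ∀ i, 0 ≤ s i) {s0 : ℝ}
    (hs0 : 0 < s0) {p : ℕ} (hp : p.Prime) :
    Tendsto (fun δ : ℝ => Lp α s s s0 p δ) (𝓝[>] 0) (𝓝 (Gsum (∑ i, α i) (rp p ^ 2))) := by
  have hrp : (p:ℝ) ^ (-(1:ℝ)) = rp p ^ 2 := by
    unfold rp
    rw [Real.rpow_neg_one, inv_pow, Real.sq_sqrt (Nat.cast_nonneg _)]
  rw [← hrp]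
  unfold LibZM.Lp Gsum
  have hb := summable_G (Finset.sum_nonneg fun i _ => hα i : 0 ≤ ∑ i, α i) (by norm_num : (0:ℝ) ≤ 1/2) (by norm_num)
  apply tendsto_tsum_of_dominated_convergence hb
  · intro a
    refine Tendsto.mul ?_ ((tendsto_pw hp 1 _).pow a)
    rw [pow_two]
    have h2 := tendsto_cfe (α := α) s (p ^ a)
    rw [tau_prime_pow _ hp] at h2
    exact h2.mul h2
  · filter_upwards [self_mem_nhdsWithin] with δ hδ a
    have hδ' : (0:ℝ) < δ := hδ
    obtain ⟨hz0, hz1, _⟩ := prime_rpow_mem (σ := 1+s0*δ) (by have := mul_pos hs0 hδ'; linarith) ⟨p, hp⟩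
    simp only at hz0 hz1
    rw [Real.norm_eq_abs, abs_of_nonneg (mul_nonneg (Lterm_nonneg hα hs hs _) (by positivity))]
    refine (Lterm_le hα hs hs hδ'.le hp hz0.le a).trans ?_
    gcongr

end Pool.Agent.LibOH30
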