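import Pool.Agent.LibOH30.D2a
import Pool.Agent.LibOH30.D2b

set_option autoImplicit false

namespace Pool.Agent.LibOH30

open MeasureTheory Set Filter Topology Complex ProbabilityTheory
open scoped NNReal ENNReal ComplexConjugate
open Pool.Agent.LibZM Pool.Agent.LibM3 Pool.Agent.LibLaw15

/-! ROW D2c (SHORT/MEDIUM). The limit of the Laplace transform: `lapA_eq` with `c = min s_i / 2` (or any `0 < c ≤ s_i`), `cop_Lser`,
`tendsto_Lp`, `LibZM.tendsto_Lser` (`s0 = 2c`, `s_i - c`: `s0 + (s_i - c) + (s_j - c) = s_i + s_j`). -/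

theorem lapA_lim {r : ℕ} {p : Fin r → ℕ} (hp : ∀ i, (p i).Prime) (hinj : Function.Injective p) {ι : Type*} [Fintype ι]
    {α : ι → ℝ} (hα : ∀ i, 0 ≤ α i) {s : ι → ℝ} (hs : ∀ i, 0 < s i) :
    Tendsto (fun δ : ℝ => δ ^ ((∑ i, α i) ^ 2) * LapA α (qP p) s δ) (𝓝[>] 0)
      (𝓝 (Aconst (∑ i, α i) / Gq (∑ i, α i) p * ∏ i, ∏ j, (s i + s j) ^ (-(α i * α j)))) := by
  obtain ⟨c, hc, hcs⟩ : ∃ c : ℝ, 0 < c ∧ ∀ i, c ≤ s i := by
    rcases isEmpty_or_nonempty ι with h | h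
    · exact ⟨1, one_pos, fun i => h.elim i⟩
    · obtain ⟨i0, hi0⟩ := Finite.exists_min s
      exact ⟨s i0, hs i0, hi0⟩
  have hs' : ∀ i, 0 ≤ s i - c := fun i => sub_nonneg.2 (hcs i)
  have h2c : 0 < 2 * c := by positivity
  have hκ : 0 ≤ ∑ i, α i := Finset.sum_nonneg fun i _ => hα i
  have hL := tendsto_Lser (α := α) (s := fun i => s i - c) (s' := fun i => s i - c) hα hs' hs' h2c
  have hP : Tendsto (fun δ : ℝ => ∏ i, Lp α (fun i => s i - c) (fun i => s i - c) (2 * c) (p i) δ) (𝓝[>] 0)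
      (𝓝 (Gq (∑ i, α i) p)) := by
    unfold Gq
    exact tendsto_finsetProd _ fun i _ => tendsto_Lp hα hs' h2c (hp i)
  have hG : Gq (∑ i, α i) p ≠ 0 := by
    unfold Gq
    refine Finset.prod_ne_zero_iff.2 fun i _ => ?_
    have h1 : (1 : ℝ) < (p i : ℝ) := by exact_mod_cast (hp i).one_lt
    have h2 : rp (p i) ^ 2 = ((p i : ℝ))⁻¹ := by
      unfold rp
      rw [inv_pow, Real.sq_sqrt (by linarith)]
    have h3 : rp (p i) ^ 2 < 1 := by
      rw [h2]
      exact inv_lt_one_of_one_lt₀ h1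
    have h4 := Gsum_ge hκ (sq_nonneg (rp (p i))) h3
    have h5 : 0 ≤ (∑ i, α i) ^ 2 * rp (p i) ^ 2 := by positivity
    intro h6
    linarith
  have hdiv := hL.div hP hG
  have hlim : Aconst (∑ i, α i) * (∏ i, ∏ j, (2 * c + (s i - c) + (s j - c)) ^ (-(α i * α j))) / Gq (∑ i, α i) p =
      Aconst (∑ i, α i) / Gq (∑ i, α i) p * ∏ i, ∏ j, (s i + s j) ^ (-(α i * α j)) := by
    have h1 : ∏ i, ∏ j, (2 * c + (s i - c) + (s j - c)) ^ (-(α i * α j)) =
        ∏ i, ∏ j, (s i + s j) ^ (-(α i * α j)) := by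
      refine Finset.prod_congr rfl fun i _ => Finset.prod_congr rfl fun j _ => ?_
      congr 1
      ring
    rw [h1]
    ring
  rw [← hlim]
  refine hdiv.congr' ?_
  filter_upwards [hP.eventually_ne hG, self_mem_nhdsWithin] with δ hne hδ
  have hδ0 : (0 : ℝ) < δ := hδ
  have e1 := (lapA_eq hα (qP p) hc hcs hδ0).2
  have e2 := cop_Lser hp hinj hα hs' h2c hδ0
  rw [← e1] at e2
  simp only [Pi.div_apply]
  rw [← e2, mul_left_comm, mul_div_cancel_left₀ _ hne]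

end Pool.Agent.LibOH30
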