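import Pool.Agent.LibOH30.D1
import Pool.Agent.LibOH30.D2c

set_option autoImplicit false

namespace Pool.Agent.LibOH30

open MeasureTheory Set Filter Topology Complex ProbabilityTheory
open scoped NNReal ENNReal ComplexConjugate
open Pool.Agent.LibZM Pool.Agent.LibM3 Pool.Agent.LibLaw15

/-! ROW D3 (MEDIUM/STRONG). The diagonal sums: `lap_box` with `μ_δ = Σ_x δ^{κ²} wA(x) dirac (δ zA x)` and `ν` the image under `Z` of
`(Aconst κ / Gq κ p) ρ`; `δ = 1/log T`; `m n ≤ ⌊T^θ⌋ ↔ δ log (m n) ≤ θ`. -/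

section

variable {r : ℕ} {p : Fin r → ℕ} {ι : Type*} [Fintype ι] [DecidableEq ι] {α : ι → ℝ}

omit [Fintype ι] [DecidableEq ι] in
private lemma d3_zA (x : ι → ℕ × ℕ) (i : ι) : 0 ≤ zA x i := by
  unfold zA
  exact add_nonneg (Real.log_natCast_nonneg _) (Real.log_natCast_nonneg _)

omit [DecidableEq ι] in
private lemma d3_wA (hα : ∀ i, 0 ≤ α i) (q : ℕ) (x : ι → ℕ × ℕ) : 0 ≤ wA α q x := by
  unfold wA
  split_ifs
  · exact div_nonneg (by
      unfold co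
      exact Finset.prod_nonneg fun i _ => mul_nonneg (tau_nonneg (hα i) _) (tau_nonneg (hα i) _)) (Nat.cast_nonneg _)
  · exact le_rfl

/-- The measures. -/
private noncomputable def d3μ (α : ι → ℝ) (q : ℕ) (κ : ℝ) (δ : ℝ) : Measure (ι → ℝ) :=
  Measure.sum fun x : ι → ℕ × ℕ => ENNReal.ofReal (δ ^ κ * wA α q x) • Measure.dirac (fun i => δ * zA x i)

omit [DecidableEq ι] in
private lemma d3_nonneg (q : ℕ) (κ : ℝ) {δ : ℝ} (hδ : 0 < δ) : ∀ᵐ z ∂(d3μ α q κ δ), ∀ i, 0 ≤ z i := by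
  unfold d3μ
  rw [Measure.ae_sum_iff]
  intro x
  refine Measure.ae_smul_measure ?_ _
  rw [ae_dirac_iff]
  · intro i
    exact mul_nonneg hδ.le (d3_zA x i)
  · have : {z : ι → ℝ | ∀ i, 0 ≤ z i} = ⋂ i, {z : ι → ℝ | 0 ≤ z i} := by ext z; simp
    rw [this]
    exact MeasurableSet.iInter fun i => measurableSet_le measurable_const (measurable_pi_apply i)

omit [DecidableEq ι] in
private lemma d3_lap (hα : ∀ i, 0 ≤ α i) (q : ℕ) (κ : ℝ) {s : ι → ℝ} (hs : ∀ i, 0 < s i) {δ : ℝ} (hδ : 0 < δ) :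
    ∫⁻ z, ENNReal.ofReal (Real.exp (-∑ i, s i * z i)) ∂(d3μ α q κ δ) = ENNReal.ofReal (δ ^ κ * LapA α q s δ) := by
  obtain ⟨c, hc, hcs⟩ : ∃ c : ℝ, 0 < c ∧ ∀ i, c ≤ s i := by
    rcases isEmpty_or_nonempty ι with h | h
    · exact ⟨1, one_pos, fun i => h.elim i⟩
    · obtain ⟨i0, hi0⟩ := Finite.exists_min s
      exact ⟨s i0, hs i0, hi0⟩
  have hsum := (lapA_eq hα q hc hcs hδ).1
  unfold d3μ
  rw [lintegral_sum_measure]
  have hm : Measurable fun z : ι → ℝ => ENNReal.ofReal (Real.exp (-∑ i, s i * z i)) := by fun_prop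
  have h1 : ∀ x : ι → ℕ × ℕ, ∫⁻ z, ENNReal.ofReal (Real.exp (-∑ i, s i * z i))
      ∂(ENNReal.ofReal (δ ^ κ * wA α q x) • Measure.dirac (fun i => δ * zA x i)) =
      ENNReal.ofReal (δ ^ κ * (wA α q x * Real.exp (-(δ * ∑ i, s i * zA x i)))) := by
    intro x
    rw [lintegral_smul_measure, lintegral_dirac' _ hm, smul_eq_mul, ← ENNReal.ofReal_mul (mul_nonneg (Real.rpow_nonneg hδ.le _) (d3_wA hα q x))]
    congr 1
    rw [mul_assoc]
    congr 3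
    rw [Finset.mul_sum]
    refine congrArg _ (Finset.sum_congr rfl fun i _ => by ring)
  rw [tsum_congr h1, ← ENNReal.ofReal_tsum_of_nonneg]
  · rw [tsum_mul_left]; rfl
  · intro x
    exact mul_nonneg (Real.rpow_nonneg hδ.le _) (mul_nonneg (d3_wA hα q x) (Real.exp_pos _).le)
  · exact hsum.mul_left _

private lemma d3_box (hα : ∀ i, 0 ≤ α i) (q : ℕ) (κ : ℝ) {θ : ι → ℝ} {T : ℝ} (hT : 1 < T) :
    d3μ α q κ (Real.log T)⁻¹ {z | ∀ i, z i ≤ θ i} =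
      ENNReal.ofReal ((Real.log T)⁻¹ ^ κ * DS α q (fun i => ⌊T ^ θ i⌋₊)) := by
  have hL : 0 < Real.log T := Real.log_pos hT
  have hT0 : 0 < T := by linarith
  have hset : MeasurableSet {z : ι → ℝ | ∀ i, z i ≤ θ i} := by
    have : {z : ι → ℝ | ∀ i, z i ≤ θ i} = ⋂ i, {z : ι → ℝ | z i ≤ θ i} := by ext z; simp
    rw [this]
    exact MeasurableSet.iInter fun i => measurableSet_le (measurable_pi_apply i) measurable_const
  unfold d3μ
  rw [Measure.sum_apply _ hset]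
  set A := arr q (fun i => ⌊T ^ θ i⌋₊) with hA
  have key : ∀ x : ι → ℕ × ℕ, okA q x → ((∀ i, (Real.log T)⁻¹ * zA x i ≤ θ i) ↔ x ∈ A) := by
    intro x hx
    have hx1 := hx.1
    rw [hA]
    unfold arr
    rw [Fintype.mem_piFinset]
    refine forall_congr' fun i => ?_
    obtain ⟨p1, p2, p3, p4⟩ := hx1 i
    have q1 : (0:ℝ) < ((x i).1 : ℝ) := by exact_mod_cast p1
    have q2 : (0:ℝ) < ((x i).2 : ℝ) := by exact_mod_cast p2
    have e1 : zA x i = Real.log (((x i).1 * (x i).2 : ℕ) : ℝ) := by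
      unfold zA
      rw [← Real.log_mul q1.ne' q2.ne']; push_cast; rfl
    have e2 : (Real.log T)⁻¹ * zA x i ≤ θ i ↔ (((x i).1 * (x i).2 : ℕ) : ℝ) ≤ T ^ θ i := by
      rw [inv_mul_le_iff₀ hL, e1, Real.log_le_iff_le_exp (by positivity), Real.rpow_def_of_pos hT0]
    rw [e2]
    unfold prs
    simp only [Finset.mem_filter, Finset.mem_product, Finset.mem_Icc]
    rw [← Nat.le_floor_iff (Real.rpow_nonneg hT0.le _)]
    constructor
    · intro h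
      refine ⟨⟨⟨p1, ?_⟩, p2, ?_⟩, h, p3, p4⟩
      · exact (Nat.le_mul_of_pos_right _ p2).trans h
      · exact (Nat.le_mul_of_pos_left _ p1).trans h
    · exact fun h => h.2.1
  have harr : ∀ x ∈ A, (∀ i, 1 ≤ (x i).1 ∧ 1 ≤ (x i).2 ∧ Nat.Coprime (x i).1 q ∧ Nat.Coprime (x i).2 q) := by
    intro x hx i
    rw [hA] at hx
    unfold arr at hx
    rw [Fintype.mem_piFinset] at hx
    have := hx i
    unfold prs at this
    simp only [Finset.mem_filter, Finset.mem_product, Finset.mem_Icc] at this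
    exact ⟨this.1.1.1, this.1.2.1, this.2.2.1, this.2.2.2⟩
  have h1 : ∀ x : ι → ℕ × ℕ, (ENNReal.ofReal ((Real.log T)⁻¹ ^ κ * wA α q x) •
      Measure.dirac (fun i => (Real.log T)⁻¹ * zA x i)) {z | ∀ i, z i ≤ θ i} =
      if x ∈ A then ENNReal.ofReal ((Real.log T)⁻¹ ^ κ * wA α q x) else 0 := by
    intro x
    rw [Measure.smul_apply, Measure.dirac_apply' _ hset, smul_eq_mul]
    by_cases hx : okA q x
    · by_cases hxA : x ∈ A
      · rw [if_pos hxA, Set.indicator_of_mem (show (fun i => (Real.log T)⁻¹ * zA x i) ∈ {z : ι → ℝ | ∀ i, z i ≤ θ i} from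
          (key x hx).2 hxA), Pi.one_apply, mul_one]
      · rw [if_neg hxA, Set.indicator_of_notMem (show (fun i => (Real.log T)⁻¹ * zA x i) ∉ {z : ι → ℝ | ∀ i, z i ≤ θ i} from
          fun h => hxA ((key x hx).1 h)), mul_zero]
    · have : wA α q x = 0 := by
        unfold wA
        rw [if_neg hx]
      rw [this, mul_zero, ENNReal.ofReal_zero, zero_mul, ite_self]
  rw [tsum_congr h1, tsum_eq_sum (s := A) fun x hx => if_neg hx]
  rw [Finset.sum_congr rfl fun x hx => if_pos hx, ← ENNReal.ofReal_sum_of_nonneg]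
  · congr 1
    rw [← Finset.mul_sum]
    congr 1
    unfold DS
    refine Finset.sum_congr rfl fun x hx => ?_
    unfold wA okA
    by_cases h : An x = Bn x
    · rw [if_pos ⟨harr x hx, h⟩, if_pos h]
    · rw [if_neg (fun h' => h h'.2), if_neg h]
  · intro x _
    exact mul_nonneg (Real.rpow_nonneg (inv_nonneg.2 hL.le) _) (d3_wA hα q x)

end

private lemma d3_Gq {r : ℕ} {p : Fin r → ℕ} (hp : ∀ i, (p i).Prime) {κ : ℝ} (hκ : 0 ≤ κ) : 0 < Gq κ p := by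
  unfold Gq
  refine Finset.prod_pos fun i _ => ?_
  have h := rp_mem (hp i)
  have h3 : rp (p i) ^ 2 < 1 := by
    have := h.1
    have := h.2.1
    nlinarith
  have h4 := Gsum_ge hκ (sq_nonneg (rp (p i))) h3
  have h5 : 0 ≤ κ ^ 2 * rp (p i) ^ 2 := by positivity
  linarith

private lemma d3_inv {L κ : ℝ} (hL : 0 < L) : L⁻¹ ^ κ * L ^ κ = 1 := by
  rw [← Real.mul_rpow (inv_nonneg.2 hL.le) hL.le, inv_mul_cancel₀ hL.ne', Real.one_rpow]

private theorem d3_main {r : ℕ} {p : Fin r → ℕ} (hp : ∀ i, (p i).Prime) (hinj : Function.Injective p) {ι : Type*} [Fintype ι]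
    [DecidableEq ι] {α : ι → ℝ} (hα : ∀ i, 0 ≤ α i) {Ω : Type*} [MeasurableSpace Ω] {ρ : Measure Ω} [SigmaFinite ρ]
    {Z : Ω → ι → ℝ} (hZ : Measurable Z) (hZ0 : ∀ᵐ x ∂ρ, ∀ i, 0 ≤ Z x i)
    (hL : ∀ s : ι → ℝ, (∀ i, 0 < s i) → ∫⁻ x, ENNReal.ofReal (Real.exp (-∑ i, s i * Z x i)) ∂ρ =
      ENNReal.ofReal (∏ i, ∏ j, (s i + s j) ^ (-(α i * α j)))) (θ : ι → ℝ) (c : ℝ≥0∞) :
    (ENNReal.ofReal (Aconst (∑ i, α i) / Gq (∑ i, α i) p) * ρ {x | ∀ i, Z x i ≤ θ i} < c →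
      ∀ᶠ T : ℝ in atTop, ENNReal.ofReal ((Real.log T)⁻¹ ^ ((∑ i, α i) ^ 2) * DS α (qP p) (fun i => ⌊T ^ θ i⌋₊)) ≤ c) ∧
    (c < ENNReal.ofReal (Aconst (∑ i, α i) / Gq (∑ i, α i) p) * ρ {x | ∀ i, Z x i < θ i} →
      ∀ᶠ T : ℝ in atTop, c ≤ ENNReal.ofReal ((Real.log T)⁻¹ ^ ((∑ i, α i) ^ 2) * DS α (qP p) (fun i => ⌊T ^ θ i⌋₊))) := by
  have hκ : 0 ≤ ∑ i, α i := Finset.sum_nonneg fun i _ => hα i
  set K : ℝ := Aconst (∑ i, α i) / Gq (∑ i, α i) p with hK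
  have hK0 : 0 < K := div_pos (Aconst_pos hκ) (d3_Gq hp hκ)
  set ν : Measure (ι → ℝ) := ENNReal.ofReal K • ρ.map Z with hν
  have hlap : ∀ s : ι → ℝ, (∀ i, 0 < s i) → ∫⁻ z, ENNReal.ofReal (Real.exp (-∑ i, s i * z i)) ∂ν =
      ENNReal.ofReal (K * ∏ i, ∏ j, (s i + s j) ^ (-(α i * α j))) := by
    intro s hs
    rw [hν, lintegral_smul_measure, lintegral_map (by fun_prop) hZ, hL s hs, smul_eq_mul, ← ENNReal.ofReal_mul hK0.le]
  have hms : ∀ (P : ℝ → ℝ → Prop), (∀ i : ι, MeasurableSet {z : ι → ℝ | P (z i) (θ i)}) →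
      MeasurableSet {z : ι → ℝ | ∀ i, P (z i) (θ i)} := by
    intro P h
    have : {z : ι → ℝ | ∀ i, P (z i) (θ i)} = ⋂ i, {z : ι → ℝ | P (z i) (θ i)} := by ext z; simp
    rw [this]
    exact MeasurableSet.iInter h
  have hbox := lap_box (fun δ => d3μ α (qP p) ((∑ i, α i) ^ 2) δ) ν
    (by filter_upwards [self_mem_nhdsWithin] with δ hδ using d3_nonneg _ _ hδ)
    (by
      rw [hν]
      refine Measure.ae_smul_measure ?_ _
      rw [ae_map_iff hZ.aemeasurable]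
      · exact hZ0
      · have : {z : ι → ℝ | ∀ i, 0 ≤ z i} = ⋂ i, {z : ι → ℝ | 0 ≤ z i} := by ext z; simp
        rw [this]
        exact MeasurableSet.iInter fun i => measurableSet_le measurable_const (measurable_pi_apply i))
    (by intro s hs; rw [hlap s hs]; exact ENNReal.ofReal_ne_top)
    (by
      intro s hs
      rw [hlap s hs]
      have h1 := ENNReal.tendsto_ofReal (lapA_lim hp hinj hα hs)
      refine h1.congr' ?_
      filter_upwards [self_mem_nhdsWithin] with δ hδ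
      exact (d3_lap hα _ _ hs hδ).symm) θ c
  have hT : Tendsto (fun T : ℝ => (Real.log T)⁻¹) atTop (𝓝[>] (0:ℝ)) :=
    tendsto_inv_atTop_nhdsGT_zero.comp Real.tendsto_log_atTop
  have b1 : ν {z | ∀ i, z i ≤ θ i} = ENNReal.ofReal K * ρ {x | ∀ i, Z x i ≤ θ i} := by
    rw [hν, Measure.smul_apply, Measure.map_apply hZ (hms (fun a b => a ≤ b) fun i =>
      measurableSet_le (measurable_pi_apply i) measurable_const), smul_eq_mul]
    rfl
  have b2 : ν {z | ∀ i, z i < θ i} = ENNReal.ofReal K * ρ {x | ∀ i, Z x i < θ i} := by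
    rw [hν, Measure.smul_apply, Measure.map_apply hZ (hms (fun a b => a < b) fun i =>
      measurableSet_lt (measurable_pi_apply i) measurable_const), smul_eq_mul]
    rfl
  constructor
  · intro h
    filter_upwards [hT.eventually (hbox.1 (by rw [b1]; exact h)), eventually_gt_atTop 1] with T h1 h2
    rwa [d3_box hα _ _ h2] at h1
  · intro h
    filter_upwards [hT.eventually (hbox.2 (by rw [b2]; exact h)), eventually_gt_atTop 1] with T h1 h2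
    rwa [d3_box hα _ _ h2] at h1

theorem ds_upper {r : ℕ} {p : Fin r → ℕ} (hp : ∀ i, (p i).Prime) (hinj : Function.Injective p) {ι : Type*} [Fintype ι]
    [DecidableEq ι] {α : ι → ℝ} (hα : ∀ i, 0 ≤ α i) {Ω : Type*} [MeasurableSpace Ω] {ρ : Measure Ω} [SigmaFinite ρ]
    {Z : Ω → ι → ℝ} (hZ : Measurable Z) (hZ0 : ∀ᵐ x ∂ρ, ∀ i, 0 ≤ Z x i)
    (hL : ∀ s : ι → ℝ, (∀ i, 0 < s i) → ∫⁻ x, ENNReal.ofReal (Real.exp (-∑ i, s i * Z x i)) ∂ρ =
      ENNReal.ofReal (∏ i, ∏ j, (s i + s j) ^ (-(α i * α j)))) {θ : ι → ℝ} (hθ : ∀ i, 0 < θ i) {V : ℝ} (hV0 : 0 ≤ V)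
    (hV : ρ {x | ∀ i, Z x i ≤ θ i} ≤ ENNReal.ofReal V) {c : ℝ} (hc : V < c) :
    ∀ᶠ T : ℝ in atTop, DS α (qP p) (fun i => ⌊T ^ θ i⌋₊) ≤
      c * (Aconst (∑ i, α i) / Gq (∑ i, α i) p) * (Real.log T) ^ ((∑ i, α i) ^ 2) := by
  have hκ : 0 ≤ ∑ i, α i := Finset.sum_nonneg fun i _ => hα i
  have hK0 : 0 < Aconst (∑ i, α i) / Gq (∑ i, α i) p := div_pos (Aconst_pos hκ) (d3_Gq hp hκ)
  have h1 := (d3_main hp hinj hα hZ hZ0 hL θ (ENNReal.ofReal (c * (Aconst (∑ i, α i) / Gq (∑ i, α i) p)))).1 (by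
    refine lt_of_le_of_lt (mul_le_mul_right hV _) ?_
    rw [← ENNReal.ofReal_mul hK0.le, mul_comm]
    exact (ENNReal.ofReal_lt_ofReal_iff (mul_pos (lt_of_le_of_lt hV0 hc) hK0)).2 (mul_lt_mul_of_pos_right hc hK0))
  filter_upwards [h1, eventually_gt_atTop 1] with T h2 h3
  have hLT : 0 < Real.log T := Real.log_pos h3
  have h4 := (ENNReal.ofReal_le_ofReal_iff (mul_pos (lt_of_le_of_lt hV0 hc) hK0).le).1 h2
  have h5 : 0 < (Real.log T) ^ ((∑ i, α i) ^ 2) := Real.rpow_pos_of_pos hLT _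
  have h6 := d3_inv (κ := (∑ i, α i) ^ 2) hLT
  calc DS α (qP p) (fun i => ⌊T ^ θ i⌋₊) = ((Real.log T)⁻¹ ^ ((∑ i, α i) ^ 2) * (Real.log T) ^ ((∑ i, α i) ^ 2)) *
        DS α (qP p) (fun i => ⌊T ^ θ i⌋₊) := by rw [h6, one_mul]
    _ = ((Real.log T)⁻¹ ^ ((∑ i, α i) ^ 2) * DS α (qP p) (fun i => ⌊T ^ θ i⌋₊)) * (Real.log T) ^ ((∑ i, α i) ^ 2) := by ring
    _ ≤ _ := mul_le_mul_of_nonneg_right h4 h5.le

theorem ds_lower {r : ℕ} {p : Fin r → ℕ} (hp : ∀ i, (p i).Prime) (hinj : Function.Injective p) {ι : Type*} [Fintype ι]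
    [DecidableEq ι] {α : ι → ℝ} (hα : ∀ i, 0 ≤ α i) {Ω : Type*} [MeasurableSpace Ω] {ρ : Measure Ω} [SigmaFinite ρ]
    {Z : Ω → ι → ℝ} (hZ : Measurable Z) (hZ0 : ∀ᵐ x ∂ρ, ∀ i, 0 ≤ Z x i)
    (hL : ∀ s : ι → ℝ, (∀ i, 0 < s i) → ∫⁻ x, ENNReal.ofReal (Real.exp (-∑ i, s i * Z x i)) ∂ρ =
      ENNReal.ofReal (∏ i, ∏ j, (s i + s j) ^ (-(α i * α j)))) {θ : ι → ℝ} (hθ : ∀ i, 0 < θ i) {V : ℝ}
    (hV : ENNReal.ofReal V ≤ ρ {x | ∀ i, Z x i < θ i}) {c : ℝ} (hc : c < V) :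
    ∀ᶠ T : ℝ in atTop, c * (Aconst (∑ i, α i) / Gq (∑ i, α i) p) * (Real.log T) ^ ((∑ i, α i) ^ 2) ≤
      DS α (qP p) (fun i => ⌊T ^ θ i⌋₊) := by
  have hκ : 0 ≤ ∑ i, α i := Finset.sum_nonneg fun i _ => hα i
  have hK0 : 0 < Aconst (∑ i, α i) / Gq (∑ i, α i) p := div_pos (Aconst_pos hκ) (d3_Gq hp hκ)
  have hDS : ∀ T : ℝ, 0 ≤ DS α (qP p) (fun i => ⌊T ^ θ i⌋₊) := by
    intro T
    unfold DS
    refine Finset.sum_nonneg fun x _ => ?_
    split_ifs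
    · exact div_nonneg (by
        unfold co
        exact Finset.prod_nonneg fun i _ => mul_nonneg (tau_nonneg (hα i) _) (tau_nonneg (hα i) _)) (Nat.cast_nonneg _)
    · exact le_rfl
  rcases le_or_gt c 0 with hc0 | hc0
  · filter_upwards [eventually_gt_atTop 1] with T h3
    have hLT : 0 < Real.log T := Real.log_pos h3
    have h5 : 0 < (Real.log T) ^ ((∑ i, α i) ^ 2) := Real.rpow_pos_of_pos hLT _
    refine le_trans ?_ (hDS T)
    exact mul_nonpos_of_nonpos_of_nonneg (mul_nonpos_of_nonpos_of_nonneg hc0 hK0.le) h5.le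
  have h1 := (d3_main hp hinj hα hZ hZ0 hL θ (ENNReal.ofReal (c * (Aconst (∑ i, α i) / Gq (∑ i, α i) p)))).2 (by
    refine lt_of_lt_of_le ?_ (mul_le_mul_right hV _)
    rw [← ENNReal.ofReal_mul hK0.le, mul_comm]
    exact (ENNReal.ofReal_lt_ofReal_iff (mul_pos hK0 (hc0.trans hc))).2 (mul_lt_mul_of_pos_left hc hK0))
  filter_upwards [h1, eventually_gt_atTop 1] with T h2 h3
  have hLT : 0 < Real.log T := Real.log_pos h3
  have h5 : 0 < (Real.log T) ^ ((∑ i, α i) ^ 2) := Real.rpow_pos_of_pos hLT _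
  have h7 : 0 ≤ (Real.log T)⁻¹ ^ ((∑ i, α i) ^ 2) * DS α (qP p) (fun i => ⌊T ^ θ i⌋₊) :=
    mul_nonneg (Real.rpow_nonneg (inv_nonneg.2 hLT.le) _) (hDS T)
  have h4 := (ENNReal.ofReal_le_ofReal_iff h7).1 h2
  have h6 := d3_inv (κ := (∑ i, α i) ^ 2) hLT
  calc c * (Aconst (∑ i, α i) / Gq (∑ i, α i) p) * (Real.log T) ^ ((∑ i, α i) ^ 2)
      ≤ ((Real.log T)⁻¹ ^ ((∑ i, α i) ^ 2) * DS α (qP p) (fun i => ⌊T ^ θ i⌋₊)) * (Real.log T) ^ ((∑ i, α i) ^ 2) :=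
        mul_le_mul_of_nonneg_right h4 h5.le
    _ = ((Real.log T)⁻¹ ^ ((∑ i, α i) ^ 2) * (Real.log T) ^ ((∑ i, α i) ^ 2)) * DS α (qP p) (fun i => ⌊T ^ θ i⌋₊) := by ring
    _ = _ := by rw [h6, one_mul]

end Pool.Agent.LibOH30
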