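import Pool.Agent.LibLaw15.Z

/-! # Board OH30: two sided Dirichlet polynomials and the third moment of zeta. Definitions. -/

set_option autoImplicit false

namespace Pool.Agent.LibOH30

open MeasureTheory Set Filter Topology Complex ProbabilityTheory
open scoped NNReal ENNReal ComplexConjugate
open Pool.Agent.LibZM Pool.Agent.LibM3 Pool.Agent.LibLaw15

/-- Pairs `(m, n)` of positive integers coprime to `q` with `m n ≤ N`. -/
def prs (q N : ℕ) : Finset (ℕ × ℕ) :=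
  (Finset.Icc 1 N ×ˢ Finset.Icc 1 N).filter fun x => x.1 * x.2 ≤ N ∧ Nat.Coprime x.1 q ∧ Nat.Coprime x.2 q

/-- The two sided polynomial `Σ τ_a(m) τ_a(n) (mn)^{-1/2} (n/m)^{it}` over `prs q N`. -/
noncomputable def TP (a : ℝ) (q N : ℕ) (t : ℝ) : ℂ :=
  ∑ x ∈ prs q N, ((tau a x.1 * tau a x.2 : ℝ) : ℂ) * ((x.1:ℂ) ^ (-crit t) * (x.2:ℂ) ^ (-(1 - crit t)))

/-- `TP` is real: this is its value. -/
noncomputable def TR (a : ℝ) (q N : ℕ) (t : ℝ) : ℝ := (TP a q N t).re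

section

variable {ι : Type*} [Fintype ι]

/-- Product of the first coordinates. -/
def An (x : ι → ℕ × ℕ) : ℕ := ∏ i, (x i).1

/-- Product of the second coordinates. -/
def Bn (x : ι → ℕ × ℕ) : ℕ := ∏ i, (x i).2

/-- Coefficient of the array `x`. -/
noncomputable def co (α : ι → ℝ) (x : ι → ℕ × ℕ) : ℝ := ∏ i, (tau (α i) (x i).1 * tau (α i) (x i).2)

/-- Product of the two sided polynomials. -/
noncomputable def XR (α : ι → ℝ) (q : ℕ) (N : ι → ℕ) (t : ℝ) : ℝ := ∏ i, TR (α i) q (N i) t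

variable [DecidableEq ι]

/-- The arrays. -/
def arr (q : ℕ) (N : ι → ℕ) : Finset (ι → ℕ × ℕ) := Fintype.piFinset fun i => prs q (N i)

/-- The diagonal sum. -/
noncomputable def DS (α : ι → ℝ) (q : ℕ) (N : ι → ℕ) : ℝ :=
  ∑ x ∈ arr q N, if An x = Bn x then co α x / (An x : ℝ) else 0

/-- The main term of the twisted second moment. -/
noncomputable def TS (α : ι → ℝ) (q : ℕ) (N : ι → ℕ) (T : ℝ) : ℝ :=
  ∑ x ∈ arr q N, co α x * ((Nat.gcd (An x) (Bn x) : ℝ) / ((An x : ℝ) * Bn x)) * ell T (An x) (Bn x)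

/-- The coefficients of `XR · (m/n)^{it}` as a `QForm`. -/
noncomputable def KX (α : ι → ℝ) (q : ℕ) (N : ι → ℕ) (m n : ℕ) (H K : ℕ) : ℂ :=
  (((∑ x ∈ (arr q N).filter (fun x => n * An x = H ∧ m * Bn x = K), √((m:ℝ) * n) * co α x) /
    (tau (1/2) H * tau (1/2) K) : ℝ) : ℂ)

end

/-- The arrays of the Laplace transform: all entries positive and coprime to `q`, equal products. -/
def okA {ι : Type*} [Fintype ι] (q : ℕ) (x : ι → ℕ × ℕ) : Prop :=
  (∀ i, 1 ≤ (x i).1 ∧ 1 ≤ (x i).2 ∧ Nat.Coprime (x i).1 q ∧ Nat.Coprime (x i).2 q) ∧ An x = Bn x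

open Classical in
/-- The weight of the array `x` in the Laplace transform. -/
noncomputable def wA {ι : Type*} [Fintype ι] (α : ι → ℝ) (q : ℕ) (x : ι → ℕ × ℕ) : ℝ :=
  if okA q x then co α x / (An x : ℝ) else 0

/-- `log (m_i n_i)`. -/
noncomputable def zA {ι : Type*} (x : ι → ℕ × ℕ) (i : ι) : ℝ := Real.log (x i).1 + Real.log (x i).2

/-- The Laplace transform of the arrays. -/
noncomputable def LapA {ι : Type*} [Fintype ι] (α : ι → ℝ) (q : ℕ) (s : ι → ℝ) (δ : ℝ) : ℝ :=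
  ∑' x : ι → ℕ × ℕ, wA α q x * Real.exp (-(δ * ∑ i, s i * zA x i))

/-- The product of the local factors at the primes `p i`. -/
noncomputable def Gq {r : ℕ} (κ : ℝ) (p : Fin r → ℕ) : ℝ := ∏ i, Gsum κ (rp (p i) ^ 2)

/-- The measure with density `t^{w-1}/Γ(w)` on the positive half line. -/
noncomputable def gam (w : ℝ) : Measure ℝ := volume.withDensity fun t => ENNReal.ofReal (cellρ w t)

/-! ### The three limit measures -/

/-- Six edges of the complete graph on `{0,1,2,3}`: `(t01, t23, t02, t13, t03, t12)`. -/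
abbrev R6 : Type := ℝ × ℝ × ℝ × ℝ × ℝ × ℝ

/-- The sum of the edges at the vertex `i`. -/
def Yv (t : R6) : Fin 4 → ℝ :=
  ![t.1 + t.2.2.1 + t.2.2.2.2.1, t.1 + t.2.2.2.1 + t.2.2.2.2.2, t.2.1 + t.2.2.1 + t.2.2.2.2.2,
    t.2.1 + t.2.2.2.1 + t.2.2.2.2.1]

/-- The product of six copies of `gam w`. -/
noncomputable def gam6 (w : ℝ) : Measure R6 :=
  (gam w).prod ((gam w).prod ((gam w).prod ((gam w).prod ((gam w).prod (gam w)))))

/-- (A) `(e01, e02, e12, l0, l1, l2)`: vertices `0 = ζ`, `1 = s`, `2 = M`. -/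
noncomputable def rhoA : Measure R6 :=
  (gam (1/4)).prod ((gam (3/4)).prod ((gam (3/32)).prod ((gam 1).prod ((gam (1/64)).prod (gam (9/64))))))

/-- (A) row plus column sums. -/
def ZA (x : R6) : Fin 3 → ℝ :=
  ![2 * x.2.2.2.1 + x.1 + x.2.1, 2 * x.2.2.2.2.1 + x.1 + x.2.2.1, 2 * x.2.2.2.2.2 + x.2.1 + x.2.2.1]

/-- (B) The six edges, the four pairs `(u_i, l_i)` and `l_0`. -/
abbrev OmB : Type := R6 × (Fin 4 → ℝ × ℝ) × ℝ

/-- (B) The measure. -/
noncomputable def rhoB : Measure OmB :=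
  (gam6 (1/32)).prod ((Measure.pi fun _ : Fin 4 => (gam (1/4)).prod (gam (1/64))).prod (gam 1))

/-- (B) row plus column sums: vertex `0 = ζ`, vertices `1, …, 4 = s`. -/
def ZB (x : OmB) : Fin 5 → ℝ :=
  Fin.cons (2 * x.2.2 + ∑ i, (x.2.1 i).1) fun i => 2 * (x.2.1 i).2 + (x.2.1 i).1 + Yv x.1 i

/-- (C) The six edges and the four loops. -/
abbrev OmC : Type := R6 × (Fin 4 → ℝ)

/-- (C) The measure. -/
noncomputable def rhoC : Measure OmC := (gam6 (9/32)).prod (Measure.pi fun _ : Fin 4 => gam (9/64))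

/-- (C) row plus column sums. -/
def ZC (x : OmC) : Fin 4 → ℝ := fun i => 2 * x.2 i + Yv x.1 i

/-- Exponents (half of `a`): (A) with the zeta vertex. -/
noncomputable def alA : Fin 3 → ℝ := ![1, 1/8, 3/8]

/-- (B) with the zeta vertex. -/
noncomputable def alB : Fin 5 → ℝ := Fin.cons 1 fun _ => 1/8

/-- (C). -/
noncomputable def alC : Fin 4 → ℝ := fun _ => 3/8

end Pool.Agent.LibOH30
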