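import Pool.Agent.LibOH30.Defs

set_option autoImplicit false

namespace Pool.Agent.LibOH30

open MeasureTheory Set Filter Topology Complex ProbabilityTheory
open scoped NNReal ENNReal ComplexConjugate
open Pool.Agent.LibZM Pool.Agent.LibM3 Pool.Agent.LibLaw15

/-! ROW E0 (MEDIUM). The measures `gam w` (density `t^{w-1}/Γ(w)` on `(0,∞)`; `cellρ` is in LibZM/MK4: `measurable_cellρ`,
`integral_cell`, `integrable_cell`). Beta integral: `Complex.betaIntegral` / `Real` versions in Mathlib. -/

instance gam_sigma (w : ℝ) : SigmaFinite (gam w) := by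
  unfold gam
  infer_instance

private lemma measurable_dens (w : ℝ) : Measurable fun t => ENNReal.ofReal (cellρ w t) :=
  (measurable_cellρ w).ennreal_ofReal

theorem gam_pos (w : ℝ) : ∀ᵐ t ∂(gam w), 0 < t := by
  unfold gam
  rw [ae_withDensity_iff (measurable_dens w)]
  refine ae_of_all _ fun t ht => ?_
  by_contra h
  apply ht
  unfold cellρ
  rw [Set.indicator_of_notMem (by simpa using h)]
  simp

theorem gam_lap {w c : ℝ} (hw : 0 < w) (hc : 0 < c) :
    ∫⁻ t, ENNReal.ofReal (Real.exp (-(c * t))) ∂(gam w) = ENNReal.ofReal (c ^ (-w)) := by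
  unfold gam
  rw [lintegral_withDensity_eq_lintegral_mul _ (measurable_dens w) (by fun_prop)]
  rw [← integral_cell hw hc, ofReal_integral_eq_lintegral_ofReal (integrable_cell hw hc)
    (ae_of_all _ fun t => mul_nonneg (Real.exp_pos _).le (cellρ_nonneg hw t))]
  refine lintegral_congr fun t => ?_
  rw [Pi.mul_apply, ENNReal.ofReal_mul (Real.exp_pos _).le, mul_comm]

private lemma lintegral_scale' {a : ℝ} (ha : a ≠ 0) (F : ℝ → ℝ≥0∞) (hF : Measurable F) :
    ∫⁻ x, F x = ENNReal.ofReal |a| * ∫⁻ x, F (a * x) := by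
  conv_lhs => rw [← Real.smul_map_volume_mul_left ha]
  rw [lintegral_smul_measure, lintegral_map hF (by fun_prop), smul_eq_mul]

theorem gam_beta {w p c : ℝ} (hw : 0 < w) (hp : 0 ≤ p) (hc : 0 ≤ c) :
    ∫⁻ t, (if t < c then ENNReal.ofReal ((c - t) ^ p) else 0) ∂(gam w) =
      ENNReal.ofReal (c ^ (p + w) * (Real.Gamma (p + 1) / Real.Gamma (p + 1 + w))) := by
  have hm : Measurable fun t : ℝ => (if t < c then ENNReal.ofReal ((c - t) ^ p) else 0 : ℝ≥0∞) :=
    Measurable.ite measurableSet_Iio (by fun_prop) measurable_const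
  rcases hc.eq_or_lt with rfl | hc
  · rw [Real.zero_rpow (by linarith), zero_mul, ENNReal.ofReal_zero]
    rw [lintegral_eq_zero_iff hm]
    filter_upwards [gam_pos w] with t ht
    simp [ht.not_gt]
  · unfold gam
    rw [lintegral_withDensity_eq_lintegral_mul _ (measurable_dens w) hm]
    rw [lintegral_scale' hc.ne' _ ((measurable_dens w).mul hm)]
    have hG : 0 < Real.Gamma w := Real.Gamma_pos_of_pos hw
    have hG1 : 0 < Real.Gamma (p + 1) := Real.Gamma_pos_of_pos (by linarith)
    have hG2 : 0 < Real.Gamma (w + (p + 1)) := Real.Gamma_pos_of_pos (by linarith)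
    have hB := beta_pos hw (show (0:ℝ) < p + 1 by linarith)
    have key : ∀ x : ℝ, ((fun t => ENNReal.ofReal (cellρ w t)) * fun t => (if t < c then ENNReal.ofReal ((c - t) ^ p) else 0 : ℝ≥0∞)) (c * x)
        = ENNReal.ofReal (c ^ (p + w - 1) * (beta w (p + 1) / Real.Gamma w)) * betaPDF w (p + 1) x := by
      intro x
      rw [Pi.mul_apply]
      by_cases hx : 0 < x ∧ x < 1
      · have h1 : c * x < c := by nlinarith [hx.2]
        rw [if_pos h1, betaPDF_of_pos_lt_one hx.1 hx.2, ← ENNReal.ofReal_mul (cellρ_nonneg hw _),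
          ← ENNReal.ofReal_mul (by positivity)]
        congr 1
        unfold cellρ
        rw [Set.indicator_of_mem (show c * x ∈ Ioi (0:ℝ) from mul_pos hc hx.1)]
        have e1 : c - c * x = c * (1 - x) := by ring
        have e2 : p + w - 1 = (w - 1) + p := by ring
        rw [e1, Real.mul_rpow hc.le hx.1.le, Real.mul_rpow hc.le (by linarith [hx.2]), e2, Real.rpow_add hc]
        have e3 : p + 1 - 1 = p := by ring
        rw [e3]
        field_simp
      · by_cases h0 : 0 < x
        · have h1 : 1 ≤ x := by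
            by_contra h; exact hx ⟨h0, not_le.1 h⟩
          have h2 : ¬ c * x < c := by nlinarith
          rw [if_neg h2, mul_zero, betaPDF_eq_zero_of_one_le h1, mul_zero]
        · have h1 : x ≤ 0 := not_lt.1 h0
          have h2 : ¬ (0:ℝ) < c * x := by
            rw [not_lt]; exact mul_nonpos_of_nonneg_of_nonpos hc.le h1
          rw [betaPDF_eq_zero_of_nonpos h1, mul_zero]
          unfold cellρ
          rw [Set.indicator_of_notMem (by simpa using h2)]
          simp
    rw [lintegral_congr key, lintegral_const_mul' _ _ ENNReal.ofReal_ne_top, lintegral_betaPDF_eq_one hw (by linarith), mul_one,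
      ← ENNReal.ofReal_mul (abs_nonneg _)]
    congr 1
    rw [abs_of_pos hc]
    have e1 : c ^ (p + w) = c * c ^ (p + w - 1) := by
      rw [← Real.rpow_one_add' hc.le (by linarith)]
      congr 1; ring
    have e2 : p + 1 + w = w + (p + 1) := by ring
    rw [e1, e2]
    unfold beta
    field_simp

end Pool.Agent.LibOH30
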