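import Pool.Agent.LibOH30.E0

set_option autoImplicit false

namespace Pool.Agent.LibOH30

open MeasureTheory Set Filter Topology Complex ProbabilityTheory
open scoped NNReal ENNReal ComplexConjugate
open Pool.Agent.LibZM Pool.Agent.LibM3 Pool.Agent.LibLaw15

/-! ROW E0b (MEDIUM). Convolution `gam a * gam b = gam (a + b)` (Beta function: `∫_0^z x^{a-1} (z-x)^{b-1} dx = z^{a+b-1} B(a,b)`), scaling by 2, and
multiplication by `t` (`t · t^{w-1}/Γ(w) = w · t^w/Γ(w+1)`). -/

private lemma e0b_meas (w : ℝ) : Measurable fun t => ENNReal.ofReal (cellρ w t) :=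
  (measurable_cellρ w).ennreal_ofReal

private lemma e0b_scale {a : ℝ} (ha : a ≠ 0) (F : ℝ → ℝ≥0∞) (hF : Measurable F) :
    ∫⁻ x, F x = ENNReal.ofReal |a| * ∫⁻ x, F (a * x) := by
  conv_lhs => rw [← Real.smul_map_volume_mul_left ha]
  rw [lintegral_smul_measure, lintegral_map hF (by fun_prop), smul_eq_mul]

private lemma e0b_int {w : ℝ} {f : ℝ → ℝ≥0∞} (hf : Measurable f) :
    ∫⁻ x, f x ∂(gam w) = ∫⁻ x, ENNReal.ofReal (cellρ w x) * f x := by
  unfold gam
  rw [lintegral_withDensity_eq_lintegral_mul _ (e0b_meas w) hf]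
  rfl

private lemma e0b_pos {w t : ℝ} (ht : 0 < t) : cellρ w t = t ^ (w - 1) / Real.Gamma w := by
  unfold cellρ
  rw [Set.indicator_of_mem (show t ∈ Ioi (0:ℝ) from ht)]

private lemma e0b_neg {w t : ℝ} (ht : t ≤ 0) : cellρ w t = 0 := by
  unfold cellρ
  rw [Set.indicator_of_notMem (by simpa using ht)]

/-- The convolution of the densities. -/
private lemma e0b_conv {a b : ℝ} (ha : 0 < a) (hb : 0 < b) (z : ℝ) :
    ∫⁻ x, ENNReal.ofReal (cellρ a x) * ENNReal.ofReal (cellρ b (z - x)) = ENNReal.ofReal (cellρ (a + b) z) := by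
  rcases le_or_gt z 0 with hz | hz
  · rw [e0b_neg hz, ENNReal.ofReal_zero]
    have : ∀ x, ENNReal.ofReal (cellρ a x) * ENNReal.ofReal (cellρ b (z - x)) = 0 := by
      intro x
      rcases le_or_gt x 0 with hx | hx
      · rw [e0b_neg hx, ENNReal.ofReal_zero, zero_mul]
      · rw [e0b_neg (show z - x ≤ 0 by linarith), ENNReal.ofReal_zero, mul_zero]
    simp only [this, lintegral_zero]
  · have hm : Measurable fun x => ENNReal.ofReal (cellρ a x) * ENNReal.ofReal (cellρ b (z - x)) :=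
      (e0b_meas a).mul ((e0b_meas b).comp (measurable_const.sub measurable_id))
    rw [e0b_scale hz.ne' _ hm]
    have hGa : 0 < Real.Gamma a := Real.Gamma_pos_of_pos ha
    have hGb : 0 < Real.Gamma b := Real.Gamma_pos_of_pos hb
    have hGab : 0 < Real.Gamma (a + b) := Real.Gamma_pos_of_pos (by linarith)
    have hB := beta_pos ha hb
    have key : ∀ x : ℝ, ENNReal.ofReal (cellρ a (z * x)) * ENNReal.ofReal (cellρ b (z - z * x)) =
        ENNReal.ofReal (z ^ (a + b - 2) / Real.Gamma (a + b)) * betaPDF a b x := by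
      intro x
      rcases le_or_gt x 0 with hx | hx
      · rw [e0b_neg (show z * x ≤ 0 from mul_nonpos_of_nonneg_of_nonpos hz.le hx), ENNReal.ofReal_zero, zero_mul,
          betaPDF_eq_zero_of_nonpos hx, mul_zero]
      · rcases lt_or_ge x 1 with hx1 | hx1
        · have h1 : 0 < z * x := mul_pos hz hx
          have h2 : z - z * x = z * (1 - x) := by ring
          have h3 : 0 < z * (1 - x) := mul_pos hz (by linarith)
          rw [h2, e0b_pos h1, e0b_pos h3, betaPDF_of_pos_lt_one hx hx1, ← ENNReal.ofReal_mul (by positivity),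
            ← ENNReal.ofReal_mul (by positivity)]
          congr 1
          rw [Real.mul_rpow hz.le hx.le, Real.mul_rpow hz.le (by linarith),
            show a + b - 2 = (a - 1) + (b - 1) by ring, Real.rpow_add hz]
          unfold beta
          field_simp
        · rw [e0b_neg (w := b) (show z - z * x ≤ 0 by nlinarith), ENNReal.ofReal_zero, mul_zero,
            betaPDF_eq_zero_of_one_le hx1, mul_zero]
    rw [lintegral_congr key, lintegral_const_mul' _ _ ENNReal.ofReal_ne_top, lintegral_betaPDF_eq_one ha hb, mul_one,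
      ← ENNReal.ofReal_mul (abs_nonneg _), e0b_pos hz, abs_of_pos hz]
    congr 1
    have e1 : z ^ (a + b - 1) = z * z ^ (a + b - 2) := by
      rw [show a + b - 1 = 1 + (a + b - 2) by ring, Real.rpow_add hz, Real.rpow_one]
    rw [e1]
    ring

theorem gam_conv {a b : ℝ} (ha : 0 < a) (hb : 0 < b) {f : ℝ → ℝ≥0∞} (hf : Measurable f) :
    ∫⁻ x, ∫⁻ y, f (x + y) ∂(gam b) ∂(gam a) = ∫⁻ z, f z ∂(gam (a + b)) := by
  have h1 : ∀ x, ∫⁻ y, f (x + y) ∂(gam b) = ∫⁻ z, ENNReal.ofReal (cellρ b (z - x)) * f z := by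
    intro x
    rw [e0b_int (f := fun y => f (x + y)) (hf.comp (measurable_const.add measurable_id))]
    have := lintegral_sub_right_eq_self (μ := volume) (fun y => ENNReal.ofReal (cellρ b y) * f (x + y)) x
    rw [← this]
    refine lintegral_congr fun y => ?_
    rw [show x + (y - x) = y by ring]
  have hm : Measurable fun p : ℝ × ℝ => ENNReal.ofReal (cellρ b (p.2 - p.1)) * f p.2 :=
    ((e0b_meas b).comp (measurable_snd.sub measurable_fst)).mul (hf.comp measurable_snd)
  simp only [h1]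
  rw [e0b_int hm.lintegral_prod_right']
  have h2 : ∀ x, ENNReal.ofReal (cellρ a x) * ∫⁻ z, ENNReal.ofReal (cellρ b (z - x)) * f z =
      ∫⁻ z, ENNReal.ofReal (cellρ a x) * (ENNReal.ofReal (cellρ b (z - x)) * f z) := by
    intro x
    rw [lintegral_const_mul' _ _ ENNReal.ofReal_ne_top]
  simp only [h2]
  rw [lintegral_lintegral_swap]
  · rw [e0b_int hf]
    refine lintegral_congr fun z => ?_
    have h3 : ∀ x, ENNReal.ofReal (cellρ a x) * (ENNReal.ofReal (cellρ b (z - x)) * f z) =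
        (ENNReal.ofReal (cellρ a x) * ENNReal.ofReal (cellρ b (z - x))) * f z := fun x => by ring
    simp only [h3]
    have hmm : Measurable fun x => ENNReal.ofReal (cellρ a x) * ENNReal.ofReal (cellρ b (z - x)) :=
      (e0b_meas a).mul ((e0b_meas b).comp (measurable_const.sub measurable_id))
    rw [lintegral_mul_const _ hmm, e0b_conv ha hb]
  · exact (((e0b_meas a).comp measurable_fst).mul hm).aemeasurable

theorem gam_two {w : ℝ} (hw : 0 < w) {f : ℝ → ℝ≥0∞} (hf : Measurable f) :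
    ∫⁻ x, f (2 * x) ∂(gam w) = ENNReal.ofReal ((2:ℝ) ^ (-w)) * ∫⁻ x, f x ∂(gam w) := by
  rw [e0b_int (f := fun x => f (2 * x)) (hf.comp (measurable_const.mul measurable_id)), e0b_int hf]
  rw [e0b_scale (a := 2) (by norm_num) (fun x => ENNReal.ofReal (cellρ w x) * f x) ((e0b_meas w).mul hf)]
  have h : ∀ x, ENNReal.ofReal (cellρ w (2 * x)) * f (2 * x) =
      ENNReal.ofReal ((2:ℝ) ^ (w - 1)) * (ENNReal.ofReal (cellρ w x) * f (2 * x)) := by
    intro x
    rcases le_or_gt x 0 with hx | hx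
    · rw [e0b_neg (show 2 * x ≤ 0 by linarith), e0b_neg hx]; simp
    · rw [e0b_pos (show 0 < 2 * x by linarith), e0b_pos hx, ← mul_assoc, ← ENNReal.ofReal_mul (by positivity),
        Real.mul_rpow (by norm_num) hx.le, mul_div_assoc]
  simp only [h]
  rw [lintegral_const_mul' _ _ ENNReal.ofReal_ne_top, ← mul_assoc, ← mul_assoc, ← ENNReal.ofReal_mul (by positivity),
    ← ENNReal.ofReal_mul (by positivity)]
  have e : (2:ℝ) ^ (-w) * |2| * 2 ^ (w - 1) = 1 := by
    rw [abs_of_pos (by norm_num : (0:ℝ) < 2), show (2:ℝ) ^ (-w) * 2 * 2 ^ (w - 1) = 2 ^ (-w) * (2:ℝ) ^ (1:ℝ) * 2 ^ (w - 1) by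
      rw [Real.rpow_one], ← Real.rpow_add (by norm_num), ← Real.rpow_add (by norm_num)]
    rw [show -w + 1 + (w - 1) = 0 by ring, Real.rpow_zero]
  rw [e, ENNReal.ofReal_one, one_mul]

theorem gam_mul {w : ℝ} (hw : 0 < w) {f : ℝ → ℝ≥0∞} (hf : Measurable f) :
    ∫⁻ x, ENNReal.ofReal x * f x ∂(gam w) = ENNReal.ofReal w * ∫⁻ x, f x ∂(gam (w + 1)) := by
  rw [e0b_int (f := fun x => ENNReal.ofReal x * f x) (ENNReal.measurable_ofReal.mul hf), e0b_int hf, ← lintegral_const_mul' _ _ ENNReal.ofReal_ne_top]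
  refine lintegral_congr fun x => ?_
  rcases le_or_gt x 0 with hx | hx
  · rw [e0b_neg hx, e0b_neg hx]; simp
  · have hG : 0 < Real.Gamma w := Real.Gamma_pos_of_pos hw
    rw [e0b_pos hx, e0b_pos hx, ← mul_assoc, ← mul_assoc, ← ENNReal.ofReal_mul (by positivity),
      ← ENNReal.ofReal_mul hw.le]
    congr 2
    rw [Real.Gamma_add_one hw.ne', show w + 1 - 1 = (w - 1) + 1 by ring, Real.rpow_add hx, Real.rpow_one]
    field_simp

end Pool.Agent.LibOH30
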