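import Pool.Agent.LibOH30.E0

set_option autoImplicit false

namespace Pool.Agent.LibOH30

open MeasureTheory Set Filter Topology Complex ProbabilityTheory
open scoped NNReal ENNReal ComplexConjugate
open Pool.Agent.LibZM Pool.Agent.LibM3 Pool.Agent.LibLaw15

/-! ROW LA (SHORT/MEDIUM). (A): measurability, positivity, Laplace transform. Tonelli on the nested product (`lintegral_prod_mul`), `gam_lap`
with `c = s0+s1, s0+s2, s1+s2, 2 s0, 2 s1, 2 s2`; `∏_{i,j} (s_i+s_j)^{-(α_i α_j)}` (`Fin.prod_univ_three`; equal bases: add the exponents). -/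

instance rhoA_sigma : SigmaFinite rhoA := by
  unfold rhoA
  infer_instance

theorem ZA_meas : Measurable ZA := by
  refine measurable_pi_lambda _ fun i => ?_
  fin_cases i
  · simp only [ZA]
    show Measurable fun x : R6 => 2 * x.2.2.2.1 + x.1 + x.2.1
    fun_prop
  · simp only [ZA]
    show Measurable fun x : R6 => 2 * x.2.2.2.2.1 + x.1 + x.2.2.1
    fun_prop
  · simp only [ZA]
    show Measurable fun x : R6 => 2 * x.2.2.2.2.2 + x.2.1 + x.2.2.1
    fun_prop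

private theorem pos1 (w : ℝ) {β : Type*} [MeasurableSpace β] {ν : Measure β} [SigmaFinite ν] {P : β → Prop}
    (h : ∀ᵐ y ∂ν, P y) : ∀ᵐ x ∂((gam w).prod ν), 0 < x.1 ∧ P x.2 := by
  have h1 : ∀ᵐ x ∂((gam w).prod ν), 0 < x.1 := Measure.quasiMeasurePreserving_fst.ae (gam_pos w)
  have h2 : ∀ᵐ x ∂((gam w).prod ν), P x.2 := Measure.quasiMeasurePreserving_snd.ae h
  filter_upwards [h1, h2] with x a b
  exact ⟨a, b⟩

theorem ZA_nonneg : ∀ᵐ x ∂rhoA, ∀ i, 0 ≤ ZA x i := by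
  unfold rhoA
  have h := pos1 (1/4) (pos1 (3/4) (pos1 (3/32) (pos1 1 (pos1 (1/64) (gam_pos (9/64))))))
  filter_upwards [h] with x hx
  obtain ⟨h0, h1, h2, h3, h4, h5⟩ := hx
  intro i
  fin_cases i
  · show 0 ≤ 2 * x.2.2.2.1 + x.1 + x.2.1
    linarith
  · show 0 ≤ 2 * x.2.2.2.2.1 + x.1 + x.2.2.1
    linarith
  · show 0 ≤ 2 * x.2.2.2.2.2 + x.2.1 + x.2.2.1
    linarith

/-- One more factor. -/
private theorem lapstep {w c : ℝ} (hw : 0 < w) (hc : 0 < c) {β : Type*} [MeasurableSpace β] {ν : Measure β} [SigmaFinite ν]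
    {g : β → ℝ≥0∞} (hg : Measurable g) {v : ℝ} (hv : ∫⁻ y, g y ∂ν = ENNReal.ofReal v) :
    ∫⁻ x, ENNReal.ofReal (Real.exp (-(c * x.1))) * g x.2 ∂((gam w).prod ν) = ENNReal.ofReal (c ^ (-w) * v) := by
  have hf : AEMeasurable (fun t : ℝ => ENNReal.ofReal (Real.exp (-(c * t)))) (gam w) := by fun_prop
  have h := lintegral_prod_mul (μ := gam w) (ν := ν) hf hg.aemeasurable
  rw [h, gam_lap hw hc, hv, ← ENNReal.ofReal_mul (by positivity)]

theorem ZA_lap (s : Fin 3 → ℝ) (hs : ∀ i, 0 < s i) : ∫⁻ x, ENNReal.ofReal (Real.exp (-∑ i, s i * ZA x i)) ∂rhoA =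
    ENNReal.ofReal (∏ i, ∏ j, (s i + s j) ^ (-(alA i * alA j))) := by
  have h0 := hs 0
  have h1 := hs 1
  have h2 := hs 2
  unfold rhoA
  have e6 := gam_lap (w := 9/64) (c := 2 * s 2) (by norm_num) (by positivity)
  have e5 := lapstep (w := 1/64) (c := 2 * s 1) (by norm_num) (by positivity) (by fun_prop) e6
  have e4 := lapstep (w := 1) (c := 2 * s 0) (by norm_num) (by positivity) (by fun_prop) e5
  have e3 := lapstep (w := 3/32) (c := s 1 + s 2) (by norm_num) (by positivity) (by fun_prop) e4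
  have e2 := lapstep (w := 3/4) (c := s 0 + s 2) (by norm_num) (by positivity) (by fun_prop) e3
  have e1 := lapstep (w := 1/4) (c := s 0 + s 1) (by norm_num) (by positivity) (by fun_prop) e2
  have key : ∀ x : R6, ENNReal.ofReal (Real.exp (-∑ i, s i * ZA x i)) =
      ENNReal.ofReal (Real.exp (-((s 0 + s 1) * x.1))) * (ENNReal.ofReal (Real.exp (-((s 0 + s 2) * x.2.1))) *
      (ENNReal.ofReal (Real.exp (-((s 1 + s 2) * x.2.2.1))) * (ENNReal.ofReal (Real.exp (-(2 * s 0 * x.2.2.2.1))) *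
      (ENNReal.ofReal (Real.exp (-(2 * s 1 * x.2.2.2.2.1))) * ENNReal.ofReal (Real.exp (-(2 * s 2 * x.2.2.2.2.2))))))) := by
    intro x
    rw [← ENNReal.ofReal_mul (by positivity), ← ENNReal.ofReal_mul (by positivity), ← ENNReal.ofReal_mul (by positivity),
      ← ENNReal.ofReal_mul (by positivity), ← ENNReal.ofReal_mul (by positivity), ← Real.exp_add, ← Real.exp_add, ← Real.exp_add,
      ← Real.exp_add, ← Real.exp_add, Fin.sum_univ_three]
    congr 2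
    show -(s 0 * (2 * x.2.2.2.1 + x.1 + x.2.1) + s 1 * (2 * x.2.2.2.2.1 + x.1 + x.2.2.1) + s 2 * (2 * x.2.2.2.2.2 + x.2.1 + x.2.2.1)) = _
    ring
  rw [lintegral_congr key, e1]
  congr 1
  have a0 : alA 0 = 1 := rfl
  have a1 : alA 1 = 1/8 := rfl
  have a2 : alA 2 = 3/8 := rfl
  rw [Fin.prod_univ_three, Fin.prod_univ_three, Fin.prod_univ_three, Fin.prod_univ_three, a0, a1, a2, add_comm (s 1) (s 0),
    add_comm (s 2) (s 0), add_comm (s 2) (s 1), ← two_mul, ← two_mul, ← two_mul]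
  have p1 : (s 0 + s 1) ^ (-(1/4) : ℝ) = (s 0 + s 1) ^ (-(1 * (1/8)) : ℝ) * (s 0 + s 1) ^ (-(1/8 * 1) : ℝ) := by
    rw [← Real.rpow_add (by positivity)]
    norm_num
  have p2 : (s 0 + s 2) ^ (-(3/4) : ℝ) = (s 0 + s 2) ^ (-(1 * (3/8)) : ℝ) * (s 0 + s 2) ^ (-(3/8 * 1) : ℝ) := by
    rw [← Real.rpow_add (by positivity)]
    norm_num
  have p3 : (s 1 + s 2) ^ (-(3/32) : ℝ) = (s 1 + s 2) ^ (-(1/8 * (3/8)) : ℝ) * (s 1 + s 2) ^ (-(3/8 * (1/8)) : ℝ) := by
    rw [← Real.rpow_add (by positivity)]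
    norm_num
  have p4 : (2 * s 0) ^ (-1 : ℝ) = (2 * s 0) ^ (-(1 * 1) : ℝ) := by norm_num
  have p5 : (2 * s 1) ^ (-(1/64) : ℝ) = (2 * s 1) ^ (-(1/8 * (1/8)) : ℝ) := by norm_num
  have p6 : (2 * s 2) ^ (-(9/64) : ℝ) = (2 * s 2) ^ (-(3/8 * (3/8)) : ℝ) := by norm_num
  rw [p1, p2, p3, p4, p5, p6]
  ring

end Pool.Agent.LibOH30
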