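import Pool.Agent.LibOH30.EV
import Pool.Agent.LibOH30.LA

set_option autoImplicit false

namespace Pool.Agent.LibOH30

open MeasureTheory Set Filter Topology Complex ProbabilityTheory
open scoped NNReal ENNReal ComplexConjugate
open Pool.Agent.LibZM Pool.Agent.LibM3 Pool.Agent.LibLaw15

/-! ROW EA2 (MEDIUM). Lower bound for (A). For `y = e12 < 1/4`: given `(e01, l1)` with `2 l1 + e01 < 1/4 - y` and `(e02, l2)` with
`2 l2 + e02 < 1/2 - y`, `l0 ~ gam 1` has the measure `(1 - e01 - e02)/2` of `2 l0 < 1 - e01 - e02`. Integrate by `vert0`, `vert1`: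
`½ [U_s U_M - W_s U_M - U_s W_M]`, `W_s = (16/81)(1/4-y) U_s`, `W_M = (48/121)(1/2-y) U_M` (`Γ(145/64) = (81/64) Γ(81/64)`,
`Γ(185/64) = (121/64) Γ(121/64)`). -/

/-- `U_s(y) U_M(y)`. -/
noncomputable def UU (y : ℝ) : ℝ :=
  ((2:ℝ) ^ (-(1/64) : ℝ) * (1/4 - y) ^ (17/64 : ℝ) / Real.Gamma (81/64)) *
    ((2:ℝ) ^ (-(9/64) : ℝ) * (1/2 - y) ^ (57/64 : ℝ) / Real.Gamma (121/64))

private theorem EA2_int_le {X : Type*} [MeasurableSpace X] (μ : Measure X) (f : X → ℝ) :
    ENNReal.ofReal (∫ x, f x ∂μ) ≤ ∫⁻ x, ENNReal.ofReal (f x) ∂μ := by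
  by_cases hf : Integrable f μ
  · rw [integral_eq_lintegral_pos_part_sub_lintegral_neg_part hf]
    refine (ENNReal.ofReal_le_ofReal (sub_le_self _ ENNReal.toReal_nonneg)).trans ENNReal.ofReal_toReal_le
  · rw [integral_undef hf, ENNReal.ofReal_zero]
    exact bot_le

private theorem EA2_a (e01 e02 : ℝ) : ENNReal.ofReal ((1 - e01 - e02) / 2) ≤
    ∫⁻ l, (if 2 * l + e01 < 1 - e02 then 1 else 0 : ℝ≥0∞) ∂(gam 1) := by
  by_cases hc : 0 ≤ (1 - e01 - e02) / 2
  · have h := gam_beta (w := 1) (p := 0) (c := (1 - e01 - e02) / 2) one_pos le_rfl hc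
    have e1 : ((1 - e01 - e02) / 2) ^ ((0:ℝ) + 1) * (Real.Gamma (0 + 1) / Real.Gamma (0 + 1 + 1)) =
        (1 - e01 - e02) / 2 := by
      rw [zero_add, Real.rpow_one, Real.Gamma_one, show (1:ℝ) + 1 = 2 by norm_num, Real.Gamma_two]
      ring
    rw [e1] at h
    rw [← h]
    refine lintegral_mono fun l => ?_
    by_cases hl : l < (1 - e01 - e02) / 2
    · have h2 : 2 * l + e01 < 1 - e02 := by linarith
      simp only [if_pos hl, if_pos h2, Real.rpow_zero, ENNReal.ofReal_one, le_refl]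
    · simp only [if_neg hl]
      exact bot_le
  · rw [ENNReal.ofReal_of_nonpos (by linarith)]
    exact bot_le

/-- the inner integral -/
private noncomputable def EA2_b (w c u : ℝ) : ℝ≥0∞ := ∫⁻ l, (if 2 * l + u < c then 1 else 0 : ℝ≥0∞) ∂(gam w)

private theorem EA2_b_meas (w c0 : ℝ) : Measurable (fun p : ℝ × ℝ => EA2_b w (c0 - p.2) p.1) := by
  unfold EA2_b
  have h : Measurable (fun x : (ℝ × ℝ) × ℝ => (if 2 * x.2 + x.1.1 < c0 - x.1.2 then 1 else 0 : ℝ≥0∞)) := by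
    refine Measurable.ite ?_ measurable_const measurable_const
    exact measurableSet_lt (by fun_prop) (by fun_prop)
  exact Measurable.lintegral_prod_right' h

private theorem EA2_U {a b c : ℝ} (ha : 0 < a) (hb : 0 < b) (hc : 0 ≤ c) :
    ∫⁻ u, EA2_b b c u ∂(gam a) = ENNReal.ofReal ((2:ℝ) ^ (-b) * c ^ (a + b) / Real.Gamma (1 + a + b)) := by
  have hS : MeasurableSet {x : ℝ × ℝ | 2 * x.2 + x.1 < c} := measurableSet_lt (by fun_prop) (by fun_prop)
  rw [← vert0 ha hb hc, ← lintegral_indicator_one hS, lintegral_prod _ (measurable_one.indicator hS).aemeasurable]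
  rfl

private theorem EA2_W {a b c : ℝ} (ha : 0 < a) (hb : 0 < b) (hc : 0 ≤ c) :
    ∫⁻ u, ENNReal.ofReal u * EA2_b b c u ∂(gam a) =
      ENNReal.ofReal (a * (2:ℝ) ^ (-b) * c ^ (1 + a + b) / Real.Gamma (2 + a + b)) := by
  have hS : MeasurableSet {x : ℝ × ℝ | 2 * x.2 + x.1 < c} := measurableSet_lt (by fun_prop) (by fun_prop)
  have hm : Measurable (fun x : ℝ × ℝ => ENNReal.ofReal x.1) := by fun_prop
  rw [← vert1 ha hb hc, ← lintegral_indicator hS, lintegral_prod _ (hm.indicator hS).aemeasurable]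
  refine lintegral_congr fun u => ?_
  unfold EA2_b
  have h1 : Measurable (fun l : ℝ => (if 2 * l + u < c then 1 else 0 : ℝ≥0∞)) := by
    refine Measurable.ite ?_ measurable_const measurable_const
    exact measurableSet_lt (by fun_prop) (by fun_prop)
  rw [← lintegral_const_mul _ h1]
  refine lintegral_congr fun l => ?_
  by_cases h2 : 2 * l + u < c
  · rw [if_pos h2, mul_one, Set.indicator_of_mem (by exact h2)]
  · rw [if_neg h2, mul_zero, Set.indicator_of_notMem (by exact h2)]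

/-- the inner bound -/
private theorem EA2_J (y : ℝ) (hy : y ≤ 1/4) :
    ENNReal.ofReal (1/2 * (UU y * (1 - 16/81 * (1/4 - y) - 48/121 * (1/2 - y)))) ≤
      ∫⁻ e01, ∫⁻ e02, EA2_b 1 (1 - e02) e01 * (EA2_b (1/64) (1/4 - y) e01 * EA2_b (9/64) (1/2 - y) e02)
        ∂(gam (3/4)) ∂(gam (1/4)) := by
  have hc1 : 0 ≤ 1/4 - y := by linarith
  have hc2 : 0 ≤ 1/2 - y := by linarith
  have hUs := EA2_U (a := 1/4) (b := 1/64) (c := 1/4 - y) (by norm_num) (by norm_num) hc1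
  have hUM := EA2_U (a := 3/4) (b := 9/64) (c := 1/2 - y) (by norm_num) (by norm_num) hc2
  have hWs := EA2_W (a := 1/4) (b := 1/64) (c := 1/4 - y) (by norm_num) (by norm_num) hc1
  have hWM := EA2_W (a := 3/4) (b := 9/64) (c := 1/2 - y) (by norm_num) (by norm_num) hc2
  set us : ℝ := (2:ℝ) ^ (-(1/64) : ℝ) * (1/4 - y) ^ (17/64 : ℝ) / Real.Gamma (81/64) with hus
  set um : ℝ := (2:ℝ) ^ (-(9/64) : ℝ) * (1/2 - y) ^ (57/64 : ℝ) / Real.Gamma (121/64) with hum
  have hG1 : 0 < Real.Gamma (81/64) := Real.Gamma_pos_of_pos (by norm_num)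
  have hG2 : 0 < Real.Gamma (121/64) := Real.Gamma_pos_of_pos (by norm_num)
  have hus0 : 0 ≤ us := by
    rw [hus]
    positivity
  have hum0 : 0 ≤ um := by
    rw [hum]
    positivity
  have eUs : (2:ℝ) ^ (-(1/64) : ℝ) * (1/4 - y) ^ ((1/4 : ℝ) + 1/64) / Real.Gamma (1 + 1/4 + 1/64) = us := by
    rw [hus]
    norm_num
  have eUM : (2:ℝ) ^ (-(9/64) : ℝ) * (1/2 - y) ^ ((3/4 : ℝ) + 9/64) / Real.Gamma (1 + 3/4 + 9/64) = um := by
    rw [hum]
    norm_num
  have g1 : Real.Gamma (2 + 1/4 + 1/64) = (81/64) * Real.Gamma (81/64) := by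
    rw [← Real.Gamma_add_one (by norm_num)]
    norm_num
  have g2 : Real.Gamma (2 + 3/4 + 9/64) = (121/64) * Real.Gamma (121/64) := by
    rw [← Real.Gamma_add_one (by norm_num)]
    norm_num
  have p1 : (1/4 - y) ^ ((1 : ℝ) + 1/4 + 1/64) = (1/4 - y) ^ (17/64 : ℝ) * (1/4 - y) := by
    rw [show ((1 : ℝ) + 1/4 + 1/64) = 17/64 + 1 by norm_num, Real.rpow_add_one' hc1 (by norm_num)]
  have p2 : (1/2 - y) ^ ((1 : ℝ) + 3/4 + 9/64) = (1/2 - y) ^ (57/64 : ℝ) * (1/2 - y) := by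
    rw [show ((1 : ℝ) + 3/4 + 9/64) = 57/64 + 1 by norm_num, Real.rpow_add_one' hc2 (by norm_num)]
  have eWs : (1/4 : ℝ) * (2:ℝ) ^ (-(1/64) : ℝ) * (1/4 - y) ^ ((1 : ℝ) + 1/4 + 1/64) / Real.Gamma (2 + 1/4 + 1/64) =
      16/81 * (1/4 - y) * us := by
    rw [g1, p1, hus]
    field_simp
    ring
  have eWM : (3/4 : ℝ) * (2:ℝ) ^ (-(9/64) : ℝ) * (1/2 - y) ^ ((1 : ℝ) + 3/4 + 9/64) / Real.Gamma (2 + 3/4 + 9/64) =
      48/121 * (1/2 - y) * um := by
    rw [g2, p2, hum]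
    field_simp
    ring
  rw [eUs] at hUs
  rw [eUM] at hUM
  rw [eWs] at hWs
  rw [eWM] at hWM
  -- measurability
  have mb : Measurable (fun u : ℝ => EA2_b (1/64) (1/4 - y) u) :=
    (EA2_b_meas (1/64) (1/4)).comp (measurable_id.prodMk measurable_const)
  have mc : Measurable (fun u : ℝ => EA2_b (9/64) (1/2 - y) u) :=
    (EA2_b_meas (9/64) (1/2)).comp (measurable_id.prodMk measurable_const)
  have ma : ∀ e01 : ℝ, Measurable (fun e02 : ℝ => EA2_b 1 (1 - e02) e01) := fun e01 =>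
    (EA2_b_meas 1 1).comp (measurable_const.prodMk measurable_id)
  set J := ∫⁻ e01, ∫⁻ e02, EA2_b 1 (1 - e02) e01 * (EA2_b (1/64) (1/4 - y) e01 * EA2_b (9/64) (1/2 - y) e02)
        ∂(gam (3/4)) ∂(gam (1/4)) with hJ
  have half : ENNReal.ofReal (1/2) * (ENNReal.ofReal us * ENNReal.ofReal um) ≤
      J + ENNReal.ofReal (1/2) * (ENNReal.ofReal (16/81 * (1/4 - y) * us) * ENNReal.ofReal um) +
        ENNReal.ofReal (1/2) * (ENNReal.ofReal us * ENNReal.ofReal (48/121 * (1/2 - y) * um)) := by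
    have i1 : ENNReal.ofReal (1/2) * (ENNReal.ofReal us * ENNReal.ofReal um) =
        ∫⁻ e01, ∫⁻ e02, ENNReal.ofReal (1/2) * (EA2_b (1/64) (1/4 - y) e01 * EA2_b (9/64) (1/2 - y) e02)
          ∂(gam (3/4)) ∂(gam (1/4)) := by
      rw [← hUs, ← hUM, ← lintegral_mul_const _ mb, ← lintegral_const_mul _ (mb.mul_const _)]
      refine lintegral_congr fun e01 => ?_
      rw [lintegral_const_mul _ (mc.const_mul _), lintegral_const_mul _ mc]
    have i2 : ENNReal.ofReal (1/2) * (ENNReal.ofReal (16/81 * (1/4 - y) * us) * ENNReal.ofReal um) =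
        ∫⁻ e01, ∫⁻ e02, ENNReal.ofReal (1/2) * ((ENNReal.ofReal e01 * EA2_b (1/64) (1/4 - y) e01) *
          EA2_b (9/64) (1/2 - y) e02) ∂(gam (3/4)) ∂(gam (1/4)) := by
      have mb' : Measurable (fun u : ℝ => ENNReal.ofReal u * EA2_b (1/64) (1/4 - y) u) :=
        ENNReal.measurable_ofReal.mul mb
      rw [← hWs, ← hUM, ← lintegral_mul_const _ mb', ← lintegral_const_mul _ (mb'.mul_const _)]
      refine lintegral_congr fun e01 => ?_
      rw [lintegral_const_mul _ (mc.const_mul _), lintegral_const_mul _ mc]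
    have i3 : ENNReal.ofReal (1/2) * (ENNReal.ofReal us * ENNReal.ofReal (48/121 * (1/2 - y) * um)) =
        ∫⁻ e01, ∫⁻ e02, ENNReal.ofReal (1/2) * (EA2_b (1/64) (1/4 - y) e01 *
          (ENNReal.ofReal e02 * EA2_b (9/64) (1/2 - y) e02)) ∂(gam (3/4)) ∂(gam (1/4)) := by
      have mc' : Measurable (fun u : ℝ => ENNReal.ofReal u * EA2_b (9/64) (1/2 - y) u) :=
        ENNReal.measurable_ofReal.mul mc
      rw [← hUs, ← hWM, ← lintegral_mul_const _ mb, ← lintegral_const_mul _ (mb.mul_const _)]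
      refine lintegral_congr fun e01 => ?_
      rw [lintegral_const_mul _ (mc'.const_mul _), lintegral_const_mul _ mc']
    have mo2 : Measurable (fun e01 : ℝ => ∫⁻ e02, ENNReal.ofReal (1/2) * ((ENNReal.ofReal e01 * EA2_b (1/64) (1/4 - y) e01) *
          EA2_b (9/64) (1/2 - y) e02) ∂(gam (3/4))) := by
      refine Measurable.lintegral_prod_right' (f := fun p : ℝ × ℝ => ENNReal.ofReal (1/2) *
        ((ENNReal.ofReal p.1 * EA2_b (1/64) (1/4 - y) p.1) * EA2_b (9/64) (1/2 - y) p.2)) ?_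
      exact measurable_const.mul (((ENNReal.measurable_ofReal.comp measurable_fst).mul (mb.comp measurable_fst)).mul
        (mc.comp measurable_snd))
    have mo3 : Measurable (fun e01 : ℝ => ∫⁻ e02, ENNReal.ofReal (1/2) * (EA2_b (1/64) (1/4 - y) e01 *
          (ENNReal.ofReal e02 * EA2_b (9/64) (1/2 - y) e02)) ∂(gam (3/4))) := by
      refine Measurable.lintegral_prod_right' (f := fun p : ℝ × ℝ => ENNReal.ofReal (1/2) *
        (EA2_b (1/64) (1/4 - y) p.1 * (ENNReal.ofReal p.2 * EA2_b (9/64) (1/2 - y) p.2))) ?_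
      exact measurable_const.mul ((mb.comp measurable_fst).mul
        ((ENNReal.measurable_ofReal.comp measurable_snd).mul (mc.comp measurable_snd)))
    rw [i1, i2, i3, hJ, ← lintegral_add_right _ mo2, ← lintegral_add_right _ mo3]
    refine lintegral_mono fun e01 => ?_
    have mi2 : Measurable (fun e02 : ℝ => ENNReal.ofReal (1/2) * ((ENNReal.ofReal e01 * EA2_b (1/64) (1/4 - y) e01) *
          EA2_b (9/64) (1/2 - y) e02)) := (mc.const_mul _).const_mul _
    have mi3 : Measurable (fun e02 : ℝ => ENNReal.ofReal (1/2) * (EA2_b (1/64) (1/4 - y) e01 *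
          (ENNReal.ofReal e02 * EA2_b (9/64) (1/2 - y) e02))) :=
      ((ENNReal.measurable_ofReal.mul mc).const_mul _).const_mul _
    simp only
    rw [← lintegral_add_right _ mi2, ← lintegral_add_right _ mi3]
    refine lintegral_mono fun e02 => ?_
    have h1 : ENNReal.ofReal (1/2) ≤ EA2_b 1 (1 - e02) e01 + ENNReal.ofReal (1/2) * ENNReal.ofReal e01 +
        ENNReal.ofReal (1/2) * ENNReal.ofReal e02 := by
      rw [← ENNReal.ofReal_mul (by norm_num), ← ENNReal.ofReal_mul (by norm_num)]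
      have h2 : (1/2 : ℝ) = (1 - e01 - e02) / 2 + 1/2 * e01 + 1/2 * e02 := by ring
      calc ENNReal.ofReal (1/2) = ENNReal.ofReal ((1 - e01 - e02) / 2 + 1/2 * e01 + 1/2 * e02) := by rw [← h2]
        _ ≤ ENNReal.ofReal ((1 - e01 - e02) / 2 + 1/2 * e01) + ENNReal.ofReal (1/2 * e02) := ENNReal.ofReal_add_le
        _ ≤ ENNReal.ofReal ((1 - e01 - e02) / 2) + ENNReal.ofReal (1/2 * e01) + ENNReal.ofReal (1/2 * e02) :=
            add_le_add ENNReal.ofReal_add_le le_rfl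
        _ ≤ EA2_b 1 (1 - e02) e01 + ENNReal.ofReal (1/2 * e01) + ENNReal.ofReal (1/2 * e02) :=
            add_le_add (add_le_add (EA2_a e01 e02) le_rfl) le_rfl
    refine (mul_le_mul_left h1 (EA2_b (1/64) (1/4 - y) e01 * EA2_b (9/64) (1/2 - y) e02)).trans (le_of_eq ?_)
    ring
  have hx : ENNReal.ofReal (1/2 * (us * um)) ≤ J +
      ENNReal.ofReal (1/2 * (16/81 * (1/4 - y) * us * um) + 1/2 * (us * (48/121 * (1/2 - y) * um))) := by
    rw [ENNReal.ofReal_mul (by norm_num), ENNReal.ofReal_mul hus0,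
      ENNReal.ofReal_add (by positivity) (by positivity), ENNReal.ofReal_mul (p := 1/2) (by norm_num),
      ENNReal.ofReal_mul (p := 16/81 * (1/4 - y) * us) (by positivity), ENNReal.ofReal_mul (p := 1/2) (by norm_num),
      ENNReal.ofReal_mul (p := us) hus0, ← add_assoc]
    exact half
  have hfin : 1/2 * (UU y * (1 - 16/81 * (1/4 - y) - 48/121 * (1/2 - y))) =
      1/2 * (us * um) - (1/2 * (16/81 * (1/4 - y) * us * um) + 1/2 * (us * (48/121 * (1/2 - y) * um))) := by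
    unfold UU
    rw [← hus, ← hum]
    ring
  rw [hfin, ENNReal.ofReal_sub _ (by positivity)]
  exact tsub_le_iff_right.2 hx

/-- the measure as an iterated integral -/
private theorem EA2_rho : rhoA {x | ∀ i, ZA x i < ![1, 1/4, 1/2] i} =
    ∫⁻ y, ∫⁻ e01, ∫⁻ e02, EA2_b 1 (1 - e02) e01 * (EA2_b (1/64) (1/4 - y) e01 * EA2_b (9/64) (1/2 - y) e02)
        ∂(gam (3/4)) ∂(gam (1/4)) ∂(gam (3/32)) := by
  have hS : {x : R6 | ∀ i, ZA x i < ![1, 1/4, 1/2] i} = {x : R6 | 2 * x.2.2.2.1 + x.1 < 1 - x.2.1 ∧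
      2 * x.2.2.2.2.1 + x.1 < 1/4 - x.2.2.1 ∧ 2 * x.2.2.2.2.2 + x.2.1 < 1/2 - x.2.2.1} := by
    ext x
    simp only [Set.mem_setOf_eq, Fin.forall_fin_succ, ZA]
    simp only [Matrix.cons_val_zero, Matrix.cons_val_succ, IsEmpty.forall_iff, and_true]
    constructor
    · rintro ⟨h1, h2, h3⟩
      exact ⟨by linarith, by linarith, by linarith⟩
    · rintro ⟨h1, h2, h3⟩
      exact ⟨by linarith, by linarith, by linarith⟩
  set F : R6 → ℝ≥0∞ := fun x => (if 2 * x.2.2.2.1 + x.1 < 1 - x.2.1 then 1 else 0) *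
    ((if 2 * x.2.2.2.2.1 + x.1 < 1/4 - x.2.2.1 then 1 else 0) *
      (if 2 * x.2.2.2.2.2 + x.2.1 < 1/2 - x.2.2.1 then 1 else 0)) with hF
  have mF : Measurable F := by
    rw [hF]
    refine Measurable.mul ?_ (Measurable.mul ?_ ?_) <;>
    · refine Measurable.ite ?_ measurable_const measurable_const
      exact measurableSet_lt (by fun_prop) (by fun_prop)
  have hSm : MeasurableSet {x : R6 | 2 * x.2.2.2.1 + x.1 < 1 - x.2.1 ∧
      2 * x.2.2.2.2.1 + x.1 < 1/4 - x.2.2.1 ∧ 2 * x.2.2.2.2.2 + x.2.1 < 1/2 - x.2.2.1} := by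
    have g1 : MeasurableSet {x : R6 | 2 * x.2.2.2.1 + x.1 < 1 - x.2.1} := measurableSet_lt (by fun_prop) (by fun_prop)
    have g2 : MeasurableSet {x : R6 | 2 * x.2.2.2.2.1 + x.1 < 1/4 - x.2.2.1} :=
      measurableSet_lt (by fun_prop) (by fun_prop)
    have g3 : MeasurableSet {x : R6 | 2 * x.2.2.2.2.2 + x.2.1 < 1/2 - x.2.2.1} :=
      measurableSet_lt (by fun_prop) (by fun_prop)
    exact g1.inter (g2.inter g3)
  have h1 : rhoA {x | ∀ i, ZA x i < ![1, 1/4, 1/2] i} = ∫⁻ x, F x ∂rhoA := by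
    rw [hS, ← lintegral_indicator_one hSm]
    refine lintegral_congr fun x => ?_
    by_cases hx : x ∈ {x : R6 | 2 * x.2.2.2.1 + x.1 < 1 - x.2.1 ∧
      2 * x.2.2.2.2.1 + x.1 < 1/4 - x.2.2.1 ∧ 2 * x.2.2.2.2.2 + x.2.1 < 1/2 - x.2.2.1}
    · rw [Set.indicator_of_mem hx]
      obtain ⟨g1, g2, g3⟩ := hx
      rw [hF]
      simp only [if_pos g1, if_pos g2, if_pos g3, mul_one, Pi.one_apply]
    · rw [Set.indicator_of_notMem hx]
      rw [hF]
      simp only
      by_cases g1 : 2 * x.2.2.2.1 + x.1 < 1 - x.2.1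
      · by_cases g2 : 2 * x.2.2.2.2.1 + x.1 < 1/4 - x.2.2.1
        · by_cases g3 : 2 * x.2.2.2.2.2 + x.2.1 < 1/2 - x.2.2.1
          · exact absurd ⟨g1, g2, g3⟩ hx
          · rw [if_neg g3, mul_zero, mul_zero]
        · rw [if_neg g2, zero_mul, mul_zero]
      · rw [if_neg g1, zero_mul]
  rw [h1]
  unfold rhoA
  rw [lintegral_prod _ mF.aemeasurable]
  have h2 : ∀ e01 : ℝ, ∫⁻ r, F (e01, r) ∂((gam (3/4)).prod ((gam (3/32)).prod ((gam 1).prod ((gam (1/64)).prod (gam (9/64)))))) =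
      ∫⁻ e02, ∫⁻ y, EA2_b 1 (1 - e02) e01 * (EA2_b (1/64) (1/4 - y) e01 * EA2_b (9/64) (1/2 - y) e02)
        ∂(gam (3/32)) ∂(gam (3/4)) := by
    intro e01
    have m1 : Measurable (fun r : ℝ × ℝ × ℝ × ℝ × ℝ => F (e01, r)) := mF.comp measurable_prodMk_left
    rw [lintegral_prod _ m1.aemeasurable]
    refine lintegral_congr fun e02 => ?_
    have m2 : Measurable (fun r : ℝ × ℝ × ℝ × ℝ => F (e01, e02, r)) := m1.comp measurable_prodMk_left
    rw [lintegral_prod _ m2.aemeasurable]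
    refine lintegral_congr fun y => ?_
    have m3 : Measurable (fun r : ℝ × ℝ × ℝ => F (e01, e02, y, r)) := m2.comp measurable_prodMk_left
    rw [lintegral_prod _ m3.aemeasurable]
    have ml : ∀ u c : ℝ, Measurable (fun l : ℝ => (if 2 * l + u < c then 1 else 0 : ℝ≥0∞)) := by
      intro u c
      refine Measurable.ite ?_ measurable_const measurable_const
      exact measurableSet_lt (by fun_prop) (by fun_prop)
    have h3 : ∀ l0 : ℝ, ∫⁻ r, F (e01, e02, y, l0, r) ∂((gam (1/64)).prod (gam (9/64))) =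
        (if 2 * l0 + e01 < 1 - e02 then 1 else 0) * (EA2_b (1/64) (1/4 - y) e01 * EA2_b (9/64) (1/2 - y) e02) := by
      intro l0
      have m4 : Measurable (fun r : ℝ × ℝ => F (e01, e02, y, l0, r)) := m3.comp measurable_prodMk_left
      rw [lintegral_prod _ m4.aemeasurable]
      have h4 : ∀ l1 : ℝ, ∫⁻ l2, F (e01, e02, y, l0, l1, l2) ∂(gam (9/64)) =
          (if 2 * l0 + e01 < 1 - e02 then 1 else 0) * (EA2_b (9/64) (1/2 - y) e02 *
            (if 2 * l1 + e01 < 1/4 - y then 1 else 0)) := by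
        intro l1
        have h5 : ∀ l2 : ℝ, F (e01, e02, y, l0, l1, l2) =
            ((if 2 * l0 + e01 < 1 - e02 then 1 else 0) * (if 2 * l1 + e01 < 1/4 - y then 1 else 0)) *
              (if 2 * l2 + e02 < 1/2 - y then 1 else 0) := by
          intro l2
          rw [hF]
          simp only
          rw [mul_assoc]
        rw [lintegral_congr h5, lintegral_const_mul _ (ml _ _)]
        unfold EA2_b
        ring
      rw [lintegral_congr h4, lintegral_const_mul _ ((ml _ _).const_mul _), lintegral_const_mul _ (ml _ _)]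
      unfold EA2_b
      ring
    rw [lintegral_congr h3, lintegral_mul_const _ (ml _ _)]
    rfl
  rw [lintegral_congr h2]
  -- swaps
  have mG : Measurable (fun q : (ℝ × ℝ) × ℝ => EA2_b 1 (1 - q.1.2) q.1.1 *
      (EA2_b (1/64) (1/4 - q.2) q.1.1 * EA2_b (9/64) (1/2 - q.2) q.1.2)) := by
    refine Measurable.mul ?_ (Measurable.mul ?_ ?_)
    · exact (EA2_b_meas 1 1).comp measurable_fst
    · exact (EA2_b_meas (1/64) (1/4)).comp ((measurable_fst.comp measurable_fst).prodMk measurable_snd)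
    · exact (EA2_b_meas (9/64) (1/2)).comp ((measurable_snd.comp measurable_fst).prodMk measurable_snd)
  have h6 : ∀ e01 : ℝ, ∫⁻ e02, ∫⁻ y, EA2_b 1 (1 - e02) e01 * (EA2_b (1/64) (1/4 - y) e01 * EA2_b (9/64) (1/2 - y) e02)
        ∂(gam (3/32)) ∂(gam (3/4)) = ∫⁻ y, ∫⁻ e02, EA2_b 1 (1 - e02) e01 * (EA2_b (1/64) (1/4 - y) e01 *
        EA2_b (9/64) (1/2 - y) e02) ∂(gam (3/4)) ∂(gam (3/32)) := by
    intro e01
    refine lintegral_lintegral_swap (Measurable.aemeasurable ?_)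
    exact mG.comp (((measurable_const (a := e01)).prodMk measurable_fst).prodMk measurable_snd)
  rw [lintegral_congr h6]
  refine lintegral_lintegral_swap (Measurable.aemeasurable ?_)
  have m7 : Measurable (fun q : (ℝ × ℝ) × ℝ => EA2_b 1 (1 - q.2) q.1.1 *
      (EA2_b (1/64) (1/4 - q.1.2) q.1.1 * EA2_b (9/64) (1/2 - q.1.2) q.2)) :=
    mG.comp (((measurable_fst.comp measurable_fst).prodMk measurable_snd).prodMk (measurable_snd.comp measurable_fst))
  exact Measurable.lintegral_prod_right' m7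

theorem rhoA_ge : ENNReal.ofReal (1/2 * ∫ y in (0:ℝ)..(1/4), cellρ (3/32) y *
      (UU y * (1 - 16/81 * (1/4 - y) - 48/121 * (1/2 - y)))) ≤
    rhoA {x | ∀ i, ZA x i < ![1, 1/4, 1/2] i} := by
  rw [EA2_rho]
  have h1 : 1/2 * ∫ y in (0:ℝ)..(1/4), cellρ (3/32) y * (UU y * (1 - 16/81 * (1/4 - y) - 48/121 * (1/2 - y))) =
      ∫ y in Ioc (0:ℝ) (1/4), cellρ (3/32) y * (1/2 * (UU y * (1 - 16/81 * (1/4 - y) - 48/121 * (1/2 - y)))) := by
    rw [intervalIntegral.integral_of_le (by norm_num), ← integral_const_mul]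
    refine integral_congr_ae (Eventually.of_forall fun y => ?_)
    simp only
    ring
  rw [h1]
  refine (EA2_int_le _ _).trans ?_
  have mJ : Measurable (fun y : ℝ => ∫⁻ e01, ∫⁻ e02, EA2_b 1 (1 - e02) e01 * (EA2_b (1/64) (1/4 - y) e01 *
      EA2_b (9/64) (1/2 - y) e02) ∂(gam (3/4)) ∂(gam (1/4))) := by
    have m0 : Measurable (fun q : (ℝ × ℝ) × ℝ => EA2_b 1 (1 - q.2) q.1.2 *
        (EA2_b (1/64) (1/4 - q.1.1) q.1.2 * EA2_b (9/64) (1/2 - q.1.1) q.2)) := by
      refine Measurable.mul ?_ (Measurable.mul ?_ ?_)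
      · exact (EA2_b_meas 1 1).comp ((measurable_snd.comp measurable_fst).prodMk measurable_snd)
      · exact (EA2_b_meas (1/64) (1/4)).comp ((measurable_snd.comp measurable_fst).prodMk (measurable_fst.comp measurable_fst))
      · exact (EA2_b_meas (9/64) (1/2)).comp (measurable_snd.prodMk (measurable_fst.comp measurable_fst))
    have m1 : Measurable (fun p : ℝ × ℝ => ∫⁻ e02, EA2_b 1 (1 - e02) p.2 *
        (EA2_b (1/64) (1/4 - p.1) p.2 * EA2_b (9/64) (1/2 - p.1) e02) ∂(gam (3/4))) :=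
      Measurable.lintegral_prod_right' m0
    exact Measurable.lintegral_prod_right' m1
  have mρ : Measurable (fun y : ℝ => ENNReal.ofReal (cellρ (3/32) y)) :=
    ENNReal.measurable_ofReal.comp (measurable_cellρ _)
  have h2 : ∫⁻ y, ∫⁻ e01, ∫⁻ e02, EA2_b 1 (1 - e02) e01 * (EA2_b (1/64) (1/4 - y) e01 * EA2_b (9/64) (1/2 - y) e02)
        ∂(gam (3/4)) ∂(gam (1/4)) ∂(gam (3/32)) = ∫⁻ y, ENNReal.ofReal (cellρ (3/32) y) *
        (∫⁻ e01, ∫⁻ e02, EA2_b 1 (1 - e02) e01 * (EA2_b (1/64) (1/4 - y) e01 * EA2_b (9/64) (1/2 - y) e02)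
        ∂(gam (3/4)) ∂(gam (1/4))) := by
    conv_lhs => rw [gam]
    rw [lintegral_withDensity_eq_lintegral_mul _ mρ mJ]
    rfl
  rw [h2]
  refine le_trans ?_ (setLIntegral_le_lintegral (Ioc (0:ℝ) (1/4)) _)
  refine setLIntegral_mono' measurableSet_Ioc fun y hy => ?_
  rw [ENNReal.ofReal_mul (cellρ_nonneg (by norm_num) y)]
  exact mul_le_mul_right (EA2_J y hy.2) _

end Pool.Agent.LibOH30
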