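import Mathlib

set_option autoImplicit false

namespace Pool.Agent.LibOH30

open MeasureTheory Set Filter Topology Complex ProbabilityTheory
open scoped NNReal ENNReal ComplexConjugate

/-! ROW GL (MEDIUM, ONLY MATHLIB). Two-sided bound for Gamma with error `O(1/x²)` (Kershaw, Watson). `g(x) = Γ(x+s)/(Γ(x) (x+(s-1)/2)^s)`
satisfies `g(x+1) ≤ g(x)` (`log(1+s/x) ≤ s log((x+(s+1)/2)/(x+(s-1)/2))`: with `m = x + s/2` this is
`artanh(s/(2m)) ≤ s artanh(1/(2m))`, convexity of `artanh` on `[0,1)`, `artanh 0 = 0`) and `g(x+n) → 1` (log-convexity: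
`Real.Gamma` and `Real.BohrMollerup`), so `g ≥ 1`. The upper bound is the lower bound for `(x+s, 1-s)`:
`Γ(x+1) ≥ Γ(x+s) (x+s/2)^{1-s}`. -/

private theorem gl_artanh {m s : ℝ} (hm : 1 ≤ m) (hs0 : 0 ≤ s) (hs1 : s ≤ 1) :
    Real.log (1 + s / (2 * m)) - Real.log (1 - s / (2 * m))
      ≤ s * (Real.log (1 + 1 / (2 * m)) - Real.log (1 - 1 / (2 * m))) := by
  have hm0 : 0 < 2 * m := by linarith
  have ht1 : |1 / (2 * m)| < 1 := by
    rw [abs_of_nonneg (by positivity), div_lt_one hm0]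
    linarith
  have ht2 : |s / (2 * m)| < 1 := by
    rw [abs_of_nonneg (by positivity), div_lt_one hm0]
    linarith
  have h1 := Real.hasSum_log_sub_log_of_abs_lt_one ht2
  have h2 := (Real.hasSum_log_sub_log_of_abs_lt_one ht1).mul_left s
  refine hasSum_le (fun k => ?_) h1 h2
  have hpow : (s / (2 * m)) ^ (2 * k + 1) ≤ s * (1 / (2 * m)) ^ (2 * k + 1) := by
    have e1 : s / (2 * m) = s * (1 / (2 * m)) := by ring
    rw [e1, mul_pow]
    have e2 : s ^ (2 * k + 1) ≤ s := by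
      calc s ^ (2 * k + 1) = s ^ (2 * k) * s := pow_succ _ _
        _ ≤ 1 * s := mul_le_mul_of_nonneg_right (pow_le_one₀ hs0 hs1) hs0
        _ = s := one_mul s
    exact mul_le_mul_of_nonneg_right e2 (by positivity)
  calc (2 : ℝ) * (1 / (2 * k + 1)) * (s / (2 * m)) ^ (2 * k + 1)
      ≤ (2 : ℝ) * (1 / (2 * k + 1)) * (s * (1 / (2 * m)) ^ (2 * k + 1)) :=
        mul_le_mul_of_nonneg_left hpow (by positivity)
    _ = s * ((2 : ℝ) * (1 / (2 * k + 1)) * (1 / (2 * m)) ^ (2 * k + 1)) := by ring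

private theorem gl_step {x s : ℝ} (hx : 1 ≤ x) (hs0 : 0 ≤ s) (hs1 : s ≤ 1) :
    (x + s) * (x + (s - 1) / 2) ^ s ≤ x * (x + (s + 1) / 2) ^ s := by
  have hm : (1 : ℝ) ≤ x + s / 2 := by linarith
  have hm0 : (0 : ℝ) < x + s / 2 := by linarith
  have hA : 0 < x + s := by linarith
  have hx0 : 0 < x := by linarith
  have hB : 0 < x + (s - 1) / 2 := by linarith
  have hC : 0 < x + (s + 1) / 2 := by linarith
  have h := gl_artanh hm hs0 hs1
  have e1 : 1 + s / (2 * (x + s / 2)) = (x + s) / (x + s / 2) := by field_simp; ring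
  have e2 : 1 - s / (2 * (x + s / 2)) = x / (x + s / 2) := by field_simp; ring
  have e3 : 1 + 1 / (2 * (x + s / 2)) = (x + (s + 1) / 2) / (x + s / 2) := by field_simp; ring
  have e4 : 1 - 1 / (2 * (x + s / 2)) = (x + (s - 1) / 2) / (x + s / 2) := by field_simp; ring
  rw [e1, e2, e3, e4, Real.log_div hA.ne' hm0.ne', Real.log_div hx0.ne' hm0.ne',
    Real.log_div hC.ne' hm0.ne', Real.log_div hB.ne' hm0.ne'] at h
  have hB' : 0 < (x + (s - 1) / 2) ^ s := Real.rpow_pos_of_pos hB s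
  have hC' : 0 < (x + (s + 1) / 2) ^ s := Real.rpow_pos_of_pos hC s
  rw [← Real.log_le_log_iff (mul_pos hA hB') (mul_pos hx0 hC'), Real.log_mul hA.ne' hB'.ne',
    Real.log_mul hx0.ne' hC'.ne', Real.log_rpow hB, Real.log_rpow hC]
  linarith

private theorem gl_zero {x s : ℝ} (hx : 1 ≤ x) (hs0 : 0 ≤ s) (hs1 : s ≤ 1) :
    Real.Gamma x * (x + (s - 1) / 2) ^ s * (x / (x + s)) ≤ Real.Gamma (x + s) := by
  have hA : 0 < x + s := by linarith
  have hx0 : 0 < x := by linarith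
  have hB : 0 < x + (s - 1) / 2 := by linarith
  have hG1 : 0 < Real.Gamma (x + s) := Real.Gamma_pos_of_pos hA
  have hG : 0 < Real.Gamma x := Real.Gamma_pos_of_pos hx0
  have hcv := Real.convexOn_log_Gamma.2 (show x + s ∈ Set.Ioi (0 : ℝ) from hA)
    (show x + s + 1 ∈ Set.Ioi (0 : ℝ) from by simp only [Set.mem_Ioi]; linarith) hs0
    (show 0 ≤ 1 - s by linarith) (by ring)
  simp only [smul_eq_mul, Function.comp_apply] at hcv
  have e1 : s * (x + s) + (1 - s) * (x + s + 1) = x + 1 := by ring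
  rw [e1, Real.Gamma_add_one hx0.ne', Real.Gamma_add_one hA.ne',
    Real.log_mul hx0.ne' hG.ne', Real.log_mul hA.ne' hG1.ne'] at hcv
  have hB' : 0 < (x + (s - 1) / 2) ^ s := Real.rpow_pos_of_pos hB s
  rw [← Real.log_le_log_iff (by positivity) hG1,
    Real.log_mul (by positivity) (by positivity), Real.log_mul hG.ne' hB'.ne', Real.log_rpow hB,
    Real.log_div hx0.ne' hA.ne']
  have hlog : Real.log (x + (s - 1) / 2) ≤ Real.log (x + s) :=
    Real.log_le_log hB (by linarith)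
  have hmul := mul_le_mul_of_nonneg_left hlog hs0
  linarith

private theorem gl_iter {s : ℝ} (hs0 : 0 ≤ s) (hs1 : s ≤ 1) (n : ℕ) :
    ∀ x : ℝ, 1 ≤ x → Real.Gamma x * (x + (s - 1) / 2) ^ s * ((x + n) / (x + n + s))
      ≤ Real.Gamma (x + s) := by
  induction n with
  | zero =>
    intro x hx
    simpa using gl_zero hx hs0 hs1
  | succ n ih =>
    intro x hx
    have hA : 0 < x + s := by linarith
    have hx0 : 0 < x := by linarith
    have hG : 0 < Real.Gamma x := Real.Gamma_pos_of_pos hx0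
    have h1 := ih (x + 1) (by linarith)
    have e1 : x + 1 + (s - 1) / 2 = x + (s + 1) / 2 := by ring
    have e2 : x + 1 + s = x + s + 1 := by ring
    rw [e1, e2, Real.Gamma_add_one hx0.ne', Real.Gamma_add_one hA.ne'] at h1
    have e3 : x + 1 + (n : ℝ) = x + ((n + 1 : ℕ) : ℝ) := by push_cast; ring
    rw [e3] at h1
    have hr : 0 ≤ (x + ((n + 1 : ℕ) : ℝ)) / (x + ((n + 1 : ℕ) : ℝ) + s) := by positivity
    have hst := gl_step hx hs0 hs1
    have h2 : (x + s) * (Real.Gamma x * (x + (s - 1) / 2) ^ s *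
        ((x + ((n + 1 : ℕ) : ℝ)) / (x + ((n + 1 : ℕ) : ℝ) + s)))
        ≤ (x + s) * Real.Gamma (x + s) := by
      calc (x + s) * (Real.Gamma x * (x + (s - 1) / 2) ^ s *
            ((x + ((n + 1 : ℕ) : ℝ)) / (x + ((n + 1 : ℕ) : ℝ) + s)))
          = ((x + s) * (x + (s - 1) / 2) ^ s) * (Real.Gamma x *
            ((x + ((n + 1 : ℕ) : ℝ)) / (x + ((n + 1 : ℕ) : ℝ) + s))) := by ring
        _ ≤ (x * (x + (s + 1) / 2) ^ s) * (Real.Gamma x *
            ((x + ((n + 1 : ℕ) : ℝ)) / (x + ((n + 1 : ℕ) : ℝ) + s))) :=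
            mul_le_mul_of_nonneg_right hst (mul_nonneg hG.le hr)
        _ = x * Real.Gamma x * (x + (s + 1) / 2) ^ s *
            ((x + ((n + 1 : ℕ) : ℝ)) / (x + ((n + 1 : ℕ) : ℝ) + s)) := by ring
        _ ≤ (x + s) * Real.Gamma (x + s) := h1
    exact le_of_mul_le_mul_left h2 hA

private theorem gl_tendsto (x s : ℝ) :
    Tendsto (fun n : ℕ => (x + (n : ℝ)) / (x + (n : ℝ) + s)) atTop (𝓝 1) := by
  have h1 : Tendsto (fun n : ℕ => x + (n : ℝ) + s) atTop atTop := by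
    apply tendsto_atTop_add_const_right
    exact tendsto_atTop_add_const_left _ _ tendsto_natCast_atTop_atTop
  have h2 : Tendsto (fun n : ℕ => 1 - s / (x + (n : ℝ) + s)) atTop (𝓝 (1 - 0)) :=
    tendsto_const_nhds.sub (tendsto_const_nhds.div_atTop h1)
  rw [sub_zero] at h2
  refine h2.congr' ?_
  filter_upwards [h1.eventually_gt_atTop 0] with n hn
  field_simp
  ring

theorem gamma_lower {x s : ℝ} (hx : 1 ≤ x) (hs0 : 0 ≤ s) (hs1 : s ≤ 1) :
    Real.Gamma x * (x + (s - 1) / 2) ^ s ≤ Real.Gamma (x + s) := by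
  have h1 : Tendsto (fun n : ℕ => Real.Gamma x * (x + (s - 1) / 2) ^ s *
      ((x + (n : ℝ)) / (x + (n : ℝ) + s))) atTop
      (𝓝 (Real.Gamma x * (x + (s - 1) / 2) ^ s * 1)) :=
    (gl_tendsto x s).const_mul _
  rw [mul_one] at h1
  exact le_of_tendsto' h1 (fun n => gl_iter hs0 hs1 n x hx)

theorem gamma_upper {x s : ℝ} (hx : 1 ≤ x) (hs0 : 0 ≤ s) (hs1 : s ≤ 1) :
    Real.Gamma (x + s) ≤ Real.Gamma (x + 1) / (x + s / 2) ^ (1 - s) := by
  have h := gamma_lower (x := x + s) (s := 1 - s) (by linarith) (by linarith) (by linarith)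
  have e1 : x + s + (1 - s - 1) / 2 = x + s / 2 := by ring
  have e2 : x + s + (1 - s) = x + 1 := by ring
  rw [e1, e2] at h
  have hpos : 0 < (x + s / 2) ^ (1 - s) := Real.rpow_pos_of_pos (by linarith) _
  rw [le_div_iff₀ hpos]
  exact h

end Pool.Agent.LibOH30
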