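import Pool.Agent.LibOH30.Defs
import Pool.Agent.LibOH30.GL

set_option autoImplicit false

namespace Pool.Agent.LibOH30

open MeasureTheory Set Filter Topology Complex ProbabilityTheory
open scoped NNReal ENNReal ComplexConjugate
open Pool.Agent.LibZM Pool.Agent.LibM3 Pool.Agent.LibLaw15

/-! ROW GV (MEDIUM). Numerical values of Gamma from `gamma_lower`, `gamma_upper` at `x = 12` (or larger) and the functional equation
(`Γ(n+s) = (n-1+s) ⋯ (1+s) Γ(1+s)`; `Γ(9/16) = Γ(25/16)/(9/16)`). The relative error of the bounds at `x = 12` is `< 1.2e-4`.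
All bounds have a relative margin of about 2.5e-4. (True values: Γ(9/8) = .9417427, Γ(59/32) = .9437279, Γ(49/32) = .8876395, Γ(121/64) = .9585887,
Γ(87/64) = .8902421, Γ(73/64) = .9362010, Γ(91/64) = .8862891, Γ(9/16) = 1.5819456, Γ(95/32) = 1.9435259, Γ(81/64) = .9033181,
Γ(13/8) = .8965743.) Powers: `a^(k/64) ≤ b ↔ a^k ≤ b^64` by `norm_num`. -/

private lemma gprod {x : ℝ} (hx : 0 < x) (n : ℕ) :
    Real.Gamma (x + n) = (∏ j ∈ Finset.range n, (x + j)) * Real.Gamma x := by
  induction n with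
  | zero => simp
  | succ n ih =>
    rw [Finset.prod_range_succ, Nat.cast_succ, ← add_assoc, Real.Gamma_add_one (by positivity), ih]
    ring

private lemma rp_low {b r : ℝ} (hb : 0 < b) {k : ℕ} (h : r ^ 64 ≤ b ^ k) : r ≤ b ^ ((k : ℝ) / 64) := by
  have h1 : (b ^ ((k : ℝ) / 64)) ^ (64 : ℕ) = b ^ k := by
    rw [← Real.rpow_natCast, ← Real.rpow_mul hb.le]
    have : (k : ℝ) / 64 * ((64 : ℕ) : ℝ) = k := by norm_num
    rw [this, Real.rpow_natCast]
  rw [← h1] at h
  exact le_of_pow_le_pow_left₀ (by norm_num) (by positivity) h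

private lemma glow {k : ℕ} {c r : ℝ} (hk : k ≤ 64) (hr : 0 ≤ r)
    (h1 : r ^ 64 ≤ (12 + ((k : ℝ) / 64 - 1) / 2) ^ k)
    (h2 : c * (∏ j ∈ Finset.range 11, ((1 + (k : ℝ) / 64) + j)) ≤ 39916800 * r) :
    c ≤ Real.Gamma (1 + (k : ℝ) / 64) := by
  have hs0 : (0 : ℝ) ≤ (k : ℝ) / 64 := by positivity
  have hs1 : (k : ℝ) / 64 ≤ 1 := by
    have : (k : ℝ) ≤ 64 := by exact_mod_cast hk
    linarith
  have hL := gamma_lower (x := 12) (s := (k : ℝ) / 64) (by norm_num) hs0 hs1
  have h12 : Real.Gamma 12 = 39916800 := by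
    have := Real.Gamma_nat_eq_factorial 11
    norm_num [Nat.factorial]
  have hG : Real.Gamma (12 + (k : ℝ) / 64) =
      (∏ j ∈ Finset.range 11, ((1 + (k : ℝ) / 64) + j)) * Real.Gamma (1 + (k : ℝ) / 64) := by
    rw [← gprod (by positivity) 11]
    congr 1
    push_cast
    ring
  rw [h12, hG] at hL
  have hb : (0 : ℝ) < 12 + ((k : ℝ) / 64 - 1) / 2 := by linarith
  have hr2 := rp_low hb h1
  have hP : 0 < ∏ j ∈ Finset.range 11, ((1 + (k : ℝ) / 64) + j) := Finset.prod_pos fun j _ => by positivity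
  have h3 : c * (∏ j ∈ Finset.range 11, ((1 + (k : ℝ) / 64) + j)) ≤
      Real.Gamma (1 + (k : ℝ) / 64) * (∏ j ∈ Finset.range 11, ((1 + (k : ℝ) / 64) + j)) := by
    calc c * (∏ j ∈ Finset.range 11, ((1 + (k : ℝ) / 64) + j)) ≤ 39916800 * r := h2
      _ ≤ 39916800 * (12 + ((k : ℝ) / 64 - 1) / 2) ^ ((k : ℝ) / 64) := by gcongr
      _ ≤ _ := by rw [mul_comm (Real.Gamma _)]; exact hL
  exact le_of_mul_le_mul_right h3 hP

private lemma gup {k : ℕ} {c r : ℝ} (hk : k ≤ 64) (hr : 0 ≤ r)
    (h1 : r ^ 64 ≤ (12 + ((k : ℝ) / 64) / 2) ^ (64 - k))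
    (h2 : 479001600 ≤ c * r * (∏ j ∈ Finset.range 11, ((1 + (k : ℝ) / 64) + j))) (hc : 0 ≤ c) :
    Real.Gamma (1 + (k : ℝ) / 64) ≤ c := by
  have hs0 : (0 : ℝ) ≤ (k : ℝ) / 64 := by positivity
  have hk' : (k : ℝ) ≤ 64 := by exact_mod_cast hk
  have hs1 : (k : ℝ) / 64 ≤ 1 := by linarith
  have hL := gamma_upper (x := 12) (s := (k : ℝ) / 64) (by norm_num) hs0 hs1
  have h12 : Real.Gamma (12 + 1) = 479001600 := by
    have := Real.Gamma_nat_eq_factorial 12
    norm_num [Nat.factorial]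
  have hG : Real.Gamma (12 + (k : ℝ) / 64) =
      (∏ j ∈ Finset.range 11, ((1 + (k : ℝ) / 64) + j)) * Real.Gamma (1 + (k : ℝ) / 64) := by
    rw [← gprod (by positivity) 11]
    congr 1
    push_cast
    ring
  rw [h12, hG] at hL
  have hb : (0 : ℝ) < 12 + ((k : ℝ) / 64) / 2 := by positivity
  have hr2 := rp_low hb h1
  have he : (((64 - k : ℕ) : ℝ)) / 64 = 1 - (k : ℝ) / 64 := by
    rw [Nat.cast_sub hk]; push_cast; ring
  rw [he] at hr2
  have hP : 0 < ∏ j ∈ Finset.range 11, ((1 + (k : ℝ) / 64) + j) := Finset.prod_pos fun j _ => by positivity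
  have hB : 0 < (12 + ((k : ℝ) / 64) / 2) ^ (1 - (k : ℝ) / 64) := by positivity
  rw [le_div_iff₀ hB] at hL
  by_contra hcon
  push Not at hcon
  have h4 : c * r * (∏ j ∈ Finset.range 11, ((1 + (k : ℝ) / 64) + j)) <
      (∏ j ∈ Finset.range 11, ((1 + (k : ℝ) / 64) + j)) * Real.Gamma (1 + (k : ℝ) / 64) *
        (12 + ((k : ℝ) / 64) / 2) ^ (1 - (k : ℝ) / 64) := by
    calc c * r * (∏ j ∈ Finset.range 11, ((1 + (k : ℝ) / 64) + j))
        ≤ c * (12 + ((k : ℝ) / 64) / 2) ^ (1 - (k : ℝ) / 64) * (∏ j ∈ Finset.range 11, ((1 + (k : ℝ) / 64) + j)) := by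
          gcongr
      _ < Real.Gamma (1 + (k : ℝ) / 64) * (12 + ((k : ℝ) / 64) / 2) ^ (1 - (k : ℝ) / 64) *
            (∏ j ∈ Finset.range 11, ((1 + (k : ℝ) / 64) + j)) := by gcongr
      _ = _ := by ring
  linarith

theorem gv_9_8 : Real.Gamma (9/8) ≤ 94200/100000 := by
  have h := gup (k := 8) (c := 94200/100000) (r := 8.835) (by norm_num) (by norm_num) (by norm_num)
    (by norm_num [Finset.prod_range_succ]) (by norm_num)
  convert h using 2; norm_num

theorem gv_59_32 : Real.Gamma (59/32) ≤ 94400/100000 := by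
  have h := gup (k := 54) (c := 94400/100000) (r := 1.4822) (by norm_num) (by norm_num) (by norm_num)
    (by norm_num [Finset.prod_range_succ]) (by norm_num)
  convert h using 2; norm_num

theorem gv_49_32 : Real.Gamma (49/32) ≤ 88785/100000 := by
  have h := gup (k := 34) (c := 88785/100000) (r := 3.238) (by norm_num) (by norm_num) (by norm_num)
    (by norm_num [Finset.prod_range_succ]) (by norm_num)
  convert h using 2; norm_num

theorem gv_121_64 : Real.Gamma (121/64) ≤ 95885/100000 := by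
  have h := gup (k := 57) (c := 95885/100000) (r := 1.3174) (by norm_num) (by norm_num) (by norm_num)
    (by norm_num [Finset.prod_range_succ]) (by norm_num)
  convert h using 2; norm_num

theorem gv_87_64 : Real.Gamma (87/64) ≤ 89050/100000 := by
  have h := gup (k := 23) (c := 89050/100000) (r := 4.96) (by norm_num) (by norm_num) (by norm_num)
    (by norm_num [Finset.prod_range_succ]) (by norm_num)
  convert h using 2; norm_num

theorem gv_73_64 : (93595/100000 : ℝ) ≤ Real.Gamma (73/64) := by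
  have h := glow (k := 9) (c := 93595/100000) (r := 1.411) (by norm_num) (by norm_num) (by norm_num)
    (by norm_num [Finset.prod_range_succ])
  convert h using 2; norm_num

theorem gv_91_64 : (88605/100000 : ℝ) ≤ Real.Gamma (91/64) := by
  have h := glow (k := 27) (c := 88605/100000) (r := 2.8234) (by norm_num) (by norm_num) (by norm_num)
    (by norm_num [Finset.prod_range_succ])
  convert h using 2; norm_num

theorem gv_9_16 : (158150/100000 : ℝ) ≤ Real.Gamma (9/16) := by
  have h := glow (k := 36) (c := 158150/100000 * (9/16)) (r := 4.004) (by norm_num) (by norm_num) (by norm_num)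
    (by norm_num [Finset.prod_range_succ])
  have h2 := Real.Gamma_add_one (s := (9/16 : ℝ)) (by norm_num)
  have h3 : (1 + ((36 : ℕ) : ℝ) / 64) = 9/16 + 1 := by norm_num
  rw [h3, h2] at h
  linarith

theorem gv_95_32 : (194300/100000 : ℝ) ≤ Real.Gamma (95/32) := by
  have h := glow (k := 62) (c := 194300/100000 / (63/32)) (r := 11.088) (by norm_num) (by norm_num) (by norm_num)
    (by norm_num [Finset.prod_range_succ])
  have h2 := Real.Gamma_add_one (s := (63/32 : ℝ)) (by norm_num)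
  have h3 : (1 + ((62 : ℕ) : ℝ) / 64) = 63/32 := by norm_num
  rw [h3] at h
  have h4 : (95/32 : ℝ) = 63/32 + 1 := by norm_num
  rw [h4, h2]
  linarith

theorem gv_81_64 : (90310/100000 : ℝ) ≤ Real.Gamma (81/64) := by
  have h := glow (k := 17) (c := 90310/100000) (r := 1.9188) (by norm_num) (by norm_num) (by norm_num)
    (by norm_num [Finset.prod_range_succ])
  convert h using 2; norm_num

theorem gv_13_8 : (89635/100000 : ℝ) ≤ Real.Gamma (13/8) := by
  have h := glow (k := 40) (c := 89635/100000) (r := 4.6793) (by norm_num) (by norm_num) (by norm_num)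
    (by norm_num [Finset.prod_range_succ])
  convert h using 2; norm_num

end Pool.Agent.LibOH30
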