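import Pool.Agent.LibOH30.EA2
import Pool.Agent.LibOH30.GV

set_option autoImplicit false

namespace Pool.Agent.LibOH30

open MeasureTheory Set Filter Topology Complex ProbabilityTheory
open scoped NNReal ENNReal ComplexConjugate
open Pool.Agent.LibZM Pool.Agent.LibM3 Pool.Agent.LibLaw15

/-! ROW EA3 (MEDIUM). Numerics for (A): true value .253965, with the chord below .253796. `(1/2-y)^{57/64}` is concave, so on `[0,1/4]` it is at
least the chord `h + 4 (l - h) y`, `h = 2^{-57/64} ≥ .53937`, `l = 4^{-57/64} ≥ .29092`. Put `z = 1/4 - y`; everything is a polynomial of degree 2 in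
`z` times `y^{-29/32} z^{17/64}`, Beta integrals `∫_0^c y^{w-1}/Γ(w) (c-y)^p dy = c^{p+w} Γ(p+1)/Γ(p+1+w)` (`w = 3/32`, `p = 17/64 + j`), so the value is
`2^{-5/32} (1/4)^{23/64} / (Γ(121/64) Γ(87/64)) * R`, `R` rational. Gamma values: row GV. -/

private lemma EA3_beta {p : ℝ} (hp : 0 ≤ p) :
    IntervalIntegrable (fun y : ℝ => cellρ (3/32) y * (1/4 - y) ^ p) volume 0 (1/4) ∧
    ∫ y in (0:ℝ)..(1/4), cellρ (3/32) y * (1/4 - y) ^ p =
      (1/4 : ℝ) ^ (p + 3/32) * (Real.Gamma (p + 1) / Real.Gamma (p + 1 + 3/32)) := by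
  have hw : (0:ℝ) < 3/32 := by norm_num
  have hc : (0:ℝ) ≤ 1/4 := by norm_num
  have h1 := gam_beta hw hp hc
  have hV : 0 ≤ (1/4 : ℝ) ^ (p + 3/32) * (Real.Gamma (p + 1) / Real.Gamma (p + 1 + 3/32)) := by
    have g1 : 0 < Real.Gamma (p + 1) := Real.Gamma_pos_of_pos (by linarith)
    have g2 : 0 < Real.Gamma (p + 1 + 3/32) := Real.Gamma_pos_of_pos (by linarith)
    positivity
  have hmeas : Measurable fun y : ℝ => cellρ (3/32) y * (1/4 - y) ^ p :=
    (measurable_cellρ _).mul ((measurable_const.sub measurable_id).pow_const p)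
  unfold gam at h1
  have hm1 : Measurable fun t : ℝ => if t < 1/4 then ENNReal.ofReal ((1/4 - t) ^ p) else 0 :=
    Measurable.ite measurableSet_Iio (((measurable_const.sub measurable_id).pow_const p).ennreal_ofReal)
      measurable_const
  rw [lintegral_withDensity_eq_lintegral_mul _ (measurable_cellρ _).ennreal_ofReal hm1] at h1
  have h2 : ∫⁻ y in Ioo (0:ℝ) (1/4), ENNReal.ofReal (cellρ (3/32) y * (1/4 - y) ^ p) =
      ENNReal.ofReal ((1/4 : ℝ) ^ (p + 3/32) * (Real.Gamma (p + 1) / Real.Gamma (p + 1 + 3/32))) := by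
    rw [← h1, ← lintegral_indicator measurableSet_Ioo]
    refine lintegral_congr fun y => ?_
    rw [Pi.mul_apply]
    by_cases hy : 0 < y
    · by_cases hy' : y < 1/4
      · rw [indicator_of_mem (show y ∈ Ioo (0:ℝ) (1/4) from ⟨hy, hy'⟩), if_pos hy',
          ENNReal.ofReal_mul (cellρ_nonneg hw y)]
      · rw [indicator_of_notMem (fun h => hy' h.2), if_neg hy', mul_zero]
    · rw [indicator_of_notMem (fun h => hy h.1)]
      have h3 : cellρ (3/32) y = 0 := by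
        unfold cellρ
        exact indicator_of_notMem (fun h => hy h) _
      rw [h3, ENNReal.ofReal_zero, zero_mul]
  have hnn : ∀ᵐ y ∂(volume.restrict (Ioo (0:ℝ) (1/4))), 0 ≤ cellρ (3/32) y * (1/4 - y) ^ p := by
    refine (ae_restrict_iff' measurableSet_Ioo).2 (Eventually.of_forall fun y hy => ?_)
    exact mul_nonneg (cellρ_nonneg hw y) (Real.rpow_nonneg (by linarith [hy.2]) _)
  have hint : IntegrableOn (fun y : ℝ => cellρ (3/32) y * (1/4 - y) ^ p) (Ioo (0:ℝ) (1/4)) := by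
    refine ⟨hmeas.aestronglyMeasurable, ?_⟩
    rw [hasFiniteIntegral_iff_ofReal hnn, h2]
    exact ENNReal.ofReal_lt_top
  constructor
  · rw [intervalIntegrable_iff_integrableOn_Ioo_of_le hc]
    exact hint
  · rw [intervalIntegral.integral_of_le hc, integral_Ioc_eq_integral_Ioo,
      integral_eq_lintegral_of_nonneg_ae hnn hmeas.aestronglyMeasurable, h2, ENNReal.toReal_ofReal hV]

private lemma EA3_h : (53937/100000 : ℝ) ≤ (1/2 : ℝ) ^ (57/64 : ℝ) := by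
  have h1 : ((53937/100000 : ℝ) ^ (64:ℕ)) ^ (1/64 : ℝ) = 53937/100000 := by
    rw [← Real.rpow_natCast, ← Real.rpow_mul (by norm_num)]
    norm_num
  have h2 : ((1/2 : ℝ) ^ (57:ℕ)) ^ (1/64 : ℝ) = (1/2 : ℝ) ^ (57/64 : ℝ) := by
    rw [← Real.rpow_natCast, ← Real.rpow_mul (by norm_num)]
    norm_num
  rw [← h1, ← h2]
  exact Real.rpow_le_rpow (by positivity) (by norm_num) (by norm_num)

private lemma EA3_l : (2909/10000 : ℝ) ≤ (1/4 : ℝ) ^ (57/64 : ℝ) := by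
  have h1 : ((2909/10000 : ℝ) ^ (64:ℕ)) ^ (1/64 : ℝ) = 2909/10000 := by
    rw [← Real.rpow_natCast, ← Real.rpow_mul (by norm_num)]
    norm_num
  have h2 : ((1/4 : ℝ) ^ (57:ℕ)) ^ (1/64 : ℝ) = (1/4 : ℝ) ^ (57/64 : ℝ) := by
    rw [← Real.rpow_natCast, ← Real.rpow_mul (by norm_num)]
    norm_num
  rw [← h1, ← h2]
  exact Real.rpow_le_rpow (by positivity) (by norm_num) (by norm_num)

private lemma EA3_P : (5452/10000 : ℝ) ≤
    (2:ℝ) ^ (-(1/64) : ℝ) * (2:ℝ) ^ (-(9/64) : ℝ) * (1/4 : ℝ) ^ (23/64 : ℝ) := by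
  have h0 : (1/4 : ℝ) ^ (23/64 : ℝ) = (2:ℝ) ^ (-(46/64) : ℝ) := by
    rw [show (1/4 : ℝ) = (2:ℝ) ^ (-2 : ℝ) by
      rw [Real.rpow_neg (by norm_num)]
      norm_num, ← Real.rpow_mul (by norm_num)]
    norm_num
  rw [h0, ← Real.rpow_add (by norm_num), ← Real.rpow_add (by norm_num)]
  have h1 : ((5452/10000 : ℝ) ^ (8:ℕ)) ^ (1/8 : ℝ) = 5452/10000 := by
    rw [← Real.rpow_natCast, ← Real.rpow_mul (by norm_num)]
    norm_num
  have h2 : ((1/2 : ℝ) ^ (7:ℕ)) ^ (1/8 : ℝ) = (2:ℝ) ^ (-(1/64) + -(9/64) + -(46/64) : ℝ) := by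
    rw [← Real.rpow_natCast, ← Real.rpow_mul (by norm_num), one_div, Real.inv_rpow (by norm_num),
      ← Real.rpow_neg (by norm_num)]
    norm_num
  rw [← h1, ← h2]
  exact Real.rpow_le_rpow (by positivity) (by norm_num) (by norm_num)

theorem numA : (2534/10000 : ℝ) ≤ ∫ y in (0:ℝ)..(1/4), cellρ (3/32) y *
    (UU y * (1 - 16/81 * (1/4 - y) - 48/121 * (1/2 - y))) := by
  obtain ⟨h, hh⟩ : ∃ h : ℝ, h = (1/2 : ℝ) ^ (57/64 : ℝ) := ⟨_, rfl⟩
  obtain ⟨l, hl⟩ : ∃ l : ℝ, l = (1/4 : ℝ) ^ (57/64 : ℝ) := ⟨_, rfl⟩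
  have hh1 : 53937/100000 ≤ h := hh ▸ EA3_h
  have hl1 : 2909/10000 ≤ l := hl ▸ EA3_l
  obtain ⟨G1, hG1⟩ : ∃ G1 : ℝ, G1 = Real.Gamma (81/64) := ⟨_, rfl⟩
  obtain ⟨G2, hG2⟩ : ∃ G2 : ℝ, G2 = Real.Gamma (121/64) := ⟨_, rfl⟩
  obtain ⟨G3, hG3⟩ : ∃ G3 : ℝ, G3 = Real.Gamma (87/64) := ⟨_, rfl⟩
  have hG1p : 0 < G1 := hG1 ▸ Real.Gamma_pos_of_pos (by norm_num)
  have hG2p : 0 < G2 := hG2 ▸ Real.Gamma_pos_of_pos (by norm_num)
  have hG3p : 0 < G3 := hG3 ▸ Real.Gamma_pos_of_pos (by norm_num)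
  have hG2le : G2 ≤ 95885/100000 := hG2 ▸ gv_121_64
  have hG3le : G3 ≤ 89050/100000 := hG3 ▸ gv_87_64
  obtain ⟨P, hP⟩ : ∃ P : ℝ, P = (2:ℝ) ^ (-(1/64) : ℝ) * (2:ℝ) ^ (-(9/64) : ℝ) := ⟨_, rfl⟩
  obtain ⟨Q, hQ⟩ : ∃ Q : ℝ, Q = (1/4 : ℝ) ^ (23/64 : ℝ) := ⟨_, rfl⟩
  have hP0 : 0 < P := by
    rw [hP]
    positivity
  have hQ0 : 0 < Q := by
    rw [hQ]
    positivity
  have hPQ : 5452/10000 ≤ P * Q := by
    rw [hP, hQ]
    exact EA3_P
  obtain ⟨C, hC⟩ : ∃ C : ℝ, C = P / (G1 * G2) := ⟨_, rfl⟩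
  have hC0 : 0 < C := by
    rw [hC]
    positivity
  -- the three Beta integrals
  obtain ⟨i0, v0⟩ := EA3_beta (p := 17/64) (by norm_num)
  obtain ⟨i1, v1⟩ := EA3_beta (p := 81/64) (by norm_num)
  obtain ⟨i2, v2⟩ := EA3_beta (p := 145/64) (by norm_num)
  have w0 : ∫ y in (0:ℝ)..(1/4), cellρ (3/32) y * (1/4 - y) ^ (17/64 : ℝ) = Q * (G1 / G3) := by
    rw [v0, hQ, hG1, hG3]
    norm_num
  have w1 : ∫ y in (0:ℝ)..(1/4), cellρ (3/32) y * (1/4 - y) ^ (81/64 : ℝ) =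
      Q * (G1 / G3) * (81/348) := by
    rw [v1, hQ, hG1, hG3, show (81/64 : ℝ) + 3/32 = 23/64 + 1 by norm_num,
      Real.rpow_add_one (by norm_num), Real.Gamma_add_one (by norm_num),
      show (81/64 : ℝ) + 1 + 3/32 = 87/64 + 1 by norm_num, Real.Gamma_add_one (by norm_num)]
    ring
  have w2 : ∫ y in (0:ℝ)..(1/4), cellρ (3/32) y * (1/4 - y) ^ (145/64 : ℝ) =
      Q * (G1 / G3) * (81 * 145 / (87 * 151) / 16) := by
    rw [v2, hQ, hG1, hG3, show (145/64 : ℝ) + 3/32 = 23/64 + 1 + 1 by norm_num,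
      Real.rpow_add_one (by norm_num), Real.rpow_add_one (by norm_num),
      Real.Gamma_add_one (by norm_num), show (145/64 : ℝ) = 81/64 + 1 by norm_num,
      Real.Gamma_add_one (by norm_num),
      show (81/64 : ℝ) + 1 + 1 + 3/32 = 87/64 + 1 + 1 by norm_num, Real.Gamma_add_one (by norm_num),
      Real.Gamma_add_one (by norm_num)]
    ring
  -- integrability of the integrand
  have ic : IntervalIntegrable (fun y : ℝ => cellρ (3/32) y) volume 0 (1/4) := by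
    have h0 := (EA3_beta (p := 0) le_rfl).1
    simpa using h0
  have hint : IntervalIntegrable (fun y : ℝ => cellρ (3/32) y *
      (UU y * (1 - 16/81 * (1/4 - y) - 48/121 * (1/2 - y)))) volume 0 (1/4) := by
    refine ic.mul_continuousOn ?_
    unfold UU
    have c1 : Continuous fun y : ℝ => (1/4 - y) ^ (17/64 : ℝ) :=
      (continuous_const.sub continuous_id).rpow_const fun _ => Or.inr (by norm_num)
    have c2 : Continuous fun y : ℝ => (1/2 - y) ^ (57/64 : ℝ) :=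
      (continuous_const.sub continuous_id).rpow_const fun _ => Or.inr (by norm_num)
    exact Continuous.continuousOn (by fun_prop)
  -- the lower bound for the integrand
  obtain ⟨a0, ha0⟩ : ∃ a0 : ℝ, a0 = 109/121 * l := ⟨_, rfl⟩
  obtain ⟨a1, ha1⟩ : ∃ a1 : ℝ, a1 = 4 * (h - l) * (109/121) - 5824/9801 * l := ⟨_, rfl⟩
  obtain ⟨a2, ha2⟩ : ∃ a2 : ℝ, a2 = -(4 * (h - l) * (5824/9801)) := ⟨_, rfl⟩
  have hmono : ∀ y ∈ Icc (0:ℝ) (1/4), (C * a0) * (cellρ (3/32) y * (1/4 - y) ^ (17/64 : ℝ)) +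
      (C * a1) * (cellρ (3/32) y * (1/4 - y) ^ (81/64 : ℝ)) +
      (C * a2) * (cellρ (3/32) y * (1/4 - y) ^ (145/64 : ℝ)) ≤ cellρ (3/32) y *
      (UU y * (1 - 16/81 * (1/4 - y) - 48/121 * (1/2 - y))) := by
    intro y hy
    have hz : 0 ≤ 1/4 - y := by linarith [hy.2]
    have hcell : 0 ≤ cellρ (3/32) y := cellρ_nonneg (by norm_num) y
    have hcon := (Real.concaveOn_rpow (p := 57/64) (by norm_num) (by norm_num)).2
      (show (1/2 : ℝ) ∈ Ici (0:ℝ) by norm_num) (show (1/4 : ℝ) ∈ Ici (0:ℝ) by norm_num)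
      (show (0:ℝ) ≤ 1 - 4 * y by linarith [hy.2]) (show (0:ℝ) ≤ 4 * y by linarith [hy.1]) (by ring)
    simp only [smul_eq_mul] at hcon
    rw [show (1 - 4 * y) * (1/2) + 4 * y * (1/4) = 1/2 - y by ring, ← hh, ← hl] at hcon
    have e1 : (1/4 - y) ^ (81/64 : ℝ) = (1/4 - y) ^ (17/64 : ℝ) * (1/4 - y) := by
      rw [show (81/64 : ℝ) = 17/64 + 1 by norm_num,
        Real.rpow_add_of_nonneg hz (by norm_num) (by norm_num), Real.rpow_one]
    have e2 : (1/4 - y) ^ (145/64 : ℝ) = (1/4 - y) ^ (17/64 : ℝ) * (1/4 - y) ^ 2 := by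
      rw [show (145/64 : ℝ) = 17/64 + 2 by norm_num,
        Real.rpow_add_of_nonneg hz (by norm_num) (by norm_num), Real.rpow_two]
    have hz17 : 0 ≤ (1/4 - y) ^ (17/64 : ℝ) := Real.rpow_nonneg hz _
    have hfac : 0 ≤ 1 - 16/81 * (1/4 - y) - 48/121 * (1/2 - y) := by
      have := hy.1
      nlinarith
    have e3 : UU y = C * ((1/4 - y) ^ (17/64 : ℝ) * (1/2 - y) ^ (57/64 : ℝ)) := by
      unfold UU
      rw [hC, hP, hG1, hG2]
      field_simp
    have e4 : (C * a0) * (cellρ (3/32) y * (1/4 - y) ^ (17/64 : ℝ)) +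
      (C * a1) * (cellρ (3/32) y * (1/4 - y) ^ (81/64 : ℝ)) +
      (C * a2) * (cellρ (3/32) y * (1/4 - y) ^ (145/64 : ℝ)) = cellρ (3/32) y *
      (C * ((1/4 - y) ^ (17/64 : ℝ) * ((1 - 4 * y) * h + 4 * y * l)) *
        (1 - 16/81 * (1/4 - y) - 48/121 * (1/2 - y))) := by
      rw [e1, e2, ha0, ha1, ha2]
      ring
    rw [e4, e3]
    refine mul_le_mul_of_nonneg_left (mul_le_mul_of_nonneg_right
      (mul_le_mul_of_nonneg_left (mul_le_mul_of_nonneg_left hcon hz17) hC0.le) hfac) hcell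
  have hI0 : IntervalIntegrable (fun y : ℝ => (C * a0) * (cellρ (3/32) y * (1/4 - y) ^ (17/64 : ℝ)) +
      (C * a1) * (cellρ (3/32) y * (1/4 - y) ^ (81/64 : ℝ)) +
      (C * a2) * (cellρ (3/32) y * (1/4 - y) ^ (145/64 : ℝ))) volume 0 (1/4) :=
    ((i0.const_mul _).add (i1.const_mul _)).add (i2.const_mul _)
  refine le_trans ?_ (intervalIntegral.integral_mono_on (by norm_num) hI0 hint hmono)
  rw [intervalIntegral.integral_add ((i0.const_mul _).add (i1.const_mul _)) (i2.const_mul _),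
    intervalIntegral.integral_add (i0.const_mul _) (i1.const_mul _),
    intervalIntegral.integral_const_mul, intervalIntegral.integral_const_mul,
    intervalIntegral.integral_const_mul, w0, w1, w2]
  have hfin : C * a0 * (Q * (G1 / G3)) + C * a1 * (Q * (G1 / G3) * (81/348)) +
      C * a2 * (Q * (G1 / G3) * (81 * 145 / (87 * 151) / 16)) =
      P * Q * (a0 + a1 * (81/348) + a2 * (81 * 145 / (87 * 151) / 16)) / (G2 * G3) := by
    rw [hC]
    field_simp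
  rw [hfin, le_div_iff₀ (by positivity)]
  have hR : 3971/10000 ≤ a0 + a1 * (81/348) + a2 * (81 * 145 / (87 * 151) / 16) := by
    rw [ha0, ha1, ha2]
    nlinarith
  have hGG : G2 * G3 ≤ 95885/100000 * (89050/100000) :=
    mul_le_mul hG2le hG3le hG3p.le (by norm_num)
  have hPR : 5452/10000 * (3971/10000) ≤
      P * Q * (a0 + a1 * (81/348) + a2 * (81 * 145 / (87 * 151) / 16)) :=
    mul_le_mul hPQ hR (by norm_num) (by positivity)
  nlinarith

end Pool.Agent.LibOH30
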