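import Pool.Agent.LibOH30.EA3

set_option autoImplicit false

namespace Pool.Agent.LibOH30

open MeasureTheory Set Filter Topology Complex ProbabilityTheory
open scoped NNReal ENNReal ComplexConjugate
open Pool.Agent.LibZM Pool.Agent.LibM3 Pool.Agent.LibLaw15

/-! ROW EA4 (SHORT). `rhoA_ge`, `numA` and continuity from below (`δ ↓ 0`). -/

theorem rhoA_delta : ∃ δ : ℝ, 0 < δ ∧ δ < 1/2 ∧
    ENNReal.ofReal (12665/100000) ≤ rhoA {x | ∀ i, ZA x i < ![1, (1 - δ)/4, (1 - δ)/2] i} := by
  classical
  set d : ℕ → ℝ := fun n => 1 / ((n:ℝ) + 3) with hd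
  have hdpos : ∀ n, 0 < d n := by
    intro n
    simp only [hd]
    positivity
  have hdlt : ∀ n, d n < 1/2 := by
    intro n
    simp only [hd]
    rw [div_lt_div_iff₀ (by positivity) (by norm_num)]
    have : (0:ℝ) ≤ n := Nat.cast_nonneg n
    linarith
  have hdanti : ∀ m n : ℕ, m ≤ n → d n ≤ d m := by
    intro m n h
    simp only [hd]
    have : (m:ℝ) ≤ n := by exact_mod_cast h
    exact one_div_le_one_div_of_le (by positivity) (by linarith)
  set S : ℕ → Set R6 := fun n => {x | ∀ i, ZA x i < ![1, (1 - d n)/4, (1 - d n)/2] i} with hS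
  have hmono : Monotone S := by
    intro m n h x hx i
    have h1 := hx i
    have h2 := hdanti m n h
    fin_cases i
    · simpa using h1
    · have h3 : ZA x 1 < (1 - d m)/4 := by simpa using h1
      have : ZA x 1 < (1 - d n)/4 := by linarith
      simpa using this
    · have h3 : ZA x 2 < (1 - d m)/2 := by simpa using h1
      have : ZA x 2 < (1 - d n)/2 := by linarith
      simpa using this
  have htend : Tendsto d atTop (𝓝 0) := by
    have h1 : Tendsto (fun n : ℕ => (n:ℝ) + 3) atTop atTop :=
      tendsto_atTop_add_const_right _ _ tendsto_natCast_atTop_atTop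
    exact tendsto_const_nhds.div_atTop h1
  have hU : (⋃ n, S n) = {x | ∀ i, ZA x i < ![1, 1/4, 1/2] i} := by
    ext x
    simp only [mem_iUnion, mem_ofPred_eq, hS]
    constructor
    · rintro ⟨n, hn⟩ i
      have h1 := hn i
      have h2 := hdpos n
      fin_cases i
      · simpa using h1
      · have h3 : ZA x 1 < (1 - d n)/4 := by simpa using h1
        have : ZA x 1 < 1/4 := by linarith
        simpa using this
      · have h3 : ZA x 2 < (1 - d n)/2 := by simpa using h1
        have : ZA x 2 < 1/2 := by linarith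
        simpa using this
    · intro h
      have h0 : ZA x 0 < 1 := by simpa using h 0
      have h1 : ZA x 1 < 1/4 := by simpa using h 1
      have h2 : ZA x 2 < 1/2 := by simpa using h 2
      have e1 : ∀ᶠ n in atTop, d n < 1 - 4 * ZA x 1 := htend.eventually_lt_const (by linarith)
      have e2 : ∀ᶠ n in atTop, d n < 1 - 2 * ZA x 2 := htend.eventually_lt_const (by linarith)
      obtain ⟨n, hn1, hn2⟩ := (e1.and e2).exists
      refine ⟨n, fun i => ?_⟩
      fin_cases i
      · simpa using h0
      · have : ZA x 1 < (1 - d n)/4 := by linarith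
        simpa using this
      · have : ZA x 2 < (1 - d n)/2 := by linarith
        simpa using this
  have hlim : Tendsto (fun n => rhoA (S n)) atTop (𝓝 (rhoA {x | ∀ i, ZA x i < ![1, 1/4, 1/2] i})) := by
    rw [← hU]
    exact tendsto_measure_iUnion_atTop hmono
  have hbig : ENNReal.ofReal (12665/100000) < rhoA {x | ∀ i, ZA x i < ![1, 1/4, 1/2] i} := by
    refine lt_of_lt_of_le ?_ rhoA_ge
    refine (ENNReal.ofReal_lt_ofReal_iff ?_).2 ?_
    · have := numA
      linarith
    · have := numA
      linarith
  obtain ⟨n, hn⟩ := (hlim.eventually_const_lt hbig).exists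
  exact ⟨d n, hdpos n, hdlt n, hn.le⟩

end Pool.Agent.LibOH30
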