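import Pool.Agent.LibOH30.E0

set_option autoImplicit false

namespace Pool.Agent.LibOH30

open MeasureTheory Set Filter Topology Complex ProbabilityTheory
open scoped NNReal ENNReal ComplexConjugate
open Pool.Agent.LibZM Pool.Agent.LibM3 Pool.Agent.LibLaw15

/-! ROW LB (MEDIUM). (B): measurability, positivity, Laplace transform (`alB = Fin.cons 1 (1/8)`; fifteen factors: six edges
`(s_i+s_j)^{-1/32}`, four `(s_0+s_i)^{-1/4}`, four `(2 s_i)^{-1/64}`, `(2 s_0)^{-1}`). -/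

instance rhoB_sigma : SigmaFinite rhoB := by
  unfold rhoB gam6
  infer_instance

private noncomputable def LB_E (x : ℝ) : ℝ≥0∞ := ENNReal.ofReal (Real.exp (-x))

private lemma LB_E_mul (x y : ℝ) : LB_E x * LB_E y = LB_E (x + y) := by
  unfold LB_E
  rw [← ENNReal.ofReal_mul (Real.exp_nonneg _), ← Real.exp_add]
  congr 2
  ring

private lemma LB_E_meas (c : ℝ) : Measurable fun t : ℝ => LB_E (c * t) := by
  unfold LB_E
  fun_prop

private lemma LB_E_int {w c : ℝ} (hw : 0 < w) (hc : 0 < c) :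
    ∫⁻ t, LB_E (c * t) ∂(gam w) = ENNReal.ofReal (c ^ (-w)) := gam_lap hw hc

private noncomputable def LB_pf {α β : Type} (f : α → ℝ≥0∞) (g : β → ℝ≥0∞) (z : α × β) : ℝ≥0∞ :=
  f z.1 * g z.2

private lemma LB_pf_meas {α β : Type} [MeasurableSpace α] [MeasurableSpace β] {f : α → ℝ≥0∞}
    {g : β → ℝ≥0∞} (hf : Measurable f) (hg : Measurable g) : Measurable (LB_pf f g) := by
  unfold LB_pf
  exact (hf.comp measurable_fst).mul (hg.comp measurable_snd)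

private lemma LB_pf_int {α β : Type} [MeasurableSpace α] [MeasurableSpace β] {μ : Measure α}
    {ν : Measure β} [SFinite μ] [SFinite ν] {f : α → ℝ≥0∞}
    {g : β → ℝ≥0∞} (hf : Measurable f) (hg : Measurable g) :
    ∫⁻ z, LB_pf f g z ∂(μ.prod ν) = (∫⁻ x, f x ∂μ) * ∫⁻ y, g y ∂ν :=
  lintegral_prod_mul hf.aemeasurable hg.aemeasurable

private lemma LB_pi {μ : Measure (ℝ × ℝ)} [SigmaFinite μ] : ∀ {n : ℕ} {f : Fin n → ℝ × ℝ → ℝ≥0∞},
    (∀ i, Measurable (f i)) →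
    ∫⁻ x, ∏ i, f i (x i) ∂(Measure.pi fun _ : Fin n => μ) = ∏ i, ∫⁻ y, f i y ∂μ := by
  intro n
  induction n with
  | zero =>
    intro f hf
    simp
  | succ n ih =>
    intro f hf
    rw [Fin.prod_univ_succ, ← ih fun i => hf i.succ, ← lintegral_prod_mul (hf 0).aemeasurable
      (Finset.measurable_prod _ fun i _ => (hf i.succ).comp (measurable_pi_apply i)).aemeasurable,
      ← ((measurePreserving_piFinSuccAbove (fun _ : Fin (n+1) => μ) 0).symm).lintegral_comp_emb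
        (MeasurableEquiv.measurableEmbedding _)]
    refine lintegral_congr fun z => ?_
    rw [Fin.prod_univ_succ]
    simp [MeasurableEquiv.piFinSuccAbove_symm_apply, Fin.insertNthEquiv]

private lemma LB_six {w : ℝ} (hw : 0 < w) {c0 c1 c2 c3 c4 c5 : ℝ} (h0 : 0 < c0) (h1 : 0 < c1)
    (h2 : 0 < c2) (h3 : 0 < c3) (h4 : 0 < c4) (h5 : 0 < c5) :
    ∫⁻ t, LB_pf (fun t => LB_E (c0 * t)) (LB_pf (fun t => LB_E (c1 * t))
      (LB_pf (fun t => LB_E (c2 * t)) (LB_pf (fun t => LB_E (c3 * t))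
      (LB_pf (fun t => LB_E (c4 * t)) (fun t => LB_E (c5 * t)))))) t ∂(gam6 w) =
    ENNReal.ofReal (c0 ^ (-w)) * (ENNReal.ofReal (c1 ^ (-w)) * (ENNReal.ofReal (c2 ^ (-w)) *
      (ENNReal.ofReal (c3 ^ (-w)) * (ENNReal.ofReal (c4 ^ (-w)) * ENNReal.ofReal (c5 ^ (-w)))))) := by
  have m5 := LB_E_meas c5
  have m4 := LB_pf_meas (LB_E_meas c4) m5
  have m3 := LB_pf_meas (LB_E_meas c3) m4
  have m2 := LB_pf_meas (LB_E_meas c2) m3
  have m1 := LB_pf_meas (LB_E_meas c1) m2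
  unfold gam6
  rw [LB_pf_int (LB_E_meas c0) m1, LB_pf_int (LB_E_meas c1) m2, LB_pf_int (LB_E_meas c2) m3,
    LB_pf_int (LB_E_meas c3) m4, LB_pf_int (LB_E_meas c4) m5, LB_E_int hw h0, LB_E_int hw h1,
    LB_E_int hw h2, LB_E_int hw h3, LB_E_int hw h4, LB_E_int hw h5]

theorem ZB_meas : Measurable ZB := by
  refine measurable_pi_iff.2 fun i => ?_
  refine Fin.cases ?_ (fun i => ?_) i
  · show Measurable fun x : OmB => 2 * x.2.2 + ∑ i, (x.2.1 i).1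
    fun_prop
  · show Measurable fun x : OmB => 2 * (x.2.1 i).2 + (x.2.1 i).1 + Yv x.1 i
    refine Measurable.add (by fun_prop) ?_
    fin_cases i
    · show Measurable fun x : OmB => x.1.1 + x.1.2.2.1 + x.1.2.2.2.2.1
      fun_prop
    · show Measurable fun x : OmB => x.1.1 + x.1.2.2.2.1 + x.1.2.2.2.2.2
      fun_prop
    · show Measurable fun x : OmB => x.1.2.1 + x.1.2.2.1 + x.1.2.2.2.2.2
      fun_prop
    · show Measurable fun x : OmB => x.1.2.1 + x.1.2.2.2.1 + x.1.2.2.2.2.1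
      fun_prop

private lemma LB_fst {α β : Type} [MeasurableSpace α] [MeasurableSpace β] {μ : Measure α}
    {ν : Measure β} [SFinite μ] [SFinite ν] {p : α → Prop} (h : ∀ᵐ x ∂μ, p x) :
    ∀ᵐ z ∂(μ.prod ν), p z.1 := Measure.quasiMeasurePreserving_fst.ae h

private lemma LB_snd {α β : Type} [MeasurableSpace α] [MeasurableSpace β] {μ : Measure α}
    {ν : Measure β} [SFinite μ] [SFinite ν] {p : β → Prop} (h : ∀ᵐ x ∂ν, p x) :
    ∀ᵐ z ∂(μ.prod ν), p z.2 := Measure.quasiMeasurePreserving_snd.ae h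

private lemma LB_pos6 (w : ℝ) : ∀ᵐ t ∂(gam6 w), 0 < t.1 ∧ 0 < t.2.1 ∧ 0 < t.2.2.1 ∧
    0 < t.2.2.2.1 ∧ 0 < t.2.2.2.2.1 ∧ 0 < t.2.2.2.2.2 := by
  have h5 := gam_pos w
  have h4 : ∀ᵐ t ∂((gam w).prod (gam w)), 0 < t.1 ∧ 0 < t.2 := (LB_fst h5).and (LB_snd h5)
  have h3 : ∀ᵐ t ∂((gam w).prod ((gam w).prod (gam w))), 0 < t.1 ∧ 0 < t.2.1 ∧ 0 < t.2.2 :=
    (LB_fst h5).and (LB_snd h4)
  have h2 : ∀ᵐ t ∂((gam w).prod ((gam w).prod ((gam w).prod (gam w)))),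
      0 < t.1 ∧ 0 < t.2.1 ∧ 0 < t.2.2.1 ∧ 0 < t.2.2.2 := (LB_fst h5).and (LB_snd h3)
  have h1 : ∀ᵐ t ∂((gam w).prod ((gam w).prod ((gam w).prod ((gam w).prod (gam w))))),
      0 < t.1 ∧ 0 < t.2.1 ∧ 0 < t.2.2.1 ∧ 0 < t.2.2.2.1 ∧ 0 < t.2.2.2.2 :=
    (LB_fst h5).and (LB_snd h2)
  exact (LB_fst h5).and (LB_snd h1)

theorem ZB_nonneg : ∀ᵐ x ∂rhoB, ∀ i, 0 ≤ ZB x i := by
  have h6 : ∀ᵐ x ∂rhoB, 0 < x.1.1 ∧ 0 < x.1.2.1 ∧ 0 < x.1.2.2.1 ∧
      0 < x.1.2.2.2.1 ∧ 0 < x.1.2.2.2.2.1 ∧ 0 < x.1.2.2.2.2.2 := by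
    have : SigmaFinite (gam6 (1/32)) := by
      unfold gam6
      infer_instance
    exact LB_fst (LB_pos6 (1/32))
  have h4 : ∀ᵐ x ∂rhoB, ∀ i, 0 < (x.2.1 i).1 ∧ 0 < (x.2.1 i).2 := by
    have : SigmaFinite (gam6 (1/32)) := by
      unfold gam6
      infer_instance
    have h7 : ∀ᵐ y ∂((gam (1/4)).prod (gam (1/64))), 0 < y.1 ∧ 0 < y.2 :=
      (LB_fst (gam_pos _)).and (LB_snd (gam_pos _))
    have h8 : ∀ᵐ y ∂(Measure.pi fun _ : Fin 4 => (gam (1/4)).prod (gam (1/64))),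
        ∀ i, 0 < (y i).1 ∧ 0 < (y i).2 :=
      ae_all_iff.2 fun i => (Measure.tendsto_eval_ae_ae
        (μ := fun _ : Fin 4 => (gam (1/4)).prod (gam (1/64))) (i := i)).eventually h7
    exact LB_snd (LB_fst h8)
  have h1 : ∀ᵐ x ∂rhoB, 0 < x.2.2 := by
    have : SigmaFinite (gam6 (1/32)) := by
      unfold gam6
      infer_instance
    exact LB_snd (LB_snd (gam_pos 1))
  filter_upwards [h6, h4, h1] with x hx6 hx4 hx1
  obtain ⟨p1, p2, p3, p4, p5, p6⟩ := hx6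
  intro i
  refine Fin.cases ?_ (fun i => ?_) i
  · show 0 ≤ 2 * x.2.2 + ∑ i, (x.2.1 i).1
    have : 0 ≤ ∑ i, (x.2.1 i).1 := Finset.sum_nonneg fun i _ => (hx4 i).1.le
    linarith
  · show 0 ≤ 2 * (x.2.1 i).2 + (x.2.1 i).1 + Yv x.1 i
    have hY : 0 ≤ Yv x.1 i := by
      fin_cases i
      · show 0 ≤ x.1.1 + x.1.2.2.1 + x.1.2.2.2.2.1
        linarith
      · show 0 ≤ x.1.1 + x.1.2.2.2.1 + x.1.2.2.2.2.2
        linarith
      · show 0 ≤ x.1.2.1 + x.1.2.2.1 + x.1.2.2.2.2.2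
        linarith
      · show 0 ≤ x.1.2.1 + x.1.2.2.2.1 + x.1.2.2.2.2.1
        linarith
    have := (hx4 i).1
    have := (hx4 i).2
    linarith

theorem ZB_lap (s : Fin 5 → ℝ) (hs : ∀ i, 0 < s i) : ∫⁻ x, ENNReal.ofReal (Real.exp (-∑ i, s i * ZB x i)) ∂rhoB =
    ENNReal.ofReal (∏ i, ∏ j, (s i + s j) ^ (-(alB i * alB j))) := by
  obtain ⟨s0, hs0⟩ : ∃ s0, s0 = s 0 := ⟨_, rfl⟩
  obtain ⟨σ, hσ⟩ : ∃ σ : Fin 4 → ℝ, σ = fun i => s i.succ := ⟨_, rfl⟩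
  have p0 : 0 < s0 := hs0 ▸ hs 0
  have pσ : ∀ i, 0 < σ i := fun i => by
    rw [hσ]
    exact hs _
  have hI : ∀ x : OmB, ENNReal.ofReal (Real.exp (-∑ i, s i * ZB x i)) =
      LB_pf (LB_pf (fun t => LB_E ((σ 0 + σ 1) * t)) (LB_pf (fun t => LB_E ((σ 2 + σ 3) * t))
      (LB_pf (fun t => LB_E ((σ 0 + σ 2) * t)) (LB_pf (fun t => LB_E ((σ 1 + σ 3) * t))
      (LB_pf (fun t => LB_E ((σ 0 + σ 3) * t)) (fun t => LB_E ((σ 1 + σ 2) * t)))))))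
      (LB_pf (fun y : Fin 4 → ℝ × ℝ => ∏ i, LB_pf (fun t => LB_E ((s0 + σ i) * t))
        (fun t => LB_E ((2 * σ i) * t)) (y i)) (fun t => LB_E ((2 * s0) * t))) x := by
    intro x
    unfold LB_pf
    simp only [Fin.prod_univ_four, LB_E_mul]
    unfold LB_E
    congr 2
    rw [Fin.sum_univ_succ, Fin.sum_univ_four]
    have e0 : ZB x 0 = 2 * x.2.2 + ∑ i, (x.2.1 i).1 := rfl
    have e1 : ZB x (Fin.succ 0) = 2 * (x.2.1 0).2 + (x.2.1 0).1 +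
      (x.1.1 + x.1.2.2.1 + x.1.2.2.2.2.1) := rfl
    have e2 : ZB x (Fin.succ 1) = 2 * (x.2.1 1).2 + (x.2.1 1).1 +
      (x.1.1 + x.1.2.2.2.1 + x.1.2.2.2.2.2) := rfl
    have e3 : ZB x (Fin.succ 2) = 2 * (x.2.1 2).2 + (x.2.1 2).1 +
      (x.1.2.1 + x.1.2.2.1 + x.1.2.2.2.2.2) := rfl
    have e4 : ZB x (Fin.succ 3) = 2 * (x.2.1 3).2 + (x.2.1 3).1 +
      (x.1.2.1 + x.1.2.2.2.1 + x.1.2.2.2.2.1) := rfl
    rw [e0, e1, e2, e3, e4, Fin.sum_univ_four, hs0, hσ]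
    ring
  rw [lintegral_congr hI]
  have m6 : Measurable (LB_pf (fun t => LB_E ((σ 0 + σ 1) * t)) (LB_pf (fun t => LB_E ((σ 2 + σ 3) * t))
      (LB_pf (fun t => LB_E ((σ 0 + σ 2) * t)) (LB_pf (fun t => LB_E ((σ 1 + σ 3) * t))
      (LB_pf (fun t => LB_E ((σ 0 + σ 3) * t)) (fun t => LB_E ((σ 1 + σ 2) * t))))))) :=
    LB_pf_meas (LB_E_meas _) (LB_pf_meas (LB_E_meas _) (LB_pf_meas (LB_E_meas _)
      (LB_pf_meas (LB_E_meas _) (LB_pf_meas (LB_E_meas _) (LB_E_meas _)))))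
  have mp : ∀ i : Fin 4, Measurable (LB_pf (fun t => LB_E ((s0 + σ i) * t))
      (fun t => LB_E ((2 * σ i) * t))) := fun i => LB_pf_meas (LB_E_meas _) (LB_E_meas _)
  have m4 : Measurable (fun y : Fin 4 → ℝ × ℝ => ∏ i, LB_pf (fun t => LB_E ((s0 + σ i) * t))
        (fun t => LB_E ((2 * σ i) * t)) (y i)) :=
    Finset.measurable_prod _ fun i _ => (mp i).comp (measurable_pi_apply i)
  have : SigmaFinite (gam6 (1/32)) := by
    unfold gam6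
    infer_instance
  unfold rhoB
  rw [LB_pf_int m6 (LB_pf_meas m4 (LB_E_meas _)), LB_pf_int m4 (LB_E_meas _),
    LB_six (by norm_num) (add_pos (pσ 0) (pσ 1)) (add_pos (pσ 2) (pσ 3)) (add_pos (pσ 0) (pσ 2))
      (add_pos (pσ 1) (pσ 3)) (add_pos (pσ 0) (pσ 3)) (add_pos (pσ 1) (pσ 2)),
    LB_pi mp, LB_E_int one_pos (by positivity)]
  have hpair : ∀ i : Fin 4, ∫⁻ y, LB_pf (fun t => LB_E ((s0 + σ i) * t))
      (fun t => LB_E ((2 * σ i) * t)) y ∂((gam (1/4)).prod (gam (1/64))) =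
      ENNReal.ofReal ((s0 + σ i) ^ (-(1/4) : ℝ) * (2 * σ i) ^ (-(1/64) : ℝ)) := by
    intro i
    have q1 := pσ i
    rw [LB_pf_int (LB_E_meas _) (LB_E_meas _), LB_E_int (by norm_num) (by positivity),
      LB_E_int (by norm_num) (by positivity), ENNReal.ofReal_mul (by positivity)]
  rw [Finset.prod_congr rfl fun i _ => hpair i]
  have pp : ∀ i : Fin 4, 0 ≤ (s0 + σ i) ^ (-(1/4) : ℝ) * (2 * σ i) ^ (-(1/64) : ℝ) := by
    intro i
    have q1 := pσ i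
    positivity
  rw [← ENNReal.ofReal_prod_of_nonneg fun i _ => pp i]
  have q0 := pσ 0
  have q1 := pσ 1
  have q2 := pσ 2
  have q3 := pσ 3
  rw [← ENNReal.ofReal_mul (by positivity), ← ENNReal.ofReal_mul (by positivity),
    ← ENNReal.ofReal_mul (by positivity), ← ENNReal.ofReal_mul (by positivity),
    ← ENNReal.ofReal_mul (by positivity), ← ENNReal.ofReal_mul (Finset.prod_nonneg fun i _ => pp i),
    ← ENNReal.ofReal_mul (by positivity)]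
  congr 1
  -- the real identity
  have a0 : alB 0 = 1 := rfl
  have a1 : ∀ i : Fin 4, alB i.succ = 1/8 := fun i => rfl
  have hR : ∏ i, ∏ j, (s i + s j) ^ (-(alB i * alB j)) =
      ((s0 + s0) ^ (-(1 * 1) : ℝ) * ∏ j, (s0 + σ j) ^ (-(1 * (1/8)) : ℝ)) *
      ∏ i, ((σ i + s0) ^ (-(1/8 * 1) : ℝ) * ∏ j, (σ i + σ j) ^ (-(1/8 * (1/8)) : ℝ)) := by
    rw [Fin.prod_univ_succ, Fin.prod_univ_succ]
    simp only [a0, a1, hs0, hσ]
    congr 1
  rw [hR]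
  simp only [Fin.prod_univ_four]
  have t1 : ∀ x : ℝ, 0 < x → x ^ (-(1/4) : ℝ) = x ^ (-(1 * (1/8)) : ℝ) * x ^ (-(1/8 * 1) : ℝ) := by
    intro x hx
    rw [← Real.rpow_add hx]
    norm_num
  have t2 : ∀ x : ℝ, 0 < x → x ^ (-(1/32) : ℝ) = x ^ (-(1/8 * (1/8)) : ℝ) * x ^ (-(1/8 * (1/8)) : ℝ) := by
    intro x hx
    rw [← Real.rpow_add hx]
    norm_num
  have t3 : ∀ x : ℝ, (2 * x) ^ (-(1/64) : ℝ) = (x + x) ^ (-(1/8 * (1/8)) : ℝ) := by
    intro x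
    rw [two_mul]
    norm_num
  have t4 : (2 * s0) ^ (-1 : ℝ) = (s0 + s0) ^ (-(1 * 1) : ℝ) := by
    rw [two_mul]
    norm_num
  rw [t1 _ (add_pos p0 q0), t1 _ (add_pos p0 q1), t1 _ (add_pos p0 q2), t1 _ (add_pos p0 q3),
    t2 _ (add_pos q0 q1), t2 _ (add_pos q2 q3), t2 _ (add_pos q0 q2), t2 _ (add_pos q1 q3),
    t2 _ (add_pos q0 q3), t2 _ (add_pos q1 q2), t3, t3, t3, t3, t4,
    add_comm (σ 0) s0, add_comm (σ 1) s0, add_comm (σ 2) s0, add_comm (σ 3) s0,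
    add_comm (σ 1) (σ 0), add_comm (σ 2) (σ 0), add_comm (σ 3) (σ 0), add_comm (σ 2) (σ 1),
    add_comm (σ 3) (σ 1), add_comm (σ 3) (σ 2)]
  ring

end Pool.Agent.LibOH30
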