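import Pool.Agent.LibOH30.E0b
import Pool.Agent.LibOH30.LB

set_option autoImplicit false

namespace Pool.Agent.LibOH30

open MeasureTheory Set Filter Topology Complex ProbabilityTheory
open scoped NNReal ENNReal ComplexConjugate
open Pool.Agent.LibZM Pool.Agent.LibM3 Pool.Agent.LibLaw15

/-! ROW EB2 (MEDIUM). (B): integrate `l_0` (`gam 1 {2 l0 ≤ 1 - Σ u} = (1 - Σ u)/2`), use `1 - Σ u_i ≤ ∏ (1 - u_i)` for `u_i ∈ [0, 1/4]`, Tonelli. -/

/-- The function at a vertex of (B). -/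
noncomputable def GB (y : ℝ) : ℝ≥0∞ :=
  ∫⁻ x in {x : ℝ × ℝ | 2 * x.2 + x.1 ≤ 1/4 - y}, ENNReal.ofReal (1 - x.1) ∂((gam (1/4)).prod (gam (1/64)))

private noncomputable def hB (y : ℝ) (x : ℝ × ℝ) : ℝ≥0∞ :=
  if 2 * x.2 + x.1 ≤ 1/4 - y then ENNReal.ofReal (1 - x.1) else 0

private lemma hB_meas2 : Measurable fun z : ℝ × (ℝ × ℝ) => hB z.1 z.2 := by
  unfold hB
  exact Measurable.ite (measurableSet_le (by fun_prop) (by fun_prop)) (by fun_prop) measurable_const

private lemma hB_meas (y : ℝ) : Measurable (hB y) := hB_meas2.comp (measurable_const.prodMk measurable_id)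

private lemma GB_eq (y : ℝ) : GB y = ∫⁻ x, hB y x ∂((gam (1/4)).prod (gam (1/64))) := by
  unfold GB
  rw [← lintegral_indicator (measurableSet_le (by fun_prop) measurable_const)]
  refine lintegral_congr fun x => ?_
  unfold hB
  by_cases h : 2 * x.2 + x.1 ≤ 1/4 - y
  · rw [if_pos h, Set.indicator_of_mem (show x ∈ {x : ℝ × ℝ | 2 * x.2 + x.1 ≤ 1/4 - y} from h)]
  · rw [if_neg h, Set.indicator_of_notMem (show x ∉ {x : ℝ × ℝ | 2 * x.2 + x.1 ≤ 1/4 - y} from h)]

theorem GB_meas : Measurable GB := by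
  rw [funext GB_eq]
  exact hB_meas2.lintegral_prod_right'

private lemma eb2_pi {μ : Measure (ℝ × ℝ)} [SigmaFinite μ] : ∀ {n : ℕ} {f : Fin n → ℝ × ℝ → ℝ≥0∞},
    (∀ i, Measurable (f i)) →
    ∫⁻ x, ∏ i, f i (x i) ∂(Measure.pi fun _ : Fin n => μ) = ∏ i, ∫⁻ y, f i y ∂μ := by
  intro n
  induction n with
  | zero =>
    intro f hf
    simp
  | succ n ih =>
    intro f hf
    rw [Fin.prod_univ_succ, ← ih fun i => hf i.succ, ← lintegral_prod_mul (hf 0).aemeasurable
      (Finset.measurable_prod _ fun i _ => (hf i.succ).comp (measurable_pi_apply i)).aemeasurable,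
      ← ((measurePreserving_piFinSuccAbove (fun _ : Fin (n+1) => μ) 0).symm).lintegral_comp_emb
        (MeasurableEquiv.measurableEmbedding _)]
    refine lintegral_congr fun z => ?_
    rw [Fin.prod_univ_succ]
    simp [MeasurableEquiv.piFinSuccAbove_symm_apply, Fin.insertNthEquiv]

private lemma eb2_gam1 (c : ℝ) : gam 1 {s : ℝ | 2 * s ≤ c} ≤ ENNReal.ofReal (1/2) * ENNReal.ofReal c := by
  rcases le_or_gt 0 c with hc | hc
  · have hsub : {s : ℝ | 2 * s ≤ c} ⊆ Set.Iio (c / 2) ∪ {c / 2} := by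
      intro s hs
      simp only [Set.mem_ofPred_eq] at hs
      rcases lt_or_eq_of_le (show s ≤ c / 2 by linarith) with h | h
      · exact Or.inl h
      · exact Or.inr h
    have h1 : gam 1 (Set.Iio (c / 2)) = ENNReal.ofReal (1/2) * ENNReal.ofReal c := by
      have h2 := gam_beta (w := 1) (p := 0) (c := c / 2) (by norm_num) le_rfl (by linarith)
      have h3 : (fun t : ℝ => if t < c / 2 then ENNReal.ofReal ((c / 2 - t) ^ (0:ℝ)) else 0) =
          (Set.Iio (c / 2)).indicator 1 := by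
        funext t
        by_cases ht : t < c / 2
        · rw [if_pos ht, Set.indicator_of_mem (show t ∈ Set.Iio (c / 2) from ht), Real.rpow_zero,
            ENNReal.ofReal_one, Pi.one_apply]
        · rw [if_neg ht, Set.indicator_of_notMem (show t ∉ Set.Iio (c / 2) from ht)]
      rw [h3, lintegral_indicator_one measurableSet_Iio] at h2
      rw [h2, ← ENNReal.ofReal_mul (by norm_num)]
      congr 1
      rw [zero_add, Real.Gamma_one, show (1 + 1 : ℝ) = 2 by norm_num, Real.Gamma_two, Real.rpow_one]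
      ring
    calc gam 1 {s : ℝ | 2 * s ≤ c} ≤ gam 1 (Set.Iio (c / 2) ∪ {c / 2}) := measure_mono hsub
      _ ≤ gam 1 (Set.Iio (c / 2)) + gam 1 {c / 2} := measure_union_le _ _
      _ = _ := by
        have h0 : gam 1 {c / 2} = 0 := by
          unfold gam
          exact (withDensity_absolutelyContinuous volume _) (by simp)
        rw [h0, add_zero, h1]
  · have h0 : gam 1 {t | ¬ 0 < t} = 0 := ae_iff.mp (gam_pos 1)
    refine (le_of_eq (measure_mono_null ?_ h0)).trans (zero_le)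
    intro s hs
    simp only [Set.mem_ofPred_eq] at hs ⊢
    intro hpos
    linarith

private lemma eb2_fst {α β : Type*} [MeasurableSpace α] [MeasurableSpace β] {μ : Measure α} {ν : Measure β} [SFinite ν]
    {P : α → Prop} (h : ∀ᵐ a ∂μ, P a) : ∀ᵐ x ∂(μ.prod ν), P x.1 :=
  Measure.quasiMeasurePreserving_fst.ae h

private lemma eb2_snd {α β : Type*} [MeasurableSpace α] [MeasurableSpace β] {μ : Measure α} {ν : Measure β} [SFinite ν]
    {P : β → Prop} (h : ∀ᵐ a ∂ν, P a) : ∀ᵐ x ∂(μ.prod ν), P x.2 :=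
  Measure.quasiMeasurePreserving_snd.ae h

private lemma eb2_Y (w : ℝ) : ∀ᵐ t ∂(gam6 w), ∀ i, 0 ≤ Yv t i := by
  unfold gam6
  filter_upwards [eb2_fst (gam_pos w), eb2_snd (eb2_fst (gam_pos w)), eb2_snd (eb2_snd (eb2_fst (gam_pos w))),
    eb2_snd (eb2_snd (eb2_snd (eb2_fst (gam_pos w)))), eb2_snd (eb2_snd (eb2_snd (eb2_snd (eb2_fst (gam_pos w))))),
    eb2_snd (eb2_snd (eb2_snd (eb2_snd (eb2_snd (gam_pos w)))))] with x h1 h2 h3 h4 h5 h6
  intro i
  fin_cases i
  · show 0 ≤ x.1 + x.2.2.1 + x.2.2.2.2.1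
    positivity
  · show 0 ≤ x.1 + x.2.2.2.1 + x.2.2.2.2.2
    positivity
  · show 0 ≤ x.2.1 + x.2.2.1 + x.2.2.2.2.2
    positivity
  · show 0 ≤ x.2.1 + x.2.2.2.1 + x.2.2.2.2.1
    positivity

private lemma eb2_prod {u : Fin 4 → ℝ} (h0 : ∀ i, 0 ≤ u i) (h1 : ∀ i, u i ≤ 1) :
    1 - ∑ i, u i ≤ ∏ i, (1 - u i) := by
  have key : ∀ s : Finset (Fin 4), 1 - ∑ i ∈ s, u i ≤ ∏ i ∈ s, (1 - u i) ∧ ∏ i ∈ s, (1 - u i) ≤ 1 ∧ 0 ≤ ∏ i ∈ s, (1 - u i) := by
    intro s
    induction s using Finset.induction_on with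
    | empty => simp
    | insert a s ha ih =>
      rw [Finset.sum_insert ha, Finset.prod_insert ha]
      obtain ⟨i1, i2, i3⟩ := ih
      have a0 := h0 a
      have a1 := h1 a
      refine ⟨?_, ?_, ?_⟩
      · nlinarith
      · nlinarith
      · exact mul_nonneg (by linarith) i3
  exact (key Finset.univ).1

theorem rhoB_le : rhoB {x | ∀ i, ZB x i ≤ (Fin.cons 1 fun _ => 1/4 : Fin 5 → ℝ) i} ≤
    ENNReal.ofReal (1/2) * ∫⁻ t, ∏ i, GB (Yv t i) ∂(gam6 (1/32)) := by
  set ν : Measure (Fin 4 → ℝ × ℝ) := Measure.pi fun _ : Fin 4 => (gam (1/4)).prod (gam (1/64)) with hν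
  have hA : MeasurableSet {x : OmB | ∀ i, ZB x i ≤ (Fin.cons 1 fun _ => 1/4 : Fin 5 → ℝ) i} := by
    have : {x : OmB | ∀ i, ZB x i ≤ (Fin.cons 1 fun _ => 1/4 : Fin 5 → ℝ) i} =
        ⋂ i, {x : OmB | ZB x i ≤ (Fin.cons 1 fun _ => 1/4 : Fin 5 → ℝ) i} := by
      ext x
      simp
    rw [this]
    exact MeasurableSet.iInter fun i => measurableSet_le ((measurable_pi_apply i).comp ZB_meas) measurable_const
  unfold rhoB
  rw [Measure.prod_apply hA, ← lintegral_const_mul' _ _ ENNReal.ofReal_ne_top]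
  refine lintegral_mono_ae ?_
  filter_upwards [eb2_Y (1/32)] with t hy
  have hA2 : MeasurableSet (Prod.mk t ⁻¹' {x : OmB | ∀ i, ZB x i ≤ (Fin.cons 1 fun _ => 1/4 : Fin 5 → ℝ) i}) :=
    measurable_prodMk_left hA
  have hpos : ∀ᵐ x ∂ν, ∀ i, 0 < (x i).1 ∧ 0 < (x i).2 := by
    rw [ae_all_iff]
    intro i
    have h1 : ∀ᵐ x ∂((gam (1/4)).prod (gam (1/64))), 0 < x.1 ∧ 0 < x.2 := by
      have a1 := Measure.quasiMeasurePreserving_fst (μ := gam (1/4)) (ν := gam (1/64))
      have a2 := Measure.quasiMeasurePreserving_snd (μ := gam (1/4)) (ν := gam (1/64))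
      filter_upwards [a1.ae (gam_pos (1/4)), a2.ae (gam_pos (1/64))] with x a b
      exact ⟨a, b⟩
    exact (Measure.quasiMeasurePreserving_eval (μ := fun _ : Fin 4 => (gam (1/4)).prod (gam (1/64))) i).ae h1
  rw [Measure.prod_apply hA2]
  calc ∫⁻ x, gam 1 (Prod.mk x ⁻¹' (Prod.mk t ⁻¹' {x : OmB | ∀ i, ZB x i ≤ (Fin.cons 1 fun _ => 1/4 : Fin 5 → ℝ) i})) ∂ν
      ≤ ∫⁻ x, ENNReal.ofReal (1/2) * ∏ i, hB (Yv t i) (x i) ∂ν := by
        refine lintegral_mono_ae ?_
        filter_upwards [hpos] with x hx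
        by_cases hall : ∀ i, 2 * (x i).2 + (x i).1 ≤ 1/4 - Yv t i
        · have hsub : Prod.mk x ⁻¹' (Prod.mk t ⁻¹' {x : OmB | ∀ i, ZB x i ≤ (Fin.cons 1 fun _ => 1/4 : Fin 5 → ℝ) i}) ⊆
              {s : ℝ | 2 * s ≤ 1 - ∑ i, (x i).1} := by
            intro s hs
            have h0 := hs 0
            simp only [ZB, Fin.cons_zero] at h0
            show 2 * s ≤ 1 - ∑ i, (x i).1
            linarith
          refine (measure_mono hsub).trans ((eb2_gam1 _).trans ?_)
          gcongr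
          have hu1 : ∀ i, (x i).1 ≤ 1 := by
            intro i
            have := hall i
            have := hx i
            have := hy i
            linarith
          have h2 := eb2_prod (u := fun i => (x i).1) (fun i => (hx i).1.le) hu1
          refine (ENNReal.ofReal_le_ofReal h2).trans (le_of_eq ?_)
          rw [ENNReal.ofReal_prod_of_nonneg fun i _ => by have := hu1 i; linarith]
          refine Finset.prod_congr rfl fun i _ => ?_
          unfold hB
          rw [if_pos (hall i)]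
        · have hemp : Prod.mk x ⁻¹' (Prod.mk t ⁻¹' {x : OmB | ∀ i, ZB x i ≤ (Fin.cons 1 fun _ => 1/4 : Fin 5 → ℝ) i}) = ∅ := by
            push Not at hall
            obtain ⟨i, hi⟩ := hall
            ext s
            simp only [Set.mem_preimage, Set.mem_ofPred_eq, Set.mem_empty_iff_false, iff_false, not_forall, not_le]
            refine ⟨i.succ, ?_⟩
            simp only [ZB, Fin.cons_succ]
            linarith
          rw [hemp, measure_empty]
          exact zero_le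
    _ = ENNReal.ofReal (1/2) * ∏ i, GB (Yv t i) := by
        have hmm : Measurable fun x : Fin 4 → ℝ × ℝ => ∏ i, hB (Yv t i) (x i) :=
          Finset.measurable_prod _ fun i _ => (hB_meas _).comp (measurable_pi_apply i)
        rw [lintegral_const_mul _ hmm, hν, eb2_pi fun i => hB_meas (Yv t i)]
        congr 1
        exact Finset.prod_congr rfl fun i _ => (GB_eq _).symm

end Pool.Agent.LibOH30
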