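import Pool.Agent.LibOH30.E0b

set_option autoImplicit false

namespace Pool.Agent.LibOH30

open MeasureTheory Set Filter Topology Complex ProbabilityTheory
open scoped NNReal ENNReal ComplexConjugate
open Pool.Agent.LibZM Pool.Agent.LibM3 Pool.Agent.LibLaw15

/-! ROW EV (SHORT/MEDIUM). The integral at one vertex: `u ~ gam a`, `l ~ gam b`, `2 l + u < c`. From `gam_two`, `gam_conv`, `gam_mul` and
`gam w {z < c} = c^w/Γ(w+1)` (`gam_beta` with `p = 0`). -/

/-- Indicator of `z < c`. -/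
private noncomputable def FI (c z : ℝ) : ℝ≥0∞ := if z < c then 1 else 0

private theorem FI_meas (c : ℝ) : Measurable (FI c) :=
  Measurable.ite measurableSet_Iio measurable_const measurable_const

private theorem FI_int {w c : ℝ} (hw : 0 < w) (hc : 0 ≤ c) :
    ∫⁻ z, FI c z ∂(gam w) = ENNReal.ofReal (c ^ w / Real.Gamma (1 + w)) := by
  have h := gam_beta hw (le_refl (0:ℝ)) hc
  have h1 : (fun t : ℝ => (if t < c then ENNReal.ofReal ((c - t) ^ (0:ℝ)) else 0)) = FI c := by
    funext t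
    simp [FI]
  rw [h1] at h
  rw [h]
  congr 1
  rw [zero_add, zero_add, Real.Gamma_one]
  ring

private theorem set_meas (c : ℝ) : MeasurableSet {x : ℝ × ℝ | 2 * x.2 + x.1 < c} :=
  measurableSet_lt (by fun_prop) measurable_const

private theorem inner {b : ℝ} (hb : 0 < b) (c x : ℝ) :
    ∫⁻ y, FI c (2 * y + x) ∂(gam b) = ENNReal.ofReal ((2:ℝ) ^ (-b)) * ∫⁻ y, FI c (x + y) ∂(gam b) := by
  have h := gam_two hb (f := fun z => FI c (z + x)) ((FI_meas c).comp (measurable_id.add_const x))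
  rw [h]
  congr 1
  apply lintegral_congr
  intro y
  rw [add_comm]

private theorem outer_meas (c : ℝ) (b : ℝ) : Measurable fun x : ℝ => ∫⁻ y, FI c (x + y) ∂(gam b) := by
  have h : Measurable fun p : ℝ × ℝ => FI c (p.1 + p.2) := (FI_meas c).comp (measurable_fst.add measurable_snd)
  exact h.lintegral_prod_right'

theorem vert0 {a b c : ℝ} (ha : 0 < a) (hb : 0 < b) (hc : 0 ≤ c) :
    ((gam a).prod (gam b)) {x | 2 * x.2 + x.1 < c} =
      ENNReal.ofReal ((2:ℝ) ^ (-b) * c ^ (a + b) / Real.Gamma (1 + a + b)) := by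
  rw [Measure.prod_apply (set_meas c)]
  have h1 : ∀ x : ℝ, (gam b) (Prod.mk x ⁻¹' {x : ℝ × ℝ | 2 * x.2 + x.1 < c}) =
      ENNReal.ofReal ((2:ℝ) ^ (-b)) * ∫⁻ y, FI c (x + y) ∂(gam b) := by
    intro x
    rw [← inner hb, ← lintegral_indicator_one (measurable_prodMk_left (set_meas c))]
    apply lintegral_congr
    intro y
    simp only [Set.indicator, FI, Set.mem_preimage, Set.mem_ofPred_eq, Pi.one_apply]
  simp_rw [h1]
  rw [lintegral_const_mul _ (outer_meas c b), gam_conv ha hb (FI_meas c), FI_int (add_pos ha hb) hc,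
    ← ENNReal.ofReal_mul (Real.rpow_nonneg (by norm_num) _)]
  congr 1
  rw [add_assoc]
  ring

theorem vert1 {a b c : ℝ} (ha : 0 < a) (hb : 0 < b) (hc : 0 ≤ c) :
    ∫⁻ x in {x : ℝ × ℝ | 2 * x.2 + x.1 < c}, ENNReal.ofReal x.1 ∂((gam a).prod (gam b)) =
      ENNReal.ofReal (a * (2:ℝ) ^ (-b) * c ^ (1 + a + b) / Real.Gamma (2 + a + b)) := by
  rw [← lintegral_indicator (set_meas c)]
  have h0 : ∀ x : ℝ × ℝ, ({x : ℝ × ℝ | 2 * x.2 + x.1 < c}.indicator (fun x => ENNReal.ofReal x.1)) x =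
      ENNReal.ofReal x.1 * FI c (2 * x.2 + x.1) := by
    intro x
    simp only [Set.indicator, FI, Set.mem_ofPred_eq]
    split_ifs <;> simp
  simp_rw [h0]
  have hm : Measurable fun x : ℝ × ℝ => ENNReal.ofReal x.1 * FI c (2 * x.2 + x.1) :=
    (ENNReal.measurable_ofReal.comp measurable_fst).mul
      ((FI_meas c).comp ((measurable_snd.const_mul 2).add measurable_fst))
  rw [lintegral_prod _ hm.aemeasurable]
  have h1 : ∀ x : ℝ, ∫⁻ y, ENNReal.ofReal x * FI c (2 * y + x) ∂(gam b) =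
      ENNReal.ofReal ((2:ℝ) ^ (-b)) * (ENNReal.ofReal x * ∫⁻ y, FI c (x + y) ∂(gam b)) := by
    intro x
    have hm2 : Measurable fun y : ℝ => FI c (2 * y + x) :=
      (FI_meas c).comp ((measurable_id.const_mul 2).add_const x)
    rw [lintegral_const_mul _ hm2, inner hb]
    ring
  simp only [h1]
  have hm3 : Measurable fun x : ℝ => ENNReal.ofReal x * ∫⁻ y, FI c (x + y) ∂(gam b) :=
    ENNReal.measurable_ofReal.mul (outer_meas c b)
  rw [lintegral_const_mul _ hm3, gam_mul ha (outer_meas c b),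
    gam_conv (by linarith : 0 < a + 1) hb (FI_meas c), FI_int (by linarith : 0 < a + 1 + b) hc,
    ← ENNReal.ofReal_mul ha.le, ← ENNReal.ofReal_mul (Real.rpow_nonneg (by norm_num) _)]
  congr 1
  have e1 : (1:ℝ) + (a + 1 + b) = 2 + a + b := by ring
  have e2 : a + 1 + b = 1 + a + b := by ring
  rw [e1, e2]
  ring

/-- The boundary has measure zero. -/
theorem vert_le {a b : ℝ} (ha : 0 < a) (hb : 0 < b) (c : ℝ) :
    ((gam a).prod (gam b)) {x | 2 * x.2 + x.1 = c} = 0 := by
  have hms : MeasurableSet {x : ℝ × ℝ | 2 * x.2 + x.1 = c} :=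
    measurableSet_eq_fun (by fun_prop) measurable_const
  rw [Measure.prod_apply hms]
  have h1 : ∀ x : ℝ, (gam b) (Prod.mk x ⁻¹' {x : ℝ × ℝ | 2 * x.2 + x.1 = c}) = 0 := by
    intro x
    have h2 : (volume : Measure ℝ) (Prod.mk x ⁻¹' {x : ℝ × ℝ | 2 * x.2 + x.1 = c}) = 0 := by
      have h3 : (Prod.mk x ⁻¹' {x : ℝ × ℝ | 2 * x.2 + x.1 = c}) ⊆ {(c - x) / 2} := by
        intro y hy
        simp only [Set.mem_preimage, Set.mem_ofPred_eq] at hy
        simp only [Set.mem_singleton_iff]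
        linarith
      exact measure_mono_null h3 (by simp)
    exact (withDensity_absolutelyContinuous _ _) h2
  simp only [h1, lintegral_zero]

end Pool.Agent.LibOH30
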