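import Pool.Agent.LibOH30.EB2
import Pool.Agent.LibOH30.EV

set_option autoImplicit false

namespace Pool.Agent.LibOH30

open MeasureTheory Set Filter Topology Complex ProbabilityTheory
open scoped NNReal ENNReal ComplexConjugate
open Pool.Agent.LibZM Pool.Agent.LibM3 Pool.Agent.LibLaw15

/-! ROW EB4 (MEDIUM). `GB y = 2^{-1/64} (1/4-y)^{17/64}/Γ(81/64) · (1 - (16/81)(1/4-y))` for `0 ≤ y ≤ 1/4` (`vert0`, `vert1`, `vert_le`), `0` for
`y > 1/4`; then the square is integrated by `gam_beta` (`w = 3/32`, `p = 17/32 + j`, `j = 0, 1, 2`). -/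

/-- `∫_0^{1/4} (1/4-y)^p dgam(3/32)`. -/
noncomputable def bt (p : ℝ) : ℝ := (1/4 : ℝ) ^ (p + 3/32) * (Real.Gamma (p + 1) / Real.Gamma (p + 1 + 3/32))

/-- The integral of `GB²`. -/
noncomputable def NB : ℝ := (2:ℝ) ^ (-(1/32) : ℝ) / Real.Gamma (81/64) ^ 2 *
  (bt (17/32) - 2 * (16/81) * bt (49/32) + (16/81) ^ 2 * bt (81/32))

private lemma eb4_G : 0 < Real.Gamma (81/64) := Real.Gamma_pos_of_pos (by norm_num)

private lemma eb4_meas (c : ℝ) : MeasurableSet {x : ℝ × ℝ | 2 * x.2 + x.1 < c} :=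
  measurableSet_lt (by fun_prop) measurable_const

private lemma eb4_meas' (c : ℝ) : MeasurableSet {x : ℝ × ℝ | 2 * x.2 + x.1 = c} :=
  measurableSet_eq_fun (by fun_prop) measurable_const

private lemma eb4_pos : ∀ᵐ x ∂((gam (1/4)).prod (gam (1/64))), 0 < x.1 ∧ 0 < x.2 := by
  have h1 := Measure.quasiMeasurePreserving_fst (μ := gam (1/4)) (ν := gam (1/64))
  have h2 := Measure.quasiMeasurePreserving_snd (μ := gam (1/4)) (ν := gam (1/64))
  filter_upwards [h1.ae (gam_pos (1/4)), h2.ae (gam_pos (1/64))] with x a b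
  exact ⟨a, b⟩

/-- The value of the vertex function. -/
private lemma eb4_val {y : ℝ} (hy0 : 0 ≤ y) (hy : y ≤ 1/4) :
    GB y ≤ ENNReal.ofReal ((2:ℝ) ^ (-(1/64) : ℝ) * (1/4 - y) ^ (17/64 : ℝ) / Real.Gamma (81/64) * (1 - 16/81 * (1/4 - y))) := by
  have hc : 0 ≤ 1/4 - y := by linarith
  set c := 1/4 - y with hcdef
  have hc4 : c ≤ 1/4 := by linarith
  set ρ := (gam (1/4)).prod (gam (1/64)) with hρ
  have e1 : GB y ≤ ∫⁻ x in {x : ℝ × ℝ | 2 * x.2 + x.1 < c}, ENNReal.ofReal (1 - x.1) ∂ρ := by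
    unfold GB
    have hsub : {x : ℝ × ℝ | 2 * x.2 + x.1 ≤ 1/4 - y} ⊆
        {x : ℝ × ℝ | 2 * x.2 + x.1 < c} ∪ {x : ℝ × ℝ | 2 * x.2 + x.1 = c} := by
      intro x hx
      rcases lt_or_eq_of_le (show 2 * x.2 + x.1 ≤ c from hx) with h | h
      · exact Or.inl h
      · exact Or.inr h
    refine (lintegral_mono_set hsub).trans ?_
    refine (lintegral_union_le _ _ _).trans ?_
    rw [setLIntegral_measure_zero _ _ (vert_le (by norm_num) (by norm_num) c), add_zero]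
  refine e1.trans ?_
  have h0 := vert0 (a := 1/4) (b := 1/64) (c := c) (by norm_num) (by norm_num) hc
  have h1 := vert1 (a := 1/4) (b := 1/64) (c := c) (by norm_num) (by norm_num) hc
  have hsum : (∫⁻ x in {x : ℝ × ℝ | 2 * x.2 + x.1 < c}, ENNReal.ofReal (1 - x.1) ∂ρ) +
      ∫⁻ x in {x : ℝ × ℝ | 2 * x.2 + x.1 < c}, ENNReal.ofReal x.1 ∂ρ = ρ {x : ℝ × ℝ | 2 * x.2 + x.1 < c} := by
    rw [← lintegral_add_left (by fun_prop)]
    rw [← setLIntegral_one]
    refine setLIntegral_congr_fun_ae (eb4_meas c) ?_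
    filter_upwards [eb4_pos] with x hx hxc
    have hx1 : x.1 ≤ 1 := by
      have : 2 * x.2 + x.1 < c := hxc
      linarith [hx.1, hx.2]
    rw [← ENNReal.ofReal_add (by linarith) hx.1.le]
    simp
  have hG := eb4_G
  have hW0 : 0 ≤ 1/4 * (2:ℝ) ^ (-(1/64) : ℝ) * c ^ (1 + 1/4 + 1/64 : ℝ) / Real.Gamma (2 + 1/4 + 1/64) := by
    have : 0 < Real.Gamma (2 + 1/4 + 1/64) := Real.Gamma_pos_of_pos (by norm_num)
    positivity
  rw [h1, h0] at hsum
  have hfin : ∫⁻ x in {x : ℝ × ℝ | 2 * x.2 + x.1 < c}, ENNReal.ofReal (1 - x.1) ∂ρ =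
      ENNReal.ofReal ((2:ℝ) ^ (-(1/64) : ℝ) * c ^ (1/4 + 1/64 : ℝ) / Real.Gamma (1 + 1/4 + 1/64)) -
        ENNReal.ofReal (1/4 * (2:ℝ) ^ (-(1/64) : ℝ) * c ^ (1 + 1/4 + 1/64 : ℝ) / Real.Gamma (2 + 1/4 + 1/64)) := by
    rw [← hsum, ENNReal.add_sub_cancel_right ENNReal.ofReal_ne_top]
  rw [hfin, ← ENNReal.ofReal_sub _ hW0]
  refine le_of_eq ?_
  congr 1
  have g1 : Real.Gamma (1 + 1/4 + 1/64) = Real.Gamma (81/64) := by norm_num
  have g2 : Real.Gamma (2 + 1/4 + 1/64) = (81/64) * Real.Gamma (81/64) := by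
    have := Real.Gamma_add_one (s := 81/64) (by norm_num)
    rw [← this]; norm_num
  rw [g1, g2]
  have g3 : c ^ (1 + 1/4 + 1/64 : ℝ) = c * c ^ (17/64 : ℝ) := by
    rw [show (1 + 1/4 + 1/64 : ℝ) = 1 + 17/64 by norm_num]
    rcases eq_or_lt_of_le hc with h | h
    · rw [← h, zero_mul, Real.zero_rpow (by norm_num)]
    · rw [Real.rpow_add h, Real.rpow_one]
  rw [g3, show (1/4 + 1/64 : ℝ) = 17/64 by norm_num]
  field_simp
  ring

private lemma eb4_zero {y : ℝ} (hy : 1/4 < y) : GB y = 0 := by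
  unfold GB
  refine setLIntegral_measure_zero _ _ ?_
  have h := eb4_pos
  rw [ae_iff] at h
  refine measure_mono_null ?_ h
  intro x hx hx2
  have : 2 * x.2 + x.1 ≤ 1/4 - y := hx
  linarith [hx2.1, hx2.2]

theorem GB_sq : ∫⁻ y, GB y ^ 2 ∂(gam (3/32)) ≤ ENNReal.ofReal NB := by
  have hG := eb4_G
  set k : ℝ := (2:ℝ) ^ (-(1/32) : ℝ) / Real.Gamma (81/64) ^ 2 with hk
  have hk0 : 0 < k := by positivity
  -- the integrand
  set f : ℝ → ℝ≥0∞ := fun y => if y < 1/4 then ENNReal.ofReal (k * ((1/4 - y) ^ (17/32 : ℝ) -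
    2 * (16/81) * (1/4 - y) ^ (49/32 : ℝ) + (16/81) ^ 2 * (1/4 - y) ^ (81/32 : ℝ))) else 0 with hf
  have hpt : ∀ y : ℝ, 0 < y → GB y ^ 2 ≤ f y := by
    intro y hy0
    rcases lt_trichotomy y (1/4) with h | h | h
    · have h1 := eb4_val hy0.le h.le
      have hc : 0 < 1/4 - y := by linarith
      simp only [hf, if_pos h]
      refine (pow_le_pow_left' h1 2).trans (le_of_eq ?_)
      rw [← ENNReal.ofReal_pow]
      · congr 1
        have e1 : ((2:ℝ) ^ (-(1/64) : ℝ)) ^ 2 = (2:ℝ) ^ (-(1/32) : ℝ) := by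
          rw [← Real.rpow_natCast, ← Real.rpow_mul (by norm_num)]; norm_num
        have e2 : ((1/4 - y) ^ (17/64 : ℝ)) ^ 2 = (1/4 - y) ^ (17/32 : ℝ) := by
          rw [← Real.rpow_natCast, ← Real.rpow_mul hc.le]; norm_num
        have e3 : (1/4 - y) ^ (49/32 : ℝ) = (1/4 - y) ^ (17/32 : ℝ) * (1/4 - y) := by
          rw [show (49/32 : ℝ) = 17/32 + 1 by norm_num, Real.rpow_add hc, Real.rpow_one]
        have e4 : (1/4 - y) ^ (81/32 : ℝ) = (1/4 - y) ^ (17/32 : ℝ) * (1/4 - y) ^ 2 := by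
          rw [show (81/32 : ℝ) = 17/32 + (2:ℕ) by norm_num, Real.rpow_add hc, Real.rpow_natCast]
        rw [e3, e4, hk, ← e1, ← e2]
        field_simp
        ring
      · have : 0 ≤ 1 - 16/81 * (1/4 - y) := by linarith
        positivity
    · have h1 := eb4_val hy0.le h.le
      rw [h] at h1
      have e : (2:ℝ) ^ (-(1/64) : ℝ) * (1/4 - 1/4 : ℝ) ^ (17/64 : ℝ) / Real.Gamma (81/64) * (1 - 16/81 * (1/4 - 1/4)) = 0 := by
        rw [sub_self, Real.zero_rpow (by norm_num)]; ring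
      rw [e, ENNReal.ofReal_zero] at h1
      have h2 : GB y = 0 := by rw [h]; exact le_antisymm h1 bot_le
      rw [h2]; simp
    · rw [eb4_zero h]; simp
  have hle : ∫⁻ y, GB y ^ 2 ∂(gam (3/32)) ≤ ∫⁻ y, f y ∂(gam (3/32)) := by
    refine lintegral_mono_ae ?_
    filter_upwards [gam_pos (3/32)] with y hy
    exact hpt y hy
  refine hle.trans ?_
  -- the three Beta integrals
  set b : ℝ → ℝ → ℝ≥0∞ := fun p y => if y < 1/4 then ENNReal.ofReal ((1/4 - y) ^ p) else 0 with hb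
  have hbm : ∀ p : ℝ, Measurable (b p) := by
    intro p
    refine Measurable.ite (measurableSet_lt measurable_id measurable_const) ?_ measurable_const
    exact ENNReal.measurable_ofReal.comp ((measurable_const.sub measurable_id).pow_const p)
  have hb' : ∀ p : ℝ, 0 ≤ p → ∫⁻ y, b p y ∂(gam (3/32)) = ENNReal.ofReal (bt p) := by
    intro p hp
    have := gam_beta (w := 3/32) (p := p) (c := 1/4) (by norm_num) hp (by norm_num)
    exact this
  have hbt : ∀ p : ℝ, 0 ≤ p → 0 ≤ bt p := by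
    intro p hp
    unfold bt
    have h1 : 0 < Real.Gamma (p + 1) := Real.Gamma_pos_of_pos (by linarith)
    have h2 : 0 < Real.Gamma (p + 1 + 3/32) := Real.Gamma_pos_of_pos (by linarith)
    positivity
  have hkey : ∀ y, f y + ENNReal.ofReal (k * (2 * (16/81))) * b (49/32) y =
      ENNReal.ofReal k * b (17/32) y + ENNReal.ofReal (k * (16/81) ^ 2) * b (81/32) y := by
    intro y
    simp only [hf, hb]
    split_ifs with h
    · have hc : 0 < 1/4 - y := by linarith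
      have hc4 : ∀ hy : 0 ≤ y, 1/4 - y ≤ 1/4 := fun hy => by linarith
      rw [← ENNReal.ofReal_mul (by positivity), ← ENNReal.ofReal_mul (by positivity), ← ENNReal.ofReal_mul (by positivity),
        ← ENNReal.ofReal_add, ← ENNReal.ofReal_add (by positivity) (by positivity)]
      · congr 1
        ring
      · have e3 : (1/4 - y) ^ (49/32 : ℝ) = (1/4 - y) ^ (17/32 : ℝ) * (1/4 - y) := by
          rw [show (49/32 : ℝ) = 17/32 + 1 by norm_num, Real.rpow_add hc, Real.rpow_one]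
        have e4 : (1/4 - y) ^ (81/32 : ℝ) = (1/4 - y) ^ (17/32 : ℝ) * (1/4 - y) ^ 2 := by
          rw [show (81/32 : ℝ) = 17/32 + (2:ℕ) by norm_num, Real.rpow_add hc, Real.rpow_natCast]
        have e5 : (1/4 - y) ^ (17/32 : ℝ) - 2 * (16/81) * (1/4 - y) ^ (49/32 : ℝ) + (16/81) ^ 2 * (1/4 - y) ^ (81/32 : ℝ) =
            (1/4 - y) ^ (17/32 : ℝ) * (1 - 16/81 * (1/4 - y)) ^ 2 := by rw [e3, e4]; ring
        rw [e5]
        positivity
      · positivity
    · simp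
  have hint : (∫⁻ y, f y ∂(gam (3/32))) + ENNReal.ofReal (k * (2 * (16/81)) * bt (49/32)) =
      ENNReal.ofReal (k * bt (17/32) + k * (16/81) ^ 2 * bt (81/32)) := by
    have h1 : (∫⁻ y, f y ∂(gam (3/32))) + ∫⁻ y, ENNReal.ofReal (k * (2 * (16/81))) * b (49/32) y ∂(gam (3/32)) =
        ∫⁻ y, (ENNReal.ofReal k * b (17/32) y + ENNReal.ofReal (k * (16/81) ^ 2) * b (81/32) y) ∂(gam (3/32)) := by
      rw [← lintegral_add_right _ ((hbm _).const_mul _)]
      exact lintegral_congr hkey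
    rw [lintegral_const_mul _ (hbm _), lintegral_add_left ((hbm _).const_mul _), lintegral_const_mul _ (hbm _),
      lintegral_const_mul _ (hbm _), hb' _ (by norm_num), hb' _ (by norm_num), hb' _ (by norm_num),
      ← ENNReal.ofReal_mul (by positivity), ← ENNReal.ofReal_mul (by positivity), ← ENNReal.ofReal_mul (by positivity)] at h1
    rw [h1, ENNReal.ofReal_add]
    · exact mul_nonneg hk0.le (hbt _ (by norm_num))
    · exact mul_nonneg (by positivity) (hbt _ (by norm_num))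
  have hB0 : 0 ≤ k * (2 * (16/81)) * bt (49/32) := mul_nonneg (by positivity) (hbt _ (by norm_num))
  have hres : ∫⁻ y, f y ∂(gam (3/32)) = ENNReal.ofReal (k * bt (17/32) + k * (16/81) ^ 2 * bt (81/32)) -
      ENNReal.ofReal (k * (2 * (16/81)) * bt (49/32)) := by
    rw [← hint, ENNReal.add_sub_cancel_right ENNReal.ofReal_ne_top]
  rw [hres, ← ENNReal.ofReal_sub _ hB0]
  refine le_of_eq ?_
  congr 1
  unfold NB
  rw [← hk]
  ring

end Pool.Agent.LibOH30
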