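import Pool.Agent.LibOH30.E0b

set_option autoImplicit false

namespace Pool.Agent.LibOH30

open MeasureTheory Set Filter Topology Complex ProbabilityTheory
open scoped NNReal ENNReal ComplexConjugate
open Pool.Agent.LibZM Pool.Agent.LibM3 Pool.Agent.LibLaw15

/-! ROW EK (MEDIUM). Two Cauchy-Schwarz inequalities on the complete graph with four vertices, `t = (t01, t23, t02, t13, t03, t12)`.
(k4) For fixed `p = t01`, `q = t23` put `f(x,y) = G(p+x+y)`, `g(x,y) = G(q+x+y)`; the inner integral is the four-cycle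
`∫ f(t02,t03) g(t03,t13) f(t13,t12) g(t12,t02) ≤ ∫ f² · ∫ g²` (`∫∫ h(x,z) h(z,x) ≤ ∫∫ h²`, `h = ∫ f(x,y) g(y,z) dy`, `h² ≤ ∫ f² ∫ g²`);
then integrate over `p, q` and use `gam_conv` twice. (cyc) `∫ F(Y0) F(Y1) dt01 = H(t02+t03, t12+t13)`, `∫ F(Y2) F(Y3) dt23 = H(t02+t12, t03+t13)`,
`H(a,b) = ∫ F(a+t) F(b+t) dgam w(t)`; Cauchy-Schwarz in the remaining four variables; both squares are
`∫∫ H(a,b)² dgam(2w)(a) dgam(2w)(b)` by `gam_conv`. (`ENNReal.lintegral_mul_le_Lp_mul_Lq`, or `2ab ≤ a²+b²` and symmetry.) -/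

private lemma q1 {μ : Measure ℝ} [SigmaFinite μ] {a b : ℝ → ℝ → ℝ≥0∞}
    (ha : Measurable (Function.uncurry a)) (hb : Measurable (Function.uncurry b)) :
    ∫⁻ x, a x.1 x.2.2.1 * b x.2.1 x.2.2.2 ∂(μ.prod (μ.prod (μ.prod μ))) =
      (∫⁻ x, ∫⁻ y, a x y ∂μ ∂μ) * (∫⁻ x, ∫⁻ y, b x y ∂μ ∂μ) := by
  have ha1 : ∀ x, Measurable (a x) := fun x => ha.comp (measurable_const.prodMk measurable_id)
  have hb1 : ∀ x, Measurable (b x) := fun x => hb.comp (measurable_const.prodMk measurable_id)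
  have hb2 : Measurable fun y => ∫⁻ v, b y v ∂μ := hb.lintegral_prod_right'
  have ha2 : Measurable fun y => ∫⁻ v, a y v ∂μ := ha.lintegral_prod_right'
  have m0 : Measurable fun x : ℝ × ℝ × ℝ × ℝ => a x.1 x.2.2.1 * b x.2.1 x.2.2.2 := by
    apply Measurable.mul
    · exact ha.comp (measurable_fst.prodMk (measurable_fst.comp (measurable_snd.comp measurable_snd)))
    · exact hb.comp ((measurable_fst.comp measurable_snd).prodMk
        (measurable_snd.comp (measurable_snd.comp measurable_snd)))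
  have h1 : ∀ x, ∫⁻ y, a x y.2.1 * b y.1 y.2.2 ∂(μ.prod (μ.prod μ)) =
      (∫⁻ u, a x u ∂μ) * (∫⁻ x, ∫⁻ y, b x y ∂μ ∂μ) := by
    intro x
    have m1 : Measurable fun y : ℝ × ℝ × ℝ => a x y.2.1 * b y.1 y.2.2 := by
      apply Measurable.mul
      · exact (ha1 x).comp (measurable_fst.comp measurable_snd)
      · exact hb.comp (measurable_fst.prodMk (measurable_snd.comp measurable_snd))
    rw [lintegral_prod _ m1.aemeasurable]
    have h2 : ∀ y, ∫⁻ z, a x z.1 * b y z.2 ∂(μ.prod μ) =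
        (∫⁻ u, a x u ∂μ) * ∫⁻ v, b y v ∂μ := by
      intro y
      exact lintegral_prod_mul (ha1 x).aemeasurable (hb1 y).aemeasurable
    rw [lintegral_congr fun y => h2 y, lintegral_const_mul _ hb2]
  rw [lintegral_prod _ m0.aemeasurable, lintegral_congr fun y => h1 y, lintegral_mul_const _ ha2]

private lemma q2 {μ : Measure ℝ} [SigmaFinite μ] {a b : ℝ → ℝ → ℝ≥0∞}
    (ha : Measurable (Function.uncurry a)) (hb : Measurable (Function.uncurry b)) :
    ∫⁻ x, a x.1 x.2.2.2 * b x.2.1 x.2.2.1 ∂(μ.prod (μ.prod (μ.prod μ))) =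
      (∫⁻ x, ∫⁻ y, a x y ∂μ ∂μ) * (∫⁻ x, ∫⁻ y, b x y ∂μ ∂μ) := by
  have ha1 : ∀ x, Measurable (a x) := fun x => ha.comp (measurable_const.prodMk measurable_id)
  have hb1 : ∀ x, Measurable (b x) := fun x => hb.comp (measurable_const.prodMk measurable_id)
  have hb2 : Measurable fun y => ∫⁻ v, b y v ∂μ := hb.lintegral_prod_right'
  have ha2 : Measurable fun y => ∫⁻ v, a y v ∂μ := ha.lintegral_prod_right'
  have m0 : Measurable fun x : ℝ × ℝ × ℝ × ℝ => a x.1 x.2.2.2 * b x.2.1 x.2.2.1 := by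
    apply Measurable.mul
    · exact ha.comp (measurable_fst.prodMk (measurable_snd.comp (measurable_snd.comp measurable_snd)))
    · exact hb.comp ((measurable_fst.comp measurable_snd).prodMk
        (measurable_fst.comp (measurable_snd.comp measurable_snd)))
  have h1 : ∀ x, ∫⁻ y, a x y.2.2 * b y.1 y.2.1 ∂(μ.prod (μ.prod μ)) =
      (∫⁻ u, a x u ∂μ) * (∫⁻ x, ∫⁻ y, b x y ∂μ ∂μ) := by
    intro x
    have m1 : Measurable fun y : ℝ × ℝ × ℝ => a x y.2.2 * b y.1 y.2.1 := by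
      apply Measurable.mul
      · exact (ha1 x).comp (measurable_snd.comp measurable_snd)
      · exact hb.comp (measurable_fst.prodMk (measurable_fst.comp measurable_snd))
    rw [lintegral_prod _ m1.aemeasurable]
    have h2 : ∀ y, ∫⁻ z, a x z.2 * b y z.1 ∂(μ.prod μ) =
        (∫⁻ u, a x u ∂μ) * ∫⁻ v, b y v ∂μ := by
      intro y
      have := lintegral_prod_mul (μ := μ) (ν := μ) (hb1 y).aemeasurable (ha1 x).aemeasurable
      rw [mul_comm, ← this]
      exact lintegral_congr fun z => mul_comm _ _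
    rw [lintegral_congr fun y => h2 y, lintegral_const_mul _ hb2]
  rw [lintegral_prod _ m0.aemeasurable, lintegral_congr fun y => h1 y, lintegral_mul_const _ ha2]

theorem k4 {w : ℝ} (hw : 0 < w) {G : ℝ → ℝ≥0∞} (hG : Measurable G) :
    ∫⁻ t, ∏ i, G (Yv t i) ∂(gam6 w) ≤ (∫⁻ y, G y ^ 2 ∂(gam (3 * w))) ^ 2 := by
  have hf : ∀ p : ℝ, Measurable (Function.uncurry fun x y : ℝ => G (p + x + y)) := fun p =>
    hG.comp ((measurable_const.add measurable_fst).add measurable_snd)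
  have hf2 : ∀ p : ℝ, Measurable (Function.uncurry fun x y : ℝ => G (p + x + y) ^ 2) := fun p =>
    (hf p).pow_const 2
  set A : ℝ → ℝ≥0∞ := fun p => ∫⁻ x, ∫⁻ y, G (p + x + y) ^ 2 ∂(gam w) ∂(gam w) with hA
  -- the four dimensional Cauchy-Schwarz inequality
  have key : ∀ p q : ℝ, ∫⁻ x, (G (p + x.1 + x.2.2.1) * G (p + x.2.1 + x.2.2.2)) *
      (G (q + x.1 + x.2.2.2) * G (q + x.2.1 + x.2.2.1))
        ∂((gam w).prod ((gam w).prod ((gam w).prod (gam w)))) ≤ A p * A q := by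
    intro p q
    have mF : Measurable fun x : ℝ × ℝ × ℝ × ℝ => G (p + x.1 + x.2.2.1) * G (p + x.2.1 + x.2.2.2) := by
      fun_prop
    have mH : Measurable fun x : ℝ × ℝ × ℝ × ℝ => G (q + x.1 + x.2.2.2) * G (q + x.2.1 + x.2.2.1) := by
      fun_prop
    have hcs := ENNReal.lintegral_mul_le_Lp_mul_Lq
      ((gam w).prod ((gam w).prod ((gam w).prod (gam w)))) Real.HolderConjugate.two_two
      mF.aemeasurable mH.aemeasurable
    have e1 : ∫⁻ x, (G (p + x.1 + x.2.2.1) * G (p + x.2.1 + x.2.2.2)) ^ (2:ℝ)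
        ∂((gam w).prod ((gam w).prod ((gam w).prod (gam w)))) = A p * A p := by
      have := q1 (μ := gam w) (hf2 p) (hf2 p)
      rw [← this]
      refine lintegral_congr fun x => ?_
      rw [ENNReal.rpow_two, mul_pow]
    have e2 : ∫⁻ x, (G (q + x.1 + x.2.2.2) * G (q + x.2.1 + x.2.2.1)) ^ (2:ℝ)
        ∂((gam w).prod ((gam w).prod ((gam w).prod (gam w)))) = A q * A q := by
      have := q2 (μ := gam w) (hf2 q) (hf2 q)
      rw [← this]
      refine lintegral_congr fun x => ?_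
      rw [ENNReal.rpow_two, mul_pow]
    have e3 : ∀ c : ℝ≥0∞, (c * c) ^ (1 / (2:ℝ)) = c := by
      intro c
      rw [← sq, ← ENNReal.rpow_natCast, ← ENNReal.rpow_mul]
      norm_num
    calc _ ≤ _ := hcs
      _ = A p * A q := by rw [e1, e2, e3, e3]
  have hA2 : ∫⁻ p, A p ∂(gam w) = ∫⁻ y, G y ^ 2 ∂(gam (3 * w)) := by
    have hG2 : Measurable fun y => G y ^ 2 := hG.pow_const 2
    have s1 : ∀ p : ℝ, A p = ∫⁻ z, G (p + z) ^ 2 ∂(gam (w + w)) := by
      intro p
      have := gam_conv hw hw (f := fun z => G (p + z) ^ 2) (hG2.comp (measurable_const.add measurable_id))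
      rw [hA, ← this]
      simp only [add_assoc]
    have hww : 0 < w + w := by linarith
    rw [lintegral_congr fun p => s1 p, gam_conv hw hww (f := fun z => G z ^ 2) hG2]
    congr 2
    ring
  have mAll : Measurable fun t : R6 => ∏ i, G (Yv t i) := by
    refine Finset.measurable_prod _ fun i _ => hG.comp ?_
    fin_cases i <;> simp only [Yv] <;> fun_prop
  have hprod : ∀ t : R6, ∏ i, G (Yv t i) = (G (t.1 + t.2.2.1 + t.2.2.2.2.1) * G (t.1 + t.2.2.2.1 + t.2.2.2.2.2)) *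
      (G (t.2.1 + t.2.2.1 + t.2.2.2.2.2) * G (t.2.1 + t.2.2.2.1 + t.2.2.2.2.1)) := by
    intro t
    rw [Fin.prod_univ_four]
    simp only [Yv]
    show G (t.1 + t.2.2.1 + t.2.2.2.2.1) * G (t.1 + t.2.2.2.1 + t.2.2.2.2.2) *
      G (t.2.1 + t.2.2.1 + t.2.2.2.2.2) * G (t.2.1 + t.2.2.2.1 + t.2.2.2.2.1) = _
    ring
  have mAll' : Measurable fun t : R6 => (G (t.1 + t.2.2.1 + t.2.2.2.2.1) * G (t.1 + t.2.2.2.1 + t.2.2.2.2.2)) *
      (G (t.2.1 + t.2.2.1 + t.2.2.2.2.2) * G (t.2.1 + t.2.2.2.1 + t.2.2.2.2.1)) := by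
    have : (fun t : R6 => ∏ i, G (Yv t i)) = _ := funext hprod
    rw [← this]
    exact mAll
  rw [lintegral_congr hprod, gam6, lintegral_prod _ mAll'.aemeasurable]
  have mA : Measurable A := by
    have s1 : ∀ p : ℝ, A p = ∫⁻ z, G (p + z) ^ 2 ∂(gam (w + w)) := by
      intro p
      have := gam_conv hw hw (f := fun z => G (p + z) ^ 2)
        ((hG.pow_const 2).comp (measurable_const.add measurable_id))
      rw [hA, ← this]
      simp only [add_assoc]
    rw [funext s1]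
    have : Measurable (Function.uncurry fun p z : ℝ => G (p + z) ^ 2) :=
      (hG.comp (measurable_fst.add measurable_snd)).pow_const 2
    exact this.lintegral_prod_right'
  calc _ ≤ ∫⁻ p, ∫⁻ q, A p * A q ∂(gam w) ∂(gam w) := by
        refine lintegral_mono fun p => ?_
        have m1 : Measurable fun y : ℝ × ℝ × ℝ × ℝ × ℝ =>
            (G (p + y.2.1 + y.2.2.2.1) * G (p + y.2.2.1 + y.2.2.2.2)) *
              (G (y.1 + y.2.1 + y.2.2.2.2) * G (y.1 + y.2.2.1 + y.2.2.2.1)) :=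
          mAll'.comp (measurable_const.prodMk measurable_id)
        have : ∫⁻ y, (G (p + y.2.1 + y.2.2.2.1) * G (p + y.2.2.1 + y.2.2.2.2)) *
              (G (y.1 + y.2.1 + y.2.2.2.2) * G (y.1 + y.2.2.1 + y.2.2.2.1))
              ∂((gam w).prod ((gam w).prod ((gam w).prod ((gam w).prod (gam w))))) ≤
            ∫⁻ q, A p * A q ∂(gam w) := by
          rw [lintegral_prod _ m1.aemeasurable]
          exact lintegral_mono fun q => key p q
        exact this
    _ = (∫⁻ y, G y ^ 2 ∂(gam (3 * w))) ^ 2 := by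
        have : ∀ p, ∫⁻ q, A p * A q ∂(gam w) = A p * ∫⁻ q, A q ∂(gam w) := fun p =>
          lintegral_const_mul _ mA
        rw [lintegral_congr this, lintegral_mul_const _ mA, hA2, sq]

end Pool.Agent.LibOH30
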