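import Pool.Agent.LibOH30.EB4
import Pool.Agent.LibOH30.EK
import Pool.Agent.LibOH30.GV

set_option autoImplicit false

namespace Pool.Agent.LibOH30

open MeasureTheory Set Filter Topology Complex ProbabilityTheory
open scoped NNReal ENNReal ComplexConjugate
open Pool.Agent.LibZM Pool.Agent.LibM3 Pool.Agent.LibLaw15

/-! ROW EB5 (SHORT/MEDIUM). Numerics for (B): `NB = .4538465` (`bt` by the recursion of Γ: `NB = 2^{-1/32} (1/4)^{5/8} Γ(49/32)/(Γ(13/8) Γ(81/64)²) · R`,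
`R = 1 - 2 (16/81)(1/4)(49/52) + (16/81)² (1/16)(49·81)/(52·84)`), and the conclusion. -/

private lemma bt0 : bt (17/32) = (1/4 : ℝ) ^ (5/8 : ℝ) * (Real.Gamma (49/32) / Real.Gamma (13/8)) := by
  unfold bt
  norm_num

private lemma bt1 : bt (49/32) = bt (17/32) * ((1/4) * (49/52)) := by
  have e1 : (49/32 + 3/32 : ℝ) = 5/8 + 1 := by norm_num
  have e2 : (49/32 + 1 + 3/32 : ℝ) = 13/8 + 1 := by norm_num
  have h4 : (1/4 : ℝ) ^ (5/8 + 1 : ℝ) = (1/4 : ℝ) ^ (5/8 : ℝ) * (1/4) := by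
    rw [Real.rpow_add (by norm_num), Real.rpow_one]
  have g1 := Real.Gamma_add_one (s := (49/32 : ℝ)) (by norm_num)
  have g2 := Real.Gamma_add_one (s := (13/8 : ℝ)) (by norm_num)
  have p2 : Real.Gamma (13/8) ≠ 0 := (Real.Gamma_pos_of_pos (by norm_num)).ne'
  rw [bt0]
  unfold bt
  rw [e2, e1, h4, g1, g2]
  field_simp
  ring

private lemma bt2 : bt (81/32) = bt (17/32) * ((1/16) * ((49 * 81) / (52 * 84))) := by
  have e1 : (81/32 + 3/32 : ℝ) = 5/8 + 2 := by norm_num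
  have e2 : (81/32 + 1 + 3/32 : ℝ) = 13/8 + 1 + 1 := by norm_num
  have e3 : (81/32 + 1 : ℝ) = 49/32 + 1 + 1 := by norm_num
  have h4 : (1/4 : ℝ) ^ (5/8 + 2 : ℝ) = (1/4 : ℝ) ^ (5/8 : ℝ) * (1/16) := by
    rw [Real.rpow_add (by norm_num), Real.rpow_two]; norm_num
  have g1 := Real.Gamma_add_one (s := (49/32 : ℝ)) (by norm_num)
  have g2 := Real.Gamma_add_one (s := (13/8 : ℝ)) (by norm_num)
  have g3 := Real.Gamma_add_one (s := (49/32 + 1 : ℝ)) (by norm_num)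
  have g4 := Real.Gamma_add_one (s := (13/8 + 1 : ℝ)) (by norm_num)
  have p2 : Real.Gamma (13/8) ≠ 0 := (Real.Gamma_pos_of_pos (by norm_num)).ne'
  rw [bt0]
  unfold bt
  rw [e2, e3, e1, h4, g3, g4, g1, g2]
  field_simp
  ring

private lemma NB_eq : NB = (2:ℝ) ^ (-(41/32) : ℝ) *
    (1 - 2 * (16/81) * ((1/4) * (49/52)) + (16/81) ^ 2 * ((1/16) * ((49 * 81) / (52 * 84)))) *
    (Real.Gamma (49/32) / (Real.Gamma (13/8) * Real.Gamma (81/64) ^ 2)) := by
  have h : (2:ℝ) ^ (-(41/32) : ℝ) = (2:ℝ) ^ (-(1/32) : ℝ) * (1/4 : ℝ) ^ (5/8 : ℝ) := by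
    have : (1/4 : ℝ) = (2:ℝ) ^ (-2 : ℝ) := by
      rw [Real.rpow_neg (by norm_num), Real.rpow_two]; norm_num
    rw [this, ← Real.rpow_mul (by norm_num), ← Real.rpow_add (by norm_num)]
    norm_num
  have p2 : Real.Gamma (13/8) ≠ 0 := (Real.Gamma_pos_of_pos (by norm_num)).ne'
  have p3 : Real.Gamma (81/64) ≠ 0 := (Real.Gamma_pos_of_pos (by norm_num)).ne'
  unfold NB
  rw [bt1, bt2, bt0, h]
  field_simp

private lemma two_pow : (2:ℝ) ^ (-(41/32) : ℝ) ≤ 41150/100000 := by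
  have h1 : ((2:ℝ) ^ (-(41/32) : ℝ)) ^ (32 : ℕ) = 1 / 2 ^ 41 := by
    rw [← Real.rpow_natCast, ← Real.rpow_mul (by norm_num)]
    have : (-(41/32) : ℝ) * ((32 : ℕ) : ℝ) = -((41 : ℕ) : ℝ) := by norm_num
    rw [this, Real.rpow_neg (by norm_num), Real.rpow_natCast]
    norm_num
  refine le_of_pow_le_pow_left₀ (n := 32) (by norm_num) (by norm_num) ?_
  rw [h1]
  norm_num

theorem numB : NB ≤ 45450/100000 := by
  rw [NB_eq]
  have h1 := two_pow
  have h0 : 0 < (2:ℝ) ^ (-(41/32) : ℝ) := by positivity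
  have g1 := gv_49_32
  have g2 := gv_13_8
  have g3 := gv_81_64
  have p1 : 0 < Real.Gamma (49/32) := Real.Gamma_pos_of_pos (by norm_num)
  have p2 : 0 < Real.Gamma (13/8) := Real.Gamma_pos_of_pos (by norm_num)
  have p3 : 0 < Real.Gamma (81/64) := Real.Gamma_pos_of_pos (by norm_num)
  have hq : Real.Gamma (49/32) / (Real.Gamma (13/8) * Real.Gamma (81/64) ^ 2) ≤
      (88785/100000) / ((89635/100000) * (90310/100000) ^ 2) := by
    apply div_le_div₀ (by norm_num) g1 (by norm_num)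
    gcongr
  calc (2:ℝ) ^ (-(41/32) : ℝ) *
    (1 - 2 * (16/81) * ((1/4) * (49/52)) + (16/81) ^ 2 * ((1/16) * ((49 * 81) / (52 * 84)))) *
    (Real.Gamma (49/32) / (Real.Gamma (13/8) * Real.Gamma (81/64) ^ 2))
      ≤ (41150/100000) * (1 - 2 * (16/81) * ((1/4) * (49/52)) + (16/81) ^ 2 * ((1/16) * ((49 * 81) / (52 * 84)))) *
        ((88785/100000) / ((89635/100000) * (90310/100000) ^ 2)) := by
        have hR : (0:ℝ) ≤ 1 - 2 * (16/81) * ((1/4) * (49/52)) + (16/81) ^ 2 * ((1/16) * ((49 * 81) / (52 * 84))) := by norm_num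
        have hA := mul_le_mul_of_nonneg_right h1 hR
        exact mul_le_mul hA hq (by positivity) (by norm_num)
    _ ≤ 45450/100000 := by norm_num

theorem rhoB_num : rhoB {x | ∀ i, ZB x i ≤ (Fin.cons 1 fun _ => 1/4 : Fin 5 → ℝ) i} ≤ ENNReal.ofReal (1033/10000) := by
  refine rhoB_le.trans ?_
  have h1 := k4 (w := 1/32) (by norm_num) GB_meas
  have e : (3 * (1/32) : ℝ) = 3/32 := by norm_num
  rw [e] at h1
  have h2 : ∫⁻ y, GB y ^ 2 ∂(gam (3/32)) ≤ ENNReal.ofReal (45450/100000) :=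
    GB_sq.trans (ENNReal.ofReal_le_ofReal numB)
  calc ENNReal.ofReal (1/2) * ∫⁻ t, ∏ i, GB (Yv t i) ∂(gam6 (1/32))
      ≤ ENNReal.ofReal (1/2) * (ENNReal.ofReal (45450/100000)) ^ 2 := by
        gcongr
        exact h1.trans (by gcongr)
    _ = ENNReal.ofReal (1/2 * (45450/100000) ^ 2) := by
        rw [← ENNReal.ofReal_pow (by norm_num), ← ENNReal.ofReal_mul (by norm_num)]
    _ ≤ ENNReal.ofReal (1033/10000) := ENNReal.ofReal_le_ofReal (by norm_num)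

end Pool.Agent.LibOH30
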