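import Pool.Agent.LibOH30.E0

set_option autoImplicit false

namespace Pool.Agent.LibOH30

open MeasureTheory Set Filter Topology Complex ProbabilityTheory
open scoped NNReal ENNReal ComplexConjugate
open Pool.Agent.LibZM Pool.Agent.LibM3 Pool.Agent.LibLaw15

/-! ROW LC (SHORT/MEDIUM). (C): measurability, positivity, Laplace transform (six edges `(s_i+s_j)^{-9/32}`, four loops `(2 s_i)^{-9/64}`). -/

/-- split off the coordinate `0` in a lower integral over a finite product -/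
private lemma lcPiSucc {n : ℕ} {α : Type} [MeasurableSpace α] (μ : Fin (n + 1) → Measure α)
    [∀ i, SigmaFinite (μ i)] (F : (Fin (n + 1) → α) → ℝ≥0∞) (hF : Measurable F) :
    ∫⁻ x, F x ∂(Measure.pi μ)
      = ∫⁻ a, ∫⁻ y : Fin n → α, F (Fin.cons a y) ∂(Measure.pi fun i => μ i.succ) ∂(μ 0) := by
  have hmp := (measurePreserving_piFinSuccAbove (α := fun _ => α) μ 0).symm
  rw [← hmp.lintegral_comp hF]
  have h2 : Measurable fun p : α × (Fin n → α) => F (Fin.cons p.1 p.2) := by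
    apply hF.comp
    rw [measurable_pi_iff]
    intro i
    refine Fin.cases ?_ ?_ i
    · simpa using measurable_fst
    · intro j
      simp only [Fin.cons_succ]
      exact (measurable_pi_apply j).comp measurable_snd
  have h3 : ∀ p : α × (Fin n → α),
      (MeasurableEquiv.piFinSuccAbove (fun _ => α) 0).symm p = (Fin.cons p.1 p.2 : Fin (n+1) → α) := by
    intro p
    rw [MeasurableEquiv.piFinSuccAbove_symm_apply]
    simp [Fin.insertNthEquiv]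
  simp_rw [h3]
  rw [lintegral_prod _ h2.aemeasurable]
  simp only [Fin.zero_succAbove]

private lemma lcFinProd {n : ℕ} {α : Type} [MeasurableSpace α] (μ : Fin n → Measure α)
    [∀ i, SigmaFinite (μ i)] (f : Fin n → α → ℝ≥0∞) (hf : ∀ i, Measurable (f i)) :
    ∫⁻ x : Fin n → α, ∏ i, f i (x i) ∂(Measure.pi μ) = ∏ i, ∫⁻ a, f i a ∂(μ i) := by
  induction n with
  | zero => simp
  | succ n ih =>
    rw [lcPiSucc μ _ (by fun_prop)]
    simp only [Fin.prod_univ_succ, Fin.cons_zero, Fin.cons_succ]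
    have h1 : ∀ a, ∫⁻ y : Fin n → α, f 0 a * ∏ i : Fin n, f i.succ (y i)
        ∂(Measure.pi fun i => μ i.succ) = f 0 a * ∏ i : Fin n, ∫⁻ a, f i.succ a ∂(μ i.succ) := by
      intro a
      rw [lintegral_const_mul _ (by fun_prop), ih (fun i => μ i.succ) (fun i => f i.succ)
        (fun i => hf _)]
    simp_rw [h1]
    rw [lintegral_mul_const _ (hf 0)]

private lemma lcAe {α β : Type} [MeasurableSpace α] [MeasurableSpace β] {μ : Measure α} {ν : Measure β}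
    [SFinite μ] [SFinite ν] {p : α → Prop} {q : β → Prop} (hp : ∀ᵐ x ∂μ, p x) (hq : ∀ᵐ y ∂ν, q y) :
    ∀ᵐ z ∂(μ.prod ν), p z.1 ∧ q z.2 := by
  have h1 : ∀ᵐ z ∂(μ.prod ν), p z.1 := Measure.quasiMeasurePreserving_fst.ae hp
  have h2 : ∀ᵐ z ∂(μ.prod ν), q z.2 := Measure.quasiMeasurePreserving_snd.ae hq
  filter_upwards [h1, h2] with z a b
  exact ⟨a, b⟩

private lemma lcGam6Sigma (w : ℝ) : SigmaFinite (gam6 w) := by
  unfold gam6
  infer_instance

private noncomputable def lcE (c t : ℝ) : ℝ≥0∞ := ENNReal.ofReal (Real.exp (-(c * t)))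

private lemma lcE_meas (c : ℝ) : Measurable (lcE c) := by
  unfold lcE
  fun_prop

private lemma lcE_add (a b : ℝ) : ENNReal.ofReal (Real.exp (a + b)) =
    ENNReal.ofReal (Real.exp a) * ENNReal.ofReal (Real.exp b) := by
  rw [Real.exp_add, ENNReal.ofReal_mul (Real.exp_pos a).le]

private lemma lcSix (w : ℝ) (hw : 0 < w) (c1 c2 c3 c4 c5 c6 : ℝ) (h1 : 0 < c1) (h2 : 0 < c2)
    (h3 : 0 < c3) (h4 : 0 < c4) (h5 : 0 < c5) (h6 : 0 < c6) :
    ∫⁻ t, lcE c1 t.1 * (lcE c2 t.2.1 * (lcE c3 t.2.2.1 * (lcE c4 t.2.2.2.1 *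
      (lcE c5 t.2.2.2.2.1 * lcE c6 t.2.2.2.2.2)))) ∂(gam6 w) =
    ENNReal.ofReal (c1 ^ (-w)) * (ENNReal.ofReal (c2 ^ (-w)) * (ENNReal.ofReal (c3 ^ (-w)) *
      (ENNReal.ofReal (c4 ^ (-w)) * (ENNReal.ofReal (c5 ^ (-w)) * ENNReal.ofReal (c6 ^ (-w)))))) := by
  have m1 := lcE_meas c1
  have m2 := lcE_meas c2
  have m3 := lcE_meas c3
  have m4 := lcE_meas c4
  have m5 := lcE_meas c5
  have m6 := lcE_meas c6
  unfold gam6
  have e5 := lintegral_prod_mul (μ := gam w) (ν := gam w) (f := lcE c5) (g := lcE c6)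
    m5.aemeasurable m6.aemeasurable
  have e4 := lintegral_prod_mul (μ := gam w) (ν := (gam w).prod (gam w)) (f := lcE c4)
    (g := fun z => lcE c5 z.1 * lcE c6 z.2)
    m4.aemeasurable (by fun_prop)
  have e3 := lintegral_prod_mul (μ := gam w) (ν := (gam w).prod ((gam w).prod (gam w))) (f := lcE c3)
    (g := fun z => lcE c4 z.1 * (lcE c5 z.2.1 * lcE c6 z.2.2))
    m3.aemeasurable (by fun_prop)
  have e2 := lintegral_prod_mul (μ := gam w) (ν := (gam w).prod ((gam w).prod ((gam w).prod (gam w))))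
    (f := lcE c2)
    (g := fun z => lcE c3 z.1 * (lcE c4 z.2.1 * (lcE c5 z.2.2.1 * lcE c6 z.2.2.2)))
    m2.aemeasurable (by fun_prop)
  have e1 := lintegral_prod_mul (μ := gam w)
    (ν := (gam w).prod ((gam w).prod ((gam w).prod ((gam w).prod (gam w)))))
    (f := lcE c1)
    (g := fun z => lcE c2 z.1 * (lcE c3 z.2.1 * (lcE c4 z.2.2.1 * (lcE c5 z.2.2.2.1 * lcE c6 z.2.2.2.2))))
    m1.aemeasurable (by fun_prop)
  rw [e1, e2, e3, e4, e5]
  have g1 : ∫⁻ t, lcE c1 t ∂(gam w) = ENNReal.ofReal (c1 ^ (-w)) := gam_lap hw h1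
  have g2 : ∫⁻ t, lcE c2 t ∂(gam w) = ENNReal.ofReal (c2 ^ (-w)) := gam_lap hw h2
  have g3 : ∫⁻ t, lcE c3 t ∂(gam w) = ENNReal.ofReal (c3 ^ (-w)) := gam_lap hw h3
  have g4 : ∫⁻ t, lcE c4 t ∂(gam w) = ENNReal.ofReal (c4 ^ (-w)) := gam_lap hw h4
  have g5 : ∫⁻ t, lcE c5 t ∂(gam w) = ENNReal.ofReal (c5 ^ (-w)) := gam_lap hw h5
  have g6 : ∫⁻ t, lcE c6 t ∂(gam w) = ENNReal.ofReal (c6 ^ (-w)) := gam_lap hw h6
  rw [g1, g2, g3, g4, g5, g6]

private lemma lcFour (w : ℝ) (hw : 0 < w) (s : Fin 4 → ℝ) (hs : ∀ i, 0 < s i) :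
    ∫⁻ y : Fin 4 → ℝ, ∏ i, lcE (2 * s i) (y i) ∂(Measure.pi fun _ : Fin 4 => gam w) =
      ∏ i, ENNReal.ofReal ((2 * s i) ^ (-w)) := by
  rw [lcFinProd (fun _ : Fin 4 => gam w) (fun i => lcE (2 * s i)) (fun i => lcE_meas _)]
  refine Finset.prod_congr rfl fun i _ => ?_
  exact gam_lap hw (by have := hs i; positivity)

private lemma lcRpow {a b : ℝ} (ha : 0 < a) (hb : 0 < b) :
    (a + b) ^ (-(9/32) : ℝ) = (a + b) ^ (-(9/64) : ℝ) * (b + a) ^ (-(9/64) : ℝ) := by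
  rw [add_comm b a, ← Real.rpow_add (by positivity)]
  norm_num

private lemma lcPw (s : Fin 4 → ℝ) (hs : ∀ i, 0 < s i) :
    (∏ i, ∏ j, (s i + s j) ^ (-(alC i * alC j))) =
      ((s 0 + s 1) ^ (-(9/32) : ℝ) * ((s 2 + s 3) ^ (-(9/32) : ℝ) * ((s 0 + s 2) ^ (-(9/32) : ℝ) *
      ((s 1 + s 3) ^ (-(9/32) : ℝ) * ((s 0 + s 3) ^ (-(9/32) : ℝ) * (s 1 + s 2) ^ (-(9/32) : ℝ)))))) *
      ∏ i, (2 * s i) ^ (-(9/64) : ℝ) := by
  have h0 := hs 0
  have h1 := hs 1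
  have h2 := hs 2
  have h3 := hs 3
  have e : ∀ i j : Fin 4, -(alC i * alC j) = (-(9/64) : ℝ) := by
    intro i j
    unfold alC
    norm_num
  simp only [e]
  rw [lcRpow h0 h1, lcRpow h2 h3, lcRpow h0 h2, lcRpow h1 h3, lcRpow h0 h3, lcRpow h1 h2]
  simp only [Fin.prod_univ_four]
  rw [two_mul (s 0), two_mul (s 1), two_mul (s 2), two_mul (s 3)]
  ring

instance rhoC_sigma : SigmaFinite rhoC := by
  unfold rhoC gam6
  infer_instance

theorem ZC_meas : Measurable ZC := by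
  rw [measurable_pi_iff]
  intro i
  fin_cases i <;> simp only [ZC, Yv] <;> fun_prop

theorem ZC_nonneg : ∀ᵐ x ∂rhoC, ∀ i, 0 ≤ ZC x i := by
  have hfst : ∀ᵐ t : R6 ∂(gam6 (9/32)), (0 < t.1 ∧ 0 < t.2.1 ∧ 0 < t.2.2.1 ∧ 0 < t.2.2.2.1 ∧
      0 < t.2.2.2.2.1 ∧ 0 < t.2.2.2.2.2) := by
    unfold gam6
    have g := gam_pos (9/32)
    exact lcAe g (lcAe g (lcAe g (lcAe g (lcAe g g))))
  have hsnd : ∀ᵐ y : Fin 4 → ℝ ∂(Measure.pi fun _ : Fin 4 => gam (9/64)), ∀ i, 0 < y i := by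
    rw [ae_all_iff]
    intro i
    exact (Measure.quasiMeasurePreserving_eval (fun _ : Fin 4 => gam (9/64)) i).ae (gam_pos (9/64))
  have hs6 := lcGam6Sigma (9/32)
  have hall : ∀ᵐ x : OmC ∂rhoC, (0 < x.1.1 ∧ 0 < x.1.2.1 ∧ 0 < x.1.2.2.1 ∧ 0 < x.1.2.2.2.1 ∧
      0 < x.1.2.2.2.2.1 ∧ 0 < x.1.2.2.2.2.2) ∧ ∀ i, 0 < x.2 i := lcAe hfst hsnd
  filter_upwards [hall] with x hx i
  obtain ⟨⟨h1, h2, h3, h4, h5, h6⟩, h7⟩ := hx
  have h8 := h7 i
  fin_cases i <;> simp [ZC, Yv] at h8 ⊢ <;> positivity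

theorem ZC_lap (s : Fin 4 → ℝ) (hs : ∀ i, 0 < s i) : ∫⁻ x, ENNReal.ofReal (Real.exp (-∑ i, s i * ZC x i)) ∂rhoC =
    ENNReal.ofReal (∏ i, ∏ j, (s i + s j) ^ (-(alC i * alC j))) := by
  have hexp : ∀ x : OmC, ENNReal.ofReal (Real.exp (-∑ i, s i * ZC x i)) =
      (lcE (s 0 + s 1) x.1.1 * (lcE (s 2 + s 3) x.1.2.1 * (lcE (s 0 + s 2) x.1.2.2.1 *
      (lcE (s 1 + s 3) x.1.2.2.2.1 * (lcE (s 0 + s 3) x.1.2.2.2.2.1 * lcE (s 1 + s 2) x.1.2.2.2.2.2))))) *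
      ∏ i, lcE (2 * s i) (x.2 i) := by
    intro x
    unfold lcE
    simp only [Fin.prod_univ_four]
    simp only [← ENNReal.ofReal_mul (Real.exp_pos _).le, ← Real.exp_add]
    congr 2
    simp [Fin.sum_univ_four, ZC, Yv]
    ring
  have h0 := hs 0
  have h1 := hs 1
  have h2 := hs 2
  have h3 := hs 3
  have m : ∀ c, Measurable (lcE c) := lcE_meas
  have hs6 := lcGam6Sigma (9/32)
  rw [lintegral_congr hexp]
  have key := lintegral_prod_mul (μ := gam6 (9/32)) (ν := Measure.pi fun _ : Fin 4 => gam (9/64))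
    (f := fun t : R6 => lcE (s 0 + s 1) t.1 * (lcE (s 2 + s 3) t.2.1 * (lcE (s 0 + s 2) t.2.2.1 *
      (lcE (s 1 + s 3) t.2.2.2.1 * (lcE (s 0 + s 3) t.2.2.2.2.1 * lcE (s 1 + s 2) t.2.2.2.2.2)))))
    (g := fun y : Fin 4 → ℝ => ∏ i, lcE (2 * s i) (y i))
    (by
      have m1 := m (s 0 + s 1)
      have m2 := m (s 2 + s 3)
      have m3 := m (s 0 + s 2)
      have m4 := m (s 1 + s 3)
      have m5 := m (s 0 + s 3)
      have m6 := m (s 1 + s 2)
      fun_prop)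
    (by
      exact (Finset.measurable_fun_prod _ fun i _ => (m (2 * s i)).comp (measurable_pi_apply i)).aemeasurable)
  unfold rhoC
  rw [key, lcSix (9/32) (by norm_num) _ _ _ _ _ _ (by positivity) (by positivity) (by positivity)
    (by positivity) (by positivity) (by positivity), lcFour (9/64) (by norm_num) s hs, lcPw s hs]
  rw [← ENNReal.ofReal_prod_of_nonneg (fun i _ => by have := hs i; positivity)]
  rw [← ENNReal.ofReal_mul (by positivity), ← ENNReal.ofReal_mul (by positivity),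
    ← ENNReal.ofReal_mul (by positivity), ← ENNReal.ofReal_mul (by positivity),
    ← ENNReal.ofReal_mul (by positivity), ← ENNReal.ofReal_mul (by positivity)]

end Pool.Agent.LibOH30
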