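import Pool.Agent.LibOH30.E0b
import Pool.Agent.LibOH30.LC

set_option autoImplicit false

namespace Pool.Agent.LibOH30

open MeasureTheory Set Filter Topology Complex ProbabilityTheory
open scoped NNReal ENNReal ComplexConjugate
open Pool.Agent.LibZM Pool.Agent.LibM3 Pool.Agent.LibLaw15

/-! ROW EC2 (SHORT/MEDIUM). (C): integrate the loops. -/

/-- The function at a vertex of (C). -/
noncomputable def FC (y : ℝ) : ℝ≥0∞ :=
  if y ≤ 1/2 then ENNReal.ofReal (((1/2 - y) / 2) ^ (9/64 : ℝ) / Real.Gamma (73/64)) else 0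

theorem FC_meas : Measurable FC := by
  unfold FC
  refine Measurable.ite measurableSet_Iic (ENNReal.measurable_ofReal.comp ?_) measurable_const
  exact (((measurable_const.sub measurable_id).div_const 2).pow_const (9/64 : ℝ)).div_const _

private theorem gam_singleton (w c : ℝ) : gam w {c} = 0 := by
  unfold gam
  exact (withDensity_absolutelyContinuous volume _) (by simp)

private theorem factor_le (y : ℝ) : gam (9/64) {s | 2 * s + y ≤ 1/2} ≤ FC y := by
  unfold FC
  by_cases hy : y ≤ 1/2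
  · rw [if_pos hy]
    have hc : 0 ≤ (1/2 - y) / 2 := by linarith
    have hsub : {s : ℝ | 2 * s + y ≤ 1/2} ⊆ Set.Iio ((1/2 - y) / 2) ∪ {(1/2 - y) / 2} := by
      intro s hs
      simp only [Set.mem_ofPred_eq] at hs
      rcases lt_or_eq_of_le (show s ≤ (1/2 - y) / 2 by linarith) with h | h
      · exact Or.inl h
      · exact Or.inr h
    have h1 : gam (9/64) (Set.Iio ((1/2 - y) / 2)) =
        ENNReal.ofReal (((1/2 - y) / 2) ^ (9/64 : ℝ) / Real.Gamma (73/64)) := by
      have h2 := gam_beta (w := 9/64) (p := 0) (c := (1/2 - y) / 2) (by norm_num) le_rfl hc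
      have h3 : (fun t : ℝ => if t < (1/2 - y) / 2 then ENNReal.ofReal (((1/2 - y) / 2 - t) ^ (0:ℝ)) else 0) =
          (Set.Iio ((1/2 - y) / 2)).indicator 1 := by
        funext t
        by_cases ht : t < (1/2 - y) / 2
        · rw [if_pos ht, Set.indicator_of_mem (show t ∈ Set.Iio ((1/2 - y) / 2) from ht), Real.rpow_zero,
            ENNReal.ofReal_one, Pi.one_apply]
        · rw [if_neg ht, Set.indicator_of_notMem (show t ∉ Set.Iio ((1/2 - y) / 2) from ht)]
      rw [h3, lintegral_indicator_one measurableSet_Iio] at h2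
      rw [h2]
      congr 1
      rw [zero_add, zero_add, Real.Gamma_one, show (1 + 9/64 : ℝ) = 73/64 by norm_num]
      ring
    calc gam (9/64) {s | 2 * s + y ≤ 1/2} ≤ gam (9/64) (Set.Iio ((1/2 - y) / 2) ∪ {(1/2 - y) / 2}) :=
          measure_mono hsub
      _ ≤ gam (9/64) (Set.Iio ((1/2 - y) / 2)) + gam (9/64) {(1/2 - y) / 2} := measure_union_le _ _
      _ = _ := by rw [gam_singleton, add_zero, h1]
  · rw [if_neg hy]
    have h0 : gam (9/64) {t | ¬ 0 < t} = 0 := ae_iff.mp (gam_pos (9/64))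
    refine le_of_eq (measure_mono_null ?_ h0)
    intro s hs
    simp only [Set.mem_ofPred_eq] at hs ⊢
    intro hpos
    apply hy
    linarith

theorem rhoC_le : rhoC {x | ∀ i, ZC x i ≤ 1/2} ≤ ∫⁻ t, ∏ i, FC (Yv t i) ∂(gam6 (9/32)) := by
  have hA : MeasurableSet {x : OmC | ∀ i, ZC x i ≤ 1/2} := by
    have : {x : OmC | ∀ i, ZC x i ≤ 1/2} = ⋂ i, {x : OmC | ZC x i ≤ 1/2} := by
      ext x
      simp
    rw [this]
    exact MeasurableSet.iInter fun i => measurableSet_le ((measurable_pi_apply i).comp ZC_meas) measurable_const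
  unfold rhoC
  rw [Measure.prod_apply hA]
  refine lintegral_mono fun t => ?_
  have hset : Prod.mk t ⁻¹' {x : OmC | ∀ i, ZC x i ≤ 1/2} =
      Set.pi Set.univ (fun i : Fin 4 => {s : ℝ | 2 * s + Yv t i ≤ 1/2}) := by
    ext l
    simp [ZC, Set.mem_pi]
  rw [hset, Measure.pi_pi]
  exact Finset.prod_le_prod (fun _ _ => bot_le) (fun i _ => factor_le (Yv t i))

end Pool.Agent.LibOH30
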