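import Pool.Agent.LibOH30.EC2

set_option autoImplicit false

namespace Pool.Agent.LibOH30

open MeasureTheory Set Filter Topology Complex ProbabilityTheory
open scoped NNReal ENNReal ComplexConjugate
open Pool.Agent.LibZM Pool.Agent.LibM3 Pool.Agent.LibLaw15

/-! ROW EC4 (MEDIUM). The kernel `H(a,b) = ∫ F(a+t) F(b+t) dgam(9/32)` for `0 ≤ a ≤ b ≤ 1/2`, `β = 1/2 - b`: with `z_a = (b-a) + (β-t)`,
the tangent of the concave `z^{9/64}` at `3/8`: `z_a^{9/64} ≤ (3/8)^{9/64} (55/64 + (3/8) z_a)`; `gam_beta` with `p = 9/64` and `p = 73/64`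
(`Γ(137/64)/Γ(155/64) = (73/91) Γ(73/64)/Γ(91/64)`). For `b > 1/2` the kernel is zero. -/

/-- The constant of the kernel bound. -/
noncomputable def HK : ℝ := (2:ℝ) ^ (-(9/32) : ℝ) * (3/8 : ℝ) ^ (9/64 : ℝ) / (Real.Gamma (73/64) * Real.Gamma (91/64))

/-- Tangent of `z^{9/64}` at `3/8`. -/
private theorem tang {z : ℝ} (hz : 0 ≤ z) : z ^ (9/64 : ℝ) ≤ (3/8 : ℝ) ^ (9/64 : ℝ) * (55/64 + 3/8 * z) := by
  have h1 : 0 ≤ z / (3/8) := by positivity
  have h2 := rpow_one_add_le_one_add_mul_self (s := z / (3/8) - 1) (p := 9/64) (by linarith) (by norm_num) (by norm_num)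
  have h3 : z ^ (9/64 : ℝ) = (3/8 : ℝ) ^ (9/64 : ℝ) * (z / (3/8)) ^ (9/64 : ℝ) := by
    rw [← Real.mul_rpow (by norm_num) h1]
    congr 1
    field_simp
  rw [h3]
  refine mul_le_mul_of_nonneg_left ?_ (by positivity)
  have h4 : 1 + (z / (3/8) - 1) = z / (3/8) := by ring
  rw [h4] at h2
  refine h2.trans (le_of_eq ?_)
  ring

/-- Pointwise bound of the real functions. -/
private theorem pw {u v : ℝ} (hu : 0 ≤ u) (hv : 0 ≤ v) :
    ((v + u) / 2) ^ (9/64 : ℝ) / Real.Gamma (73/64) * ((u / 2) ^ (9/64 : ℝ) / Real.Gamma (73/64)) ≤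
      (2:ℝ) ^ (-(9/32) : ℝ) * (3/8 : ℝ) ^ (9/64 : ℝ) / Real.Gamma (73/64) ^ 2 * (55/64 + 3/8 * v) * u ^ (9/64 : ℝ) +
      (2:ℝ) ^ (-(9/32) : ℝ) * (3/8 : ℝ) ^ (9/64 : ℝ) / Real.Gamma (73/64) ^ 2 * (3/8) * u ^ (73/64 : ℝ) := by
  have hG : 0 < Real.Gamma (73/64) := Real.Gamma_pos_of_pos (by norm_num)
  have h1 := tang (z := v + u) (by positivity)
  have e1 : (u:ℝ) ^ (73/64 : ℝ) = u ^ (9/64 : ℝ) * u := by
    rw [show (73/64 : ℝ) = 9/64 + 1 by norm_num, Real.rpow_add_one' hu (by norm_num)]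
  have e2 : ((v + u) / 2) ^ (9/64 : ℝ) = (v + u) ^ (9/64 : ℝ) * (2:ℝ) ^ (-(9/64) : ℝ) := by
    rw [Real.div_rpow (by positivity) (by norm_num), Real.rpow_neg (by norm_num), div_eq_mul_inv]
  have e3 : (u / 2) ^ (9/64 : ℝ) = u ^ (9/64 : ℝ) * (2:ℝ) ^ (-(9/64) : ℝ) := by
    rw [Real.div_rpow hu (by norm_num), Real.rpow_neg (by norm_num), div_eq_mul_inv]
  have e4 : (2:ℝ) ^ (-(9/32) : ℝ) = (2:ℝ) ^ (-(9/64) : ℝ) * (2:ℝ) ^ (-(9/64) : ℝ) := by
    rw [← Real.rpow_add (by norm_num)]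
    norm_num
  have e5 : ((v + u) / 2) ^ (9/64 : ℝ) / Real.Gamma (73/64) * ((u / 2) ^ (9/64 : ℝ) / Real.Gamma (73/64)) =
      (2:ℝ) ^ (-(9/32) : ℝ) / Real.Gamma (73/64) ^ 2 * u ^ (9/64 : ℝ) * (v + u) ^ (9/64 : ℝ) := by
    rw [e2, e3, e4]
    field_simp
  rw [e5]
  calc (2:ℝ) ^ (-(9/32) : ℝ) / Real.Gamma (73/64) ^ 2 * u ^ (9/64 : ℝ) * (v + u) ^ (9/64 : ℝ)
      ≤ (2:ℝ) ^ (-(9/32) : ℝ) / Real.Gamma (73/64) ^ 2 * u ^ (9/64 : ℝ) *
        ((3/8 : ℝ) ^ (9/64 : ℝ) * (55/64 + 3/8 * (v + u))) := by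
        refine mul_le_mul_of_nonneg_left h1 (by positivity)
    _ = _ := by
        rw [e1]
        ring

theorem kern_le {a b : ℝ} (ha : 0 ≤ a) (hab : a ≤ b) (hb : b ≤ 1/2) :
    ∫⁻ t, FC (a + t) * FC (b + t) ∂(gam (9/32)) ≤
      ENNReal.ofReal (HK * (1/2 - b) ^ (27/64 : ℝ) * (55/64 + 3/8 * (b - a) + 219/728 * (1/2 - b))) := by
  have _ := ha
  have hG : 0 < Real.Gamma (73/64) := Real.Gamma_pos_of_pos (by norm_num)
  have hG2 : 0 < Real.Gamma (91/64) := Real.Gamma_pos_of_pos (by norm_num)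
  obtain ⟨β, hβ⟩ : ∃ β, β = 1/2 - b := ⟨_, rfl⟩
  have hβ0 : 0 ≤ β := by linarith
  obtain ⟨K, hK⟩ : ∃ K, K = (2:ℝ) ^ (-(9/32) : ℝ) * (3/8 : ℝ) ^ (9/64 : ℝ) / Real.Gamma (73/64) ^ 2 := ⟨_, rfl⟩
  have hK0 : 0 ≤ K := by
    rw [hK]
    positivity
  have hv : 0 ≤ b - a := by linarith
  have step : ∫⁻ t, FC (a + t) * FC (b + t) ∂(gam (9/32)) ≤
      ∫⁻ t, (ENNReal.ofReal (K * (55/64 + 3/8 * (b - a))) * (if t < β then ENNReal.ofReal ((β - t) ^ (9/64 : ℝ)) else 0) +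
        ENNReal.ofReal (K * (3/8)) * (if t < β then ENNReal.ofReal ((β - t) ^ (73/64 : ℝ)) else 0)) ∂(gam (9/32)) := by
    refine lintegral_mono_ae ?_
    filter_upwards [gam_pos (9/32)] with t ht
    by_cases h : t < β
    · have q1 : 0 ≤ ((1/2 - (a + t)) / 2) ^ (9/64 : ℝ) / Real.Gamma (73/64) :=
        div_nonneg (Real.rpow_nonneg (by linarith) _) hG.le
      rw [if_pos h, if_pos h, FC, FC, if_pos (by linarith), if_pos (by linarith), ← ENNReal.ofReal_mul q1,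
        ← ENNReal.ofReal_mul (by positivity), ← ENNReal.ofReal_mul (by positivity), ← ENNReal.ofReal_add]
      · refine ENNReal.ofReal_le_ofReal ?_
        have h2 := pw (u := β - t) (v := b - a) (by linarith) hv
        rw [← hK] at h2
        have h3 : 1/2 - (a + t) = b - a + (β - t) := by rw [hβ]; ring
        have h4 : 1/2 - (b + t) = β - t := by rw [hβ]; ring
        rw [h3, h4]
        exact h2
      · have : 0 ≤ (β - t) ^ (9/64 : ℝ) := Real.rpow_nonneg (by linarith) _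
        positivity
      · have : 0 ≤ (β - t) ^ (73/64 : ℝ) := Real.rpow_nonneg (by linarith) _
        positivity
    · have h5 : FC (b + t) = 0 := by
        rw [FC]
        split_ifs with h6
        · have h7 : 1/2 - (b + t) = 0 := by
            push Not at h
            linarith
          rw [h7, zero_div, Real.zero_rpow (by norm_num), zero_div, ENNReal.ofReal_zero]
        · rfl
      rw [h5, mul_zero]
      exact zero_le
  refine step.trans ?_
  have hm1 : Measurable fun t : ℝ => if t < β then ENNReal.ofReal ((β - t) ^ (9/64 : ℝ)) else 0 :=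
    Measurable.ite measurableSet_Iio (by fun_prop) measurable_const
  have hm2 : Measurable fun t : ℝ => if t < β then ENNReal.ofReal ((β - t) ^ (73/64 : ℝ)) else 0 :=
    Measurable.ite measurableSet_Iio (by fun_prop) measurable_const
  rw [lintegral_add_left (hm1.const_mul _), lintegral_const_mul _ hm1, lintegral_const_mul _ hm2,
    gam_beta (by norm_num) (by norm_num) hβ0, gam_beta (by norm_num) (by norm_num) hβ0]
  have g1 : Real.Gamma (73/64 + 1) = 73/64 * Real.Gamma (73/64) := Real.Gamma_add_one (by norm_num)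
  have g2 : Real.Gamma (73/64 + 1 + 9/32) = 91/64 * Real.Gamma (91/64) := by
    rw [show (73/64 + 1 + 9/32 : ℝ) = 91/64 + 1 by norm_num, Real.Gamma_add_one (by norm_num)]
  have g3 : Real.Gamma (9/64 + 1) = Real.Gamma (73/64) := by norm_num
  have g4 : Real.Gamma (9/64 + 1 + 9/32) = Real.Gamma (91/64) := by norm_num
  have g5 : β ^ (9/64 + 9/32 : ℝ) = β ^ (27/64 : ℝ) := by norm_num
  have g6 : β ^ (73/64 + 9/32 : ℝ) = β ^ (27/64 : ℝ) * β := by
    rw [show (73/64 + 9/32 : ℝ) = 27/64 + 1 by norm_num, Real.rpow_add_one' hβ0 (by norm_num)]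
  rw [g1, g2, g3, g4, g5, g6, ← ENNReal.ofReal_mul (by positivity), ← ENNReal.ofReal_mul (by positivity),
    ← ENNReal.ofReal_add (by positivity) (by positivity), ← hβ]
  refine ENNReal.ofReal_le_ofReal (le_of_eq ?_)
  rw [HK, hK]
  field_simp
  ring

theorem kern_zero {a b : ℝ} (hb : 1/2 < b) : ∫⁻ t, FC (a + t) * FC (b + t) ∂(gam (9/32)) = 0 := by
  have h : ∀ᵐ t ∂(gam (9/32)), FC (a + t) * FC (b + t) = 0 := by
    filter_upwards [gam_pos (9/32)] with t ht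
    have h1 : FC (b + t) = 0 := by
      rw [FC, if_neg (by linarith)]
    rw [h1, mul_zero]
  rw [lintegral_congr_ae h]
  simp

end Pool.Agent.LibOH30
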