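import Pool.Agent.LibOH30.EC4

set_option autoImplicit false

namespace Pool.Agent.LibOH30

open MeasureTheory Set Filter Topology Complex ProbabilityTheory
open scoped NNReal ENNReal ComplexConjugate
open Pool.Agent.LibZM Pool.Agent.LibM3 Pool.Agent.LibLaw15

/-! ROW EC5 (MEDIUM). The double integral: symmetry (`2 ∬_{a ≤ b}`), `kern_le`, `gam_beta` in `a` (`w = 9/16`, `p = 0, 1, 2`) and in `b`
(`b^{x}` against `gam (9/16)` is a multiple of `gam (9/16 + x)`, then `gam_beta` with `p = 27/32 + l`). Terms `(j, l, cf)`: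
`(0,0,c0²), (1,0,2c0c1), (0,1,2c0c2), (2,0,c1²), (1,1,2c1c2), (0,2,c2²)`, `c0 = 55/64`, `c1 = 3/8`, `c2 = 219/728`; each is
`cf · (j!/(9/16)_{j+1}) · (9/8)_j (59/32)_l/(95/32)_{j+l} · 2^{-(j+l)}` times
`2 HK² Γ(9/8) Γ(59/32)/(Γ(9/16)² Γ(95/32)) · 2^{-63/32}`; the sum of the six rational numbers is `183867661147/103713442560`. -/

/-- The value of the double integral. -/
noncomputable def NC : ℝ := 2 * HK ^ 2 * (Real.Gamma (9/8) * Real.Gamma (59/32) / (Real.Gamma (9/16) ^ 2 * Real.Gamma (95/32))) *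
  (2:ℝ) ^ (-(63/32) : ℝ) * (183867661147/103713442560)

private lemma ec5_meas (w : ℝ) : Measurable fun t => ENNReal.ofReal (cellρ w t) :=
  (measurable_cellρ w).ennreal_ofReal

private lemma ec5_int {w : ℝ} {f : ℝ → ℝ≥0∞} (hf : Measurable f) :
    ∫⁻ x, f x ∂(gam w) = ∫⁻ x, ENNReal.ofReal (cellρ w x) * f x := by
  unfold gam
  rw [lintegral_withDensity_eq_lintegral_mul _ (ec5_meas w) hf]
  rfl

private lemma ec5_pos {w t : ℝ} (ht : 0 < t) : cellρ w t = t ^ (w - 1) / Real.Gamma w := by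
  unfold cellρ
  rw [Set.indicator_of_mem (show t ∈ Ioi (0:ℝ) from ht)]

private lemma ec5_neg {w t : ℝ} (ht : t ≤ 0) : cellρ w t = 0 := by
  unfold cellρ
  rw [Set.indicator_of_notMem (by simpa using ht)]

private lemma ec5_rpow {w c : ℝ} (hw : 0 < w) (hc : 0 ≤ c) {f : ℝ → ℝ≥0∞} (hf : Measurable f) :
    ∫⁻ x, ENNReal.ofReal (x ^ c) * f x ∂(gam w) =
      ENNReal.ofReal (Real.Gamma (w + c) / Real.Gamma w) * ∫⁻ x, f x ∂(gam (w + c)) := by
  rw [ec5_int (f := fun x => ENNReal.ofReal (x ^ c) * f x)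
    ((ENNReal.measurable_ofReal.comp (measurable_id.pow_const c)).mul hf), ec5_int hf,
    ← lintegral_const_mul' _ _ ENNReal.ofReal_ne_top]
  refine lintegral_congr fun x => ?_
  rcases le_or_gt x 0 with hx | hx
  · rw [ec5_neg hx, ec5_neg hx]; simp
  · have hG : 0 < Real.Gamma w := Real.Gamma_pos_of_pos hw
    have hG2 : 0 < Real.Gamma (w + c) := Real.Gamma_pos_of_pos (by linarith)
    have hx1 : 0 < x ^ (w - 1) := Real.rpow_pos_of_pos hx _
    rw [ec5_pos hx, ec5_pos hx, ← mul_assoc, ← mul_assoc, ← ENNReal.ofReal_mul (by positivity),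
      ← ENNReal.ofReal_mul (by positivity)]
    congr 2
    have e : x ^ (w + c - 1) = x ^ (w - 1) * x ^ c := by
      rw [← Real.rpow_add hx]
      congr 1; ring
    rw [e]
    field_simp

private lemma ec5_ne (w c : ℝ) : ∀ᵐ a ∂(gam w), a ≠ c := by
  rw [ae_iff]
  have : {a : ℝ | ¬ a ≠ c} = {c} := by ext a; simp
  rw [this]
  unfold gam
  exact (withDensity_absolutelyContinuous volume _) (by simp)

/-- The kernel of a term. -/
private noncomputable def gT (p q : ℝ) (a b : ℝ) : ℝ≥0∞ :=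
  (if a < b then ENNReal.ofReal ((b - a) ^ p) else 0) * (if b < 1/2 then ENNReal.ofReal ((1/2 - b) ^ q) else 0)

private lemma gT_meas (p q : ℝ) : Measurable fun x : ℝ × ℝ => gT p q x.1 x.2 := by
  unfold gT
  refine Measurable.mul (Measurable.ite (measurableSet_lt measurable_fst measurable_snd)
    (ENNReal.measurable_ofReal.comp ((measurable_snd.sub measurable_fst).pow_const p)) measurable_const)
    (Measurable.ite (measurableSet_lt measurable_snd measurable_const)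
    (ENNReal.measurable_ofReal.comp ((measurable_const.sub measurable_snd).pow_const q)) measurable_const)

private noncomputable def vT (p q : ℝ) : ℝ :=
  Real.Gamma (p + 1) / Real.Gamma (p + 1 + 9/16) * (Real.Gamma (9/16 + (p + 9/16)) / Real.Gamma (9/16)) *
      ((1/2) ^ (q + (9/16 + (p + 9/16))) * (Real.Gamma (q + 1) / Real.Gamma (q + 1 + (9/16 + (p + 9/16)))))

private lemma ec5_term {p q : ℝ} (hp : 0 ≤ p) (hq : 0 ≤ q) :
    ∫⁻ b, ∫⁻ a, gT p q a b ∂(gam (9/16)) ∂(gam (9/16)) = ENNReal.ofReal (vT p q) := by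
  have hG1 : 0 < Real.Gamma (p + 1) := Real.Gamma_pos_of_pos (by linarith)
  have hG2 : 0 < Real.Gamma (p + 1 + 9/16) := Real.Gamma_pos_of_pos (by linarith)
  have hG3 : 0 < Real.Gamma (9/16 + (p + 9/16)) := Real.Gamma_pos_of_pos (by linarith)
  have hG4 : 0 < Real.Gamma (9/16) := Real.Gamma_pos_of_pos (by norm_num)
  have hm : Measurable fun b : ℝ => (if b < 1/2 then ENNReal.ofReal ((1/2 - b) ^ q) else 0 : ℝ≥0∞) :=
    Measurable.ite measurableSet_Iio (ENNReal.measurable_ofReal.comp ((measurable_const.sub measurable_id).pow_const q))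
      measurable_const
  have h1 : ∀ᵐ b ∂(gam (9/16)), ∫⁻ a, gT p q a b ∂(gam (9/16)) = ENNReal.ofReal (b ^ (p + 9/16)) *
      (ENNReal.ofReal (Real.Gamma (p + 1) / Real.Gamma (p + 1 + 9/16)) *
        (if b < 1/2 then ENNReal.ofReal ((1/2 - b) ^ q) else 0)) := by
    filter_upwards [gam_pos (9/16)] with b hb
    unfold gT
    have hma : Measurable fun a : ℝ => (if a < b then ENNReal.ofReal ((b - a) ^ p) else 0 : ℝ≥0∞) :=
      Measurable.ite measurableSet_Iio
        (ENNReal.measurable_ofReal.comp ((measurable_const.sub measurable_id).pow_const p)) measurable_const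
    rw [lintegral_mul_const _ hma, gam_beta (by norm_num) hp hb.le, ENNReal.ofReal_mul (Real.rpow_nonneg hb.le _), mul_assoc]
  rw [lintegral_congr_ae h1, ec5_rpow (by norm_num) (by linarith) (hm.const_mul _), lintegral_const_mul _ hm,
    gam_beta (by linarith) hq (by norm_num), ← ENNReal.ofReal_mul (by positivity), ← ENNReal.ofReal_mul (by positivity)]
  congr 1
  unfold vT
  ring

/-- The powers of `b - a`. -/
private noncomputable def jT : Fin 6 → ℝ := ![0, 1, 0, 2, 1, 0]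

/-- The powers of `1/2 - b`. -/
private noncomputable def lT : Fin 6 → ℝ := ![0, 0, 1, 0, 1, 2]

/-- The coefficients. -/
private noncomputable def cT : Fin 6 → ℝ :=
  ![(55/64)^2, 2 * (55/64) * (3/8), 2 * (55/64) * (219/728), (3/8)^2, 2 * (3/8) * (219/728), (219/728)^2]

private lemma jT0 (k : Fin 6) : 0 ≤ jT k := by fin_cases k <;> norm_num [jT]
private lemma lT0 (k : Fin 6) : 0 ≤ lT k := by fin_cases k <;> norm_num [lT]
private lemma cT0 (k : Fin 6) : 0 ≤ cT k := by fin_cases k <;> norm_num [cT]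

private lemma HK_pos : 0 < HK := by
  unfold HK
  have h1 : 0 < Real.Gamma (73/64) := Real.Gamma_pos_of_pos (by norm_num)
  have h2 : 0 < Real.Gamma (91/64) := Real.Gamma_pos_of_pos (by norm_num)
  positivity

private lemma ec5_pt {a b : ℝ} (ha : 0 < a) (hab : a < b) (hb : b < 1/2) :
    (∫⁻ t, FC (a + t) * FC (b + t) ∂(gam (9/32))) ^ 2 ≤
      ∑ k, ENNReal.ofReal (HK ^ 2 * cT k) * gT (jT k) (27/32 + lT k) a b := by
  have hK := HK_pos
  have hu : 0 < b - a := by linarith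
  have hv : 0 < 1/2 - b := by linarith
  have h1 := kern_le ha.le hab.le hb.le
  have h2 : ∀ k, ENNReal.ofReal (HK ^ 2 * cT k) * gT (jT k) (27/32 + lT k) a b =
      ENNReal.ofReal (HK ^ 2 * cT k * ((b - a) ^ (jT k) * (1/2 - b) ^ (27/32 + lT k))) := by
    intro k
    unfold gT
    rw [if_pos hab, if_pos hb, ← ENNReal.ofReal_mul (Real.rpow_nonneg hu.le _), ← ENNReal.ofReal_mul (mul_nonneg (by positivity) (cT0 k))]
  rw [Finset.sum_congr rfl fun k _ => h2 k, ← ENNReal.ofReal_sum_of_nonneg]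
  swap
  · intro k _
    have := cT0 k
    positivity
  refine (pow_le_pow_left₀ (zero_le) h1 2).trans ?_
  rw [← ENNReal.ofReal_pow (by positivity)]
  refine ENNReal.ofReal_le_ofReal (le_of_eq ?_)
  have e0 : (1/2 - b) ^ (27/32 : ℝ) = ((1/2 - b) ^ (27/64 : ℝ)) ^ 2 := by
    rw [← Real.rpow_natCast, ← Real.rpow_mul hv.le]; norm_num
  have e1 : (1/2 - b) ^ (27/32 + 1 : ℝ) = ((1/2 - b) ^ (27/64 : ℝ)) ^ 2 * (1/2 - b) := by
    rw [Real.rpow_add hv, e0, Real.rpow_one]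
  have e2 : (1/2 - b) ^ (27/32 + 2 : ℝ) = ((1/2 - b) ^ (27/64 : ℝ)) ^ 2 * (1/2 - b) ^ 2 := by
    rw [Real.rpow_add hv, e0, Real.rpow_two]
  rw [Fin.sum_univ_six]
  simp only [jT, lT, cT, Matrix.cons_val_zero, Matrix.cons_val_one, Matrix.cons_val]
  rw [Real.rpow_zero, Real.rpow_one, Real.rpow_two, add_zero, e0, e1, e2]
  ring

private lemma gsucc {x : ℝ} (hx : 0 < x) : Real.Gamma (x + 1) = x * Real.Gamma x := Real.Gamma_add_one hx.ne'

private lemma ec5_sum : ∑ k, HK ^ 2 * cT k * vT (jT k) (27/32 + lT k) = NC / 2 := by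
  have g1 : 0 < Real.Gamma (9/16) := Real.Gamma_pos_of_pos (by norm_num)
  have g2 : 0 < Real.Gamma (9/8) := Real.Gamma_pos_of_pos (by norm_num)
  have g3 : 0 < Real.Gamma (59/32) := Real.Gamma_pos_of_pos (by norm_num)
  have g4 : 0 < Real.Gamma (95/32) := Real.Gamma_pos_of_pos (by norm_num)
  have a1 : Real.Gamma (25/16) = 9/16 * Real.Gamma (9/16) := by
    rw [← gsucc (by norm_num)]; norm_num
  have a2 : Real.Gamma (41/16) = 25/16 * (9/16 * Real.Gamma (9/16)) := by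
    rw [← a1, ← gsucc (by norm_num)]; norm_num
  have a3 : Real.Gamma (57/16) = 41/16 * (25/16 * (9/16 * Real.Gamma (9/16))) := by
    rw [← a2, ← gsucc (by norm_num)]; norm_num
  have b1 : Real.Gamma (17/8) = 9/8 * Real.Gamma (9/8) := by
    rw [← gsucc (by norm_num)]; norm_num
  have b2 : Real.Gamma (25/8) = 17/8 * (9/8 * Real.Gamma (9/8)) := by
    rw [← b1, ← gsucc (by norm_num)]; norm_num
  have c1 : Real.Gamma (91/32) = 59/32 * Real.Gamma (59/32) := by
    rw [← gsucc (by norm_num)]; norm_num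
  have c2 : Real.Gamma (123/32) = 91/32 * (59/32 * Real.Gamma (59/32)) := by
    rw [← c1, ← gsucc (by norm_num)]; norm_num
  have d1 : Real.Gamma (127/32) = 95/32 * Real.Gamma (95/32) := by
    rw [← gsucc (by norm_num)]; norm_num
  have d2 : Real.Gamma (159/32) = 127/32 * (95/32 * Real.Gamma (95/32)) := by
    rw [← d1, ← gsucc (by norm_num)]; norm_num
  have G1 : Real.Gamma 1 = 1 := Real.Gamma_one
  have G2 : Real.Gamma 2 = 1 := Real.Gamma_two
  have G3 : Real.Gamma 3 = 2 := by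
    rw [show (3:ℝ) = 2 + 1 by norm_num, gsucc (by norm_num), G2]; norm_num
  have p0 : (1/2 : ℝ) ^ (63/32 : ℝ) = (2:ℝ) ^ (-(63/32) : ℝ) := by
    rw [one_div, Real.inv_rpow (by norm_num), Real.rpow_neg (by norm_num)]
  have p1 : (1/2 : ℝ) ^ (95/32 : ℝ) = (2:ℝ) ^ (-(63/32) : ℝ) * (1/2) := by
    rw [← p0, show (95/32 : ℝ) = 63/32 + 1 by norm_num, Real.rpow_add (by norm_num), Real.rpow_one]
  have p2 : (1/2 : ℝ) ^ (127/32 : ℝ) = (2:ℝ) ^ (-(63/32) : ℝ) * (1/4) := by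
    rw [← p0, show (127/32 : ℝ) = 63/32 + 2 by norm_num, Real.rpow_add (by norm_num), Real.rpow_two]
    norm_num
  have v00 : vT 0 (27/32 + 0) = 1 / (9/16 * Real.Gamma (9/16)) * (Real.Gamma (9/8) / Real.Gamma (9/16)) *
      ((2:ℝ) ^ (-(63/32) : ℝ) * (Real.Gamma (59/32) / Real.Gamma (95/32))) := by
    unfold vT
    rw [show (0:ℝ) + 1 = 1 by norm_num, show (1:ℝ) + 9/16 = 25/16 by norm_num, show (9/16:ℝ) + (0 + 9/16) = 9/8 by norm_num,
      show (27/32:ℝ) + 0 + 9/8 = 63/32 by norm_num, show (27/32:ℝ) + 0 + 1 = 59/32 by norm_num,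
      show (59/32:ℝ) + 9/8 = 95/32 by norm_num, G1, a1, p0]
  have v10 : vT 1 (27/32 + 0) = 1 / (25/16 * (9/16 * Real.Gamma (9/16))) * (9/8 * Real.Gamma (9/8) / Real.Gamma (9/16)) *
      ((2:ℝ) ^ (-(63/32) : ℝ) * (1/2) * (Real.Gamma (59/32) / (95/32 * Real.Gamma (95/32)))) := by
    unfold vT
    rw [show (1:ℝ) + 1 = 2 by norm_num, show (2:ℝ) + 9/16 = 41/16 by norm_num, show (9/16:ℝ) + (1 + 9/16) = 17/8 by norm_num,
      show (27/32:ℝ) + 0 + 17/8 = 95/32 by norm_num, show (27/32:ℝ) + 0 + 1 = 59/32 by norm_num,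
      show (59/32:ℝ) + 17/8 = 127/32 by norm_num, G2, a2, b1, d1, p1]
  have v01 : vT 0 (27/32 + 1) = 1 / (9/16 * Real.Gamma (9/16)) * (Real.Gamma (9/8) / Real.Gamma (9/16)) *
      ((2:ℝ) ^ (-(63/32) : ℝ) * (1/2) * (59/32 * Real.Gamma (59/32) / (95/32 * Real.Gamma (95/32)))) := by
    unfold vT
    rw [show (0:ℝ) + 1 = 1 by norm_num, show (1:ℝ) + 9/16 = 25/16 by norm_num, show (9/16:ℝ) + (0 + 9/16) = 9/8 by norm_num,
      show (27/32:ℝ) + 1 + 9/8 = 95/32 by norm_num, show (27/32:ℝ) + 1 + 1 = 91/32 by norm_num,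
      show (91/32:ℝ) + 9/8 = 127/32 by norm_num, G1, a1, c1, d1, p1]
  have v20 : vT 2 (27/32 + 0) = 2 / (41/16 * (25/16 * (9/16 * Real.Gamma (9/16)))) *
      (17/8 * (9/8 * Real.Gamma (9/8)) / Real.Gamma (9/16)) *
      ((2:ℝ) ^ (-(63/32) : ℝ) * (1/4) * (Real.Gamma (59/32) / (127/32 * (95/32 * Real.Gamma (95/32))))) := by
    unfold vT
    rw [show (2:ℝ) + 1 = 3 by norm_num, show (3:ℝ) + 9/16 = 57/16 by norm_num, show (9/16:ℝ) + (2 + 9/16) = 25/8 by norm_num,
      show (27/32:ℝ) + 0 + 25/8 = 127/32 by norm_num, show (27/32:ℝ) + 0 + 1 = 59/32 by norm_num,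
      show (59/32:ℝ) + 25/8 = 159/32 by norm_num, G3, a3, b2, d2, p2]
  have v11 : vT 1 (27/32 + 1) = 1 / (25/16 * (9/16 * Real.Gamma (9/16))) * (9/8 * Real.Gamma (9/8) / Real.Gamma (9/16)) *
      ((2:ℝ) ^ (-(63/32) : ℝ) * (1/4) * (59/32 * Real.Gamma (59/32) / (127/32 * (95/32 * Real.Gamma (95/32))))) := by
    unfold vT
    rw [show (27/32:ℝ) + 1 + 1 = 91/32 by norm_num, show (9/16:ℝ) + (1 + 9/16) = 17/8 by norm_num, show (1:ℝ) + 1 = 2 by norm_num,
      show (2:ℝ) + 9/16 = 41/16 by norm_num,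
      show (27/32:ℝ) + 1 + 17/8 = 127/32 by norm_num,
      show (91/32:ℝ) + 17/8 = 159/32 by norm_num, G2, a2, b1, c1, d2, p2]
  have v02 : vT 0 (27/32 + 2) = 1 / (9/16 * Real.Gamma (9/16)) * (Real.Gamma (9/8) / Real.Gamma (9/16)) *
      ((2:ℝ) ^ (-(63/32) : ℝ) * (1/4) * (91/32 * (59/32 * Real.Gamma (59/32)) / (127/32 * (95/32 * Real.Gamma (95/32))))) := by
    unfold vT
    rw [show (0:ℝ) + 1 = 1 by norm_num, show (1:ℝ) + 9/16 = 25/16 by norm_num, show (9/16:ℝ) + (0 + 9/16) = 9/8 by norm_num,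
      show (27/32:ℝ) + 2 + 9/8 = 127/32 by norm_num, show (27/32:ℝ) + 2 + 1 = 123/32 by norm_num,
      show (123/32:ℝ) + 9/8 = 159/32 by norm_num, G1, a1, c2, d2, p2]
  rw [Fin.sum_univ_six]
  simp only [jT, lT, cT, Matrix.cons_val_zero, Matrix.cons_val_one, Matrix.cons_val]
  rw [v00, v10, v01, v20, v11, v02]
  unfold NC
  field_simp
  ring

theorem dbl_le : ∫⁻ a, ∫⁻ b, (∫⁻ t, FC (a + t) * FC (b + t) ∂(gam (9/32))) ^ 2 ∂(gam (9/16)) ∂(gam (9/16)) ≤ ENNReal.ofReal NC := by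
  set H : ℝ → ℝ → ℝ≥0∞ := fun a b => ∫⁻ t, FC (a + t) * FC (b + t) ∂(gam (9/32)) with hH
  have hHm : Measurable (fun x : ℝ × ℝ => H x.1 x.2) := by
    have : Measurable fun z : (ℝ × ℝ) × ℝ => FC (z.1.1 + z.2) * FC (z.1.2 + z.2) :=
      (FC_meas.comp (by fun_prop)).mul (FC_meas.comp (by fun_prop))
    exact this.lintegral_prod_right'
  have hsym : ∀ a b, H a b = H b a := by
    intro a b
    simp only [hH]
    exact lintegral_congr fun t => mul_comm _ _
  set K : ℝ → ℝ → ℝ≥0∞ := fun a b => if a ≤ b then H a b ^ 2 else 0 with hK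
  have hKm : Measurable (fun x : ℝ × ℝ => K x.1 x.2) :=
    Measurable.ite (measurableSet_le measurable_fst measurable_snd) (hHm.pow_const 2) measurable_const
  have h1 : ∀ a b, H a b ^ 2 ≤ K a b + K b a := by
    intro a b
    simp only [hK]
    rcases le_total a b with h | h
    · rw [if_pos h]; exact le_self_add
    · rw [if_pos h, hsym b a]; exact le_add_self
  have h2 : ∫⁻ a, ∫⁻ b, H a b ^ 2 ∂(gam (9/16)) ∂(gam (9/16)) ≤ 2 * ∫⁻ b, ∫⁻ a, K a b ∂(gam (9/16)) ∂(gam (9/16)) := by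
    calc ∫⁻ a, ∫⁻ b, H a b ^ 2 ∂(gam (9/16)) ∂(gam (9/16))
        ≤ ∫⁻ a, ∫⁻ b, (K a b + K b a) ∂(gam (9/16)) ∂(gam (9/16)) :=
          lintegral_mono fun a => lintegral_mono fun b => h1 a b
      _ = ∫⁻ a, ((∫⁻ b, K a b ∂(gam (9/16))) + ∫⁻ b, K b a ∂(gam (9/16))) ∂(gam (9/16)) := by
          refine lintegral_congr fun a => ?_
          exact lintegral_add_left (hKm.comp (measurable_const.prodMk measurable_id)) _
      _ = (∫⁻ a, ∫⁻ b, K a b ∂(gam (9/16)) ∂(gam (9/16))) + ∫⁻ a, ∫⁻ b, K b a ∂(gam (9/16)) ∂(gam (9/16)) :=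
          lintegral_add_left hKm.lintegral_prod_right' _
      _ = (∫⁻ b, ∫⁻ a, K a b ∂(gam (9/16)) ∂(gam (9/16))) + ∫⁻ a, ∫⁻ b, K b a ∂(gam (9/16)) ∂(gam (9/16)) := by
          rw [lintegral_lintegral_swap (f := fun a b => K a b) hKm.aemeasurable]
      _ = _ := (two_mul _).symm
  have h3 : ∫⁻ b, ∫⁻ a, K a b ∂(gam (9/16)) ∂(gam (9/16)) ≤
      ∫⁻ b, ∫⁻ a, ∑ k, ENNReal.ofReal (HK ^ 2 * cT k) * gT (jT k) (27/32 + lT k) a b ∂(gam (9/16)) ∂(gam (9/16)) := by
    refine lintegral_mono_ae ?_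
    filter_upwards [ec5_ne (9/16) (1/2)] with b hb
    refine lintegral_mono_ae ?_
    filter_upwards [gam_pos (9/16), ec5_ne (9/16) b] with a ha hab
    simp only [hK]
    by_cases h : a ≤ b
    · rw [if_pos h]
      rcases lt_or_gt_of_ne hb with hb' | hb'
      · exact ec5_pt ha (lt_of_le_of_ne h hab) hb'
      · rw [show H a b = 0 from kern_zero hb']
        simp
    · rw [if_neg h]; exact zero_le
  have h4 : ∫⁻ b, ∫⁻ a, ∑ k, ENNReal.ofReal (HK ^ 2 * cT k) * gT (jT k) (27/32 + lT k) a b ∂(gam (9/16)) ∂(gam (9/16)) =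
      ENNReal.ofReal (NC / 2) := by
    have hgm : ∀ k, Measurable fun x : ℝ × ℝ => ENNReal.ofReal (HK ^ 2 * cT k) * gT (jT k) (27/32 + lT k) x.1 x.2 :=
      fun k => (gT_meas _ _).const_mul _
    have e1 : ∀ b, ∫⁻ a, ∑ k, ENNReal.ofReal (HK ^ 2 * cT k) * gT (jT k) (27/32 + lT k) a b ∂(gam (9/16)) =
        ∑ k, ENNReal.ofReal (HK ^ 2 * cT k) * ∫⁻ a, gT (jT k) (27/32 + lT k) a b ∂(gam (9/16)) := by
      intro b
      have hk : ∀ k ∈ (Finset.univ : Finset (Fin 6)), Measurable fun a : ℝ =>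
          ENNReal.ofReal (HK ^ 2 * cT k) * gT (jT k) (27/32 + lT k) a b :=
        fun k _ => (hgm k).comp (measurable_id.prodMk measurable_const)
      rw [lintegral_finsetSum _ hk]
      refine Finset.sum_congr rfl fun k _ => ?_
      exact lintegral_const_mul _ ((gT_meas _ _).comp (measurable_id.prodMk measurable_const))
    rw [lintegral_congr e1]
    have hm2 : ∀ k, Measurable fun b : ℝ => ∫⁻ a, gT (jT k) (27/32 + lT k) a b ∂(gam (9/16)) :=
      fun k => (gT_meas _ _).lintegral_prod_left'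
    rw [lintegral_finsetSum _ fun k _ => (hm2 k).const_mul _, ← ec5_sum, ENNReal.ofReal_sum_of_nonneg]
    · refine Finset.sum_congr rfl fun k _ => ?_
      rw [lintegral_const_mul _ (hm2 k), ec5_term (jT0 k) (by have := lT0 k; linarith), ← ENNReal.ofReal_mul]
      exact mul_nonneg (by positivity) (cT0 k)
    · intro k _
      refine mul_nonneg (mul_nonneg (by positivity) (cT0 k)) ?_
      have j := jT0 k
      have l := lT0 k
      unfold vT
      have q1 : 0 < Real.Gamma (jT k + 1) := Real.Gamma_pos_of_pos (by linarith)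
      have q2 : 0 < Real.Gamma (jT k + 1 + 9/16) := Real.Gamma_pos_of_pos (by linarith)
      have q3 : 0 < Real.Gamma (9/16 + (jT k + 9/16)) := Real.Gamma_pos_of_pos (by linarith)
      have q4 : 0 < Real.Gamma (9/16) := Real.Gamma_pos_of_pos (by norm_num)
      have q5 : 0 < Real.Gamma (27/32 + lT k + 1) := Real.Gamma_pos_of_pos (by linarith)
      have q6 : 0 < Real.Gamma (27/32 + lT k + 1 + (9/16 + (jT k + 9/16))) := Real.Gamma_pos_of_pos (by linarith)
      positivity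
  calc ∫⁻ a, ∫⁻ b, H a b ^ 2 ∂(gam (9/16)) ∂(gam (9/16)) ≤ 2 * ENNReal.ofReal (NC / 2) :=
        h2.trans (mul_le_mul_right (h3.trans_eq h4) 2)
    _ = ENNReal.ofReal NC := by
        rw [show (2 : ℝ≥0∞) = ENNReal.ofReal 2 by norm_num, ← ENNReal.ofReal_mul (by norm_num)]
        congr 1
        ring

end Pool.Agent.LibOH30
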