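import Pool.Agent.LibOH30.E0b

set_option autoImplicit false

namespace Pool.Agent.LibOH30

open MeasureTheory Set Filter Topology Complex ProbabilityTheory
open scoped NNReal ENNReal ComplexConjugate
open Pool.Agent.LibZM Pool.Agent.LibM3 Pool.Agent.LibLaw15

/-! ROW EK2 (MEDIUM). The second inequality (cyc) of row EK: `∫ F(Y0) F(Y1) dt01 = H(t02+t03, t12+t13)`,
`∫ F(Y2) F(Y3) dt23 = H(t02+t12, t03+t13)`, `H(a,b) = ∫ F(a+t) F(b+t) dgam w(t)`; Cauchy-Schwarz in the remaining four variables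
(`2ab ≤ a²+b²` and the symmetry `t03 ↔ t12`); then `gam_conv`. -/

theorem cyc {w : ℝ} (hw : 0 < w) {F : ℝ → ℝ≥0∞} (hF : Measurable F) :
    ∫⁻ t, ∏ i, F (Yv t i) ∂(gam6 w) ≤
      ∫⁻ a, ∫⁻ b, (∫⁻ t, F (a + t) * F (b + t) ∂(gam w)) ^ 2 ∂(gam (2 * w)) ∂(gam (2 * w)) := by
  set H : ℝ → ℝ → ℝ≥0∞ := fun a b => ∫⁻ t, F (a + t) * F (b + t) ∂(gam w) with hH
  have hHm : Measurable (fun x : ℝ × ℝ => H x.1 x.2) := by
    have : Measurable fun z : (ℝ × ℝ) × ℝ => F (z.1.1 + z.2) * F (z.1.2 + z.2) :=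
      (hF.comp (by fun_prop)).mul (hF.comp (by fun_prop))
    exact this.lintegral_prod_right'
  have hH2 : Measurable (fun x : ℝ × ℝ => H x.1 x.2 ^ 2) := hHm.pow_const 2
  set J := ∫⁻ a, ∫⁻ b, H a b ^ 2 ∂(gam (2 * w)) ∂(gam (2 * w)) with hJ
  have hww : (2:ℝ) * w = w + w := by ring
  have hcomp : ∀ {β : Type} [MeasurableSpace β] (f g : β → ℝ), Measurable f → Measurable g →
      Measurable fun z => H (f z) (g z) ^ 2 := fun f g hf hg => hH2.comp (hf.prodMk hg)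
  have hcomp1 : ∀ {β : Type} [MeasurableSpace β] (f g : β → ℝ), Measurable f → Measurable g →
      Measurable fun z => H (f z) (g z) := fun f g hf hg => hHm.comp (hf.prodMk hg)
  have c1 : ∫⁻ x, H (x.1 + x.2.2.1) (x.2.1 + x.2.2.2) ^ 2 ∂((gam w).prod ((gam w).prod ((gam w).prod (gam w)))) = J := by
    rw [lintegral_prod _ (hcomp _ _ (by fun_prop) (by fun_prop)).aemeasurable]
    have h1 : ∀ x1 : ℝ, ∫⁻ y, H (x1 + y.2.1) (y.1 + y.2.2) ^ 2 ∂((gam w).prod ((gam w).prod (gam w))) =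
        ∫⁻ x3, ∫⁻ b, H (x1 + x3) b ^ 2 ∂(gam (2 * w)) ∂(gam w) := by
      intro x1
      rw [lintegral_prod _ (hcomp _ _ (by fun_prop) (by fun_prop)).aemeasurable]
      have h2 : ∀ x2 : ℝ, ∫⁻ y, H (x1 + y.1) (x2 + y.2) ^ 2 ∂((gam w).prod (gam w)) =
          ∫⁻ x3, ∫⁻ x4, H (x1 + x3) (x2 + x4) ^ 2 ∂(gam w) ∂(gam w) := by
        intro x2
        rw [lintegral_prod _ (hcomp _ _ (by fun_prop) (by fun_prop)).aemeasurable]
      rw [lintegral_congr h2, lintegral_lintegral_swap]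
      · refine lintegral_congr fun x3 => ?_
        rw [hww]
        exact gam_conv hw hw (f := fun z => H (x1 + x3) z ^ 2) (hcomp _ _ measurable_const measurable_id)
      · have : Measurable fun z : (ℝ × ℝ) × ℝ => H (x1 + z.1.2) (z.1.1 + z.2) ^ 2 := hcomp _ _ (by fun_prop) (by fun_prop)
        exact this.lintegral_prod_right'.aemeasurable
    have h3 : ∀ x1 : ℝ, ∫⁻ y : ℝ × ℝ × ℝ, H ((x1, y).1 + (x1, y).2.2.1) ((x1, y).2.1 + (x1, y).2.2.2) ^ 2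
        ∂((gam w).prod ((gam w).prod (gam w))) = ∫⁻ x3, ∫⁻ b, H (x1 + x3) b ^ 2 ∂(gam (2 * w)) ∂(gam w) := h1
    rw [lintegral_congr h3, hJ]
    have hm : Measurable fun z : ℝ => ∫⁻ b, H z b ^ 2 ∂(gam (2 * w)) := hH2.lintegral_prod_right'
    rw [gam_conv hw hw (f := fun z => ∫⁻ b, H z b ^ 2 ∂(gam (2 * w))) hm, ← hww]
  have c2 : ∫⁻ x, H (x.1 + x.2.2.2) (x.2.1 + x.2.2.1) ^ 2 ∂((gam w).prod ((gam w).prod ((gam w).prod (gam w)))) = J := by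
    rw [lintegral_prod _ (hcomp _ _ (by fun_prop) (by fun_prop)).aemeasurable]
    have h1 : ∀ x1 : ℝ, ∫⁻ y, H (x1 + y.2.2) (y.1 + y.2.1) ^ 2 ∂((gam w).prod ((gam w).prod (gam w))) =
        ∫⁻ x4, ∫⁻ b, H (x1 + x4) b ^ 2 ∂(gam (2 * w)) ∂(gam w) := by
      intro x1
      rw [lintegral_prod _ (hcomp _ _ (by fun_prop) (by fun_prop)).aemeasurable]
      have h2 : ∀ x2 : ℝ, ∫⁻ y, H (x1 + y.2) (x2 + y.1) ^ 2 ∂((gam w).prod (gam w)) =
          ∫⁻ x3, ∫⁻ x4, H (x1 + x4) (x2 + x3) ^ 2 ∂(gam w) ∂(gam w) := by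
        intro x2
        rw [lintegral_prod _ (hcomp _ _ (by fun_prop) (by fun_prop)).aemeasurable]
      have hm1 : Measurable fun z : ℝ => ∫⁻ x4, H (x1 + x4) z ^ 2 ∂(gam w) := by
        have : Measurable fun z : ℝ × ℝ => H (x1 + z.2) z.1 ^ 2 := hcomp _ _ (by fun_prop) (by fun_prop)
        exact this.lintegral_prod_right'
      rw [lintegral_congr h2, gam_conv hw hw (f := fun z => ∫⁻ x4, H (x1 + x4) z ^ 2 ∂(gam w)) hm1, ← hww,
        lintegral_lintegral_swap]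
      have : Measurable fun z : ℝ × ℝ => H (x1 + z.2) z.1 ^ 2 := hcomp _ _ (by fun_prop) (by fun_prop)
      exact this.aemeasurable
    have h3 : ∀ x1 : ℝ, ∫⁻ y : ℝ × ℝ × ℝ, H ((x1, y).1 + (x1, y).2.2.2) ((x1, y).2.1 + (x1, y).2.2.1) ^ 2
        ∂((gam w).prod ((gam w).prod (gam w))) = ∫⁻ x4, ∫⁻ b, H (x1 + x4) b ^ 2 ∂(gam (2 * w)) ∂(gam w) := h1
    rw [lintegral_congr h3, hJ]
    have hm : Measurable fun z : ℝ => ∫⁻ b, H z b ^ 2 ∂(gam (2 * w)) := hH2.lintegral_prod_right'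
    rw [gam_conv hw hw (f := fun z => ∫⁻ b, H z b ^ 2 ∂(gam (2 * w))) hm, ← hww]
  have cs : ∫⁻ x, H (x.1 + x.2.2.1) (x.2.1 + x.2.2.2) * H (x.1 + x.2.2.2) (x.2.1 + x.2.2.1)
      ∂((gam w).prod ((gam w).prod ((gam w).prod (gam w)))) ≤ J := by
    have h := ENNReal.lintegral_mul_le_Lp_mul_Lq ((gam w).prod ((gam w).prod ((gam w).prod (gam w))))
      Real.HolderConjugate.two_two
      (f := fun x : ℝ × ℝ × ℝ × ℝ => H (x.1 + x.2.2.1) (x.2.1 + x.2.2.2))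
      (g := fun x : ℝ × ℝ × ℝ × ℝ => H (x.1 + x.2.2.2) (x.2.1 + x.2.2.1))
      (hcomp1 _ _ (by fun_prop) (by fun_prop)).aemeasurable (hcomp1 _ _ (by fun_prop) (by fun_prop)).aemeasurable
    refine h.trans (le_of_eq ?_)
    simp only [ENNReal.rpow_two]
    rw [c1, c2, ← ENNReal.rpow_add_of_nonneg _ _ (by norm_num) (by norm_num)]
    norm_num
  refine le_trans (le_of_eq ?_) cs
  have hprod : ∀ t : R6, ∏ i, F (Yv t i) = (F (t.1 + t.2.2.1 + t.2.2.2.2.1) * F (t.1 + t.2.2.2.1 + t.2.2.2.2.2)) *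
      (F (t.2.1 + t.2.2.1 + t.2.2.2.2.2) * F (t.2.1 + t.2.2.2.1 + t.2.2.2.2.1)) := by
    intro t
    rw [Fin.prod_univ_four]
    simp only [Yv]
    show F (t.1 + t.2.2.1 + t.2.2.2.2.1) * F (t.1 + t.2.2.2.1 + t.2.2.2.2.2) *
      F (t.2.1 + t.2.2.1 + t.2.2.2.2.2) * F (t.2.1 + t.2.2.2.1 + t.2.2.2.2.1) = _
    ring
  rw [lintegral_congr hprod]
  unfold gam6
  rw [lintegral_prod _ (by fun_prop)]
  have h4 : ∀ p : ℝ, ∫⁻ y : ℝ × ℝ × ℝ × ℝ × ℝ, F (p + y.2.1 + y.2.2.2.1) * F (p + y.2.2.1 + y.2.2.2.2) *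
      (F (y.1 + y.2.1 + y.2.2.2.2) * F (y.1 + y.2.2.1 + y.2.2.2.1)) ∂((gam w).prod ((gam w).prod ((gam w).prod ((gam w).prod (gam w))))) =
      ∫⁻ x : ℝ × ℝ × ℝ × ℝ, F (p + x.1 + x.2.2.1) * F (p + x.2.1 + x.2.2.2) * H (x.1 + x.2.2.2) (x.2.1 + x.2.2.1)
        ∂((gam w).prod ((gam w).prod ((gam w).prod (gam w)))) := by
    intro p
    rw [lintegral_prod _ (by fun_prop), lintegral_lintegral_swap (by fun_prop)]
    refine lintegral_congr fun x => ?_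
    show ∫⁻ q, F (p + x.1 + x.2.2.1) * F (p + x.2.1 + x.2.2.2) * (F (q + x.1 + x.2.2.2) * F (q + x.2.1 + x.2.2.1)) ∂(gam w) = _
    rw [lintegral_const_mul _ (by fun_prop)]
    congr 1
    simp only [hH]
    refine lintegral_congr fun q => ?_
    congr 2 <;> ring
  have h5 : ∀ p : ℝ, ∫⁻ y : ℝ × ℝ × ℝ × ℝ × ℝ, F ((p, y).1 + (p, y).2.2.1 + (p, y).2.2.2.2.1) * F ((p, y).1 + (p, y).2.2.2.1 + (p, y).2.2.2.2.2) *
      (F ((p, y).2.1 + (p, y).2.2.1 + (p, y).2.2.2.2.2) * F ((p, y).2.1 + (p, y).2.2.2.1 + (p, y).2.2.2.2.1))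
        ∂((gam w).prod ((gam w).prod ((gam w).prod ((gam w).prod (gam w))))) =
      ∫⁻ x : ℝ × ℝ × ℝ × ℝ, F (p + x.1 + x.2.2.1) * F (p + x.2.1 + x.2.2.2) * H (x.1 + x.2.2.2) (x.2.1 + x.2.2.1)
        ∂((gam w).prod ((gam w).prod ((gam w).prod (gam w)))) := h4
  have hHm' : Measurable fun x : ℝ × ℝ × ℝ × ℝ => H (x.1 + x.2.2.2) (x.2.1 + x.2.2.1) := hcomp1 _ _ (by fun_prop) (by fun_prop)
  rw [lintegral_congr h5, lintegral_lintegral_swap]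
  · refine lintegral_congr fun x => ?_
    show ∫⁻ p, F (p + x.1 + x.2.2.1) * F (p + x.2.1 + x.2.2.2) * H (x.1 + x.2.2.2) (x.2.1 + x.2.2.1) ∂(gam w) = _
    rw [lintegral_mul_const _ (by fun_prop)]
    congr 1
    simp only [hH]
    refine lintegral_congr fun q => ?_
    congr 2 <;> ring
  · refine Measurable.aemeasurable ?_
    refine Measurable.mul (by fun_prop) (hHm'.comp measurable_snd)

end Pool.Agent.LibOH30
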