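import Pool.Agent.LibOH30.EC5
import Pool.Agent.LibOH30.EK2
import Pool.Agent.LibOH30.GV

set_option autoImplicit false

namespace Pool.Agent.LibOH30

open MeasureTheory Set Filter Topology Complex ProbabilityTheory
open scoped NNReal ENNReal ComplexConjugate
open Pool.Agent.LibZM Pool.Agent.LibM3 Pool.Agent.LibLaw15

/-! ROW EC6 (SHORT/MEDIUM). Numerics for (C): `NC = .1235467`; conclusion with `cyc` (`w = 9/32`). -/

private lemma ecPow {a b p : ℝ} (n : ℕ) (m : ℤ) (ha : 0 < a) (hb : 0 ≤ b) (hn : n ≠ 0) (hp : p * n = m)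
    (h : a ^ m ≤ b ^ n) : a ^ p ≤ b := by
  have h2 : (a ^ p) ^ n ≤ b ^ n := by
    rw [← Real.rpow_natCast, ← Real.rpow_mul ha.le, hp, Real.rpow_intCast]
    exact h
  exact le_of_pow_le_pow_left₀ hn hb h2

private lemma ecA : (2:ℝ) ^ (-(9/32) : ℝ) ≤ 8229/10000 :=
  ecPow 32 (-9) (by norm_num) (by norm_num) (by norm_num) (by norm_num) (by norm_num)

private lemma ecB : (3/8:ℝ) ^ (9/64 : ℝ) ≤ 87117/100000 :=
  ecPow 64 9 (by norm_num) (by norm_num) (by norm_num) (by norm_num) (by norm_num)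

private lemma ecC : (2:ℝ) ^ (-(63/32) : ℝ) ≤ 25549/100000 :=
  ecPow 32 (-63) (by norm_num) (by norm_num) (by norm_num) (by norm_num) (by norm_num)

private lemma ecHK : HK ≤ (8229/10000) * (87117/100000) / ((93595/100000) * (88605/100000)) := by
  have h1 := gv_73_64
  have h2 := gv_91_64
  have h3 := ecA
  have h4 := ecB
  unfold HK
  gcongr

private lemma ecHK0 : 0 ≤ HK := by
  unfold HK
  positivity

theorem numC : NC ≤ 1240/10000 := by
  have h1 := gv_9_8
  have h2 := gv_59_32
  have h3 := gv_9_16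
  have h4 := gv_95_32
  have h5 := ecC
  have h6 := ecHK
  have h7 := ecHK0
  have e : NC ≤ 2 * ((8229/10000) * (87117/100000) / ((93595/100000) * (88605/100000))) ^ 2 *
      ((94200/100000) * (94400/100000) / ((158150/100000) ^ 2 * (194300/100000))) *
      (25549/100000) * (183867661147/103713442560) := by
    unfold NC
    gcongr
  refine e.trans ?_
  norm_num

theorem rhoC_num : rhoC {x | ∀ i, ZC x i ≤ 1/2} ≤ ENNReal.ofReal (1240/10000) := by
  have h1 := rhoC_le
  have h2 := cyc (w := 9/32) (by norm_num) FC_meas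
  have e : (2:ℝ) * (9/32) = 9/16 := by norm_num
  rw [e] at h2
  exact (h1.trans (h2.trans dbl_le)).trans (ENNReal.ofReal_le_ofReal numC)

end Pool.Agent.LibOH30
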