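import Pool.Agent.LibOH30.Defs

set_option autoImplicit false

namespace Pool.Agent.LibOH30

open MeasureTheory Set Filter Topology Complex ProbabilityTheory
open scoped NNReal ENNReal ComplexConjugate
open Pool.Agent.LibZM Pool.Agent.LibM3 Pool.Agent.LibLaw15

/-! ROW P1 (SHORT/MEDIUM). Gap of logarithms and the Gaussian integral of a character. (`X < Y`: `log (Y/X) ≥ 1/Y`, and
`Y ≤ 2 √(XY)` when `Y ≤ 4X`; otherwise `log (Y/X) ≥ log 4 ≥ 1`.) The integral: `LibLaw15.char_int_le` computes the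
characteristic function of the Gaussian (see its proof in LibLaw15/L1.lean). -/

private lemma p1_lt {X Y : ℕ} (hX : 1 ≤ X) (h : X < Y) :
    min 1 (1 / (2 * √((X:ℝ) * Y))) ≤ Real.log Y - Real.log X := by
  have hX0 : (0:ℝ) < X := by exact_mod_cast hX
  have hY0 : (0:ℝ) < Y := by exact_mod_cast (hX.trans h.le)
  rcases le_or_gt (Y:ℝ) (4 * X) with h4 | h4
  · have h1 : 1 / (Y:ℝ) ≤ Real.log Y - Real.log X := l1_log hX h le_rfl
    have h2 : (Y:ℝ) ≤ 2 * √((X:ℝ) * Y) := by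
      have h3 : √((Y:ℝ) ^ 2) ≤ √(2 ^ 2 * ((X:ℝ) * Y)) := by
        apply Real.sqrt_le_sqrt
        nlinarith
      rw [Real.sqrt_sq hY0.le, Real.sqrt_mul (by positivity), Real.sqrt_sq (by norm_num)] at h3
      exact h3
    exact (min_le_right _ _).trans ((one_div_le_one_div_of_le hY0 h2).trans h1)
  · have h1 : Real.log 4 ≤ Real.log Y - Real.log X := by
      rw [← Real.log_div hY0.ne' hX0.ne']
      apply Real.log_le_log (by norm_num)
      rw [le_div_iff₀ hX0]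
      exact h4.le
    have h2 : (1:ℝ) ≤ Real.log 4 := by
      have h3 : Real.log 4 = 2 * Real.log 2 := by
        rw [show (4:ℝ) = 2 ^ 2 by norm_num, Real.log_pow]
        norm_num
      have := Real.log_two_gt_d9
      rw [h3]
      linarith
    exact (min_le_left _ _).trans (h2.trans h1)

theorem gap {X Y : ℕ} (hX : 1 ≤ X) (hY : 1 ≤ Y) (h : X ≠ Y) :
    min 1 (1 / (2 * √((X:ℝ) * Y))) ≤ |Real.log X - Real.log Y| := by
  rcases lt_or_gt_of_ne h with h1 | h1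
  · rw [abs_sub_comm]
    exact (p1_lt hX h1).trans (le_abs_self _)
  · have h2 := p1_lt hY h1
    rw [mul_comm (Y:ℝ) X] at h2
    exact h2.trans (le_abs_self _)

theorem char_gap (u : ℝ) (v : ℝ≥0) {X Y : ℕ} (hX : 1 ≤ X) (hY : 1 ≤ Y) (h : X ≠ Y) :
    ‖∫ t, cexp (((t * (Real.log X - Real.log Y) : ℝ) : ℂ) * I) ∂(gaussianReal u v)‖ ≤
      Real.exp (-(v : ℝ) / 2 * min 1 (1 / (4 * ((X:ℝ) * Y)))) := by
  have h0 : Real.toNNReal ((Real.sqrt v) ^ 2) = v := by
    rw [Real.sq_sqrt (NNReal.coe_nonneg v), Real.toNNReal_coe]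
  have h1 := e2_char u (H := Real.sqrt v) (Real.log X - Real.log Y)
  rw [h0] at h1
  rw [h1, Real.sq_sqrt (NNReal.coe_nonneg v)]
  apply Real.exp_le_exp.mpr
  have hX0 : (0:ℝ) < X := by exact_mod_cast hX
  have hY0 : (0:ℝ) < Y := by exact_mod_cast hY
  have h2 : min 1 (1 / (4 * ((X:ℝ) * Y))) ≤ (Real.log X - Real.log Y) ^ 2 := by
    rw [← sq_abs (Real.log X - Real.log Y)]
    have h3 := gap hX hY h
    have h4 : (0:ℝ) ≤ min 1 (1 / (2 * √((X:ℝ) * Y))) := by positivity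
    refine le_trans ?_ (pow_le_pow_left₀ h4 h3 2)
    have h5 : (1 / (2 * √((X:ℝ) * Y))) ^ 2 = 1 / (4 * ((X:ℝ) * Y)) := by
      rw [div_pow, mul_pow, Real.sq_sqrt (by positivity)]
      norm_num
    rcases min_cases (1:ℝ) (1 / (2 * √((X:ℝ) * Y))) with ⟨e, _⟩ | ⟨e, _⟩
    · rw [e]
      norm_num
    · rw [e, h5]
      exact min_le_right _ _
  have h6 := mul_le_mul_of_nonneg_left h2 (NNReal.coe_nonneg v)
  have h7 : (v:ℝ) * min 1 (1 / (4 * ((X:ℝ) * Y))) ≤ (v:ℝ) * (Real.log X - Real.log Y) ^ 2 := h6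
  have h8 : -(v : ℝ) / 2 * min 1 (1 / (4 * ((X:ℝ) * Y))) = -((v:ℝ) * min 1 (1 / (4 * ((X:ℝ) * Y)))) / 2 := by ring
  rw [h8]
  linarith

end Pool.Agent.LibOH30
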