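import Pool.Agent.LibOH30.A2
import Pool.Agent.LibOH30.A0
import Pool.Agent.LibOH30.P1

set_option autoImplicit false

namespace Pool.Agent.LibOH30

open MeasureTheory Set Filter Topology Complex ProbabilityTheory
open scoped NNReal ENNReal ComplexConjugate
open Pool.Agent.LibZM Pool.Agent.LibM3 Pool.Agent.LibLaw15

/-! ROW P2 (MEDIUM). The full Gaussian mean of `XR · (m/n)^{it}`, total height `< 2`. `XR_expand`; the term of `x` is
`co (AB)^{-1/2} (mB/(nA))^{it}`; if `mB = nA` then `m = n = 1`, `A = B` (coprimality), otherwise `char_gap` with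
`XY ≤ m n T^{∑ θ}`, `vw T = T²/(log T)^{3/2}`: `exp(-c T^{2-∑θ}/(log T)^{3/2})` times the number of terms (`≤ T^4`) times
`co ≤ ∏ (m_i n_i) ≤ T^2` (`tau a n ≤ tau 1 n = 1` for `a ≤ 1`, or any polynomial bound). -/

private lemma p2_term {A B m n : ℕ} (hA : 1 ≤ A) (hB : 1 ≤ B) (hm : 1 ≤ m) (hn : 1 ≤ n) (t : ℝ) :
    ((A : ℂ) ^ (-crit t) * (B : ℂ) ^ (-(1 - crit t))) * chr m n t =
      (((√((A:ℝ) * B))⁻¹ : ℝ) : ℂ) *
        cexp (((t * (Real.log ((m * B : ℕ) : ℝ) - Real.log ((n * A : ℕ) : ℝ)) : ℝ) : ℂ) * I) := by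
  have hA0 : (0:ℝ) < A := by exact_mod_cast hA
  have hB0 : (0:ℝ) < B := by exact_mod_cast hB
  have hm0 : (0:ℝ) < m := by exact_mod_cast hm
  have hn0 : (0:ℝ) < n := by exact_mod_cast hn
  have hAc : (A:ℂ) ≠ 0 := by exact_mod_cast hA0.ne'
  have hBc : (B:ℂ) ≠ 0 := by exact_mod_cast hB0.ne'
  have hs : (√((A:ℝ) * B))⁻¹ = Real.exp (-(Real.log A + Real.log B) / 2) := by
    rw [← Real.log_mul hA0.ne' hB0.ne', Real.sqrt_eq_rpow, Real.rpow_def_of_pos (by positivity), ← Real.exp_neg]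
    congr 1
    ring
  rw [hs, Complex.cpow_def_of_ne_zero hAc, Complex.cpow_def_of_ne_zero hBc, ← Complex.natCast_log,
    ← Complex.natCast_log, Complex.ofReal_exp]
  unfold chr
  rw [← Complex.exp_add, ← Complex.exp_add, ← Complex.exp_add]
  congr 1
  push_cast
  rw [show Real.log ((m:ℝ) * B) = Real.log m + Real.log B from Real.log_mul hm0.ne' hB0.ne',
    show Real.log ((n:ℝ) * A) = Real.log n + Real.log A from Real.log_mul hn0.ne' hA0.ne']
  unfold crit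
  push_cast
  ring

private lemma p2_int (u : ℝ) (v : ℝ≥0) (c : ℝ) :
    Integrable (fun t : ℝ => cexp (((t * c : ℝ) : ℂ) * I)) (gaussianReal u v) := by
  refine Integrable.of_bound (C := 1) (Continuous.aestronglyMeasurable (by fun_prop)) ?_
  refine Eventually.of_forall fun t => ?_
  rw [Complex.norm_exp_ofReal_mul_I]

private lemma p2_tau {a : ℝ} (ha : 0 ≤ a) (ha1 : a ≤ 1) {n : ℕ} (hn : 1 ≤ n) : tau a n ≤ 1 :=
  (tau_mono ha ha1 n).trans (tau_one_apply (by omega)).le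

private lemma p2_co {ι : Type*} [Fintype ι] [DecidableEq ι] {α : ι → ℝ} (hα : ∀ i, 0 ≤ α i) (hα1 : ∀ i, α i ≤ 1)
    {q : ℕ} {N : ι → ℕ} {x : ι → ℕ × ℕ} (hx : x ∈ arr q N) : co α x ≤ 1 := by
  unfold co
  refine Finset.prod_le_one (fun i _ => mul_nonneg (tau_nonneg (hα i) _) (tau_nonneg (hα i) _)) fun i _ => ?_
  have h := Fintype.mem_piFinset.mp hx i
  have h2 : 1 ≤ (x i).1 ∧ 1 ≤ (x i).2 := by
    have h3 := (Finset.mem_filter.mp h).1
    rw [Finset.mem_product, Finset.mem_Icc, Finset.mem_Icc] at h3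
    exact ⟨h3.1.1, h3.2.1⟩
  exact mul_le_one₀ (p2_tau (hα i) (hα1 i) h2.1) (tau_nonneg (hα i) _) (p2_tau (hα i) (hα1 i) h2.2)

private lemma p2_card {ι : Type*} [Fintype ι] [DecidableEq ι] (q : ℕ) (N : ι → ℕ) :
    ((arr q N).card : ℝ) ≤ (∏ i, (N i : ℝ)) ^ 2 := by
  have h : (arr q N).card ≤ ∏ i, (N i * N i) := by
    unfold arr
    rw [Fintype.card_piFinset]
    refine Finset.prod_le_prod' fun i _ => ?_
    refine (Finset.card_filter_le _ _).trans ?_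
    rw [Finset.card_product, Nat.card_Icc]
    simp
  have h2 : ((arr q N).card : ℝ) ≤ ((∏ i, (N i * N i) : ℕ) : ℝ) := by exact_mod_cast h
  refine h2.trans (le_of_eq ?_)
  push_cast
  rw [Finset.prod_mul_distrib, sq]

/-- The main identity: diagonal plus the off-diagonal terms. -/
private lemma p2_bound {ι : Type*} [Fintype ι] [DecidableEq ι] {α : ι → ℝ} (hα : ∀ i, 0 ≤ α i) (hα1 : ∀ i, α i ≤ 1)
    (q : ℕ) (N : ι → ℕ) {m n : ℕ} (hm : 1 ≤ m) (hn : 1 ≤ n) (hmn : Nat.Coprime m n)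
    (hq : ∀ h : ℕ, Nat.Coprime h q → Nat.Coprime h m ∧ Nat.Coprime h n) (u : ℝ) (v : ℝ≥0) {E : ℝ}
    (hE : ∀ X Y : ℕ, 1 ≤ X → 1 ≤ Y → X ≠ Y → X * Y ≤ m * n * ∏ i, N i →
      ‖∫ t, cexp (((t * (Real.log X - Real.log Y) : ℝ) : ℂ) * I) ∂(gaussianReal u v)‖ ≤ E) (hE0 : 0 ≤ E) :
      ‖(∫ t, ((XR α q N t : ℝ) : ℂ) * chr m n t ∂(gaussianReal u v)) -
        (if m = 1 ∧ n = 1 then ((DS α q N : ℝ) : ℂ) else 0)‖ ≤ (∏ i, (N i : ℝ)) ^ 2 * E := by
  set f : (ι → ℕ × ℕ) → ℝ → ℂ := fun x t => ((co α x * (√((An x:ℝ) * Bn x))⁻¹ : ℝ) : ℂ) *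
    cexp (((t * (Real.log ((m * Bn x : ℕ) : ℝ) - Real.log ((n * An x : ℕ) : ℝ)) : ℝ) : ℂ) * I) with hf
  have h1 : ∀ t, ((XR α q N t : ℝ) : ℂ) * chr m n t = ∑ x ∈ arr q N, f x t := by
    intro t
    rw [XR_expand, Finset.sum_mul]
    refine Finset.sum_congr rfl fun x hx => ?_
    obtain ⟨hA, hB, -, -, -⟩ := arr_props hx
    rw [mul_assoc, p2_term hA hB hm hn t, hf]
    push_cast
    ring
  have hint : ∀ x ∈ arr q N, Integrable (f x) (gaussianReal u v) := by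
    intro x _
    exact (p2_int u v _).const_mul _
  have h2 : (∫ t, ((XR α q N t : ℝ) : ℂ) * chr m n t ∂(gaussianReal u v)) =
      ∑ x ∈ arr q N, ∫ t, f x t ∂(gaussianReal u v) := by
    rw [← integral_finset_sum _ hint]
    exact integral_congr_ae (Eventually.of_forall h1)
  have h3 : (if m = 1 ∧ n = 1 then ((DS α q N : ℝ) : ℂ) else 0) =
      ∑ x ∈ arr q N, if m * Bn x = n * An x then ((co α x * (√((An x:ℝ) * Bn x))⁻¹ : ℝ) : ℂ) else 0 := by
    by_cases h : m = 1 ∧ n = 1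
    · rw [if_pos h]
      unfold DS
      push_cast
      refine Finset.sum_congr rfl fun x hx => ?_
      obtain ⟨hA, hB, -, -, -⟩ := arr_props hx
      rw [h.1, h.2, one_mul, one_mul]
      by_cases hAB : An x = Bn x
      · rw [if_pos hAB, if_pos hAB.symm, ← hAB, Real.sqrt_mul_self (by positivity)]
        push_cast
        rw [div_eq_mul_inv]
      · rw [if_neg hAB, if_neg (fun h' => hAB h'.symm), Complex.ofReal_zero]
    · rw [if_neg h]
      symm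
      refine Finset.sum_eq_zero fun x hx => if_neg fun heq => h ?_
      obtain ⟨hA, hB, hAq, hBq, -⟩ := arr_props hx
      have hmA : m ∣ An x := by
        have : m ∣ n * An x := ⟨Bn x, heq.symm⟩
        exact hmn.dvd_of_dvd_mul_left this
      have hnB : n ∣ Bn x := by
        have : n ∣ m * Bn x := ⟨An x, heq⟩
        exact hmn.symm.dvd_of_dvd_mul_left this
      exact ⟨Nat.Coprime.eq_one_of_dvd (hq _ hAq).1.symm hmA, Nat.Coprime.eq_one_of_dvd (hq _ hBq).2.symm hnB⟩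
  rw [h2, h3, ← Finset.sum_sub_distrib]
  refine (norm_sum_le _ _).trans ?_
  have h4 : ∀ x ∈ arr q N, ‖(∫ t, f x t ∂(gaussianReal u v)) -
      (if m * Bn x = n * An x then ((co α x * (√((An x:ℝ) * Bn x))⁻¹ : ℝ) : ℂ) else 0)‖ ≤ E := by
    intro x hx
    obtain ⟨hA, hB, -, -, hAB⟩ := arr_props hx
    have h5 : (∫ t, f x t ∂(gaussianReal u v)) = ((co α x * (√((An x:ℝ) * Bn x))⁻¹ : ℝ) : ℂ) *
        ∫ t, cexp (((t * (Real.log ((m * Bn x : ℕ) : ℝ) - Real.log ((n * An x : ℕ) : ℝ)) : ℝ) : ℂ) * I)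
          ∂(gaussianReal u v) := by
      rw [hf]
      exact integral_const_mul _ _
    rw [h5]
    by_cases h : m * Bn x = n * An x
    · rw [if_pos h, h]
      simp only [sub_self, mul_zero, Complex.ofReal_zero, zero_mul, Complex.exp_zero]
      rw [integral_const, probReal_univ, one_smul, mul_one, sub_self, norm_zero]
      exact hE0
    · rw [if_neg h, sub_zero, norm_mul]
      have h6 : ‖((co α x * (√((An x:ℝ) * Bn x))⁻¹ : ℝ) : ℂ)‖ ≤ 1 := by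
        rw [Complex.norm_real, Real.norm_eq_abs, abs_of_nonneg (mul_nonneg (co_nonneg hα x) (by positivity))]
        refine mul_le_one₀ (p2_co hα hα1 hx) (by positivity) ?_
        apply inv_le_one_of_one_le₀
        rw [Real.one_le_sqrt]
        exact_mod_cast Nat.mul_pos hA hB
      have h7 := hE (m * Bn x) (n * An x) (Nat.mul_pos hm hB) (Nat.mul_pos hn hA) h (by
        calc m * Bn x * (n * An x) = m * n * (An x * Bn x) := by ring
          _ ≤ m * n * ∏ i, N i := Nat.mul_le_mul_left _ hAB)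
      calc _ ≤ 1 * E := mul_le_mul h6 h7 (norm_nonneg _) zero_le_one
        _ = E := one_mul E
  refine (Finset.sum_le_sum h4).trans ?_
  rw [Finset.sum_const, nsmul_eq_mul]
  exact mul_le_mul_of_nonneg_right (p2_card q N) hE0

private lemma p2_grow {δ : ℝ} (hδ : 0 < δ) (C : ℝ) (hC : 0 < C) :
    ∀ᶠ T : ℝ in atTop, C * Real.log T ≤ T ^ δ / (Real.log T) ^ (3/2 : ℝ) := by
  have h := (isLittleO_log_rpow_rpow_atTop (s := δ) (5/2 : ℝ) hδ).bound (show (0:ℝ) < 1 / C by positivity)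
  filter_upwards [h, eventually_gt_atTop (Real.exp 1)] with T hT hT1
  have hT0 : 0 < T := (Real.exp_pos 1).trans hT1
  have hl : 1 < Real.log T := by
    rw [Real.lt_log_iff_exp_lt hT0]
    exact hT1
  have hl0 : 0 < Real.log T := by linarith
  rw [Real.norm_eq_abs, Real.norm_eq_abs, abs_of_pos (Real.rpow_pos_of_pos hl0 _),
    abs_of_pos (Real.rpow_pos_of_pos hT0 _)] at hT
  rw [le_div_iff₀ (Real.rpow_pos_of_pos hl0 _), mul_assoc]
  have h2 : Real.log T * Real.log T ^ (3/2 : ℝ) = Real.log T ^ (5/2 : ℝ) := by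
    rw [show (5/2 : ℝ) = 1 + 3/2 by norm_num, Real.rpow_add hl0, Real.rpow_one]
  rw [h2]
  calc C * Real.log T ^ (5/2 : ℝ) ≤ C * (1 / C * T ^ δ) := mul_le_mul_of_nonneg_left hT hC.le
    _ = T ^ δ := by field_simp

theorem pure_mean (η : ℝ) {ι : Type*} [Fintype ι] [DecidableEq ι] {α : ι → ℝ} (hα : ∀ i, 0 ≤ α i) (hα1 : ∀ i, α i ≤ 1)
    {θ : ι → ℝ} (hθ : ∀ i, 0 ≤ θ i) (hθ1 : ∑ i, θ i < 2) (q : ℕ) {m n : ℕ} (hm : 1 ≤ m) (hn : 1 ≤ n) (hmn : Nat.Coprime m n)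
    (hq : ∀ h : ℕ, Nat.Coprime h q → Nat.Coprime h m ∧ Nat.Coprime h n) :
    ∀ᶠ P : ℝ × ℝ in Fl η,
      ‖(∫ t, ((XR α q (fun i => ⌊P.1 ^ θ i⌋₊) t : ℝ) : ℂ) * chr m n t ∂(gaussianReal P.2 (vw P.1))) -
        (if m = 1 ∧ n = 1 then ((DS α q (fun i => ⌊P.1 ^ θ i⌋₊) : ℝ) : ℂ) else 0)‖ ≤ 1 := by
  rw [Fl_iff]
  have hmn0 : (0:ℝ) < (m:ℝ) * n := by
    have : 0 < m * n := Nat.mul_pos hm hn
    exact_mod_cast this
  have hg := p2_grow (δ := 2 - ∑ i, θ i) (by linarith) (32 * ((m:ℝ) * n)) (by positivity)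
  have hg2 := p2_grow (δ := 2) (by norm_num) 8 (by norm_num)
  filter_upwards [hg, hg2, eventually_gt_atTop (Real.exp 1)] with T hT hT2 hT1 u _ _
  have hT0 : 0 < T := (Real.exp_pos 1).trans hT1
  have hl : 1 < Real.log T := by
    rw [Real.lt_log_iff_exp_lt hT0]
    exact hT1
  have hl0 : 0 < Real.log T := by linarith
  have hTone : 1 ≤ T := by
    have := Real.add_one_le_exp (1:ℝ)
    linarith
  have hv : ((vw T : ℝ≥0) : ℝ) = T ^ (2:ℝ) / (Real.log T) ^ (3/2 : ℝ) := by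
    unfold vw Hw
    rw [Real.coe_toNNReal _ (sq_nonneg _), div_pow, ← Real.rpow_natCast ((Real.log T) ^ (3/4:ℝ)) 2,
      ← Real.rpow_mul hl0.le, ← Real.rpow_natCast T 2]
    norm_num
  have hprod : (∏ i, ((⌊T ^ θ i⌋₊ : ℕ) : ℝ)) ≤ T ^ (∑ i, θ i) := by
    rw [Real.rpow_sum_of_pos hT0]
    exact Finset.prod_le_prod (fun i _ => Nat.cast_nonneg _) fun i _ => Nat.floor_le (Real.rpow_nonneg hT0.le _)
  have hS0 : 0 ≤ ∑ i, θ i := Finset.sum_nonneg fun i _ => hθ i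
  have hE : ∀ X Y : ℕ, 1 ≤ X → 1 ≤ Y → X ≠ Y → X * Y ≤ m * n * ∏ i, ⌊T ^ θ i⌋₊ →
      ‖∫ t, cexp (((t * (Real.log X - Real.log Y) : ℝ) : ℂ) * I) ∂(gaussianReal u (vw T))‖ ≤
        Real.exp (-(4 * Real.log T)) := by
    intro X Y hX hY hXY hle
    refine (char_gap u (vw T) hX hY hXY).trans (Real.exp_le_exp.mpr ?_)
    rw [hv]
    have hXY0 : (0:ℝ) < (X:ℝ) * Y := by
      have : 0 < X * Y := Nat.mul_pos hX hY
      exact_mod_cast this
    have hle' : (X:ℝ) * Y ≤ (m:ℝ) * n * T ^ (∑ i, θ i) := by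
      have h1 : ((X * Y : ℕ) : ℝ) ≤ ((m * n * ∏ i, ⌊T ^ θ i⌋₊ : ℕ) : ℝ) := by exact_mod_cast hle
      push_cast at h1
      exact h1.trans (mul_le_mul_of_nonneg_left hprod hmn0.le)
    have hTS : 0 < T ^ (∑ i, θ i) := Real.rpow_pos_of_pos hT0 _
    have hv0 : 0 < T ^ (2:ℝ) / (Real.log T) ^ (3/2 : ℝ) := by positivity
    have hkey : 8 * Real.log T ≤ T ^ (2:ℝ) / (Real.log T) ^ (3/2 : ℝ) * min 1 (1 / (4 * ((X:ℝ) * Y))) := by
      rcases min_cases (1:ℝ) (1 / (4 * ((X:ℝ) * Y))) with ⟨h, -⟩ | ⟨h, -⟩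
      · rw [h, mul_one]
        exact hT2
      · rw [h]
        have h3 : 1 / (4 * ((m:ℝ) * n * T ^ (∑ i, θ i))) ≤ 1 / (4 * ((X:ℝ) * Y)) := by
          apply one_div_le_one_div_of_le (by positivity)
          linarith
        refine le_trans ?_ (mul_le_mul_of_nonneg_left h3 hv0.le)
        rw [Real.rpow_sub hT0] at hT
        have h4 : T ^ (2:ℝ) / (Real.log T) ^ (3/2 : ℝ) * (1 / (4 * ((m:ℝ) * n * T ^ (∑ i, θ i)))) =
            (T ^ (2:ℝ) / T ^ (∑ i, θ i) / (Real.log T) ^ (3/2 : ℝ)) / (4 * ((m:ℝ) * n)) := by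
          field_simp
        rw [h4, le_div_iff₀ (by positivity)]
        linarith
    have h5 : -(T ^ (2:ℝ) / (Real.log T) ^ (3/2 : ℝ)) / 2 * min 1 (1 / (4 * ((X:ℝ) * Y))) =
        -((T ^ (2:ℝ) / (Real.log T) ^ (3/2 : ℝ) * min 1 (1 / (4 * ((X:ℝ) * Y)))) / 2) := by ring
    rw [h5]
    linarith
  refine (p2_bound hα hα1 q (fun i => ⌊T ^ θ i⌋₊) hm hn hmn hq u (vw T) hE (Real.exp_pos _).le).trans ?_
  have h6 : (∏ i, ((⌊T ^ θ i⌋₊ : ℕ) : ℝ)) ^ 2 ≤ Real.exp (4 * Real.log T) := by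
    have h7 : T ^ (∑ i, θ i) ≤ T ^ (2:ℝ) := Real.rpow_le_rpow_of_exponent_le hTone hθ1.le
    have h8 : Real.exp (4 * Real.log T) = (T ^ (2:ℝ)) ^ 2 := by
      rw [Real.rpow_def_of_pos hT0, ← Real.exp_nat_mul]
      congr 1
      push_cast
      ring
    rw [h8]
    exact pow_le_pow_left₀ (Finset.prod_nonneg fun i _ => Nat.cast_nonneg _) (hprod.trans h7) 2
  calc (∏ i, ((⌊T ^ θ i⌋₊ : ℕ) : ℝ)) ^ 2 * Real.exp (-(4 * Real.log T)) ≤
      Real.exp (4 * Real.log T) * Real.exp (-(4 * Real.log T)) :=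
        mul_le_mul_of_nonneg_right h6 (Real.exp_pos _).le
    _ = 1 := by rw [← Real.exp_add]; simp

end Pool.Agent.LibOH30
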