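import Pool.Agent.LibOH30.P2

set_option autoImplicit false

namespace Pool.Agent.LibOH30

open MeasureTheory Set Filter Topology Complex ProbabilityTheory
open scoped NNReal ENNReal ComplexConjugate
open Pool.Agent.LibZM Pool.Agent.LibM3 Pool.Agent.LibLaw15

/-! ROW P3 (MEDIUM). Equidistribution under a nonnegative `XR`: template `LibLaw15.E4` (`law_six`), `equi_meas` with `V = 1`, `pure_mean`,
`mF_xt`, `mnP`. -/

private lemma P3_cpow_le {n : ℕ} (hn : 1 ≤ n) {s : ℂ} (hs : s.re ≤ 0) : ‖(n : ℂ) ^ s‖ ≤ 1 := by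
  rw [Complex.norm_natCast_cpow_of_pos (by omega)]
  exact Real.rpow_le_one_of_one_le_of_nonpos (by exact_mod_cast hn) hs

private lemma P3_bound {ι : Type*} [Fintype ι] [DecidableEq ι] {α : ι → ℝ} (hα : ∀ i, 0 ≤ α i) (q : ℕ) (N : ι → ℕ) (t : ℝ) :
    |XR α q N t| ≤ ∑ x ∈ arr q N, co α x := by
  have h1 : |XR α q N t| = ‖((XR α q N t : ℝ) : ℂ)‖ := by
    rw [Complex.norm_real, Real.norm_eq_abs]
  rw [h1, XR_expand]
  refine (norm_sum_le _ _).trans (Finset.sum_le_sum fun x hx => ?_)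
  obtain ⟨hA, hB, -⟩ := arr_props hx
  have hc := co_nonneg hα x
  rw [norm_mul, norm_mul, Complex.norm_real, Real.norm_eq_abs, abs_of_nonneg hc]
  have e1 : ‖(An x : ℂ) ^ (-crit t)‖ ≤ 1 := P3_cpow_le hA (by simp [crit])
  have e2 : ‖(Bn x : ℂ) ^ (-(1 - crit t))‖ ≤ 1 := P3_cpow_le hB (by simp [crit]; norm_num)
  have e3 : ‖(An x : ℂ) ^ (-crit t)‖ * ‖(Bn x : ℂ) ^ (-(1 - crit t))‖ ≤ 1 :=
    mul_le_one₀ e1 (norm_nonneg _) e2
  exact mul_le_of_le_one_right hc e3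

private lemma P3_int {ι : Type*} [Fintype ι] [DecidableEq ι] {α : ι → ℝ} (hα : ∀ i, 0 ≤ α i) (q : ℕ) (N : ι → ℕ)
    (u : ℝ) (v : ℝ≥0) : Integrable (fun t => XR α q N t) (gaussianReal u v) := by
  refine Integrable.mono' (g := fun _ => ∑ x ∈ arr q N, co α x) (integrable_const _)
    (XR_cont α q N).aestronglyMeasurable (Eventually.of_forall fun t => ?_)
  rw [Real.norm_eq_abs]
  exact P3_bound hα q N t

private lemma P3_chr_one (t : ℝ) : chr 1 1 t = 1 := by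
  simp [chr]

theorem law_c (η : ℝ) {r : ℕ} {p : Fin r → ℕ} (hp : ∀ i, (p i).Prime) (hinj : Function.Injective p)
    {ι : Type*} [Fintype ι] [DecidableEq ι] {α : ι → ℝ} (hα : ∀ i, 0 ≤ α i) (hα1 : ∀ i, α i ≤ 1)
    {θ : ι → ℝ} (hθ : ∀ i, 0 ≤ θ i) (hθ1 : ∑ i, θ i < 2) {w : Tor r → ℝ} (hw : Continuous w)
    (h0 : ∀ T t : ℝ, 0 ≤ XR α (qP p) (fun i => ⌊T ^ θ i⌋₊) t) {B : ℝ}
    (hB : ∀ᶠ T : ℝ in atTop, DS α (qP p) (fun i => ⌊T ^ θ i⌋₊) ≤ B * (Real.log T) ^ (9/4 : ℝ)) :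
    Tendsto (fun P : ℝ × ℝ => ((∫ t, XR α (qP p) (fun i => ⌊P.1 ^ θ i⌋₊) t * w (xt p t) ∂(gaussianReal P.2 (vw P.1))) -
      DS α (qP p) (fun i => ⌊P.1 ^ θ i⌋₊) * ∫ x, w x ∂(muT r)) / (Real.log P.1) ^ (9/4 : ℝ)) (Fl η) (𝓝 0) := by
  have hlog : Tendsto (fun P : ℝ × ℝ => Real.log P.1) (Fl η) atTop := Real.tendsto_log_atTop.comp (Fl_fst η)
  have hNm : Tendsto (fun P : ℝ × ℝ => (Real.log P.1) ^ (9/4 : ℝ)) (Fl η) atTop := (tendsto_rpow_atTop (by norm_num)).comp hlog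
  have hup := (Fl_fst η).eventually hB
  have hD0 : ∀ P : ℝ × ℝ, 0 ≤ DS α (qP p) (fun i => ⌊P.1 ^ θ i⌋₊) := fun P => DS_nonneg hα _ _
  have hgi : ∀ P : ℝ × ℝ, Integrable (fun t => XR α (qP p) (fun i => ⌊P.1 ^ θ i⌋₊) t) (gaussianReal P.2 (vw P.1)) :=
    fun P => P3_int hα _ _ _ _
  have hze : ∀ᶠ P : ℝ × ℝ in Fl η, |(∫ t, XR α (qP p) (fun i => ⌊P.1 ^ θ i⌋₊) t ∂(gaussianReal P.2 (vw P.1))) -
      DS α (qP p) (fun i => ⌊P.1 ^ θ i⌋₊)| ≤ 1 := by
    filter_upwards [pure_mean η hα hα1 hθ hθ1 (qP p) (m := 1) (n := 1) le_rfl le_rfl (Nat.coprime_one_left 1)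
      (fun h _ => ⟨Nat.coprime_one_right h, Nat.coprime_one_right h⟩)] with P h2
    simp only [P3_chr_one, mul_one, and_self, if_true] at h2
    have e2 : ∫ t, ((XR α (qP p) (fun i => ⌊P.1 ^ θ i⌋₊) t : ℝ) : ℂ) ∂(gaussianReal P.2 (vw P.1)) =
        ((∫ t, XR α (qP p) (fun i => ⌊P.1 ^ θ i⌋₊) t ∂(gaussianReal P.2 (vw P.1)) : ℝ) : ℂ) := integral_ofReal
    rw [e2, ← Complex.ofReal_sub, Complex.norm_real, Real.norm_eq_abs] at h2
    exact h2
  have hmain := equi_meas (r := r) (l := Fl η) (ξ := xt p) (xt_continuous p) (μ := fun P => gaussianReal P.2 (vw P.1))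
    (g := fun P t => XR α (qP p) (fun i => ⌊P.1 ^ θ i⌋₊) t) (fun P t => h0 P.1 t) (Eventually.of_forall hgi)
    (V := fun _ => (1:ℝ)) continuous_const
    (κ := fun P => ((DS α (qP p) (fun i => ⌊P.1 ^ θ i⌋₊) : ℝ) : ℂ))
    (Nm := fun P => (Real.log P.1) ^ (9/4 : ℝ)) (hNm.eventually_gt_atTop 0) (B := B + 1)
    (by
      filter_upwards [hup, hze, hNm.eventually_ge_atTop 1] with P h1 h2 h3
      have h4 := (abs_le.mp h2).2
      nlinarith)
    (by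
      filter_upwards [hup, hNm.eventually_ge_atTop 1] with P h1 h3
      rw [Complex.norm_real, Real.norm_eq_abs, abs_of_nonneg (hD0 P)]
      nlinarith)
    (by
      intro a
      rcases eq_or_ne a 0 with rfl | ha
      · refine e4_small ?_ hNm
        filter_upwards [hze] with P h2
        rw [e4_char_zero, mul_one]
        have e1 : ∀ t, ((XR α (qP p) (fun i => ⌊P.1 ^ θ i⌋₊) t : ℝ) : ℂ) * UnitAddTorus.mFourier (0 : Fin r → ℤ) (xt p t) =
            ((XR α (qP p) (fun i => ⌊P.1 ^ θ i⌋₊) t : ℝ) : ℂ) := fun t => by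
          simp [UnitAddTorus.mFourier]
        simp_rw [e1]
        have e2 : ∫ t, ((XR α (qP p) (fun i => ⌊P.1 ^ θ i⌋₊) t : ℝ) : ℂ) ∂(gaussianReal P.2 (vw P.1)) =
            ((∫ t, XR α (qP p) (fun i => ⌊P.1 ^ θ i⌋₊) t ∂(gaussianReal P.2 (vw P.1)) : ℝ) : ℂ) := integral_ofReal
        rw [e2, ← Complex.ofReal_sub, Complex.norm_real, Real.norm_eq_abs]
        exact h2
      · refine e4_small ?_ hNm
        obtain ⟨hm, hn, hmn, hne, hco⟩ := mnP hp hinj a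
        have hne' := hne ha
        filter_upwards [pure_mean η hα hα1 hθ hθ1 (qP p) hm hn hmn hco] with P h2
        have h3 : ¬ (mP p a = 1 ∧ nP p a = 1) := fun h => hne' (h.1.trans h.2.symm)
        rw [if_neg h3, sub_zero] at h2
        rw [e4_char p ha, mul_zero, sub_zero]
        simp_rw [mF_xt hp a]
        exact h2) hw
  have hre := (Complex.continuous_re.tendsto 0).comp hmain
  rw [Complex.zero_re] at hre
  refine hre.congr fun P => ?_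
  simp only [Function.comp_apply, mul_one]
  rw [← Complex.ofReal_mul, ← Complex.ofReal_sub, ← Complex.ofReal_div, Complex.ofReal_re]

end Pool.Agent.LibOH30
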