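import Pool.Agent.LibOH30.Defs

set_option autoImplicit false

namespace Pool.Agent.LibOH30

open MeasureTheory Set Filter Topology Complex ProbabilityTheory
open scoped NNReal ENNReal ComplexConjugate
open Pool.Agent.LibZM Pool.Agent.LibM3 Pool.Agent.LibLaw15

/-! ROW W1 (SHORT/MEDIUM). Hölder on a window: `|ζ|² |s M| f w = (|ζ|³ w)^{1/2} (|ζ|² s⁴ f w)^{1/4} (M⁴ f³ w)^{1/4}` pointwise (`f, w ≥ 0`),
two Cauchy-Schwarz inequalities for the measure restricted to the window (all functions continuous, the window compact). -/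

private lemma w1_cs {μ : Measure ℝ} [IsFiniteMeasure μ] {K : Set ℝ} (hK : IsCompact K) {a b : ℝ → ℝ} (ha : Continuous a)
    (hb : Continuous b) : (∫ t in K, a t * b t ∂μ) ^ 2 ≤ (∫ t in K, a t ^ 2 ∂μ) * ∫ t in K, b t ^ 2 ∂μ := by
  have hi : ∀ {g : ℝ → ℝ}, Continuous g → Integrable g (μ.restrict K) := fun hg =>
    hg.continuousOn.integrableOn_compact hK
  have h := discrim_le_zero (K := ℝ) (a := ∫ t in K, a t ^ 2 ∂μ) (b := 2 * ∫ t in K, a t * b t ∂μ)
    (c := ∫ t in K, b t ^ 2 ∂μ) (fun x => by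
      have e : (∫ t in K, a t ^ 2 ∂μ) * (x * x) + 2 * (∫ t in K, a t * b t ∂μ) * x + ∫ t in K, b t ^ 2 ∂μ =
          ∫ t in K, (a t * x + b t) ^ 2 ∂μ := by
        have e1 : (fun t => (a t * x + b t) ^ 2) = fun t => (x * x) * a t ^ 2 + (2 * x) * (a t * b t) + b t ^ 2 := by
          funext t; ring
        have i1 : Integrable (fun t => (x * x) * a t ^ 2) (μ.restrict K) := hi (by fun_prop)
        have i2 : Integrable (fun t => (2 * x) * (a t * b t)) (μ.restrict K) := hi (by fun_prop)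
        have i3 : Integrable (fun t => b t ^ 2) (μ.restrict K) := hi (by fun_prop)
        have i12 : Integrable (fun t => (x * x) * a t ^ 2 + (2 * x) * (a t * b t)) (μ.restrict K) := hi (by fun_prop)
        rw [e1, integral_add i12 i3, integral_add i1 i2, integral_const_mul, integral_const_mul]
        ring
      rw [e]
      exact integral_nonneg fun t => sq_nonneg _)
  unfold discrim at h
  nlinarith

theorem holder4 {μ : Measure ℝ} [IsFiniteMeasure μ] {K : Set ℝ} (hK : IsCompact K) {z s M f w : ℝ → ℝ} (hz : Continuous z)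
    (hs : Continuous s) (hM : Continuous M) (hf : Continuous f) (hw : Continuous w) (hz0 : ∀ t, 0 ≤ z t) (hf0 : ∀ t, 0 ≤ f t)
    (hw0 : ∀ t, 0 ≤ w t) :
    (∫ t in K, z t ^ 2 * |s t * M t| * (f t * w t) ∂μ) ^ 2 ≤
      (∫ t in K, z t ^ 3 * w t ∂μ) * √((∫ t in K, z t ^ 2 * s t ^ 4 * (f t * w t) ∂μ) * ∫ t in K, M t ^ 4 * (f t ^ 3 * w t) ∂μ) := by
  have ha : Continuous fun t => √(z t ^ 3 * w t) := ((hz.pow 3).mul hw).sqrt
  have hb : Continuous fun t => √(z t * (s t ^ 2 * M t ^ 2) * (f t ^ 2 * w t)) :=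
    ((hz.mul ((hs.pow 2).mul (hM.pow 2))).mul ((hf.pow 2).mul hw)).sqrt
  have hc : Continuous fun t => √(z t ^ 2 * s t ^ 4 * (f t * w t)) :=
    (((hz.pow 2).mul (hs.pow 4)).mul (hf.mul hw)).sqrt
  have hd : Continuous fun t => √(M t ^ 4 * (f t ^ 3 * w t)) := ((hM.pow 4).mul ((hf.pow 3).mul hw)).sqrt
  have h1 := w1_cs (μ := μ) hK ha hb
  have h2 := w1_cs (μ := μ) hK hc hd
  have pa : ∀ t, 0 ≤ z t ^ 3 * w t := fun t => mul_nonneg (pow_nonneg (hz0 t) 3) (hw0 t)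
  have pb : ∀ t, 0 ≤ z t * (s t ^ 2 * M t ^ 2) * (f t ^ 2 * w t) := fun t =>
    mul_nonneg (mul_nonneg (hz0 t) (mul_nonneg (sq_nonneg _) (sq_nonneg _))) (mul_nonneg (sq_nonneg _) (hw0 t))
  have pc : ∀ t, 0 ≤ z t ^ 2 * s t ^ 4 * (f t * w t) := fun t =>
    mul_nonneg (mul_nonneg (sq_nonneg _) (by positivity)) (mul_nonneg (hf0 t) (hw0 t))
  have pd : ∀ t, 0 ≤ M t ^ 4 * (f t ^ 3 * w t) := fun t =>
    mul_nonneg (by positivity) (mul_nonneg (pow_nonneg (hf0 t) 3) (hw0 t))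
  have e1 : (fun t => √(z t ^ 3 * w t) * √(z t * (s t ^ 2 * M t ^ 2) * (f t ^ 2 * w t))) =
      fun t => z t ^ 2 * |s t * M t| * (f t * w t) := by
    funext t
    rw [← Real.sqrt_mul (pa t)]
    have e : z t ^ 3 * w t * (z t * (s t ^ 2 * M t ^ 2) * (f t ^ 2 * w t)) =
        (z t ^ 2 * |s t * M t| * (f t * w t)) ^ 2 := by
      rw [mul_pow, mul_pow, sq_abs]; ring
    rw [e, Real.sqrt_sq]
    exact mul_nonneg (mul_nonneg (sq_nonneg _) (abs_nonneg _)) (mul_nonneg (hf0 t) (hw0 t))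
  have e2 : (fun t => √(z t ^ 2 * s t ^ 4 * (f t * w t)) * √(M t ^ 4 * (f t ^ 3 * w t))) =
      fun t => z t * (s t ^ 2 * M t ^ 2) * (f t ^ 2 * w t) := by
    funext t
    rw [← Real.sqrt_mul (pc t)]
    have e : z t ^ 2 * s t ^ 4 * (f t * w t) * (M t ^ 4 * (f t ^ 3 * w t)) =
        (z t * (s t ^ 2 * M t ^ 2) * (f t ^ 2 * w t)) ^ 2 := by ring
    rw [e, Real.sqrt_sq (pb t)]
  simp only [Real.sq_sqrt (pa _), Real.sq_sqrt (pb _)] at h1
  simp only [Real.sq_sqrt (pc _), Real.sq_sqrt (pd _)] at h2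
  rw [e1] at h1
  rw [e2] at h2
  refine h1.trans (mul_le_mul_of_nonneg_left ?_ (integral_nonneg fun t => pa t))
  exact Real.le_sqrt_of_sq_le h2

end Pool.Agent.LibOH30
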