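import Pool.Agent.LibOH30.W2A
import Pool.Agent.LibOH30.EA4

set_option autoImplicit false

namespace Pool.Agent.LibOH30

open MeasureTheory Set Filter Topology Complex ProbabilityTheory
open scoped NNReal ENNReal ComplexConjugate
open Pool.Agent.LibZM Pool.Agent.LibM3 Pool.Agent.LibLaw15

/-! ROW W2 (MEDIUM). `holder4` with `z = |ζ|`, `f = ET (xt)`, `w = w (xt)`: `A² ≤ M √(B C)`; `δ` from `rhoA_delta`; `upB`, `loA` with `g = ET w`
(`∫ g ET² = MT p w`), `upC` with `g = ET³ w` (`∫ g = MT p w`), `MT p w / MT p 1 = TM p w`, `(2533/10000)² > (2/5) √(2066/10000 · 1240/10000)`. If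
`(2/5) TM p w ≤ ε` there is nothing to prove. Template: `LibLaw15.window_lower` (LibLaw15/L6.lean). -/

/-- The numerical part. -/
private lemma w2_num {x L Z X B C : ℝ} (hx : 0 < x) (hL : 0 < L) (hZ : 0 ≤ Z)
    (hX : 2532/10000 * x * L ≤ X) (hB : B ≤ 2067/10000 * x * L) (hC0 : 0 ≤ C)
    (hC : C ≤ 1241/10000 * x * L) (hH : X ^ 2 ≤ Z * √(B * C)) : 2/5 * x * L ≤ Z := by
  have hxL : 0 < x * L := mul_pos hx hL
  have h1 : B * C ≤ (16017/100000 * (x * L)) ^ 2 := by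
    calc B * C ≤ (2067/10000 * x * L) * (1241/10000 * x * L) := by
          apply mul_le_mul hB hC hC0
          positivity
      _ = (2067/10000 * (1241/10000)) * (x * L) ^ 2 := by ring
      _ ≤ (16017/100000) ^ 2 * (x * L) ^ 2 := by
          apply mul_le_mul_of_nonneg_right _ (by positivity)
          norm_num
      _ = _ := by ring
  have h2 : √(B * C) ≤ 16017/100000 * (x * L) := by
    rw [← Real.sqrt_sq (show 0 ≤ 16017/100000 * (x * L) by positivity)]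
    exact Real.sqrt_le_sqrt h1
  have h3 : (2532/10000 * x * L) ^ 2 ≤ X ^ 2 := by
    have h0 : 0 ≤ 2532/10000 * x * L := by positivity
    gcongr
  have h4 : Z * √(B * C) ≤ Z * (16017/100000 * (x * L)) := mul_le_mul_of_nonneg_left h2 hZ
  have h5 : (2532/10000) ^ 2 * (x * L) * (x * L) ≤ (16017/100000 * Z) * (x * L) := by
    calc (2532/10000) ^ 2 * (x * L) * (x * L) = (2532/10000 * x * L) ^ 2 := by ring
      _ ≤ Z * (16017/100000 * (x * L)) := h3.trans (hH.trans h4)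
      _ = _ := by ring
  have h6 : (2532/10000) ^ 2 * (x * L) ≤ 16017/100000 * Z := le_of_mul_le_mul_right h5 hxL
  have h7 : 2/5 * x * L = 2/5 * (x * L) := by ring
  rw [h7]
  nlinarith [h6, hxL]

theorem window_lower3 {η : ℝ} (hη : 0 < η) {r : ℕ} {p : Fin r → ℕ} (hp : ∀ i, (p i).Prime) (hinj : Function.Injective p)
    {w : Tor r → ℝ} (hw : Continuous w) (hw0 : ∀ x, 0 ≤ w x) {ε : ℝ} (hε : 0 < ε) :
    ∀ᶠ P : ℝ × ℝ in Fl η, (2/5 * TM p w - ε) * La3 P.1 ≤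
      ∫ t in win P.2, ‖riemannZeta (crit t)‖ ^ 3 * w (xt p t) ∂(gaussianReal P.2 (vw P.1)) := by
  have hA := Aconst_pos (κ := 3/2) (by norm_num)
  obtain ⟨a, ha⟩ : ∃ a, a = Aconst (3/2) := ⟨_, rfl⟩
  have ha0 : 0 < a := by rw [ha]; exact hA
  have hlog : Tendsto (fun p : ℝ × ℝ => Real.log p.1) (Fl η) atTop := Real.tendsto_log_atTop.comp (Fl_fst η)
  have hI0 := u1_TM_nonneg hp hw0
  obtain ⟨K, hK⟩ : ∃ K, K = TM p w := ⟨_, rfl⟩
  rw [← hK] at hI0 ⊢
  have hZ0 : ∀ P : ℝ × ℝ, 0 ≤ ∫ t in win P.2, ‖riemannZeta (crit t)‖ ^ 3 * w (xt p t) ∂(gaussianReal P.2 (vw P.1)) := fun P =>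
    integral_nonneg fun t => mul_nonneg (by positivity) (hw0 _)
  rcases le_or_gt (2/5 * K - ε) 0 with hneg | hpos
  · filter_upwards [hlog.eventually_gt_atTop 0] with P hL
    refine le_trans ?_ (hZ0 P)
    apply mul_nonpos_of_nonpos_of_nonneg hneg
    unfold La3
    positivity
  have hK0 : 0 < K := by
    rcases eq_or_lt_of_le hI0 with h | h
    · rw [← h] at hpos
      linarith
    · exact h
  have hJ := (MT_one_pos hp).1
  obtain ⟨J, hJd⟩ : ∃ J, J = MT p 1 := ⟨_, rfl⟩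
  have hM : MT p w = K * J := by
    rw [hK, hJd]
    unfold TM
    field_simp
  have hJ0 : 0 < J := by rw [hJd]; exact hJ
  obtain ⟨δ, hδ0, hδ1, hδ⟩ := rhoA_delta
  have hEc := (ET_props hp).1
  have hE0 : ∀ x, 0 ≤ ET p x := fun x => ((ET_props hp).2 x).le
  have hEw : Continuous fun x => ET p x * w x := hEc.mul hw
  have hEw0 : ∀ x, 0 ≤ ET p x * w x := fun x => mul_nonneg (hE0 x) (hw0 x)
  have hE3w : Continuous fun x => ET p x ^ 3 * w x := (hEc.pow 3).mul hw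
  have hE3w0 : ∀ x, 0 ≤ ET p x ^ 3 * w x := fun x => mul_nonneg (pow_nonneg (hE0 x) 3) (hw0 x)
  have hx0 : 0 < a * K := mul_pos ha0 hK0
  have he0 : 0 < a * K / 10000 := by positivity
  have kA := loA hη hp hinj hδ0 hδ1 hδ hEw hEw0 he0
  have kB := upB hη hp hinj hδ0 hδ1 hEw hEw0 he0
  have kC := upC hη hp hinj hδ0 hδ1 hE3w hE3w0 he0
  have eM1 : ∫ x, (ET p x * w x) * ET p x ^ 2 ∂(muT r) = K * J := by
    rw [← hM]
    unfold MT
    congr 1
    ext x
    ring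
  have eM2 : ∫ x, ET p x ^ 3 * w x ∂(muT r) = K * J := by
    rw [← hM]
    unfold MT
    congr 1
    ext x
    ring
  rw [eM1, ← hJd, ← ha] at kA kB
  rw [eM2, ← hJd, ← ha] at kC
  filter_upwards [kA, kB, kC, hlog.eventually_gt_atTop 0] with P h1 h2 h3 hL
  obtain ⟨L9, hL9⟩ : ∃ L9, L9 = (Real.log P.1) ^ (9/4 : ℝ) := ⟨_, rfl⟩
  have hL90 : 0 < L9 := by rw [hL9]; positivity
  rw [← hL9] at h1 h2 h3
  have hH := holder4 (μ := gaussianReal P.2 (vw P.1)) (K := win P.2) isCompact_Icc (z := fun t => ‖riemannZeta (crit t)‖)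
    (s := TR (1/8) (qP p) ⌊P.1 ^ ((1 - δ)/4)⌋₊) (M := TR (3/8) (qP p) ⌊P.1 ^ ((1 - δ)/2)⌋₊) (f := fun t => ET p (xt p t))
    (w := fun t => w (xt p t)) continuous_zeta_crit.norm (TR_cont _ _ _) (TR_cont _ _ _) (hEc.comp (xt_continuous p))
    (hw.comp (xt_continuous p)) (fun t => norm_nonneg _) (fun t => hE0 _) (fun t => hw0 _)
  have hLa : La3 P.1 = a * L9 := by unfold La3; rw [hL9, ha]
  have hS : Continuous (TR (1/8) (qP p) ⌊P.1 ^ ((1 - δ)/4)⌋₊) := TR_cont _ _ _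
  have hT : Continuous (TR (3/8) (qP p) ⌊P.1 ^ ((1 - δ)/2)⌋₊) := TR_cont _ _ _
  have hgc : Continuous fun t => ET p (xt p t) * w (xt p t) := (hEc.comp (xt_continuous p)).mul (hw.comp (xt_continuous p))
  have hX : (2532/10000 * (a * K) * L9) ≤ ∫ t in win P.2, ‖riemannZeta (crit t)‖ ^ 2 *
      |TR (1/8) (qP p) ⌊P.1 ^ ((1 - δ)/4)⌋₊ t * TR (3/8) (qP p) ⌊P.1 ^ ((1 - δ)/2)⌋₊ t| * (ET p (xt p t) * w (xt p t))
        ∂(gaussianReal P.2 (vw P.1)) := by
    have e1 : 2532/10000 * (a * K) * L9 = (2533/10000 * (a / J) * (K * J) - a * K / 10000) * L9 := by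
      field_simp
      ring
    rw [e1]
    refine h1.trans ?_
    have hint : ∀ f : ℝ → ℝ, Continuous f → IntegrableOn f (win P.2) (gaussianReal P.2 (vw P.1)) := fun f hf =>
      hf.continuousOn.integrableOn_compact isCompact_Icc
    apply setIntegral_mono_on (hint _ (((continuous_zeta_crit.norm.pow 2).mul (hS.mul hT)).mul hgc)) 
      (hint _ (((continuous_zeta_crit.norm.pow 2).mul (hS.mul hT).abs).mul hgc)) measurableSet_Icc
    intro t _
    have h5 : 0 ≤ ET p (xt p t) * w (xt p t) := hEw0 _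
    have h6 := le_abs_self (TR (1/8) (qP p) ⌊P.1 ^ ((1 - δ)/4)⌋₊ t * TR (3/8) (qP p) ⌊P.1 ^ ((1 - δ)/2)⌋₊ t)
    exact mul_le_mul_of_nonneg_right (mul_le_mul_of_nonneg_left h6 (sq_nonneg _)) h5
  have hB : (∫ t in win P.2, ‖riemannZeta (crit t)‖ ^ 2 * TR (1/8) (qP p) ⌊P.1 ^ ((1 - δ)/4)⌋₊ t ^ 4 * (ET p (xt p t) * w (xt p t))
        ∂(gaussianReal P.2 (vw P.1))) ≤ 2067/10000 * (a * K) * L9 := by
    refine h2.trans (le_of_eq ?_)
    field_simp
    ring
  have hC : (∫ t in win P.2, TR (3/8) (qP p) ⌊P.1 ^ ((1 - δ)/2)⌋₊ t ^ 4 * (ET p (xt p t) ^ 3 * w (xt p t))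
        ∂(gaussianReal P.2 (vw P.1))) ≤ 1241/10000 * (a * K) * L9 := by
    refine h3.trans (le_of_eq ?_)
    field_simp
    ring
  have hfin := w2_num hx0 hL90 (hZ0 P) hX
    hB
    (integral_nonneg fun t => mul_nonneg (Even.pow_nonneg (by decide) _) (hE3w0 _)) hC hH
  refine le_trans ?_ hfin
  rw [hLa]
  have h8 : 0 ≤ ε * (a * L9) := by positivity
  have h9 : (2/5 * K - ε) * (a * L9) = 2/5 * (a * K) * L9 - ε * (a * L9) := by ring
  linarith

end Pool.Agent.LibOH30
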