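import Pool.Agent.LibOH30.B3
import Pool.Agent.LibOH30.C1c
import Pool.Agent.LibOH30.D3
import Pool.Agent.LibOH30.EB5

set_option autoImplicit false

namespace Pool.Agent.LibOH30

open MeasureTheory Set Filter Topology Complex ProbabilityTheory
open scoped NNReal ENNReal ComplexConjugate
open Pool.Agent.LibZM Pool.Agent.LibM3 Pool.Agent.LibLaw15

/-! ROW W2B (MEDIUM). Upper bound for `∫_win |ζ|² s⁴ g`: `law_z` and `TS_mean` for `ι = Fin 4`, `α = 1/8`, `θ = (1-δ)/4` (`XR = s⁴ ≥ 0`; the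
hypothesis `hB` of `law_z` follows from `TS_mean` and the bound of `TS`), `ds_ts`, `ds_upper` for `Fin 5`, `alB`, `rhoB`, `ZB`,
`θ = Fin.cons 1 ((1-δ)/4)` (`⌊T^1⌋ = ⌊T⌋`; the box is contained in the box of `rhoB_num`), `Gq (3/2) p = MT p 1` (`MT_one_pos`),
`cS p > 0`. -/

private lemma w2b_ds {r : ℕ} {p : Fin r → ℕ} (hp : ∀ i, (p i).Prime) (hinj : Function.Injective p) {δ : ℝ}
    (hδ0 : 0 < δ) (hδ1 : δ < 1/2) {c : ℝ} (hc : 2066/10000 < c) : ∃ C : ℝ, 0 < C ∧ ∀ᶠ T : ℝ in atTop,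
      cS p * TS (fun _ : Fin 4 => (1/8 : ℝ)) (qP p) (fun _ => ⌊T ^ ((1 - δ)/4)⌋₊) T ≤
        c * (Aconst (3/2) / MT p 1) * (Real.log T) ^ (9/4 : ℝ) + C * (Real.log T) ^ (5/4 : ℝ) := by
  have hα : ∀ i, 0 ≤ alB i := by
    intro i
    unfold alB
    refine Fin.cases ?_ (fun j => ?_) i
    · simp
    · simp
  have hs : ∑ i, alB i = 3/2 := by
    unfold alB
    rw [Fin.sum_univ_succ]
    simp only [Fin.cons_zero, Fin.cons_succ, Finset.sum_const, Finset.card_univ, Fintype.card_fin, nsmul_eq_mul]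
    norm_num
  obtain ⟨θ, hθd⟩ : ∃ θ : Fin 5 → ℝ, θ = Fin.cons 1 fun _ => (1 - δ)/4 := ⟨_, rfl⟩
  have hθ : ∀ i, 0 < θ i := by
    intro i
    rw [hθd]
    refine Fin.cases ?_ (fun j => ?_) i
    · simp
    · rw [Fin.cons_succ]
      linarith
  obtain ⟨hJ0, hJ⟩ := MT_one_pos hp
  have hG : Gq (3/2) p = MT p 1 := by rw [hJ]; rfl
  have hbox : rhoB {x | ∀ i, ZB x i ≤ θ i} ≤ ENNReal.ofReal (1033/10000) := by
    refine le_trans (measure_mono ?_) rhoB_num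
    intro x hx i
    have h1 := hx i
    rw [hθd] at h1
    refine le_trans h1 ?_
    refine Fin.cases ?_ (fun j => ?_) i
    · simp
    · rw [Fin.cons_succ, Fin.cons_succ]
      linarith
  have h1 := ds_upper hp hinj hα ZB_meas ZB_nonneg ZB_lap hθ (V := 1033/10000) (by norm_num) hbox (c := c/2) (by linarith)
  rw [hs, hG] at h1
  have h94 : ((3/2 : ℝ)) ^ 2 = 9/4 := by norm_num
  rw [h94] at h1
  obtain ⟨C, hC0, hC⟩ := ds_ts hp hinj (k := 4) (α := fun _ => 1/8) (fun _ => by norm_num)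
    (by simp only [Finset.sum_const, Finset.card_univ, Fintype.card_fin, nsmul_eq_mul]; norm_num)
  refine ⟨C, hC0, ?_⟩
  filter_upwards [h1, hC, eventually_ge_atTop 1] with T k1 k2 hT
  have hN : ((∏ _i : Fin 4, ⌊T ^ ((1 - δ)/4)⌋₊ : ℕ) : ℝ) ≤ T := by
    rw [Finset.prod_const, Finset.card_univ, Fintype.card_fin]
    push_cast
    have h5 : ((⌊T ^ ((1 - δ)/4)⌋₊ : ℕ) : ℝ) ≤ T ^ ((1:ℝ)/4) :=
      (Nat.floor_le (by positivity)).trans (Real.rpow_le_rpow_of_exponent_le hT (by linarith))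
    calc ((⌊T ^ ((1 - δ)/4)⌋₊ : ℕ) : ℝ) ^ 4 ≤ (T ^ ((1:ℝ)/4)) ^ 4 := by gcongr
      _ = T := by
          rw [← Real.rpow_natCast, ← Real.rpow_mul (by linarith)]
          norm_num
  have k3 := (abs_le.mp (k2 (fun _ => ⌊T ^ ((1 - δ)/4)⌋₊) hN)).2
  have e1 : (fun i : Fin 5 => ⌊T ^ θ i⌋₊) = (Fin.cons ⌊T⌋₊ (fun _ : Fin 4 => ⌊T ^ ((1 - δ)/4)⌋₊) : Fin 5 → ℕ) := by
    funext i
    rw [hθd]
    refine Fin.cases ?_ (fun j => ?_) i
    · simp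
    · simp
  rw [e1] at k1
  have e2 : alB = (Fin.cons 1 (fun _ : Fin 4 => (1/8 : ℝ)) : Fin 5 → ℝ) := rfl
  rw [e2] at k1
  have e3 : c / 2 * (Aconst (3/2) / MT p 1) * (Real.log T) ^ (9/4 : ℝ) * 2 =
    c * (Aconst (3/2) / MT p 1) * (Real.log T) ^ (9/4 : ℝ) := by ring
  linarith

theorem upB {η : ℝ} (hη : 0 < η) {r : ℕ} {p : Fin r → ℕ} (hp : ∀ i, (p i).Prime) (hinj : Function.Injective p) {δ : ℝ}
    (hδ0 : 0 < δ) (hδ1 : δ < 1/2) {g : Tor r → ℝ} (hg : Continuous g) (hg0 : ∀ x, 0 ≤ g x) {ε : ℝ} (hε : 0 < ε) :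
    ∀ᶠ P : ℝ × ℝ in Fl η, ∫ t in win P.2, ‖riemannZeta (crit t)‖ ^ 2 * TR (1/8) (qP p) ⌊P.1 ^ ((1 - δ)/4)⌋₊ t ^ 4 * g (xt p t)
        ∂(gaussianReal P.2 (vw P.1)) ≤
      (2066/10000 * (Aconst (3/2) / MT p 1) * (∫ x, g x * ET p x ^ 2 ∂(muT r)) + ε) * (Real.log P.1) ^ (9/4 : ℝ) := by
  have hlog : Tendsto (fun P : ℝ × ℝ => Real.log P.1) (Fl η) atTop := Real.tendsto_log_atTop.comp (Fl_fst η)
  have hcS : 0 < cS p := l6_cS hp
  obtain ⟨hJ0, -⟩ := MT_one_pos hp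
  have ha0 := Aconst_pos (κ := 3/2) (by norm_num)
  have hI0 : 0 ≤ ∫ x, g x * ET p x ^ 2 ∂(muT r) := integral_nonneg fun x => mul_nonneg (hg0 x) (by positivity)
  have hθ : ∀ _i : Fin 4, (0:ℝ) ≤ (1 - δ)/4 := fun _ => by linarith
  have hθ1 : ∑ _i : Fin 4, (1 - δ)/4 < 1 := by
    simp only [Finset.sum_const, Finset.card_univ, Fintype.card_fin, nsmul_eq_mul]
    push_cast
    linarith
  have hα : ∀ _i : Fin 4, (0:ℝ) ≤ 1/8 := fun _ => by norm_num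
  have hs : ∑ _i : Fin 4, (1/8 : ℝ) = 1/2 := by
    simp only [Finset.sum_const, Finset.card_univ, Fintype.card_fin, nsmul_eq_mul]
    norm_num
  have hXR : ∀ (T t : ℝ), XR (fun _ : Fin 4 => (1/8 : ℝ)) (qP p) (fun _ => ⌊T ^ ((1 - δ)/4)⌋₊) t =
      TR (1/8) (qP p) ⌊T ^ ((1 - δ)/4)⌋₊ t ^ 4 := by
    intro T t
    unfold XR
    rw [Finset.prod_const, Finset.card_univ, Fintype.card_fin]
  -- the bound of the mean
  obtain ⟨C0, hC00, hC0⟩ := w2b_ds hp hinj hδ0 hδ1 (c := 1) (by norm_num)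
  have hmean := TS_mean hη (q := qP p) (α := fun _ : Fin 4 => (1/8 : ℝ)) hα hs (θ := fun _ => (1 - δ)/4) hθ hθ1
  have hB : ∀ᶠ P : ℝ × ℝ in Fl η, ∫ t in win P.2, ‖riemannZeta (crit t)‖ ^ 2 *
      |XR (fun _ : Fin 4 => (1/8 : ℝ)) (qP p) (fun _ => ⌊P.1 ^ ((1 - δ)/4)⌋₊) t| ∂(gaussianReal P.2 (vw P.1)) ≤
      ((1 * (Aconst (3/2) / MT p 1) + C0) / cS p + 1) * (Real.log P.1) ^ (9/4 : ℝ) := by
    filter_upwards [(Fl_fst η).eventually hC0, hmean.eventually (gt_mem_nhds (zero_lt_one)),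
      hlog.eventually_ge_atTop 1] with P h1 h2 hL
    have hL9 : 0 < (Real.log P.1) ^ (9/4 : ℝ) := Real.rpow_pos_of_pos (by linarith) _
    have hL5 : (Real.log P.1) ^ (5/4 : ℝ) ≤ (Real.log P.1) ^ (9/4 : ℝ) :=
      Real.rpow_le_rpow_of_exponent_le hL (by norm_num)
    have e0 : ∀ t, |XR (fun _ : Fin 4 => (1/8 : ℝ)) (qP p) (fun _ => ⌊P.1 ^ ((1 - δ)/4)⌋₊) t| =
        XR (fun _ : Fin 4 => (1/8 : ℝ)) (qP p) (fun _ => ⌊P.1 ^ ((1 - δ)/4)⌋₊) t := by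
      intro t
      rw [hXR]
      exact abs_of_nonneg (by positivity)
    simp only [e0]
    rw [div_lt_iff₀ hL9, one_mul] at h2
    have e1 : TS (fun _ : Fin 4 => (1/8 : ℝ)) (qP p) (fun _ => ⌊P.1 ^ ((1 - δ)/4)⌋₊) P.1 ≤
        (1 * (Aconst (3/2) / MT p 1) + C0) / cS p * (Real.log P.1) ^ (9/4 : ℝ) := by
      rw [div_mul_eq_mul_div, le_div_iff₀ hcS]
      nlinarith
    linarith
  have hlaw := law_z hη hp hinj (α := fun _ : Fin 4 => (1/8 : ℝ)) hα hs (θ := fun _ => (1 - δ)/4) hθ hθ1 hg hB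
  simp only [hXR] at hlaw
  obtain ⟨a, ha⟩ : ∃ a, a = Aconst (3/2) := ⟨_, rfl⟩
  obtain ⟨J, hJd⟩ : ∃ J, J = MT p 1 := ⟨_, rfl⟩
  rw [← ha] at ha0
  rw [← hJd] at hJ0
  obtain ⟨I, hI⟩ : ∃ I, I = ∫ x, g x * ET p x ^ 2 ∂(muT r) := ⟨_, rfl⟩
  rw [← hI] at hI0 hlaw
  obtain ⟨c, hc⟩ : ∃ c, c = 2066/10000 + ε * J / (3 * a * (I + 1)) := ⟨_, rfl⟩
  have hcV : (2066/10000 : ℝ) < c := by
    have : 0 < ε * J / (3 * a * (I + 1)) := by positivity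
    linarith
  obtain ⟨C, hCp, hC⟩ := w2b_ds hp hinj hδ0 hδ1 hcV
  filter_upwards [(Fl_fst η).eventually hC, hlaw.eventually (gt_mem_nhds (show (0:ℝ) < ε/3 by positivity)),
    hlog.eventually_ge_atTop 1, hlog.eventually_ge_atTop (3 * C * I / ε)] with P k1 k2 hL hL'
  obtain ⟨L9, hL9⟩ : ∃ L9, L9 = (Real.log P.1) ^ (9/4 : ℝ) := ⟨_, rfl⟩
  have hL90 : 0 < L9 := by rw [hL9]; exact Real.rpow_pos_of_pos (by linarith) _
  obtain ⟨L5, hL5⟩ : ∃ L5, L5 = (Real.log P.1) ^ (5/4 : ℝ) := ⟨_, rfl⟩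
  have hL50 : 0 < L5 := by rw [hL5]; exact Real.rpow_pos_of_pos (by linarith) _
  have h95 : L9 = L5 * Real.log P.1 := by
    rw [hL9, hL5, ← Real.rpow_add_one (by linarith)]
    norm_num
  rw [← hL9, ← hL5, ← ha, ← hJd] at k1
  rw [← hL9, div_lt_iff₀ hL90] at k2
  rw [← hL9, ← ha, ← hJd, ← hI]
  have e0 : cS p * TS (fun _ : Fin 4 => (1/8 : ℝ)) (qP p) (fun _ => ⌊P.1 ^ ((1 - δ)/4)⌋₊) P.1 * I ≤
      (c * (a / J) * L9 + C * L5) * I := by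
    gcongr
  have e1 : (c * (a / J) * L9 + C * L5) * I = 2066/10000 * (a / J) * I * L9 + (ε/3) * (I / (I + 1)) * L9 + C * I * L5 := by
    rw [hc]
    have h3 : I + 1 ≠ 0 := by positivity
    field_simp
  have e2 : (ε/3) * (I / (I + 1)) * L9 ≤ (ε/3) * 1 * L9 := by
    have : I / (I + 1) ≤ 1 := by
      rw [div_le_one (by positivity)]
      linarith
    gcongr
  have e3 : C * I * L5 ≤ ε/3 * L9 := by
    rw [div_le_iff₀ hε] at hL'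
    rw [h95]
    nlinarith
  have e4 : (2066/10000 * (a / J) * I + ε) * L9 = 2066/10000 * (a / J) * I * L9 + (ε/3) * 1 * L9 + ε/3 * L9 + ε/3 * L9 := by ring
  rw [e4]
  linarith

end Pool.Agent.LibOH30
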