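import Pool.Agent.LibOH30.P3
import Pool.Agent.LibOH30.D3
import Pool.Agent.LibOH30.EC6

set_option autoImplicit false

namespace Pool.Agent.LibOH30

open MeasureTheory Set Filter Topology Complex ProbabilityTheory
open scoped NNReal ENNReal ComplexConjugate
open Pool.Agent.LibZM Pool.Agent.LibM3 Pool.Agent.LibLaw15

/-! ROW W2C (MEDIUM). Upper bound for `∫_win M⁴ g ≤ ∫ M⁴ g`: `law_c` and `ds_upper` for `Fin 4`, `alC`, `rhoC`, `ZC`, `θ = (1-δ)/2`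
(`∑ θ = 2(1-δ) < 2`; the box is contained in the box of `rhoC_num`), `Gq (3/2) p = MT p 1`. -/

private lemma w2c_norm_cpow {n : ℕ} (hn : 1 ≤ n) (s : ℂ) : ‖(n:ℂ) ^ s‖ = (n:ℝ) ^ s.re :=
  Complex.norm_natCast_cpow_of_pos (by omega) s

private lemma w2c_bdd (a : ℝ) (q N : ℕ) : ∃ C : ℝ, 0 ≤ C ∧ ∀ t, |TR a q N t| ≤ C := by
  refine ⟨∑ x ∈ prs q N, ‖((tau a x.1 * tau a x.2 : ℝ) : ℂ)‖ * ((x.1:ℝ) ^ (-(1/2) : ℝ) * (x.2:ℝ) ^ (-(1/2) : ℝ)),
    Finset.sum_nonneg fun x _ => by positivity, fun t => ?_⟩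
  unfold TR
  refine (Complex.abs_re_le_norm _).trans ?_
  unfold TP
  refine (norm_sum_le _ _).trans (Finset.sum_le_sum fun x hx => ?_)
  have hx' : 1 ≤ x.1 ∧ 1 ≤ x.2 := by
    unfold prs at hx
    rw [Finset.mem_filter, Finset.mem_product, Finset.mem_Icc, Finset.mem_Icc] at hx
    exact ⟨hx.1.1.1, hx.1.2.1⟩
  rw [norm_mul, norm_mul, w2c_norm_cpow hx'.1, w2c_norm_cpow hx'.2]
  have h1 : (-crit t).re = -(1/2) := by simp [crit]
  have h2 : (-(1 - crit t)).re = -(1/2) := by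
    simp [crit]
    norm_num
  rw [h1, h2]

theorem upC {η : ℝ} (hη : 0 < η) {r : ℕ} {p : Fin r → ℕ} (hp : ∀ i, (p i).Prime) (hinj : Function.Injective p) {δ : ℝ}
    (hδ0 : 0 < δ) (hδ1 : δ < 1/2) {g : Tor r → ℝ} (hg : Continuous g) (hg0 : ∀ x, 0 ≤ g x) {ε : ℝ} (hε : 0 < ε) :
    ∀ᶠ P : ℝ × ℝ in Fl η, ∫ t in win P.2, TR (3/8) (qP p) ⌊P.1 ^ ((1 - δ)/2)⌋₊ t ^ 4 * g (xt p t)
        ∂(gaussianReal P.2 (vw P.1)) ≤
      (1240/10000 * (Aconst (3/2) / MT p 1) * (∫ x, g x ∂(muT r)) + ε) * (Real.log P.1) ^ (9/4 : ℝ) := by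
  have hlog : Tendsto (fun P : ℝ × ℝ => Real.log P.1) (Fl η) atTop := Real.tendsto_log_atTop.comp (Fl_fst η)
  have hα : ∀ i, 0 ≤ alC i := fun i => by unfold alC; norm_num
  have hα1 : ∀ i, alC i ≤ 1 := fun i => by unfold alC; norm_num
  have hs : ∑ i, alC i = 3/2 := by
    simp only [alC, Finset.sum_const, Finset.card_univ, Fintype.card_fin, nsmul_eq_mul]
    norm_num
  have hθ : ∀ _i : Fin 4, (0:ℝ) < (1 - δ)/2 := fun _ => by linarith
  have hθ1 : ∑ _i : Fin 4, (1 - δ)/2 < 2 := by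
    simp only [Finset.sum_const, Finset.card_univ, Fintype.card_fin, nsmul_eq_mul]
    push_cast
    linarith
  obtain ⟨hJ0, hJ⟩ := MT_one_pos hp
  have hG : Gq (3/2) p = MT p 1 := by rw [hJ]; rfl
  have ha0 := Aconst_pos (κ := 3/2) (by norm_num)
  obtain ⟨a, ha⟩ : ∃ a, a = Aconst (3/2) := ⟨_, rfl⟩
  obtain ⟨J, hJd⟩ : ∃ J, J = MT p 1 := ⟨_, rfl⟩
  rw [← ha] at ha0
  rw [← hJd] at hJ0
  have hI0 : 0 ≤ ∫ x, g x ∂(muT r) := integral_nonneg hg0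
  obtain ⟨I, hI⟩ : ∃ I, I = ∫ x, g x ∂(muT r) := ⟨_, rfl⟩
  rw [← hI] at hI0
  obtain ⟨c, hc⟩ : ∃ c, c = 1240/10000 + ε * J / (2 * a * (I + 1)) := ⟨_, rfl⟩
  have hcV : (1240/10000 : ℝ) < c := by
    have : 0 < ε * J / (2 * a * (I + 1)) := by positivity
    linarith
  have hbox : rhoC {x | ∀ i, ZC x i ≤ (fun _ : Fin 4 => (1 - δ)/2) i} ≤ ENNReal.ofReal (1240/10000) := by
    refine le_trans (measure_mono ?_) rhoC_num
    intro x hx i
    have := hx i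
    simp only at this
    linarith
  have h1 := ds_upper hp hinj hα ZC_meas ZC_nonneg ZC_lap (θ := fun _ : Fin 4 => (1 - δ)/2) hθ (V := 1240/10000)
    (by norm_num) hbox hcV
  rw [hs, hG, ← ha, ← hJd] at h1
  have h94 : ((3/2 : ℝ)) ^ 2 = 9/4 := by norm_num
  rw [h94] at h1
  have hXR : ∀ (T t : ℝ), XR alC (qP p) (fun i => ⌊T ^ (fun _ : Fin 4 => (1 - δ)/2) i⌋₊) t =
      TR (3/8) (qP p) ⌊T ^ ((1 - δ)/2)⌋₊ t ^ 4 := by
    intro T t
    unfold XR alC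
    rw [Finset.prod_const, Finset.card_univ, Fintype.card_fin]
  have h2 := law_c η hp hinj hα hα1 (θ := fun _ : Fin 4 => (1 - δ)/2) (fun i => (hθ i).le) hθ1 hg
    (fun T t => by rw [hXR]; positivity) (B := c * (a / J)) h1
  rw [← hI] at h2
  simp only [hXR] at h2
  filter_upwards [(Fl_fst η).eventually h1, h2.eventually (gt_mem_nhds (show (0:ℝ) < ε/2 by positivity)),
    hlog.eventually_gt_atTop 0] with P k1 k2 hL
  obtain ⟨L9, hL9⟩ : ∃ L9, L9 = (Real.log P.1) ^ (9/4 : ℝ) := ⟨_, rfl⟩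
  have hL90 : 0 < L9 := by rw [hL9]; positivity
  rw [← hL9] at k1 k2 ⊢
  rw [div_lt_iff₀ hL90] at k2
  have hsub : ∫ t in win P.2, TR (3/8) (qP p) ⌊P.1 ^ ((1 - δ)/2)⌋₊ t ^ 4 * g (xt p t) ∂(gaussianReal P.2 (vw P.1)) ≤
      ∫ t, TR (3/8) (qP p) ⌊P.1 ^ ((1 - δ)/2)⌋₊ t ^ 4 * g (xt p t) ∂(gaussianReal P.2 (vw P.1)) := by
    apply setIntegral_le_integral
    · obtain ⟨W, hW0, hW⟩ := u1_bdd hg
      obtain ⟨C, hC0, hC⟩ := w2c_bdd (3/8) (qP p) ⌊P.1 ^ ((1 - δ)/2)⌋₊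
      refine Integrable.mono' (g := fun _ => C ^ 4 * W) (integrable_const _)
        (((TR_cont _ _ _).pow 4).mul (hg.comp (xt_continuous p))).aestronglyMeasurable (Eventually.of_forall fun t => ?_)
      rw [Real.norm_eq_abs, abs_mul, abs_of_nonneg (hg0 _), abs_pow]
      have h7 := hW (xt p t)
      have h8 := hC t
      gcongr
      exact hg0 _
    · exact Eventually.of_forall fun t => mul_nonneg (by positivity) (hg0 _)
  rw [← ha, ← hJd, ← hI]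
  have e0 : DS alC (qP p) (fun i => ⌊P.1 ^ (fun _ : Fin 4 => (1 - δ)/2) i⌋₊) * I ≤ (c * (a / J) * L9) * I := by
    gcongr
  have e1 : c * (a / J) * L9 * I = 1240/10000 * (a / J) * I * L9 + (ε/2) * (I / (I + 1)) * L9 := by
    rw [hc]
    have h3 : I + 1 ≠ 0 := by positivity
    field_simp
  have e2 : (ε/2) * (I / (I + 1)) * L9 ≤ (ε/2) * 1 * L9 := by
    have : I / (I + 1) ≤ 1 := by
      rw [div_le_one (by positivity)]
      linarith
    gcongr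
  refine hsub.trans ?_
  have e3 : (1240/10000 * (a / J) * I + ε) * L9 = 1240/10000 * (a / J) * I * L9 + (ε/2) * 1 * L9 + ε/2 * L9 := by ring
  rw [e3]
  linarith

end Pool.Agent.LibOH30
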