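import Pool.Agent.LibOH30.B3
import Pool.Agent.LibOH30.C1c
import Pool.Agent.LibOH30.D3
import Pool.Agent.LibOH30.LA
import Pool.Agent.LibOH30.W1
import Pool.Agent.LibOH30.W2B
import Pool.Agent.LibOH30.W2C

set_option autoImplicit false

namespace Pool.Agent.LibOH30

open MeasureTheory Set Filter Topology Complex ProbabilityTheory
open scoped NNReal ENNReal ComplexConjugate
open Pool.Agent.LibZM Pool.Agent.LibM3 Pool.Agent.LibLaw15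

/-! ROW W2A (MEDIUM). Lower bound for `∫_win |ζ|² s M g`: `law_z` for `ι = Fin 2`, `α = ![1/8, 3/8]`, `θ = ![(1-δ)/4, (1-δ)/2]` (`∑ θ < 1`),
`ds_ts`, `ds_lower` for `Fin 3`, `alA`, `rhoA`, `ZA`, `θ = ![1, (1-δ)/4, (1-δ)/2]`. The hypothesis `hB` of `law_z`: `holder4` with `f = w = 1`, the
upper bound of the third moment on the window (`LibLaw15.window_upper` with `w = 1`, or LibM3/F), `upB`, `upC` with `g = 1`. -/

private theorem W2A_XR (δ : ℝ) (q : ℕ) (T t : ℝ) :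
    XR ![1/8, 3/8] q (fun i => ⌊T ^ (![(1 - δ)/4, (1 - δ)/2] : Fin 2 → ℝ) i⌋₊) t =
      TR (1/8) q ⌊T ^ ((1 - δ)/4)⌋₊ t * TR (3/8) q ⌊T ^ ((1 - δ)/2)⌋₊ t := by
  unfold XR
  rw [Fin.prod_univ_two]
  rfl

private theorem W2A_cons (δ T : ℝ) :
    (fun i => ⌊T ^ (![1, (1 - δ)/4, (1 - δ)/2] : Fin 3 → ℝ) i⌋₊) =
      (Fin.cons ⌊T⌋₊ (fun i => ⌊T ^ (![(1 - δ)/4, (1 - δ)/2] : Fin 2 → ℝ) i⌋₊) : Fin 3 → ℕ) := by
  funext i
  refine Fin.cases ?_ (fun j => ?_) i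
  · simp
  · rfl

private theorem W2A_prod {δ : ℝ} (hδ0 : 0 < δ) (hδ1 : δ < 1/2) {T : ℝ} (hT : 1 ≤ T) :
    ((∏ i, (fun i => ⌊T ^ (![(1 - δ)/4, (1 - δ)/2] : Fin 2 → ℝ) i⌋₊) i : ℕ) : ℝ) ≤ T := by
  rw [Fin.prod_univ_two]
  have hT0 : 0 < T := by linarith
  have h1 : ((⌊T ^ ((1 - δ)/4)⌋₊ : ℕ) : ℝ) ≤ T ^ ((1 - δ)/4) := Nat.floor_le (by positivity)
  have h2 : ((⌊T ^ ((1 - δ)/2)⌋₊ : ℕ) : ℝ) ≤ T ^ ((1 - δ)/2) := Nat.floor_le (by positivity)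
  have h3 : T ^ ((1 - δ)/4) * T ^ ((1 - δ)/2) ≤ T := by
    rw [← Real.rpow_add hT0]
    calc T ^ ((1 - δ)/4 + (1 - δ)/2) ≤ T ^ (1:ℝ) := Real.rpow_le_rpow_of_exponent_le hT (by linarith)
      _ = T := Real.rpow_one T
  have h4 : ((⌊T ^ ((1 - δ)/4)⌋₊ : ℕ) : ℝ) * ((⌊T ^ ((1 - δ)/2)⌋₊ : ℕ) : ℝ) ≤ T ^ ((1 - δ)/4) * T ^ ((1 - δ)/2) :=
    mul_le_mul h1 h2 (by positivity) (by positivity)
  show (((⌊T ^ ((1 - δ)/4)⌋₊ * ⌊T ^ ((1 - δ)/2)⌋₊ : ℕ)) : ℝ) ≤ T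
  push_cast
  exact h4.trans h3

private theorem W2A_bound {η : ℝ} (hη : 0 < η) {r : ℕ} {p : Fin r → ℕ} (hp : ∀ i, (p i).Prime) (hinj : Function.Injective p)
    {δ : ℝ} (hδ0 : 0 < δ) (hδ1 : δ < 1/2) : ∃ B : ℝ, ∀ᶠ P : ℝ × ℝ in Fl η, ∫ t in win P.2, ‖riemannZeta (crit t)‖ ^ 2 *
      |TR (1/8) (qP p) ⌊P.1 ^ ((1 - δ)/4)⌋₊ t * TR (3/8) (qP p) ⌊P.1 ^ ((1 - δ)/2)⌋₊ t|
      ∂(gaussianReal P.2 (vw P.1)) ≤ B * (Real.log P.1) ^ (9/4 : ℝ) := by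
  have h1 := window_upper (w := fun _ : Tor r => (1:ℝ)) hη hp hinj continuous_const (fun _ => zero_le_one) (ε := 1) one_pos
  have h2 := upB hη hp hinj hδ0 hδ1 (g := fun _ : Tor r => (1:ℝ)) continuous_const (fun _ => zero_le_one) (ε := 1) one_pos
  have h3 := upC hη hp hinj hδ0 hδ1 (g := fun _ : Tor r => (1:ℝ)) continuous_const (fun _ => zero_le_one) (ε := 1) one_pos
  have hlog : Tendsto (fun p : ℝ × ℝ => Real.log p.1) (Fl η) atTop := Real.tendsto_log_atTop.comp (Fl_fst η)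
  obtain ⟨b1, hb1⟩ : ∃ b, b = (2 * CI * TM p (fun _ : Tor r => (1:ℝ)) + 1) * Aconst (3/2) := ⟨_, rfl⟩
  obtain ⟨b2, hb2⟩ : ∃ b, b = 2066/10000 * (Aconst (3/2) / MT p 1) * (∫ x, (fun _ : Tor r => (1:ℝ)) x * ET p x ^ 2 ∂(muT r)) + 1 := ⟨_, rfl⟩
  obtain ⟨b3, hb3⟩ : ∃ b, b = 1240/10000 * (Aconst (3/2) / MT p 1) * (∫ x, (fun _ : Tor r => (1:ℝ)) x ∂(muT r)) + 1 := ⟨_, rfl⟩
  obtain ⟨b, hb⟩ : ∃ b, b = max 0 (max b1 (max b2 b3)) := ⟨_, rfl⟩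
  have hb0 : 0 ≤ b := by rw [hb]; exact le_max_left _ _
  have hbb1 : b1 ≤ b := by rw [hb]; exact (le_max_left _ _).trans (le_max_right _ _)
  have hbb2 : b2 ≤ b := by rw [hb]; exact ((le_max_left _ _).trans (le_max_right _ _)).trans (le_max_right _ _)
  have hbb3 : b3 ≤ b := by rw [hb]; exact ((le_max_right _ _).trans (le_max_right _ _)).trans (le_max_right _ _)
  refine ⟨b, ?_⟩
  filter_upwards [h1, h2, h3, hlog.eventually_ge_atTop 0] with P k1 k2 k3 hL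
  obtain ⟨L9, hL9⟩ : ∃ L9, L9 = (Real.log P.1) ^ (9/4 : ℝ) := ⟨_, rfl⟩
  have hL90 : 0 ≤ L9 := by rw [hL9]; exact Real.rpow_nonneg hL _
  have hLa : La3 P.1 = Aconst (3/2) * L9 := by unfold La3; rw [hL9]
  rw [hLa, ← mul_assoc, ← hb1] at k1
  rw [← hb2, ← hL9] at k2
  rw [← hb3, ← hL9] at k3
  rw [← hL9]
  have hH := holder4 (μ := gaussianReal P.2 (vw P.1)) (K := win P.2) isCompact_Icc (z := fun t => ‖riemannZeta (crit t)‖)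
    (s := TR (1/8) (qP p) ⌊P.1 ^ ((1 - δ)/4)⌋₊) (M := TR (3/8) (qP p) ⌊P.1 ^ ((1 - δ)/2)⌋₊) (f := fun _ => 1) (w := fun _ => 1)
    continuous_zeta_crit.norm (TR_cont _ _ _) (TR_cont _ _ _) continuous_const continuous_const (fun t => norm_nonneg _)
    (fun _ => zero_le_one) (fun _ => zero_le_one)
  simp only [mul_one, one_pow] at hH k1 k2 k3
  have hX0 : 0 ≤ ∫ t in win P.2, ‖riemannZeta (crit t)‖ ^ 2 *
      |TR (1/8) (qP p) ⌊P.1 ^ ((1 - δ)/4)⌋₊ t * TR (3/8) (qP p) ⌊P.1 ^ ((1 - δ)/2)⌋₊ t|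
      ∂(gaussianReal P.2 (vw P.1)) := integral_nonneg fun t => by positivity
  have hB0 : 0 ≤ ∫ t in win P.2, ‖riemannZeta (crit t)‖ ^ 2 * TR (1/8) (qP p) ⌊P.1 ^ ((1 - δ)/4)⌋₊ t ^ 4
      ∂(gaussianReal P.2 (vw P.1)) := integral_nonneg fun t => by positivity
  have hC0 : 0 ≤ ∫ t in win P.2, TR (3/8) (qP p) ⌊P.1 ^ ((1 - δ)/2)⌋₊ t ^ 4
      ∂(gaussianReal P.2 (vw P.1)) := integral_nonneg fun t => by positivity
  have hk1 := k1.trans (mul_le_mul_of_nonneg_right hbb1 hL90)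
  have hk2 := k2.trans (mul_le_mul_of_nonneg_right hbb2 hL90)
  have hk3 := k3.trans (mul_le_mul_of_nonneg_right hbb3 hL90)
  have hbL : 0 ≤ b * L9 := mul_nonneg hb0 hL90
  have hs : √((∫ t in win P.2, ‖riemannZeta (crit t)‖ ^ 2 * TR (1/8) (qP p) ⌊P.1 ^ ((1 - δ)/4)⌋₊ t ^ 4
      ∂(gaussianReal P.2 (vw P.1))) * ∫ t in win P.2, TR (3/8) (qP p) ⌊P.1 ^ ((1 - δ)/2)⌋₊ t ^ 4
      ∂(gaussianReal P.2 (vw P.1))) ≤ b * L9 := by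
    apply Real.sqrt_le_iff.mpr
    refine ⟨hbL, ?_⟩
    rw [sq]
    exact mul_le_mul hk2 hk3 hC0 hbL
  have hfin := hH.trans (mul_le_mul hk1 hs (Real.sqrt_nonneg _) hbL)
  rw [← sq] at hfin
  exact (pow_le_pow_iff_left₀ hX0 hbL two_ne_zero).mp hfin

theorem loA {η : ℝ} (hη : 0 < η) {r : ℕ} {p : Fin r → ℕ} (hp : ∀ i, (p i).Prime) (hinj : Function.Injective p) {δ : ℝ}
    (hδ0 : 0 < δ) (hδ1 : δ < 1/2) (hA : ENNReal.ofReal (12665/100000) ≤ rhoA {x | ∀ i, ZA x i < ![1, (1 - δ)/4, (1 - δ)/2] i})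
    {g : Tor r → ℝ} (hg : Continuous g) (hg0 : ∀ x, 0 ≤ g x) {ε : ℝ} (hε : 0 < ε) :
    ∀ᶠ P : ℝ × ℝ in Fl η, (2533/10000 * (Aconst (3/2) / MT p 1) * (∫ x, g x * ET p x ^ 2 ∂(muT r)) - ε) * (Real.log P.1) ^ (9/4 : ℝ) ≤
      ∫ t in win P.2, ‖riemannZeta (crit t)‖ ^ 2 * (TR (1/8) (qP p) ⌊P.1 ^ ((1 - δ)/4)⌋₊ t * TR (3/8) (qP p) ⌊P.1 ^ ((1 - δ)/2)⌋₊ t) *
        g (xt p t) ∂(gaussianReal P.2 (vw P.1)) := by
  have hA0 := Aconst_pos (κ := 3/2) (by norm_num)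
  have hJ := (MT_one_pos hp).1
  have hJG : Gq (3/2) p = MT p 1 := (MT_one_pos hp).2.symm
  have hlog : Tendsto (fun p : ℝ × ℝ => Real.log p.1) (Fl η) atTop := Real.tendsto_log_atTop.comp (Fl_fst η)
  obtain ⟨I0, hI0⟩ : ∃ I0, I0 = ∫ x, g x * ET p x ^ 2 ∂(muT r) := ⟨_, rfl⟩
  have hI : 0 ≤ I0 := by
    rw [hI0]
    exact integral_nonneg fun x => mul_nonneg (hg0 x) (sq_nonneg _)
  rw [← hI0]
  obtain ⟨a, ha⟩ : ∃ a, a = Aconst (3/2) / MT p 1 := ⟨_, rfl⟩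
  have ha0 : 0 < a := by rw [ha]; positivity
  rw [← ha]
  -- the law
  have hα : ∀ i, 0 ≤ (![1/8, 3/8] : Fin 2 → ℝ) i := by
    intro i
    fin_cases i <;> norm_num
  have hs : ∑ i, (![1/8, 3/8] : Fin 2 → ℝ) i = 1/2 := by
    rw [Fin.sum_univ_two]
    norm_num
  have hθ : ∀ i, 0 ≤ (![(1 - δ)/4, (1 - δ)/2] : Fin 2 → ℝ) i := by
    intro i
    fin_cases i
    · show 0 ≤ (1 - δ)/4
      linarith
    · show 0 ≤ (1 - δ)/2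
      linarith
  have hθ1 : ∑ i, (![(1 - δ)/4, (1 - δ)/2] : Fin 2 → ℝ) i < 1 := by
    rw [Fin.sum_univ_two]
    show (1 - δ)/4 + (1 - δ)/2 < 1
    linarith
  obtain ⟨B, hB⟩ := W2A_bound hη hp hinj hδ0 hδ1
  have hlaw := law_z hη hp hinj hα hs hθ hθ1 hg (B := B) (by
    simp only [W2A_XR]
    exact hB)
  simp only [W2A_XR] at hlaw
  rw [← hI0] at hlaw
  -- the sums
  obtain ⟨C, hC0, hC⟩ := ds_ts hp hinj hα hs
  have hal : (Fin.cons 1 (![1/8, 3/8] : Fin 2 → ℝ) : Fin (2 + 1) → ℝ) = alA := rfl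
  have hsum : ∑ i, alA i = 3/2 := by
    unfold alA
    rw [Fin.sum_univ_three]
    show (1:ℝ) + 1/8 + 3/8 = 3/2
    norm_num
  have halA : ∀ i, 0 ≤ alA i := by
    intro i
    unfold alA
    fin_cases i <;> norm_num
  have hθ3 : ∀ i, 0 < (![1, (1 - δ)/4, (1 - δ)/2] : Fin 3 → ℝ) i := by
    intro i
    fin_cases i
    · show (0:ℝ) < 1
      norm_num
    · show 0 < (1 - δ)/4
      linarith
    · show 0 < (1 - δ)/2
      linarith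
  obtain ⟨c, hc⟩ : ∃ c, c = 12665/100000 - ε / (6 * (a * I0 + 1)) := ⟨_, rfl⟩
  have haI : 0 ≤ a * I0 := mul_nonneg ha0.le hI
  have hc1 : c < 12665/100000 := by
    rw [hc]
    have : 0 < ε / (6 * (a * I0 + 1)) := by positivity
    linarith
  have hds := ds_lower hp hinj halA ZA_meas ZA_nonneg ZA_lap hθ3 hA hc1
  rw [hsum, hJG, ← ha] at hds
  have hsq : ((3/2 : ℝ)) ^ 2 = 9/4 := by norm_num
  rw [hsq] at hds
  have hε3 : 0 < ε / 3 := by positivity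
  have hCe : ∀ᶠ P : ℝ × ℝ in Fl η, C * I0 ≤ ε / 3 * Real.log P.1 :=
    (hlog.const_mul_atTop hε3).eventually_ge_atTop _
  filter_upwards [hlaw.eventually (lt_mem_nhds (show -(ε / 3) < 0 by linarith)), (Fl_fst η).eventually hds,
    (Fl_fst η).eventually hC, hCe, hlog.eventually_gt_atTop 0, (Fl_fst η).eventually_ge_atTop 1] with P h1 h2 h3 h4 hL hT
  obtain ⟨L9, hL9⟩ : ∃ L9, L9 = (Real.log P.1) ^ (9/4 : ℝ) := ⟨_, rfl⟩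
  have hL90 : 0 < L9 := by rw [hL9]; positivity
  have h5 := h3 (fun i => ⌊P.1 ^ (![(1 - δ)/4, (1 - δ)/2] : Fin 2 → ℝ) i⌋₊) (W2A_prod hδ0 hδ1 hT)
  rw [hal, ← W2A_cons] at h5
  rw [← hL9] at h1 h2 ⊢
  obtain ⟨D, hD⟩ : ∃ D, D = DS alA (qP p) (fun i => ⌊P.1 ^ (![1, (1 - δ)/4, (1 - δ)/2] : Fin 3 → ℝ) i⌋₊) := ⟨_, rfl⟩
  rw [← hD] at h2
  obtain ⟨S, hS⟩ : ∃ S, S = cS p * TS ![1/8, 3/8] (qP p) (fun i => ⌊P.1 ^ (![(1 - δ)/4, (1 - δ)/2] : Fin 2 → ℝ) i⌋₊) P.1 :=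
    ⟨_, rfl⟩
  rw [← hS] at h1
  have h5' : |S - 2 * D| ≤ C * (Real.log P.1) ^ (5/4 : ℝ) := by
    rw [hS, hD]
    exact h5
  have h6 : 2 * D - C * (Real.log P.1) ^ (5/4 : ℝ) ≤ S := by
    have := (abs_le.mp h5').1
    linarith
  have h7 : (Real.log P.1) ^ (5/4 : ℝ) * Real.log P.1 = L9 := by
    rw [hL9]
    nth_rewrite 2 [← Real.rpow_one (Real.log P.1)]
    rw [← Real.rpow_add hL]
    norm_num
  have h54 : 0 ≤ (Real.log P.1) ^ (5/4 : ℝ) := by positivity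
  have h8 : C * (Real.log P.1) ^ (5/4 : ℝ) * I0 ≤ ε / 3 * L9 := by
    calc C * (Real.log P.1) ^ (5/4 : ℝ) * I0 = (Real.log P.1) ^ (5/4 : ℝ) * (C * I0) := by ring
      _ ≤ (Real.log P.1) ^ (5/4 : ℝ) * (ε / 3 * Real.log P.1) := mul_le_mul_of_nonneg_left h4 h54
      _ = ε / 3 * ((Real.log P.1) ^ (5/4 : ℝ) * Real.log P.1) := by ring
      _ = ε / 3 * L9 := by rw [h7]
  obtain ⟨X, hX⟩ : ∃ X, X = ∫ t in win P.2, ‖riemannZeta (crit t)‖ ^ 2 *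
      (TR (1/8) (qP p) ⌊P.1 ^ ((1 - δ)/4)⌋₊ t * TR (3/8) (qP p) ⌊P.1 ^ ((1 - δ)/2)⌋₊ t) *
        g (xt p t) ∂(gaussianReal P.2 (vw P.1)) := ⟨_, rfl⟩
  rw [← hX] at h1 ⊢
  rw [lt_div_iff₀ hL90] at h1
  have h9 : (2 * (c * a * L9) - C * (Real.log P.1) ^ (5/4 : ℝ)) * I0 ≤ S * I0 := by
    apply mul_le_mul_of_nonneg_right _ hI
    linarith
  have h10 : 2 * (c * a * L9) * I0 = (2533/10000 * a * I0) * L9 - 2 * (ε / (6 * (a * I0 + 1))) * (a * I0) * L9 := by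
    rw [hc]
    ring
  have h11 : 2 * (ε / (6 * (a * I0 + 1))) * (a * I0) ≤ ε / 3 := by
    have h12 : 0 < a * I0 + 1 := by linarith
    have h13 : 2 * (ε / (6 * (a * I0 + 1))) * (a * I0) = ε / 3 * ((a * I0) / (a * I0 + 1)) := by
      field_simp
      ring
    rw [h13]
    have h14 : (a * I0) / (a * I0 + 1) ≤ 1 := by
      rw [div_le_one h12]
      linarith
    calc ε / 3 * ((a * I0) / (a * I0 + 1)) ≤ ε / 3 * 1 := mul_le_mul_of_nonneg_left h14 hε3.le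
      _ = ε / 3 := mul_one _
  have h15 : 2 * (ε / (6 * (a * I0 + 1))) * (a * I0) * L9 ≤ ε / 3 * L9 := mul_le_mul_of_nonneg_right h11 hL90.le
  have h16 : (2 * (c * a * L9) - C * (Real.log P.1) ^ (5/4 : ℝ)) * I0 =
      2 * (c * a * L9) * I0 - C * (Real.log P.1) ^ (5/4 : ℝ) * I0 := by ring
  have h17 : (2533/10000 * a * I0 - ε) * L9 = (2533/10000 * a * I0) * L9 - ε * L9 := by ring
  rw [h17]
  linarith

end Pool.Agent.LibOH30
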