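import Pool.Agent.LibOH30.W2

set_option autoImplicit false

namespace Pool.Agent.LibOH30

open MeasureTheory Set Filter Topology Complex ProbabilityTheory
open scoped NNReal ENNReal ComplexConjugate
open Pool.Agent.LibZM Pool.Agent.LibM3 Pool.Agent.LibLaw15

/-! ROW W3 (SHORT). From the windows to `[0, T]`: copy the lower part of `LibLaw15.law15_main` (LibLaw15/Z.lean). -/

theorem oh30_main {r : ℕ} {p : Fin r → ℕ} (hp : ∀ i, (p i).Prime) (hinj : Function.Injective p)
    {w : Tor r → ℝ} (hw : Continuous w) (hw0 : ∀ x, 0 ≤ w x) {ε : ℝ} (hε : 0 < ε) : ∀ᶠ T : ℝ in atTop,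
      (2/5 * TM p w - ε) * (T * La3 T) ≤ ∫ t in Icc 0 T, ‖riemannZeta (crit t)‖ ^ 3 * w (xt p t) := by
  have hfc : Continuous fun t => ‖riemannZeta (crit t)‖ ^ 3 * w (xt p t) :=
    (continuous_zeta_crit.norm.pow 3).mul (hw.comp (xt_continuous p))
  have hf0 : ∀ t, 0 ≤ ‖riemannZeta (crit t)‖ ^ 3 * w (xt p t) := fun t => mul_nonneg (by positivity) (hw0 _)
  have hI0 := u1_TM_nonneg hp hw0
  have hCI := f3_CI_nonneg
  rcases le_or_gt (2/5 * TM p w - ε) 0 with hneg | hpos
  · filter_upwards [eventually_gt_atTop 1] with T hT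
    refine le_trans ?_ (integral_nonneg hf0)
    apply mul_nonpos_of_nonpos_of_nonneg hneg
    have := La3_pos hT
    positivity
  · have hup : ∀ᶠ T : ℝ in atTop, ∫ t in Icc 0 T, ‖riemannZeta (crit t)‖ ^ 3 * w (xt p t) ≤ (2 * CI * TM p w + ε) * (T * La3 T) := by
      filter_upwards [law15_main hp hinj hw hw0 hε] with T hT
      exact hT.2
    exact transfer_lower hfc hf0 (B := 2 * CI * TM p w + ε) (by positivity) hup (c := 2/5 * TM p w - ε)
      (c₁ := 2/5 * TM p w - ε / 2) hpos (by linarith) (fun η hη => window_lower3 hη hp hinj hw hw0 (half_pos hε))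

end Pool.Agent.LibOH30
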